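import Pool.Agent.Helper7_GA.Stm2

set_option autoImplicit false

open scoped Matrix.Norms.L2Operator ENNReal Matrix ComplexOrder
open Pool.Agent.W659.EC Pool.Agent.Helper7_ND

noncomputable section

namespace Pool.Agent.Helper7_GA.G_ARU

/-- a complex matrix with nonnegative quadratic form is of the form `Pᴴ * P` -/
theorem exists_gram {I : Type} [Fintype I] [DecidableEq I] (P : Matrix I I ℂ)
    (h : ∀ v : I → ℂ, ∃ t : ℝ, 0 ≤ t ∧ ∑ p, ∑ q, star (v p) * v q * P p q = t) :
    ∃ Q : Matrix I I ℂ, P = Qᴴ * Q := by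
  have hs : P.PosSemidef := by
    rw [← Matrix.isPositive_toEuclideanLin_iff, LinearMap.isPositive_iff_complex]
    intro x
    obtain ⟨t, ht, hv⟩ := h (WithLp.ofLp x)
    have key : inner ℂ (P.toEuclideanLin x) x = (t : ℂ) := by
      have h1 : inner ℂ (P.toEuclideanLin x) x
          = star (∑ p, ∑ q, star (WithLp.ofLp x p) * WithLp.ofLp x q * P p q) := by
        rw [EuclideanSpace.inner_eq_star_dotProduct, Matrix.ofLp_toLpLin, Matrix.toLin'_apply]
        simp only [dotProduct, Matrix.mulVec, Pi.star_apply, star_sum, star_mul', star_star,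
          Finset.mul_sum]
        refine Finset.sum_congr rfl fun p _ => Finset.sum_congr rfl fun q _ => ?_
        ring
      rw [h1, hv]
      simp
    rw [key]
    simp [ht]
  open scoped MatrixOrder in
  obtain ⟨a, ha⟩ := CStarAlgebra.nonneg_iff_eq_star_mul_self.mp hs.nonneg
  exact ⟨a, ha⟩

/-- a completely positive map into a full matrix algebra defines a positive functional -/
theorem pos_fun {C : Type} [CStarAlgebra C] {n : Type} [Fintype n] [DecidableEq n]
    {ψ : C →ₗ[ℂ] Matrix n n ℂ} (h : IsCP ψ) (Y : Matrix n n C) :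
    ∃ t : ℝ, 0 ≤ t ∧ ∑ i, ∑ j, ψ ((Yᴴ * Y) i j) i j = t := by
  let e := Fintype.equivFin n
  obtain ⟨N, hN⟩ := h (Fintype.card n) (Matrix.of fun a b => Y (e.symm a) (e.symm b))
  refine ⟨∑ r, ∑ t, ‖∑ i, N r (e i) t i‖ ^ 2, by positivity, ?_⟩
  have h1 : ∀ i j, ψ ((Yᴴ * Y) i j) = ∑ r, star (N r (e i)) * N r (e j) := by
    intro i j
    have h2 := congrFun (congrFun hN (e i)) (e j)
    rw [Matrix.map_apply, Matrix.mul_apply, Matrix.mul_apply] at h2
    simp only [Matrix.conjTranspose_apply] at h2
    rw [← h2, Matrix.mul_apply]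
    congr 1
    rw [← e.symm.sum_comp]
    refine Finset.sum_congr rfl fun r _ => ?_
    simp [Matrix.conjTranspose_apply]
  simp only [h1]
  simp only [Matrix.sum_apply, Matrix.mul_apply, Matrix.star_apply]
  push_cast
  have h3 : ∀ r : Fin (Fintype.card n), ∀ t : n, ((‖∑ i, N r (e i) t i‖ : ℝ) : ℂ) ^ 2
      = ∑ i, ∑ j, star (N r (e i) t i) * N r (e j) t j := by
    intro r t
    rw [← Complex.conj_mul', ← Finset.sum_mul_sum]
    congr 1
    rw [map_sum]
    rfl
  simp only [h3]
  calc ∑ i, ∑ j, ∑ r, ∑ t, star (N r (e i) t i) * N r (e j) t j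
      = ∑ i, ∑ r, ∑ t, ∑ j, star (N r (e i) t i) * N r (e j) t j := by
        refine Finset.sum_congr rfl fun i _ => ?_
        rw [Finset.sum_comm]
        refine Finset.sum_congr rfl fun r _ => ?_
        rw [Finset.sum_comm]
    _ = ∑ r, ∑ t, ∑ i, ∑ j, star (N r (e i) t i) * N r (e j) t j := by
        rw [Finset.sum_comm]
        refine Finset.sum_congr rfl fun r _ => ?_
        rw [Finset.sum_comm]

/-- the entrywise map, as a unital *-homomorphism between matrix algebras -/
def ent {C D : Type} [CStarAlgebra C] [CStarAlgebra D] (γ : C →⋆ₐ[ℂ] D) (n : Type) [Fintype n]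
    [DecidableEq n] : CStarMatrix n n C →⋆ₐ[ℂ] CStarMatrix n n D where
  toFun := fun X => CStarMatrix.ofMatrix (fun i j => γ (X i j))
  map_one' := by
    ext i j
    change γ ((1 : CStarMatrix n n C) i j) = (1 : CStarMatrix n n D) i j
    rw [CStarMatrix.one_apply, CStarMatrix.one_apply]
    split_ifs <;> simp
  map_zero' := by
    ext i j
    change γ ((0 : CStarMatrix n n C) i j) = (0 : CStarMatrix n n D) i j
    rw [CStarMatrix.zero_apply, CStarMatrix.zero_apply, map_zero]
  map_mul' := fun X Y => by
    ext i j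
    change γ ((X * Y) i j) = _
    rw [CStarMatrix.mul_apply, CStarMatrix.mul_apply, map_sum]
    refine Finset.sum_congr rfl fun r _ => ?_
    rw [map_mul]
    rfl
  map_add' := fun X Y => by
    ext i j
    change γ ((X + Y) i j) = γ (X i j) + γ (Y i j)
    rw [CStarMatrix.add_apply, map_add]
  map_star' := fun X => by
    ext i j
    change γ ((star X) i j) = star (γ (X j i))
    rw [CStarMatrix.star_apply, map_star]
  commutes' := fun r => by
    ext i j
    change γ ((algebraMap ℂ (CStarMatrix n n C) r) i j) = _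
    rw [CStarMatrix.algebraMap_apply, CStarMatrix.algebraMap_apply]
    split_ifs
    · exact AlgHomClass.commutes γ r
    · exact map_zero γ

theorem ent_apply {C D : Type} [CStarAlgebra C] [CStarAlgebra D] (γ : C →⋆ₐ[ℂ] D) (n : Type)
    [Fintype n] [DecidableEq n] (X : CStarMatrix n n C) (i j : n) :
    ent γ n X i j = γ (X i j) := rfl

/-- the matrix unit with entry `d`, linearly in `d` -/
def sgl {D : Type} [CStarAlgebra D] {n : Type} [Fintype n] [DecidableEq n] (i j : n) :
    D →ₗ[ℂ] CStarMatrix n n D where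
  toFun d := CStarMatrix.ofMatrix (Matrix.single i j d)
  map_add' a b := by
    rw [Matrix.single_add]
    rfl
  map_smul' c a := by
    rw [← Matrix.smul_single]
    rfl

theorem sgl_apply {D : Type} [CStarAlgebra D] {n : Type} [Fintype n] [DecidableEq n]
    (i j : n) (d : D) (r s : n) : sgl i j d r s = if i = r ∧ j = s then d else 0 := by
  change Matrix.single i j d r s = _
  rw [Matrix.single_apply]

theorem sum_entry {D I : Type} [CStarAlgebra D] {n : Type} (s : Finset I)
    (X : I → CStarMatrix n n D) (i j : n) : (∑ p ∈ s, X p) i j = ∑ p ∈ s, X p i j := by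
  classical
  induction s using Finset.induction_on with
  | empty =>
    rw [Finset.sum_empty, Finset.sum_empty]
    rfl
  | insert p s hp ih => rw [Finset.sum_insert hp, Finset.sum_insert hp, CStarMatrix.add_apply, ih]

/-- the matrix with entries `w_i^* w_j`, where `w_i = ∑_b v_{b i} m_b` -/
theorem row_sum {D : Type} [CStarAlgebra D] {k : ℕ} {n : Type} [Fintype n] [DecidableEq n]
    (v : Fin k × n → ℂ) (m : Fin k → D) (r0 : n) :
    ∑ p : Fin k × n, ∑ q : Fin k × n, (star (v p) * v q) • sgl p.2 q.2 (star (m p.1) * m q.1)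
      = star (CStarMatrix.ofMatrix (fun r j => if r = r0 then ∑ b : Fin k, v (b, j) • m b else 0))
        * (CStarMatrix.ofMatrix (fun r j => if r = r0 then ∑ b : Fin k, v (b, j) • m b else 0)
          : CStarMatrix n n D) := by
  ext i j
  rw [CStarMatrix.mul_apply]
  simp only [sum_entry, CStarMatrix.smul_apply, sgl_apply, CStarMatrix.star_apply]
  rw [Finset.sum_eq_single r0]
  · have e : ∀ j, (CStarMatrix.ofMatrix (fun r j => if r = r0 then ∑ b : Fin k, v (b, j) • m b
        else 0) : CStarMatrix n n D) r0 j = ∑ b : Fin k, v (b, j) • m b := by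
      intro j
      change (if r0 = r0 then ∑ b : Fin k, v (b, j) • m b else 0) = _
      rw [if_pos rfl]
    rw [e, e, star_sum, Finset.sum_mul_sum]
    simp only [Fintype.sum_prod_type]
    refine Finset.sum_congr rfl fun a _ => ?_
    rw [Finset.sum_eq_single i]
    · refine Finset.sum_congr rfl fun b _ => ?_
      rw [Finset.sum_eq_single j]
      · simp only [and_self, if_true, star_smul]
        rw [smul_mul_smul_comm]
      · intro s _ hs
        rw [if_neg (by tauto), smul_zero]
      · simp
    · intro s _ hs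
      refine Finset.sum_eq_zero fun b _ => Finset.sum_eq_zero fun t _ => ?_
      rw [if_neg (by tauto), smul_zero]
    · simp
  · intro r _ hr
    have e : (CStarMatrix.ofMatrix (fun r j => if r = r0 then ∑ b : Fin k, v (b, j) • m b
        else 0) : CStarMatrix n n D) r j = 0 := by
      change (if r = r0 then ∑ b : Fin k, v (b, j) • m b else 0) = _
      rw [if_neg hr]
    rw [e, mul_zero]
  · simp

/-- the matrix case -/
theorem mat_case (hEXT : StEXT) {C D : Type} [CStarAlgebra C] [CStarAlgebra D]
    (γ : C →⋆ₐ[ℂ] D) (hγ : Function.Injective γ) {n : Type} [Fintype n] [DecidableEq n]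
    (ψ : C →ₗ[ℂ] Matrix n n ℂ) (hψ : IsCP ψ) :
    ∃ Ψ : D →ₗ[ℂ] Matrix n n ℂ, IsCP Ψ ∧ ∀ c, Ψ (γ c) = ψ c := by
  let _ := CStarAlgebra.spectralOrder C
  let _ := CStarAlgebra.spectralOrderedRing C
  let _ := CStarAlgebra.spectralOrder D
  let _ := CStarAlgebra.spectralOrderedRing D
  let f : CStarMatrix n n C →ₗ[ℂ] ℂ :=
    { toFun := fun X => ∑ i, ∑ j, ψ (X i j) i j
      map_add' := fun X Y => by
        simp [Finset.sum_add_distrib]
      map_smul' := fun c X => by
        simp [Finset.mul_sum] }
  have hf : ∀ X, f X = ∑ i, ∑ j, ψ (X i j) i j := fun X => rfl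
  obtain ⟨g, hg, hgf⟩ := hEXT (CStarMatrix n n C) (CStarMatrix n n D) (ent γ n)
    (by
      intro X Y hXY
      ext i j
      apply hγ
      have h1 := congrFun (congrFun hXY i) j
      exact h1) f
    (by
      intro Y
      exact pos_fun hψ Y)
  let Ψ : D →ₗ[ℂ] Matrix n n ℂ :=
    { toFun := fun d => Matrix.of fun i j => g (sgl i j d)
      map_add' := fun a b => by
        ext i j
        simp
      map_smul' := fun c a => by
        ext i j
        simp }
  have hΨ : ∀ d i j, Ψ d i j = g (sgl i j d) := fun d i j => rfl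
  refine ⟨Ψ, ?_, ?_⟩
  · intro k M
    obtain ⟨Q, hQ⟩ := exists_gram
      (Matrix.of fun p q : Fin k × n => Ψ ((Mᴴ * M) p.1 q.1) p.2 q.2) (by
        intro v
        rcases isEmpty_or_nonempty n with hn | ⟨⟨r0⟩⟩
        · exact ⟨0, le_refl _, by simp⟩
        · have hW : ∀ m : Fin k, ∃ t : ℝ, 0 ≤ t ∧
              ∑ p : Fin k × n, ∑ q : Fin k × n,
                star (v p) * v q * g (sgl p.2 q.2 (star (M m p.1) * M m q.1)) = t := by
            intro m
            obtain ⟨t, ht, h1⟩ := hg (CStarMatrix.ofMatrix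
              (fun r j => if r = r0 then ∑ b : Fin k, v (b, j) • M m b else 0))
            refine ⟨t, ht, ?_⟩
            rw [← h1, ← row_sum, map_sum]
            refine Finset.sum_congr rfl fun p _ => ?_
            rw [map_sum]
            refine Finset.sum_congr rfl fun q _ => ?_
            rw [map_smul, smul_eq_mul]
          choose t ht hs using hW
          refine ⟨∑ m, t m, Finset.sum_nonneg fun m _ => ht m, ?_⟩
          rw [Complex.ofReal_sum]
          simp only [← hs]
          symm
          rw [Finset.sum_comm]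
          refine Finset.sum_congr rfl fun p _ => ?_
          rw [Finset.sum_comm]
          refine Finset.sum_congr rfl fun q _ => ?_
          rw [Matrix.of_apply, hΨ, Matrix.mul_apply, map_sum, map_sum, Finset.mul_sum]
          rfl)
    refine ⟨Matrix.of fun a b => Matrix.of fun i j => Q (a, i) (b, j), ?_⟩
    ext a b i j
    have h1 := congrFun (congrFun hQ (a, i)) (b, j)
    rw [Matrix.of_apply] at h1
    rw [Matrix.map_apply, h1, Matrix.mul_apply, Matrix.mul_apply, Matrix.sum_apply,
      Fintype.sum_prod_type]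
    refine Finset.sum_congr rfl fun c _ => ?_
    rw [Matrix.mul_apply]
    rfl
  · intro c
    ext i j
    rw [hΨ]
    have h1 : (sgl i j (γ c) : CStarMatrix n n D) = ent γ n (sgl i j c) := by
      ext r s
      rw [ent_apply, sgl_apply, sgl_apply]
      split_ifs <;> simp
    rw [h1, hgf, hf]
    have h2 : ∀ r s : n, ψ ((sgl i j c : CStarMatrix n n C) r s) r s
        = if i = r then (if j = s then ψ c r s else 0) else 0 := by
      intro r s
      rw [sgl_apply]
      split_ifs with h3 h4 h5 <;> simp_all
    simp only [h2]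
    simp

theorem t_ARU (hEXT : StEXT) : StARU := by
  intro C D _ _ γ hγ F ψ hψ
  have h1 : ∀ l : F.ι, IsCP ((LinearMap.proj l : F.alg →ₗ[ℂ] Matrix (F.n l) (F.n l) ℂ) ∘ₗ ψ) := by
    intro l k M
    obtain ⟨N, hN⟩ := hψ k M
    refine ⟨Matrix.of fun a b => N a b l, ?_⟩
    refine Matrix.ext fun a b => ?_
    have h2 := congrFun (congrFun (congrFun hN a) b) l
    rw [Matrix.mul_apply, Finset.sum_apply] at h2
    rw [Matrix.mul_apply]
    exact h2
  have h2 := fun l : F.ι => mat_case hEXT γ hγ _ (h1 l)
  choose Ψ hΨ hγΨ using h2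
  refine ⟨LinearMap.pi Ψ, ?_, ?_⟩
  · intro k M
    choose N hN using fun l : F.ι => hΨ l k M
    refine ⟨Matrix.of fun a b l => N l a b, ?_⟩
    refine Matrix.ext fun a b => ?_
    funext l
    have h3 := congrFun (congrFun (hN l) a) b
    rw [Matrix.mul_apply] at h3
    rw [Matrix.mul_apply, Finset.sum_apply]
    exact h3
  · intro c
    funext l
    exact hγΨ l c

end Pool.Agent.Helper7_GA.G_ARU
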