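import Pool.Agent.Helper7_GA.Stm2

set_option autoImplicit false

open scoped Matrix.Norms.L2Operator ENNReal Matrix
open Pool.Agent.W659.EC Pool.Agent.Helper7_ND

noncomputable section

namespace Pool.Agent.Helper7_GA.G_ARW

theorem t_ARV (hUNI : StUNI) (hARU : StARU) : StARV := by
  intro B A _ _ β hβ F ψ hψ
  obtain ⟨ψ1, h1, h2, h3⟩ := hUNI B F ψ hψ
  obtain ⟨Ψ1, h4, h5⟩ := hARU (Unitization ℂ B) (Unitization ℂ A) (Unitization.starMap β)
    (Unitization.starMap_injective hβ) F ψ1 h1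
  have hone : Ψ1 1 = 1 := by
    have := h5 1
    rwa [map_one, h2] at this
  let ι : A →ₗ[ℂ] Unitization ℂ A :=
    { toFun := fun a => (a : Unitization ℂ A)
      map_add' := fun a b => Unitization.inr_add ℂ a b
      map_smul' := fun c a => Unitization.inr_smul ℂ c a }
  have hι : IsCP ι := isCP_hom (Unitization.inrNonUnitalStarAlgHom ℂ A) ι (fun a => rfl)
  have hn : ‖Ψ1 1‖ ≤ 1 := by
    rw [hone]
    have h6 : ‖star (1 : F.alg) * 1‖ = ‖(1 : F.alg)‖ * ‖(1 : F.alg)‖ :=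
      CStarRing.norm_star_mul_self
    rw [star_one, one_mul] at h6
    nlinarith [norm_nonneg (1 : F.alg), sq_nonneg (‖(1 : F.alg)‖ - 1)]
  have hc := h4.isCPC hn
  refine ⟨Ψ1 ∘ₗ ι, ⟨h4.comp hι, fun a => ?_⟩, fun b => ?_⟩
  · refine (hc.2 _).trans (le_of_eq ?_)
    exact Unitization.norm_inr a
  · have h7 := h5 (b : Unitization ℂ B)
    rw [Unitization.starMap_inr, h3] at h7
    exact h7

end Pool.Agent.Helper7_GA.G_ARW
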