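import Pool.Agent.Helper7_GA.Stm2

set_option autoImplicit false

open scoped Matrix.Norms.L2Operator ENNReal Matrix
open Pool.Agent.W659.EC Pool.Agent.Helper7_ND

noncomputable section

namespace Pool.Agent.Helper7_GA.G_EXT

section bound

open scoped ComplexOrder InnerProductSpace

/-- a positive functional is bounded by its value at one -/
theorem bound {C : Type} [CStarAlgebra C] (f : C →ₗ[ℂ] ℂ)
    (hf : ∀ c : C, ∃ t : ℝ, 0 ≤ t ∧ f (star c * c) = t) (r : ℝ) (hr : f 1 = r) (c : C) :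
    ‖f c‖ ≤ r * ‖c‖ := by
  let _ := CStarAlgebra.spectralOrder C
  let _ := CStarAlgebra.spectralOrderedRing C
  have hpos : ∀ x : C, 0 ≤ x → 0 ≤ f x := by
    intro x hx
    obtain ⟨y, rfl⟩ := CStarAlgebra.nonneg_iff_eq_star_mul_self.1 hx
    obtain ⟨t, ht, h⟩ := hf y
    rw [h]
    exact_mod_cast ht
  let F : C →ₚ[ℂ] ℂ := PositiveLinearMap.mk₀ f hpos
  have hF : ∀ x, F x = f x := fun x => rfl
  have h1 : ⟪F.toPreGNS 1, F.leftMulMapPreGNS c (F.toPreGNS 1)⟫_ℂ = f c := by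
    rw [PositiveLinearMap.preGNS_inner_def]
    simp [hF]
  have h2 : ‖F.toPreGNS (1 : C)‖ ^ 2 = r := by
    have h3 := PositiveLinearMap.preGNS_norm_sq F (F.toPreGNS 1)
    rw [PositiveLinearMap.ofPreGNS_toPreGNS, star_one, one_mul, hF, hr] at h3
    exact_mod_cast h3
  have h4 : ‖F.leftMulMapPreGNS c‖ ≤ ‖c‖ := LinearMap.mkContinuous_norm_le _ (norm_nonneg _) _
  rw [← h1]
  calc ‖⟪F.toPreGNS 1, F.leftMulMapPreGNS c (F.toPreGNS 1)⟫_ℂ‖
      ≤ ‖F.toPreGNS (1 : C)‖ * ‖F.leftMulMapPreGNS c (F.toPreGNS 1)‖ := norm_inner_le_norm _ _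
    _ ≤ ‖F.toPreGNS (1 : C)‖ * (‖c‖ * ‖F.toPreGNS (1 : C)‖) := by
        gcongr
        exact (F.leftMulMapPreGNS c).le_of_opNorm_le h4 _
    _ = ‖F.toPreGNS (1 : C)‖ ^ 2 * ‖c‖ := by ring
    _ = r * ‖c‖ := by rw [h2]

end bound

/-- a functional bounded by its value at one is positive -/
theorem posi {D : Type} [CStarAlgebra D] (g : D →ₗ[ℂ] ℂ) (r : ℝ) (hr0 : 0 ≤ r) (hr : g 1 = r)
    (hg : ∀ d, ‖g d‖ ≤ r * ‖d‖) (d : D) : ∃ t : ℝ, 0 ≤ t ∧ g (star d * d) = t := by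
  rcases subsingleton_or_nontrivial D with hD | hD
  · refine ⟨0, le_rfl, ?_⟩
    rw [Subsingleton.elim (star d * d) 0, map_zero]
    simp
  let _ := CStarAlgebra.spectralOrder D
  let _ := CStarAlgebra.spectralOrderedRing D
  obtain ⟨a, ha⟩ : ∃ a, a = star d * d := ⟨_, rfl⟩
  rw [← ha]
  have ha0 : 0 ≤ a := by
    rw [ha]
    exact star_mul_self_nonneg d
  have hsa : star a = a := (IsSelfAdjoint.of_nonneg ha0).star_eq
  have hM : ‖(algebraMap ℝ D ‖a‖) - a‖ ≤ ‖a‖ := by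
    have h1 : 0 ≤ algebraMap ℝ D ‖a‖ - a :=
      sub_nonneg.2 (IsSelfAdjoint.le_algebraMap_norm_self (IsSelfAdjoint.of_nonneg ha0))
    have h2 : algebraMap ℝ D ‖a‖ - a ≤ algebraMap ℝ D ‖a‖ := sub_le_self _ ha0
    have h3 := CStarAlgebra.norm_le_norm_of_nonneg_of_le h1 h2
    rw [norm_algebraMap, CStarRing.norm_one, mul_one, norm_norm] at h3
    exact h3
  have hval : g (algebraMap ℝ D ‖a‖ - a) = (r * ‖a‖ : ℝ) - g a := by
    rw [map_sub, Algebra.algebraMap_eq_smul_one, ← Complex.coe_smul, map_smul, hr]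
    push_cast
    rw [smul_eq_mul, mul_comm]
  have hb := (hg (algebraMap ℝ D ‖a‖ - a)).trans (mul_le_mul_of_nonneg_left hM hr0)
  rw [hval] at hb
  -- the imaginary part
  have key : ∀ t : ℝ, (g a).re ^ 2 + ((g a).im + t * r) ^ 2 ≤ r ^ 2 * (‖a‖ ^ 2 + t ^ 2) := by
    intro t
    have h1 : ‖a + (Complex.I * t) • (1 : D)‖ ^ 2 ≤ ‖a‖ ^ 2 + t ^ 2 := by
      rw [_root_.sq, ← CStarRing.norm_star_mul_self]
      have h2 : star (a + (Complex.I * t) • (1 : D)) * (a + (Complex.I * t) • (1 : D)) =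
          a * a + ((t ^ 2 : ℝ) : ℂ) • (1 : D) := by
        rw [star_add, star_smul, star_one, hsa, add_mul, mul_add, mul_add, smul_mul_assoc,
          smul_mul_assoc, one_mul, one_mul, mul_smul_comm, mul_one, smul_smul, add_assoc]
        congr 1
        have e1 : star (Complex.I * (t : ℂ)) = -(Complex.I * t) := by
          simp
        have e2 : -(Complex.I * (t : ℂ)) * (Complex.I * t) = ((t ^ 2 : ℝ) : ℂ) := by
          push_cast
          linear_combination (-(t : ℂ) ^ 2) * Complex.I_mul_I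
        rw [e1, e2, neg_smul]
        abel
      rw [h2]
      refine (norm_add_le _ _).trans ?_
      refine add_le_add ?_ ?_
      · exact (norm_mul_le _ _).trans (by rw [_root_.sq])
      · rw [norm_smul, CStarRing.norm_one, mul_one, Complex.norm_real, Real.norm_eq_abs,
          abs_of_nonneg (sq_nonneg t)]
    have h3 : g (a + (Complex.I * t) • (1 : D)) = ⟨(g a).re, (g a).im + t * r⟩ := by
      rw [map_add, map_smul, hr]
      apply Complex.ext <;> simp
    have h4 := hg (a + (Complex.I * t) • (1 : D))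
    rw [h3] at h4
    have h5 : ‖(⟨(g a).re, (g a).im + t * r⟩ : ℂ)‖ ^ 2 =
        (g a).re ^ 2 + ((g a).im + t * r) ^ 2 := by
      rw [← Complex.normSq_eq_norm_sq, Complex.normSq_mk]
      ring
    rw [← h5]
    calc ‖(⟨(g a).re, (g a).im + t * r⟩ : ℂ)‖ ^ 2
        ≤ (r * ‖a + (Complex.I * t) • (1 : D)‖) ^ 2 := by gcongr
      _ = r ^ 2 * ‖a + (Complex.I * t) • (1 : D)‖ ^ 2 := by ring
      _ ≤ r ^ 2 * (‖a‖ ^ 2 + t ^ 2) := by gcongr
  have him : (g a).im = 0 := by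
    by_contra hne
    rcases eq_or_lt_of_le hr0 with h0 | h0
    · have h1 := key 0
      rw [← h0] at h1
      have h2 : 0 < (g a).im ^ 2 := by positivity
      nlinarith [sq_nonneg (g a).re]
    · have h1 := key ((r ^ 2 * ‖a‖ ^ 2 + 1) / (2 * r * (g a).im))
      have h2 : 2 * ((r ^ 2 * ‖a‖ ^ 2 + 1) / (2 * r * (g a).im)) * r * (g a).im =
          r ^ 2 * ‖a‖ ^ 2 + 1 := by
        field_simp
      nlinarith [sq_nonneg (g a).re, sq_nonneg (g a).im]
  refine ⟨(g a).re, ?_, ?_⟩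
  · have h1 := (Complex.abs_re_le_norm _).trans hb
    rw [Complex.sub_re, Complex.ofReal_re] at h1
    have h2 := (abs_le.1 h1).2
    linarith
  · apply Complex.ext
    · simp
    · simp [him]

theorem t_EXT : StEXT := by
  intro C D _ _ γ hγ f hf
  obtain ⟨r, hr0, hr⟩ := hf 1
  rw [star_one, one_mul] at hr
  have hb := bound f hf r hr
  let e : C ≃ₗ[ℂ] LinearMap.range (γ : C →ₗ[ℂ] D) :=
    LinearEquiv.ofInjective (γ : C →ₗ[ℂ] D) hγ
  have hnorm : ∀ x : LinearMap.range (γ : C →ₗ[ℂ] D), ‖e.symm x‖ = ‖x‖ := by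
    intro x
    obtain ⟨c, rfl⟩ := e.surjective x
    rw [LinearEquiv.symm_apply_apply]
    have h1 : ‖γ c‖ = ‖c‖ := NonUnitalStarAlgHom.norm_map γ hγ c
    exact h1.symm
  let f' : LinearMap.range (γ : C →ₗ[ℂ] D) →L[ℂ] ℂ :=
    (f ∘ₗ e.symm.toLinearMap).mkContinuous r (fun x => by
      have := hb (e.symm x)
      rw [hnorm] at this
      exact this)
  have hf' : ‖f'‖ ≤ r := LinearMap.mkContinuous_norm_le _ hr0 _
  obtain ⟨g, hg1, hg2⟩ := exists_extension_norm_eq _ f'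
  have hgγ : ∀ c, g (γ c) = f c := by
    intro c
    have h1 := hg1 (e c)
    have h2 : f' (e c) = f c := by
      change f (e.symm (e c)) = f c
      rw [LinearEquiv.symm_apply_apply]
    rw [h2] at h1
    exact h1
  refine ⟨(g : D →ₗ[ℂ] ℂ), ?_, hgγ⟩
  apply posi (g : D →ₗ[ℂ] ℂ) r hr0
  · have := hgγ 1
    rw [map_one, hr] at this
    exact this
  · intro d
    refine (g.le_opNorm d).trans ?_
    rw [hg2]
    gcongr

end Pool.Agent.Helper7_GA.G_EXT
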