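import Pool.Agent.Helper7_GA.Stm

set_option autoImplicit false

open scoped Matrix.Norms.L2Operator ENNReal Matrix
open Pool.Agent.W659.EC Pool.Agent.Helper7_ND

noncomputable section

namespace Pool.Agent.Helper7_GA.G_LF

section

variable {A : Type} [NonUnitalCStarAlgebra A] {E : Gr} (p : E.V → A) (S : E.Ed → A) (R : Set A)

/-- the star subalgebra generated by `R` and finitely many generators -/
def U (V0 : Finset E.V) (E0 : Finset E.Ed) : NonUnitalStarSubalgebra ℂ A :=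
  NonUnitalStarAlgebra.adjoin ℂ (R ∪ (p '' (V0 : Set E.V) ∪ S '' (E0 : Set E.Ed)))

theorem U_mono {V0 V1 : Finset E.V} {E0 E1 : Finset E.Ed} (hV : V0 ⊆ V1) (hE : E0 ⊆ E1) {x : A}
    (hx : x ∈ U p S R V0 E0) : x ∈ U p S R V1 E1 := by
  refine NonUnitalStarAlgebra.adjoin_mono ?_ hx
  refine Set.union_subset_union_right _ (Set.union_subset_union ?_ ?_)
  · exact Set.image_mono (by exact_mod_cast hV)
  · exact Set.image_mono (by exact_mod_cast hE)

theorem mem_R {V0 : Finset E.V} {E0 : Finset E.Ed} {x : A} (hx : x ∈ R) : x ∈ U p S R V0 E0 :=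
  NonUnitalStarAlgebra.subset_adjoin ℂ _ (Or.inl hx)

theorem mem_p {V0 : Finset E.V} {E0 : Finset E.Ed} {v : E.V} (hv : v ∈ V0) :
    p v ∈ U p S R V0 E0 :=
  NonUnitalStarAlgebra.subset_adjoin ℂ _ (Or.inr (Or.inl ⟨v, by exact_mod_cast hv, rfl⟩))

theorem mem_S {V0 : Finset E.V} {E0 : Finset E.Ed} {e : E.Ed} (he : e ∈ E0) :
    S e ∈ U p S R V0 E0 :=
  NonUnitalStarAlgebra.subset_adjoin ℂ _ (Or.inr (Or.inr ⟨e, by exact_mod_cast he, rfl⟩))

theorem finite_part (y : A) (hy : y ∈ NonUnitalStarAlgebra.adjoin ℂ (Set.range p ∪ Set.range S)) :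
    ∃ (V0 : Finset E.V) (E0 : Finset E.Ed), y ∈ U p S R V0 E0 := by
  classical
  induction hy using NonUnitalStarAlgebra.adjoin_induction with
  | mem x hx =>
    rcases hx with ⟨v, rfl⟩ | ⟨e, rfl⟩
    · exact ⟨{v}, ∅, mem_p p S R (Finset.mem_singleton_self v)⟩
    · exact ⟨∅, {e}, mem_S p S R (Finset.mem_singleton_self e)⟩
  | add x y _ _ h1 h2 =>
    obtain ⟨V1, E1, h1⟩ := h1
    obtain ⟨V2, E2, h2⟩ := h2
    exact ⟨V1 ∪ V2, E1 ∪ E2, add_mem (U_mono p S R Finset.subset_union_left Finset.subset_union_left h1)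
      (U_mono p S R Finset.subset_union_right Finset.subset_union_right h2)⟩
  | zero => exact ⟨∅, ∅, zero_mem _⟩
  | mul x y _ _ h1 h2 =>
    obtain ⟨V1, E1, h1⟩ := h1
    obtain ⟨V2, E2, h2⟩ := h2
    exact ⟨V1 ∪ V2, E1 ∪ E2, mul_mem (U_mono p S R Finset.subset_union_left Finset.subset_union_left h1)
      (U_mono p S R Finset.subset_union_right Finset.subset_union_right h2)⟩
  | smul c x _ h1 =>
    obtain ⟨V1, E1, h1⟩ := h1
    exact ⟨V1, E1, SMulMemClass.smul_mem c h1⟩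
  | star x _ h1 =>
    obtain ⟨V1, E1, h1⟩ := h1
    exact ⟨V1, E1, star_mem h1⟩

end

theorem t_LF : StLF := by
  classical
  intro E A I _ _ p S ι hT hG hI G ε hε
  let R : Set A := Set.range ι
  have hall : ∀ g : A, g ∈ (NonUnitalStarAlgebra.adjoin ℂ
      (Set.range p ∪ Set.range S)).topologicalClosure := by
    intro g
    refine hG _ (NonUnitalStarSubalgebra.isClosed_topologicalClosure _) ?_ g
    exact (NonUnitalStarAlgebra.subset_adjoin ℂ _).trans
      (NonUnitalStarSubalgebra.le_topologicalClosure _)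
  have happ : ∀ g : A, ∃ (V0 : Finset E.V) (E0 : Finset E.Ed), ∃ y ∈ U p S R V0 E0,
      ‖y - g‖ ≤ ε := by
    intro g
    have h1 : g ∈ closure ((NonUnitalStarAlgebra.adjoin ℂ
      (Set.range p ∪ Set.range S) : NonUnitalStarSubalgebra ℂ A) : Set A) := hall g
    obtain ⟨y, hy, hyg⟩ := Metric.mem_closure_iff.1 h1 ε hε
    obtain ⟨V0, E0, hy2⟩ := finite_part p S R y hy
    refine ⟨V0, E0, y, hy2, ?_⟩
    rw [← dist_eq_norm, dist_comm]
    exact hyg.le
  choose Vf Ef yf hy1 hy2 using happ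
  let E0 : Finset E.Ed := G.biUnion Ef
  let V0 : Finset E.V := G.biUnion Vf ∪ (E0.image E.s ∪ E0.image E.r)
  have hs : ∀ e ∈ E0, E.s e ∈ V0 := fun e he =>
    Finset.mem_union_right _ (Finset.mem_union_left _ (Finset.mem_image_of_mem _ he))
  have hr : ∀ e ∈ E0, E.r e ∈ V0 := fun e he =>
    Finset.mem_union_right _ (Finset.mem_union_right _ (Finset.mem_image_of_mem _ he))
  let W : NonUnitalStarSubalgebra ℂ A := U p S R V0 E0
  let T : NonUnitalStarSubalgebra ℂ A := W.topologicalClosure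
  have hTc : IsClosed (T : Set A) := NonUnitalStarSubalgebra.isClosed_topologicalClosure _
  have hWT : ∀ x ∈ W, x ∈ T := fun x hx => NonUnitalStarSubalgebra.le_topologicalClosure W hx
  have hιT : ∀ x, ι x ∈ T := fun x => hWT _ (mem_R p S R ⟨x, rfl⟩)
  have hpT : ∀ v ∈ V0, p v ∈ T := fun v hv => hWT _ (mem_p p S R hv)
  have hST : ∀ e ∈ E0, S e ∈ T := fun e he => hWT _ (mem_S p S R he)
  let β : T →⋆ₙₐ[ℂ] A := NonUnitalStarSubalgebraClass.subtype T
  have hβ : ∀ x : T, β x = (x : A) := fun _ => rfl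
  let κ : I →⋆ₙₐ[ℂ] T := NonUnitalStarAlgHom.codRestrict ι T hιT
  have hκ : ∀ x, ((κ x : T) : A) = ι x := fun _ => rfl
  let F : Gr :=
    { V := V0
      Ed := E0
      s := fun e => ⟨E.s e, hs e e.2⟩
      r := fun e => ⟨E.r e, hr e e.2⟩ }
  refine ⟨T, inferInstance, β, κ, F, fun v => v.1, fun e => e.1, fun v => ⟨p v.1, hpT _ v.2⟩,
    fun e => ⟨S e.1, hST _ e.2⟩, Subtype.val_injective, ⟨?_, ?_, ?_⟩, fun _ => rfl, ?_, ?_,
    Subtype.val_injective, Subtype.val_injective, fun _ => rfl, fun _ => rfl, fun _ => rfl,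
    fun _ => rfl, ?_, ?_⟩
  · intro x y hxy
    exact hI.inj (congrArg (fun z : T => (z : A)) hxy)
  · intro e i
    obtain ⟨i', hi'⟩ := hI.left (e : A) i
    exact ⟨i', Subtype.ext hi'⟩
  · intro e i
    obtain ⟨i', hi'⟩ := hI.right (e : A) i
    exact ⟨i', Subtype.ext hi'⟩
  · exact inferInstanceAs (Finite V0)
  · exact inferInstanceAs (Finite E0)
  · intro C hC hX x
    let C' : NonUnitalStarSubalgebra ℂ A := C.map β
    have hC'c : IsClosed (C' : Set A) := by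
      have h1 : (C' : Set A) = (Subtype.val : T → A) '' (C : Set T) := by
        rw [NonUnitalStarSubalgebra.coe_map]
        rfl
      rw [h1]
      exact hTc.isClosedEmbedding_subtypeVal.isClosedMap _ hC
    have h2 : W ≤ C' := by
      refine NonUnitalStarAlgebra.adjoin_le ?_
      rintro z (⟨i, rfl⟩ | ⟨v, hv, rfl⟩ | ⟨e, he, rfl⟩)
      · exact ⟨κ i, hX (Or.inl ⟨i, rfl⟩), rfl⟩
      · exact ⟨⟨p v, hpT v hv⟩, hX (Or.inr (Or.inl ⟨⟨v, hv⟩, rfl⟩)), rfl⟩
      · exact ⟨⟨S e, hST e he⟩, hX (Or.inr (Or.inr ⟨⟨e, he⟩, rfl⟩)), rfl⟩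
    have h3 : T ≤ C' := NonUnitalStarSubalgebra.topologicalClosure_minimal _ h2 hC'c
    obtain ⟨c, hc, hcx⟩ := h3 x.2
    have : c = x := Subtype.ext hcx
    rwa [← this]
  · intro g hg
    have h1 : yf g ∈ W := U_mono p S R (by
      intro v hv
      exact Finset.mem_union_left _ (Finset.mem_biUnion.2 ⟨g, hg, hv⟩)) (by
      intro e he
      exact Finset.mem_biUnion.2 ⟨g, hg, he⟩) (hy1 g)
    exact ⟨⟨yf g, hWT _ h1⟩, hy2 g⟩

end Pool.Agent.Helper7_GA.G_LF
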