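import Pool.Agent.Helper7_GA.Stm
import Pool.Agent.Helper7_ND.Rp

set_option autoImplicit false

open scoped Matrix.Norms.L2Operator ENNReal Matrix
open Pool.Agent.W659.EC Pool.Agent.Helper7_ND

noncomputable section

namespace Pool.Agent.Helper7_GA.G_LS

theorem oz_comp {A B : Type} [NonUnitalCStarAlgebra A] [NonUnitalCStarAlgebra B]
    (β : B →⋆ₙₐ[ℂ] A) {F : FDA} {φ : F.alg →ₗ[ℂ] B}
    (hφ : IsOrderZero φ) : IsOrderZero ((β : B →ₗ[ℂ] A) ∘ₗ φ) := by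
  intro a b hab
  have h1 := hφ a b hab
  change β (φ (star a * a)) * β (φ (star b * b)) = 0
  rw [← map_mul, h1, map_zero]

theorem t_LS (hARV : StARV) : StLS := by
  classical
  intro A _ J _ hloc G ε hε
  have hJ : (0 : ℝ) < Fintype.card J + 2 := by positivity
  set δ : ℝ := ε / (Fintype.card J + 2) with hδdef
  have hδ : 0 < δ := by positivity
  obtain ⟨B, _, β, hβ, hB, hG⟩ := hloc G δ hδ
  choose! b hb using hG
  obtain ⟨F, ψ, φ, hψ, hφ, hs⟩ := hB (G.image b) δ hδ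
  choose Ψ hΨ hΨe using fun j => hARV B A β hβ (F j) (ψ j) (hψ j)
  refine ⟨F, Ψ, fun j => (β : B →ₗ[ℂ] A) ∘ₗ φ j, hΨ, fun j =>
    ⟨(isCPC_hom β _ fun _ => rfl).comp (hφ j).1, oz_comp β (hφ j).2⟩, ?_⟩
  intro g hg
  have hg' : g ∈ G := Finset.mem_coe.1 hg
  have h1 : ‖∑ j, φ j (ψ j (b g)) - b g‖ ≤ δ :=
    hs (b g) (Finset.mem_coe.2 (Finset.mem_image_of_mem _ hg'))
  have h2 := hb g hg'
  change ‖(∑ j, β (φ j (Ψ j g))) - g‖ ≤ ε
  have h3 : ∀ j, β (φ j (Ψ j g)) = β (φ j (Ψ j (g - β (b g)))) + β (φ j (ψ j (b g))) := by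
    intro j
    rw [← hΨe j (b g), ← map_add, ← map_add, ← map_add, sub_add_cancel]
  have h4 : (∑ j, β (φ j (Ψ j g))) - g = (∑ j, β (φ j (Ψ j (g - β (b g))))) +
      β ((∑ j, φ j (ψ j (b g))) - b g) + (β (b g) - g) := by
    rw [Finset.sum_congr rfl fun j _ => h3 j, Finset.sum_add_distrib, map_sub, map_sum]
    abel
  have h5 : ∀ j, ‖β (φ j (Ψ j (g - β (b g))))‖ ≤ δ := by
    intro j
    rw [hom_norm β hβ]
    refine ((hφ j).1.2 _).trans (((hΨ j).2 _).trans ?_)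
    rw [norm_sub_rev]
    exact h2
  have h6 : ‖∑ j, β (φ j (Ψ j (g - β (b g))))‖ ≤ Fintype.card J * δ := by
    refine (norm_sum_le _ _).trans ?_
    refine (Finset.sum_le_sum fun j _ => h5 j).trans ?_
    rw [Finset.sum_const, Finset.card_univ, nsmul_eq_mul]
  rw [h4]
  refine (norm_add₃_le).trans ?_
  rw [hom_norm β hβ]
  have h7 : (Fintype.card J + 2) * δ = ε := by
    rw [hδdef]
    field_simp
  linarith

end Pool.Agent.Helper7_GA.G_LS
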