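import Pool.Agent.Helper7_GA.Stm

set_option autoImplicit false

open scoped Matrix.Norms.L2Operator ENNReal Matrix
open Pool.Agent.W659.EC Pool.Agent.Helper7_ND

noncomputable section

namespace Pool.Agent.Helper7_GA.G_PU

theorem gel2 (B : Type) [hB : NonUnitalCStarAlgebra B] (hc : ∀ x y : B, x * y = y * x) (w : B)
    (S : Set ℂ) (hS : ∀ χ : B →⋆ₙₐ[ℂ] ℂ, χ w ∈ S) :
    ∃ (X : Type) (ev : X → (B →⋆ₙₐ[ℂ] ℂ)),
      (∀ (b : B) (C : ℝ), (∀ x, ‖ev x b‖ ≤ C) → ‖b‖ ≤ C) ∧
      ∀ g : ℂ → ℂ, ContinuousOn g S → g 0 = 0 → ∃ f : B, ∀ x, ev x f = g (ev x w) := by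
  let iB : NonUnitalCommCStarAlgebra B := { hB with mul_comm := hc }
  let X := WeakDual.characterSpace ℂ (Unitization ℂ B)
  let ev : X → (B →⋆ₙₐ[ℂ] ℂ) := fun x =>
    { toFun := fun b => x (b : Unitization ℂ B)
      map_smul' := fun c b => by rw [Unitization.inr_smul, map_smul]; rfl
      map_zero' := by rw [Unitization.inr_zero, map_zero]
      map_add' := fun a b => by rw [Unitization.inr_add, map_add]
      map_mul' := fun a b => by rw [Unitization.inr_mul, map_mul]
      map_star' := fun a => by rw [Unitization.inr_star, map_star] }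
  have hnorm : ∀ b : B, ‖WeakDual.gelfandTransform ℂ (Unitization ℂ B) (b : Unitization ℂ B)‖ = ‖b‖ := by
    intro b
    have h1 := (gelfandTransform_isometry (Unitization ℂ B)).norm_map_of_map_zero (map_zero _)
      (b : Unitization ℂ B)
    rw [h1, Unitization.norm_inr]
  have hne : Nonempty X := inferInstance
  refine ⟨X, ev, ?_, ?_⟩
  · intro b C h
    rw [← hnorm b]
    rw [ContinuousMap.norm_le_of_nonempty]
    exact fun x => h x
  · intro g hg hg0
    have hcont : Continuous (fun x : X => g (x ((w : B) : Unitization ℂ B))) := by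
      have h1 : Continuous (fun x : X => x ((w : B) : Unitization ℂ B)) :=
        (WeakDual.gelfandTransform ℂ (Unitization ℂ B) (w : Unitization ℂ B)).continuous
      exact hg.comp_continuous h1 (fun x => hS (ev x))
    obtain ⟨u, hu⟩ := (gelfandTransform_bijective (Unitization ℂ B)).2 ⟨_, hcont⟩
    have hu' : ∀ x : X, x u = g (x ((w : B) : Unitization ℂ B)) := by
      intro x
      have := congrArg (fun F : C(X, ℂ) => F x) hu
      exact this
    let x0 : X := WeakDual.CharacterSpace.equivAlgHom.symm (Unitization.fstHom ℂ B)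
    have hx0 : ∀ v : Unitization ℂ B, x0 v = v.fst := fun v => rfl
    have h0 : u.fst = 0 := by
      rw [← hx0, hu' x0, hx0, Unitization.fst_inr, hg0]
    have hu2 : u = ((u.snd : B) : Unitization ℂ B) := by
      ext
      · rw [h0, Unitization.fst_inr]
      · rw [Unitization.snd_inr]
    refine ⟨u.snd, fun x => ?_⟩
    have h3 : ev x u.snd = x ((u.snd : B) : Unitization ℂ B) := rfl
    rw [h3, ← hu2, hu' x]
    rfl

/-- variation of the values of elements at characters -/
theorem unif (B : Type) [NonUnitalCStarAlgebra B] (q w : B)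
    (hw : star w * w = q)
    (hcl : ∀ x : B, x ∈ closure (Submodule.span ℂ (pws w q) : Set B)) (b : B) (ε : ℝ)
    (hε : 0 < ε) : ∃ δ : ℝ, 0 < δ ∧ ∀ x y : B →⋆ₙₐ[ℂ] ℂ, ‖x w‖ = 1 → ‖y w‖ = 1 →
      ‖x w - y w‖ ≤ δ → ‖x b - y b‖ ≤ ε := by
  have hchar : ∀ (x : B →⋆ₙₐ[ℂ] ℂ) (a : B), ‖x a‖ ≤ ‖a‖ := fun x a =>
    NonUnitalStarAlgHom.norm_apply_le x a
  have hq1 : ∀ x : B →⋆ₙₐ[ℂ] ℂ, ‖x w‖ = 1 → x q = 1 := by
    intro x hx
    rw [← hw, map_mul, map_star, mul_comm, Complex.star_def, Complex.mul_conj, Complex.normSq_eq_norm_sq, hx]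
    norm_num
  -- the good elements
  have key : ∀ n : ℕ, ∀ ε : ℝ, 0 < ε → ∃ δ : ℝ, 0 < δ ∧ ∀ x y : B →⋆ₙₐ[ℂ] ℂ, ‖x w‖ = 1 →
      ‖y w‖ = 1 → ‖x w - y w‖ ≤ δ → ‖x (pw w q n) - y (pw w q n)‖ ≤ ε := by
    intro n
    induction n with
    | zero =>
      intro ε hε
      refine ⟨1, one_pos, fun x y hx hy _ => ?_⟩
      have h1 : pw w q 0 = q := rfl
      rw [h1, hq1 x hx, hq1 y hy, sub_self, norm_zero]
      exact hε.le
    | succ n ih =>
      intro ε hε
      obtain ⟨δ, hδ, h⟩ := ih (ε / 2) (by positivity)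
      have hC : 0 < ‖pw w q n‖ + 1 := by positivity
      refine ⟨min δ (ε / 2 / (‖pw w q n‖ + 1)), by positivity, fun x y hx hy hd => ?_⟩
      have e1 : pw w q (n + 1) = w * pw w q n := by
        unfold pw
        rw [Function.iterate_succ_apply']
      rw [e1, map_mul, map_mul]
      have e2 : x w * x (pw w q n) - y w * y (pw w q n) =
          (x w - y w) * x (pw w q n) + y w * (x (pw w q n) - y (pw w q n)) := by ring
      rw [e2]
      have h1 : ‖(x w - y w) * x (pw w q n)‖ ≤ ε / 2 := by
        rw [norm_mul]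
        calc ‖x w - y w‖ * ‖x (pw w q n)‖ ≤ (ε / 2 / (‖pw w q n‖ + 1)) * (‖pw w q n‖ + 1) := by
              apply mul_le_mul (hd.trans (min_le_right _ _))
                ((hchar x _).trans (by linarith)) (norm_nonneg _) (by positivity)
          _ = ε / 2 := by field_simp
      have h2 : ‖y w * (x (pw w q n) - y (pw w q n))‖ ≤ ε / 2 := by
        rw [norm_mul, hy, one_mul]
        exact h x y hx hy (hd.trans (min_le_left _ _))
      calc _ ≤ _ := norm_add_le _ _
        _ ≤ ε := by linarith
  -- elements of the span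
  have hspan : ∀ a ∈ Submodule.span ℂ (pws w q), ∀ ε : ℝ, 0 < ε → ∃ δ : ℝ, 0 < δ ∧
      ∀ x y : B →⋆ₙₐ[ℂ] ℂ, ‖x w‖ = 1 → ‖y w‖ = 1 → ‖x w - y w‖ ≤ δ → ‖x a - y a‖ ≤ ε := by
    intro a ha
    induction ha using Submodule.span_induction with
    | mem a ha =>
      obtain ⟨n, hn | hn⟩ := ha
      · rw [hn]; exact key n
      · intro ε hε
        obtain ⟨δ, hδ, h⟩ := key n ε hε
        refine ⟨δ, hδ, fun x y hx hy hd => ?_⟩
        rw [hn, map_star, map_star, ← star_sub, norm_star]
        exact h x y hx hy hd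
    | zero =>
      intro ε hε
      exact ⟨1, one_pos, fun x y _ _ _ => by simp [hε.le]⟩
    | add a b _ _ iha ihb =>
      intro ε hε
      obtain ⟨δ, hδ, h⟩ := iha (ε / 2) (by positivity)
      obtain ⟨δ', hδ', h'⟩ := ihb (ε / 2) (by positivity)
      refine ⟨min δ δ', by positivity, fun x y hx hy hd => ?_⟩
      have h1 := h x y hx hy (hd.trans (min_le_left _ _))
      have h2 := h' x y hx hy (hd.trans (min_le_right _ _))
      rw [map_add, map_add]
      have e : x a + x b - (y a + y b) = (x a - y a) + (x b - y b) := by ring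
      rw [e]
      calc _ ≤ _ := norm_add_le _ _
        _ ≤ ε := by linarith
    | smul c a _ iha =>
      intro ε hε
      obtain ⟨δ, hδ, h⟩ := iha (ε / (‖c‖ + 1)) (by positivity)
      refine ⟨δ, hδ, fun x y hx hy hd => ?_⟩
      have h1 := h x y hx hy hd
      rw [map_smul, map_smul, ← smul_sub, norm_smul]
      calc ‖c‖ * ‖x a - y a‖ ≤ (‖c‖ + 1) * (ε / (‖c‖ + 1)) := by
            apply mul_le_mul (by linarith) h1 (norm_nonneg _) (by positivity)
        _ = ε := by field_simp
  obtain ⟨a, ha, hab⟩ := Metric.mem_closure_iff.1 (hcl b) (ε / 3) (by positivity)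
  obtain ⟨δ, hδ, h⟩ := hspan a ha (ε / 3) (by positivity)
  refine ⟨δ, hδ, fun x y hx hy hd => ?_⟩
  have h1 := h x y hx hy hd
  rw [dist_eq_norm] at hab
  have h2 : ‖x (b - a)‖ ≤ ε / 3 := (hchar x _).trans hab.le
  have h3 : ‖y (b - a)‖ ≤ ε / 3 := (hchar y _).trans hab.le
  have e : x b - y b = x (b - a) + (x a - y a) - y (b - a) := by
    rw [map_sub, map_sub]; ring
  rw [e]
  calc _ ≤ ‖x (b - a) + (x a - y a)‖ + ‖y (b - a)‖ := norm_sub_le _ _
    _ ≤ ‖x (b - a)‖ + ‖x a - y a‖ + ‖y (b - a)‖ := by gcongr; exact norm_add_le _ _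
    _ ≤ ε := by linarith


/-- clamp to the unit interval -/
def clm (s : ℝ) : ℝ := min 1 (max 0 s)

/-- tent function -/
def tn (s : ℝ) : ℝ := clm (s + 1) - clm s

theorem clm_cont : Continuous clm := by
  unfold clm; fun_prop

theorem clm_mono {a b : ℝ} (h : a ≤ b) : clm a ≤ clm b := by
  unfold clm; exact min_le_min le_rfl (max_le_max le_rfl h)

theorem clm_nonneg (a : ℝ) : 0 ≤ clm a := by
  unfold clm; exact le_min zero_le_one (le_max_left _ _)

theorem clm_le (a : ℝ) : clm a ≤ 1 := by
  unfold clm; exact min_le_left _ _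

theorem clm_one {a : ℝ} (h : 1 ≤ a) : clm a = 1 := by
  unfold clm; rw [max_eq_right (by linarith), min_eq_left h]

theorem clm_zero {a : ℝ} (h : a ≤ 0) : clm a = 0 := by
  unfold clm; rw [max_eq_left h, min_eq_right zero_le_one]

theorem tn_cont : Continuous tn := by
  have := clm_cont
  unfold tn; fun_prop

theorem tn_nonneg (s : ℝ) : 0 ≤ tn s := by
  unfold tn; have := clm_mono (show s ≤ s + 1 by linarith); linarith

theorem tn_le (s : ℝ) : tn s ≤ 1 := by
  unfold tn; have := clm_le (s + 1); have := clm_nonneg s; linarith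

theorem tn_ge {s : ℝ} (h : 1 ≤ s) : tn s = 0 := by
  unfold tn; rw [clm_one h, clm_one (by linarith), sub_self]

theorem tn_le' {s : ℝ} (h : s ≤ -1) : tn s = 0 := by
  unfold tn; rw [clm_zero (by linarith : s ≤ 0), clm_zero (by linarith : s + 1 ≤ 0), sub_self]

theorem tn_ne {s : ℝ} (h : tn s ≠ 0) : -1 < s ∧ s < 1 := by
  constructor
  · by_contra h1; exact h (tn_le' (by linarith))
  · by_contra h1; exact h (tn_ge (by linarith))

theorem tn_sum (M : ℕ) (y : ℝ) (h0 : 0 ≤ y) (h1 : y ≤ 2 * M) :
    ∑ k : Fin (2 * M + 1), tn (y - (k : ℕ)) = 1 := by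
  rw [Fin.sum_univ_eq_sum_range (fun k : ℕ => tn (y - (k : ℝ))) (2 * M + 1)]
  have e : ∀ k ∈ Finset.range (2 * M + 1), tn (y - (k : ℝ)) =
      (fun k : ℕ => clm (y - (k : ℝ) + 1)) k - (fun k : ℕ => clm (y - (k : ℝ) + 1)) (k + 1) := by
    intro k _
    unfold tn
    simp only [Nat.cast_add, Nat.cast_one]
    congr 2
    ring
  rw [Finset.sum_congr rfl e, Finset.sum_range_sub']
  simp only [Nat.cast_zero, sub_zero, Nat.cast_add, Nat.cast_mul, Nat.cast_ofNat, Nat.cast_one]
  rw [clm_one (by linarith), clm_zero (by linarith), sub_zero]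

/-- the tent functions of the real part -/
def hh (M k : ℕ) (z : ℂ) : ℝ := ‖z‖ * tn (M * (z.re + 1) - k)

theorem hh_cont (M k : ℕ) : Continuous (hh M k) := by
  have := tn_cont
  unfold hh; fun_prop

theorem hh_nonneg (M k : ℕ) (z : ℂ) : 0 ≤ hh M k z := mul_nonneg (norm_nonneg _) (tn_nonneg _)

open Classical in
/-- the functions of the partition of unity -/
def gg (M k : ℕ) (s : Bool) (z : ℂ) : ℝ :=
  if (0 < z.im ∨ k = 0 ∨ k = 2 * M) then (if s = true then hh M k z else 0)
  else (if s = true then 0 else hh M k z)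

theorem gg_sum (M k : ℕ) (z : ℂ) : gg M k true z + gg M k false z = hh M k z := by
  unfold gg
  by_cases h : (0 < z.im ∨ k = 0 ∨ k = 2 * M)
  · simp [h]
  · simp [h]

theorem gg_nonneg (M k : ℕ) (s : Bool) (z : ℂ) : 0 ≤ gg M k s z := by
  unfold gg
  have := hh_nonneg M k z
  split_ifs <;> first | exact this | exact le_rfl

theorem gg_le (M k : ℕ) (s : Bool) (z : ℂ) : gg M k s z ≤ hh M k z := by
  unfold gg
  have := hh_nonneg M k z
  split_ifs <;> first | exact this | exact le_rfl

/-- zero and the circle -/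
def SS : Set ℂ := {z : ℂ | z = 0 ∨ ‖z‖ = 1}

theorem cont_aux (M k : ℕ) (h0 : k ≠ 0) (h1 : k < 2 * M) :
    ContinuousOn (fun z : ℂ => if 0 < z.im then hh M k z else 0) SS := by
  refine ContinuousOn.if ?_ (hh_cont M k).continuousOn continuousOn_const
  rintro a ⟨ha, hb⟩
  have hb' : a.im = 0 := by
    have : a ∈ frontier {z : ℂ | 0 < z.im} := hb
    rw [Complex.frontier_setOfPred_lt_im] at this
    exact this
  rcases ha with ha | ha
  · unfold hh; rw [ha, norm_zero, zero_mul]
  · have h2 : a.re * a.re = 1 := by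
      have := Complex.sq_norm a
      rw [ha, Complex.normSq_apply, hb'] at this
      linarith
    have h3 : (k : ℝ) + 1 ≤ 2 * M := by exact_mod_cast h1
    have h4 : (1 : ℝ) ≤ k := by exact_mod_cast Nat.one_le_iff_ne_zero.2 h0
    unfold hh
    rcases (mul_self_eq_one_iff.1 h2) with h5 | h5
    · rw [h5, tn_ge (by linarith), mul_zero]
    · rw [h5, tn_le' (by linarith), mul_zero]

theorem gg_cont (M k : ℕ) (hk : k ≤ 2 * M) (s : Bool) : ContinuousOn (gg M k s) SS := by
  by_cases h : k = 0 ∨ k = 2 * M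
  · have e : gg M k s = fun z => if s = true then hh M k z else 0 := by
      funext z; unfold gg; simp [h]
    rw [e]
    cases s
    · simpa using continuousOn_const
    · simpa using (hh_cont M k).continuousOn
  · have h0 : k ≠ 0 := fun h' => h (Or.inl h')
    have h1 : k < 2 * M := lt_of_le_of_ne hk fun h' => h (Or.inr h')
    have e : gg M k true = fun z : ℂ => if 0 < z.im then hh M k z else 0 := by
      funext z; unfold gg; simp [h]
    have ht : ContinuousOn (gg M k true) SS := by rw [e]; exact cont_aux M k h0 h1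
    cases s
    · have e2 : gg M k false = fun z => hh M k z - gg M k true z := by
        funext z; have := gg_sum M k z; linarith
      rw [e2]
      exact (hh_cont M k).continuousOn.sub ht
    · exact ht

theorem gg_ne {M k : ℕ} {s : Bool} {z : ℂ} (h : gg M k s z ≠ 0) :
    z ≠ 0 ∧ -1 < M * (z.re + 1) - (k : ℝ) ∧ M * (z.re + 1) - (k : ℝ) < 1 ∧
      (s = true ↔ (0 < z.im ∨ k = 0 ∨ k = 2 * M)) := by
  have h1 : hh M k z ≠ 0 := by
    intro h2
    have := gg_nonneg M k s z
    have := gg_le M k s z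
    exact h (by linarith)
  have h2 : z ≠ 0 := by
    intro h2; apply h1; unfold hh; rw [h2, norm_zero, zero_mul]
  have h3 : tn (M * (z.re + 1) - k) ≠ 0 := by
    intro h3; apply h1; unfold hh; rw [h3, mul_zero]
  refine ⟨h2, (tn_ne h3).1, (tn_ne h3).2, ?_⟩
  unfold gg at h
  by_cases h4 : (0 < z.im ∨ k = 0 ∨ k = 2 * M)
  · rw [if_pos h4] at h
    cases s
    · simp at h
    · simp [h4]
  · rw [if_neg h4] at h
    cases s
    · simp [h4]
    · simp at h

theorem gg_orth {M k k' : ℕ} {s s' : Bool} (hne : (k, s) ≠ (k', s')) (hp : k % 2 = k' % 2) (z : ℂ) :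
    gg M k s z = 0 ∨ gg M k' s' z = 0 := by
  by_contra hcon
  push Not at hcon
  obtain ⟨-, a1, a2, a3⟩ := gg_ne hcon.1
  obtain ⟨-, b1, b2, b3⟩ := gg_ne hcon.2
  have h1 : (k : ℝ) < k' + 2 := by linarith
  have h2 : (k' : ℝ) < k + 2 := by linarith
  have h1' : k < k' + 2 := by exact_mod_cast h1
  have h2' : k' < k + 2 := by exact_mod_cast h2
  have hk : k = k' := by omega
  subst hk
  apply hne
  have : s = true ↔ s' = true := a3.trans b3.symm
  rw [Bool.eq_iff_iff.2 this]

theorem gg_diam {M k : ℕ} {s : Bool} {z z' : ℂ} (hM : 1 ≤ M) (hz : ‖z‖ = 1) (hz' : ‖z'‖ = 1)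
    (h : gg M k s z ≠ 0) (h' : gg M k s z' ≠ 0) : ‖z - z'‖ ^ 2 ≤ 12 / M := by
  obtain ⟨-, a1, a2, a3⟩ := gg_ne h
  obtain ⟨-, b1, b2, b3⟩ := gg_ne h'
  have hM' : (1 : ℝ) ≤ M := by exact_mod_cast hM
  have e1 : z.re * z.re + z.im * z.im = 1 := by
    have := Complex.sq_norm z
    rw [hz, Complex.normSq_apply] at this; linarith
  have e2 : z'.re * z'.re + z'.im * z'.im = 1 := by
    have := Complex.sq_norm z'
    rw [hz', Complex.normSq_apply] at this; linarith
  rw [Complex.sq_norm, Complex.normSq_apply, Complex.sub_re, Complex.sub_im]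
  rw [le_div_iff₀ (by linarith)]
  have r1 : -1 ≤ z.re ∧ z.re ≤ 1 := by constructor <;> nlinarith [mul_self_nonneg z.im]
  have r2 : -1 ≤ z'.re ∧ z'.re ≤ 1 := by constructor <;> nlinarith [mul_self_nonneg z'.im]
  obtain ⟨D, hD⟩ : ∃ D, D = z.re - z'.re := ⟨_, rfl⟩
  have d1 : M * D < 2 := by rw [hD]; nlinarith
  have d2 : -2 < M * D := by rw [hD]; nlinarith
  have d5 : -2 ≤ D ∧ D ≤ 2 := by constructor <;> linarith [r1.1, r1.2, r2.1, r2.2]
  have d6 : D * D * M ≤ 4 := by
    rcases le_total 0 D with hd | hd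
    · nlinarith
    · nlinarith
  have imb : (z.im - z'.im) * (z.im - z'.im) * M ≤ 8 := by
    by_cases hk : k = 0 ∨ k = 2 * M
    · have i1 : z.im * z.im * M ≤ 2 := by
        rcases hk with hk | hk
        · rw [hk, Nat.cast_zero] at a2
          have : z.im * z.im = (1 - z.re) * (1 + z.re) := by linarith
          rw [this]
          nlinarith [r1.1, r1.2]
        · rw [hk] at a1
          push_cast at a1
          have : z.im * z.im = (1 - z.re) * (1 + z.re) := by linarith
          rw [this]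
          nlinarith [r1.1, r1.2]
      have i2 : z'.im * z'.im * M ≤ 2 := by
        rcases hk with hk | hk
        · rw [hk, Nat.cast_zero] at b2
          have : z'.im * z'.im = (1 - z'.re) * (1 + z'.re) := by linarith
          rw [this]
          nlinarith [r2.1, r2.2]
        · rw [hk] at b1
          push_cast at b1
          have : z'.im * z'.im = (1 - z'.re) * (1 + z'.re) := by linarith
          rw [this]
          nlinarith [r2.1, r2.2]
      nlinarith [mul_nonneg (mul_self_nonneg (z.im + z'.im)) (by linarith : (0 : ℝ) ≤ M)]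
    · have hs : (0 < z.im) ↔ (0 < z'.im) := by
        have := a3.symm.trans b3
        simpa [hk] using this
      have hsq : (z.im - z'.im) * (z.im - z'.im) ≤ |z.im * z.im - z'.im * z'.im| := by
        have : |z.im * z.im - z'.im * z'.im| = |z.im - z'.im| * |z.im + z'.im| := by
          rw [← abs_mul]; congr 1; ring
        rw [this, ← abs_mul_abs_self (z.im - z'.im)]
        apply mul_le_mul_of_nonneg_left _ (abs_nonneg _)
        by_cases h0 : 0 < z.im
        · have h1 := hs.1 h0
          rw [abs_of_pos (by linarith : 0 < z.im + z'.im)]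
          rw [abs_le]; constructor <;> linarith
        · have h1 : ¬ 0 < z'.im := fun h => h0 (hs.2 h)
          rw [abs_of_nonpos (by linarith : z.im + z'.im ≤ 0)]
          rw [abs_le]; constructor <;> linarith
      have hre : |z.im * z.im - z'.im * z'.im| * M ≤ 4 := by
        have e3 : z.im * z.im - z'.im * z'.im = - (D * (z.re + z'.re)) := by
          rw [hD]; linarith
        rw [e3, abs_neg, abs_mul]
        have e4 : |z.re + z'.re| ≤ 2 := by rw [abs_le]; constructor <;> linarith [r1.1, r1.2, r2.1, r2.2]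
        have e5 : |D| * M ≤ 2 := by
          rw [← abs_of_nonneg (by linarith : (0 : ℝ) ≤ M), ← abs_mul, abs_le]
          rw [mul_comm] at d1 d2
          constructor <;> linarith
        calc |D| * |z.re + z'.re| * M = (|D| * M) * |z.re + z'.re| := by ring
          _ ≤ 2 * 2 := by
            apply mul_le_mul e5 e4 (abs_nonneg _) (by norm_num)
          _ = 4 := by norm_num
      have := mul_le_mul_of_nonneg_right hsq (by linarith : (0 : ℝ) ≤ M)
      linarith
  have : z.re - z'.re = D := hD.symm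
  rw [this]
  linarith [d6, imb]

theorem hh_sum (M : ℕ) (z : ℂ) (hz : z ∈ SS) : ∑ k : Fin (2 * M + 1), hh M k z = ‖z‖ := by
  unfold hh
  rw [← Finset.mul_sum]
  have hn : ‖z‖ ≤ 1 := by
    rcases hz with h | h
    · rw [h, norm_zero]; exact zero_le_one
    · exact h.le
  have hr : |z.re| ≤ 1 := (Complex.abs_re_le_norm z).trans hn
  rw [abs_le] at hr
  have hM : (0 : ℝ) ≤ M := Nat.cast_nonneg M
  rw [tn_sum M _ (by nlinarith [hr.1]) (by nlinarith [hr.2]), mul_one]


theorem comm (B : Type) [NonUnitalCStarAlgebra B] (q w : B) (hq : ∀ x : B, q * x = x ∧ x * q = x)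
    (hPrj : Prj q) (hw : star w * w = q) (hw' : w * star w = q)
    (hcl : ∀ x : B, x ∈ closure (Submodule.span ℂ (pws w q) : Set B)) (x y : B) :
    x * y = y * x := by
  have hqc : ∀ x : B, Commute x q := fun x => by
    unfold Commute SemiconjBy; rw [(hq x).1, (hq x).2]
  have succ' : ∀ n : ℕ, pw w q (n + 1) = w * pw w q n := fun n => by
    unfold pw; rw [Function.iterate_succ_apply']
  have hws : Commute (star w) w := by unfold Commute SemiconjBy; rw [hw, hw']
  have h1 : ∀ n, Commute w (pw w q n) := by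
    intro n
    induction n with
    | zero => exact hqc w
    | succ n ih => rw [succ']; exact (Commute.refl w).mul_right ih
  have h1' : ∀ n, Commute (star w) (pw w q n) := by
    intro n
    induction n with
    | zero => exact hqc (star w)
    | succ n ih => rw [succ']; exact hws.mul_right ih
  have h2 : ∀ a ∈ pws w q, Commute a w ∧ Commute a (star w) := by
    rintro a ⟨n, hn | hn⟩
    · rw [hn]; exact ⟨(h1 n).symm, (h1' n).symm⟩
    · rw [hn]
      refine ⟨?_, ?_⟩
      · have := (h1' n).star_star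
        rw [star_star] at this
        exact this.symm
      · exact (h1 n).star_star.symm
  have h3 : ∀ a : B, Commute a w → Commute a (star w) → ∀ b ∈ pws w q, Commute a b := by
    intro a ha ha'
    have k1 : ∀ n, Commute a (pw w q n) := by
      intro n
      induction n with
      | zero => exact hqc a
      | succ n ih => rw [succ']; exact ha.mul_right ih
    have k2 : ∀ n, Commute a (star (pw w q n)) := by
      intro n
      induction n with
      | zero =>
        have : star (pw w q 0) = q := hPrj.1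
        rw [this]; exact hqc a
      | succ n ih => rw [succ', star_mul]; exact ih.mul_right ha'
    rintro b ⟨n, hn | hn⟩
    · rw [hn]; exact k1 n
    · rw [hn]; exact k2 n
  have h4 : ∀ a : B, (∀ b ∈ pws w q, Commute a b) → ∀ y : B, Commute a y := by
    intro a ha y
    have hsub : closure (Submodule.span ℂ (pws w q) : Set B) ⊆ {y | a * y = y * a} := by
      apply closure_minimal
      · intro z hz
        induction hz using Submodule.span_induction with
        | mem z hz => exact ha z hz
        | zero => simp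
        | add u v _ _ hu hv =>
          simp only [Set.mem_ofPred_eq] at hu hv ⊢
          rw [mul_add, add_mul, hu, hv]
        | smul c u _ hu =>
          simp only [Set.mem_ofPred_eq] at hu ⊢
          rw [mul_smul_comm, smul_mul_assoc, hu]
      · exact isClosed_eq (continuous_const.mul continuous_id) (continuous_id.mul continuous_const)
    exact hsub (hcl y)
  have h5 : ∀ b ∈ pws w q, ∀ y : B, Commute b y := fun b hb =>
    h4 b (h3 b (h2 b hb).1 (h2 b hb).2)
  exact h4 x (fun b hb => (h5 b hb x).symm) y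

theorem unifG (B : Type) [NonUnitalCStarAlgebra B] (q w : B) (hw : star w * w = q)
    (hcl : ∀ x : B, x ∈ closure (Submodule.span ℂ (pws w q) : Set B)) (G : Finset B) (ε : ℝ)
    (hε : 0 < ε) : ∃ δ : ℝ, 0 < δ ∧ ∀ b ∈ G, ∀ x y : B →⋆ₙₐ[ℂ] ℂ, ‖x w‖ = 1 → ‖y w‖ = 1 →
      ‖x w - y w‖ ≤ δ → ‖x b - y b‖ ≤ ε := by
  classical
  induction G using Finset.induction_on with
  | empty => exact ⟨1, one_pos, fun b hb => by simp at hb⟩
  | insert a s _ ih =>
    obtain ⟨δ, hδ, h⟩ := ih
    obtain ⟨δ', hδ', h'⟩ := unif B q w hw hcl a ε hε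
    refine ⟨min δ δ', by positivity, fun b hb x y hx hy hd => ?_⟩
    rcases Finset.mem_insert.1 hb with hb | hb
    · rw [hb]; exact h' x y hx hy (hd.trans (min_le_right _ _))
    · exact h b hb x y hx hy (hd.trans (min_le_left _ _))

theorem t_PU : StPU := by
  intro B _ q w J _ i j hij hq hPrj hw hw' hcl G ε hε
  classical
  have hc := comm B q w hq hPrj hw hw' hcl
  have hqw : ∀ χ : B →⋆ₙₐ[ℂ] ℂ, χ q = ((‖χ w‖ ^ 2 : ℝ) : ℂ) := by
    intro χ
    rw [← hw, map_mul, map_star, mul_comm, Complex.star_def, Complex.mul_conj,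
      Complex.normSq_eq_norm_sq]
  have hS : ∀ χ : B →⋆ₙₐ[ℂ] ℂ, χ w ∈ SS := by
    intro χ
    have h1 : χ q * χ q = χ q := by rw [← map_mul, (hq q).1]
    rw [hqw χ] at h1
    have h2 : ‖χ w‖ ^ 2 * ‖χ w‖ ^ 2 = ‖χ w‖ ^ 2 := by exact_mod_cast h1
    by_cases h3 : χ w = 0
    · exact Or.inl h3
    · right
      have h4 : 0 < ‖χ w‖ := norm_pos_iff.2 h3
      have h5 : ‖χ w‖ ^ 2 = 1 := by
        have : ‖χ w‖ ^ 2 ≠ 0 := by positivity
        exact mul_left_cancel₀ this (by rw [h2, mul_one])
      nlinarith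
  have hzero : ∀ (χ : B →⋆ₙₐ[ℂ] ℂ), χ w = 0 → ∀ b, χ b = 0 := by
    intro χ h b
    rw [← (hq b).2, map_mul, hqw χ, h, norm_zero]
    simp
  obtain ⟨X, ev, hno, hex⟩ := gel2 B hc w SS hS
  obtain ⟨δ, hδ, hG⟩ := unifG B q w hw hcl G ε hε
  obtain ⟨M, hM1, hM⟩ : ∃ M : ℕ, 1 ≤ M ∧ 12 / (M : ℝ) ≤ δ ^ 2 := by
    refine ⟨⌈12 / δ ^ 2⌉₊ + 1, by omega, ?_⟩
    have h1 : 12 / δ ^ 2 ≤ (⌈12 / δ ^ 2⌉₊ : ℝ) := Nat.le_ceil _
    have h2 : 0 < δ ^ 2 := by positivity
    rw [div_le_iff₀ (by positivity)]
    rw [div_le_iff₀ h2] at h1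
    push_cast
    nlinarith
  have hEq : ∀ a b : B, (∀ x, ev x a = ev x b) → a = b := by
    intro a b h
    have h1 : ‖a - b‖ ≤ 0 := hno (a - b) 0 (fun x => by rw [map_sub, h x, sub_self, norm_zero])
    exact sub_eq_zero.1 (norm_eq_zero.1 (le_antisymm h1 (norm_nonneg _)))
  have hg0 : ∀ (k : ℕ) (s : Bool), gg M k s 0 = 0 := by
    intro k s
    have h1 := gg_nonneg M k s 0
    have h2 := gg_le M k s 0
    have h3 : hh M k 0 = 0 := by unfold hh; rw [norm_zero, zero_mul]
    linarith
  have hF : ∀ p : Fin (2 * M + 1) × Bool, ∃ f : B, ∀ x, ev x f = (gg M p.1 p.2 (ev x w) : ℂ) := by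
    intro p
    apply hex (fun z => (gg M p.1 p.2 z : ℂ))
    · exact Complex.continuous_ofReal.comp_continuousOn
        (gg_cont M p.1 (by have := p.1.2; omega) p.2)
    · simp [hg0]
  choose F hF using hF
  have hR : ∀ p : Fin (2 * M + 1) × Bool, ∃ f : B, ∀ x, ev x f =
      (Real.sqrt (gg M p.1 p.2 (ev x w)) : ℂ) := by
    intro p
    apply hex (fun z => (Real.sqrt (gg M p.1 p.2 z) : ℂ))
    · exact Complex.continuous_ofReal.comp_continuousOn
        (Real.continuous_sqrt.comp_continuousOn (gg_cont M p.1 (by have := p.1.2; omega) p.2))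
    · simp [hg0]
  choose R hR using hR
  have hFpos : ∀ p, Pos (F p) := by
    intro p
    refine ⟨R p, hEq _ _ fun x => ?_⟩
    rw [map_mul, map_star, hF, hR, Complex.star_def, Complex.conj_ofReal, ← Complex.ofReal_mul,
      Real.mul_self_sqrt (gg_nonneg _ _ _ _)]
  let cond : J → Fin (2 * M + 1) × Bool → Prop := fun c p =>
    (c = i ∧ (p.1 : ℕ) % 2 = 0) ∨ (c = j ∧ (p.1 : ℕ) % 2 = 1)
  let f : J → Fin (2 * M + 1) × Bool → B := fun c p => if cond c p then F p else 0
  let χ : Fin (2 * M + 1) × Bool → (B →⋆ₙₐ[ℂ] ℂ) := fun p =>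
    if h : ∃ x, gg M p.1 p.2 (ev x w) ≠ 0 then ev h.choose else 0
  have hsum1 : ∀ p, ∑ c, f c p = F p := by
    intro p
    rcases Nat.mod_two_eq_zero_or_one (p.1 : ℕ) with hp | hp
    · rw [Finset.sum_eq_single i]
      · simp [f, cond, hp]
      · intro c _ hci
        have : ¬ cond c p := by
          simp only [cond, hp]
          simp [hci]
        simp only [f, if_neg this]
      · intro h; exact absurd (Finset.mem_univ i) h
    · rw [Finset.sum_eq_single j]
      · simp [f, cond, hp]
      · intro c _ hcj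
        have : ¬ cond c p := by
          simp only [cond, hp]
          simp [hcj]
        simp only [f, if_neg this]
      · intro h; exact absurd (Finset.mem_univ j) h
  have hsum : ∀ x, ev x (∑ c, ∑ p, f c p) = (‖ev x w‖ : ℂ) := by
    intro x
    rw [Finset.sum_comm, Finset.sum_congr rfl fun p _ => hsum1 p, map_sum,
      Finset.sum_congr rfl fun p _ => hF p x, ← Complex.ofReal_sum, Fintype.sum_prod_type]
    congr 1
    rw [← hh_sum M _ (hS (ev x))]
    refine Finset.sum_congr rfl fun k _ => ?_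
    rw [Fintype.sum_bool]
    exact gg_sum M k _
  refine ⟨fun _ => Fin (2 * M + 1) × Bool, fun _ => inferInstance, f, fun _ => χ, ?_, ?_, ?_, ?_, ?_⟩
  · intro c p
    by_cases h : cond c p
    · simp only [f, if_pos h]; exact hFpos p
    · simp only [f, if_neg h]; exact ⟨0, by simp⟩
  · intro c p p' hne
    by_cases h : cond c p
    · by_cases h' : cond c p'
      · simp only [f, if_pos h, if_pos h']
        apply hEq
        intro x
        rw [map_mul, map_zero, hF, hF]
        have hpar : (p.1 : ℕ) % 2 = (p'.1 : ℕ) % 2 := by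
          rcases h with ⟨h1, h2⟩ | ⟨h1, h2⟩ <;> rcases h' with ⟨h3, h4⟩ | ⟨h3, h4⟩
          · rw [h2, h4]
          · exact absurd (h1.symm.trans h3) hij
          · exact absurd (h3.symm.trans h1) hij
          · rw [h2, h4]
        have hne' : ((p.1 : ℕ), p.2) ≠ ((p'.1 : ℕ), p'.2) := by
          intro h5
          apply hne
          have h6 := Prod.mk.inj h5
          exact Prod.ext (Fin.ext h6.1) h6.2
        rcases gg_orth (M := M) hne' hpar (ev x w) with h5 | h5
        · rw [h5]; simp
        · rw [h5]; simp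
      · simp only [f, if_neg h', mul_zero]
    · simp only [f, if_neg h, zero_mul]
  · apply hno
    intro x
    rw [hsum x, Complex.norm_real, norm_norm]
    rcases hS (ev x) with h | h
    · rw [h, norm_zero]; exact zero_le_one
    · exact h.le
  · intro b _
    have : (∑ c, ∑ p, f c p) * b = b := by
      apply hEq
      intro x
      rw [map_mul, hsum x]
      rcases hS (ev x) with h | h
      · rw [hzero _ h b, mul_zero]
      · rw [h]; simp
    rw [this, sub_self, norm_zero]
    exact hε.le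
  · intro b hb c p
    by_cases h : cond c p
    · simp only [f, if_pos h]
      apply hno
      intro x
      rw [map_sub, map_mul, map_smul, hF, smul_eq_mul, ← sub_mul, norm_mul, Complex.norm_real,
        Real.norm_of_nonneg (gg_nonneg _ _ _ _)]
      by_cases h0 : gg M p.1 p.2 (ev x w) = 0
      · rw [h0, mul_zero]; exact hε.le
      · have hh' : ∃ x, gg M p.1 p.2 (ev x w) ≠ 0 := ⟨x, h0⟩
        have e1 : χ p = ev hh'.choose := by simp only [χ]; rw [dif_pos hh']
        have h2 : gg M p.1 p.2 (ev hh'.choose w) ≠ 0 := hh'.choose_spec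
        have n1 : ‖ev x w‖ = 1 := by
          rcases hS (ev x) with h | h
          · exact absurd (by rw [h]; exact hg0 _ _) h0
          · exact h
        have n2 : ‖ev hh'.choose w‖ = 1 := by
          rcases hS (ev hh'.choose) with h | h
          · exact absurd (by rw [h]; exact hg0 _ _) h2
          · exact h
        have d1 := gg_diam hM1 n1 n2 h0 h2
        have d2 : ‖ev x w - ev hh'.choose w‖ ≤ δ := by
          have : ‖ev x w - ev hh'.choose w‖ ^ 2 ≤ δ ^ 2 := d1.trans hM
          exact abs_le_of_sq_le_sq' this hδ.le |>.2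
        have d3 := hG b hb (ev x) (ev hh'.choose) n1 n2 d2
        have d4 : gg M p.1 p.2 (ev x w) ≤ 1 := by
          refine (gg_le _ _ _ _).trans ?_
          unfold hh
          rw [n1, one_mul]
          exact tn_le _
        show ‖ev x b - χ p b‖ * gg M p.1 p.2 (ev x w) ≤ ε
        rw [e1]
        calc ‖ev x b - ev hh'.choose b‖ * gg M p.1 p.2 (ev x w) ≤ ε * 1 :=
              mul_le_mul d3 d4 (gg_nonneg _ _ _ _) hε.le
          _ = ε := mul_one _
    · simp only [f, if_neg h, mul_zero, smul_zero, sub_self, norm_zero]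
      exact hε.le

end Pool.Agent.Helper7_GA.G_PU
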