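import Pool.Agent.Helper7_GA.Stm

/-! # QT: algebras generated by families of finite graphs have a good corner -/

set_option autoImplicit false

open scoped Matrix.Norms.L2Operator ENNReal Matrix
open Pool.Agent.W659.EC Pool.Agent.Helper7_ND

noncomputable section

namespace Pool.Agent.Helper7_GA.G_QT

section basic

variable {E : Gr} {Q : Type} [NonUnitalCStarAlgebra Q] {p : E.V → Q} {S : E.Ed → Q}

theorem zero_of_star_mul {x : Q} (h : star x * x = 0) : x = 0 :=
  CStarRing.star_mul_self_eq_zero_iff x |>.1 h

theorem S_mul_r (h : IsTCK E p S) (e : E.Ed) : S e * p (E.r e) = S e := by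
  have hp := h.proj (E.r e)
  have hi := h.init e
  have key : star (S e * p (E.r e) - S e) * (S e * p (E.r e) - S e) = 0 := by
    have h1 : star (S e * p (E.r e) - S e) = p (E.r e) * star (S e) - star (S e) := by
      rw [star_sub, star_mul, hp.1]
    rw [h1, sub_mul, mul_sub, mul_sub]
    have h2 : p (E.r e) * star (S e) * (S e * p (E.r e)) = p (E.r e) := by
      rw [mul_assoc, ← mul_assoc (star (S e)), hi, hp.2, hp.2]
    have h3 : p (E.r e) * star (S e) * S e = p (E.r e) := by
      rw [mul_assoc, hi, hp.2]
    have h4 : star (S e) * (S e * p (E.r e)) = p (E.r e) := by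
      rw [← mul_assoc, hi, hp.2]
    rw [h2, h3, h4, hi]
    simp
  exact sub_eq_zero.1 (zero_of_star_mul key)

theorem S_zero_of_r (h : IsTCK E p S) (e : E.Ed) (hr : p (E.r e) = 0) : S e = 0 :=
  zero_of_star_mul (by rw [h.init e, hr])

theorem p_mul_S (h : IsTCK E p S) (v : E.V) (e : E.Ed) (hv : v ≠ E.s e) : p v * S e = 0 := by
  rw [← h.final e, ← mul_assoc, h.orth v _ hv, zero_mul]

theorem Sstar_mul_p (h : IsTCK E p S) (v : E.V) (e : E.Ed) (hv : v ≠ E.s e) :
    star (S e) * p v = 0 := by
  have := congrArg star (p_mul_S h v e hv)
  rwa [star_mul, (h.proj v).1, star_zero] at this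

theorem Sstar_mul_s (h : IsTCK E p S) (e : E.Ed) : star (S e) * p (E.s e) = star (S e) := by
  have := congrArg star (h.final e)
  rwa [star_mul, (h.proj _).1] at this

open Classical in
/-- the gap projections -/
def gp [Fintype E.Ed] (p : E.V → Q) (S : E.Ed → Q) (v : E.V) : Q :=
  p v - ∑ e ∈ Finset.univ.filter (fun e => E.s e = v), S e * star (S e)

theorem gp_mul_S [Fintype E.Ed] (h : IsTCK E p S) (v : E.V) (e : E.Ed) :
    gp p S v * S e = 0 := by
  classical
  unfold gp
  rw [sub_mul, Finset.sum_mul]
  by_cases hv : E.s e = v
  · subst hv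
    rw [h.final e, Finset.sum_eq_single e]
    · rw [mul_assoc, h.init, S_mul_r h, sub_self]
    · intro f _ hfe
      rw [mul_assoc, h.ranges f e hfe, mul_zero]
    · intro hne
      exact absurd (by simp) hne
  · rw [p_mul_S h v e (fun h' => hv h'.symm), zero_sub, neg_eq_zero]
    apply Finset.sum_eq_zero
    intro f hf
    have hfe : f ≠ e := by
      rintro rfl
      exact hv (by simpa using hf)
    rw [mul_assoc, h.ranges f e hfe, mul_zero]

theorem gp_star [Fintype E.Ed] (h : IsTCK E p S) (v : E.V) : star (gp p S v) = gp p S v := by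
  classical
  unfold gp
  rw [star_sub, (h.proj v).1, star_sum]
  simp only [star_mul, star_star]

theorem gp_mul_p [Fintype E.Ed] (h : IsTCK E p S) (v : E.V) : gp p S v * p v = gp p S v := by
  classical
  unfold gp
  rw [sub_mul, (h.proj v).2, Finset.sum_mul]
  congr 1
  apply Finset.sum_congr rfl
  intro f hf
  have hfv : E.s f = v := by simpa using hf
  subst hfv
  rw [mul_assoc, Sstar_mul_s h]

theorem gp_mul_p_ne [Fintype E.Ed] (h : IsTCK E p S) (v v' : E.V) (hv : v ≠ v') :
    gp p S v * p v' = 0 := by
  rw [← gp_mul_p h v, mul_assoc, h.orth v v' hv, mul_zero]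

theorem gp_mul_gp [Fintype E.Ed] (h : IsTCK E p S) (v : E.V) :
    gp p S v * gp p S v = gp p S v := by
  classical
  have h1 : gp p S v * gp p S v
      = gp p S v * p v - ∑ e ∈ Finset.univ.filter (fun e => E.s e = v),
        gp p S v * (S e * star (S e)) := by
    conv_lhs => rw [show gp p S v * gp p S v = gp p S v * (p v -
      ∑ e ∈ Finset.univ.filter (fun e => E.s e = v), S e * star (S e)) from rfl]
    rw [mul_sub, Finset.mul_sum]
  rw [h1, Finset.sum_eq_zero, sub_zero, gp_mul_p h]
  intro e _
  rw [← mul_assoc, gp_mul_S h, zero_mul]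

/-- the closure argument -/
theorem corner_closure (q : Q) (Z W : Set Q)
    (hZ : ∀ z ∈ Z, q * z * q ∈ Submodule.span ℂ W) (x : Q)
    (hx : x ∈ closure (Submodule.span ℂ Z : Set Q)) :
    q * x * q ∈ closure (Submodule.span ℂ W : Set Q) := by
  have hspan : ∀ y ∈ Submodule.span ℂ Z, q * y * q ∈ Submodule.span ℂ W := by
    intro y hy
    induction hy using Submodule.span_induction with
    | mem y hy => exact hZ y hy
    | zero => rw [mul_zero, zero_mul]; exact Submodule.zero_mem _
    | add a b _ _ ha hb =>
      rw [mul_add, add_mul]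
      exact Submodule.add_mem _ ha hb
    | smul c a _ ha =>
      rw [mul_smul_comm, smul_mul_assoc]
      exact Submodule.smul_mem _ c ha
  have hcont : Continuous fun y : Q => q * y * q := by fun_prop
  exact map_mem_closure (f := fun y : Q => q * y * q) hcont hx (fun y hy => hspan y hy)

end basic

theorem t_QT (hTERM : StTERM) (hSPAN : StSPAN) : StQT := by
  intro E Q _ _ p S hVf hEf h hgen hcyc
  classical
  have _ : Fintype E.Ed := Fintype.ofFinite _
  have hsp := hSPAN E Q p S h hgen
  by_cases hg : ∃ v, gp p S v ≠ 0
  · -- case 1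
    obtain ⟨v, hv⟩ := hg
    have hstar := gp_star h v
    have hsq := gp_mul_gp h v
    refine ⟨gp p S v, gp p S v, hv, ⟨hstar, hsq⟩, by rw [hstar, hsq], by rw [hstar, hsq], ?_⟩
    intro x
    refine corner_closure (gp p S v) _ _ ?_ x (hsp x)
    rintro z ⟨u, l, l', rfl⟩
    have hpr : ∀ l : List E.Ed, gp p S v * pr p S u l = 0 ∨
        gp p S v * pr p S u l = gp p S v := by
      intro l
      cases l with
      | nil =>
        by_cases huv : v = u
        · subst huv
          exact Or.inr (gp_mul_p h v)
        · exact Or.inl (gp_mul_p_ne h v u huv)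
      | cons e l =>
        left
        show gp p S v * (S e * pr p S u l) = 0
        rw [← mul_assoc, gp_mul_S h, zero_mul]
    have hcalc : gp p S v * (pr p S u l * star (pr p S u l')) * gp p S v
        = (gp p S v * pr p S u l) * star (gp p S v * pr p S u l') := by
      rw [star_mul, hstar]
      simp only [mul_assoc]
    rw [hcalc]
    rcases hpr l with h1 | h1
    · rw [h1, zero_mul]
      exact Submodule.zero_mem _
    · rcases hpr l' with h2 | h2
      · rw [h2, star_zero, mul_zero]
        exact Submodule.zero_mem _
      · rw [h1, h2, hstar, hsq]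
        exact Submodule.subset_span ⟨0, Or.inl rfl⟩
  · -- case 2
    have hg0 : ∀ v, gp p S v = 0 := fun v => by_contra fun hne => hg ⟨v, hne⟩
    have hsum : ∀ v, p v = ∑ e ∈ Finset.univ.filter (fun e => E.s e = v),
        S e * star (S e) := fun v => sub_eq_zero.1 (hg0 v)
    let H : Set E.V := {v | p v ≠ 0}
    have hHf : H.Finite := Set.toFinite H
    have hSz : ∀ e, E.r e ∉ H → S e = 0 := by
      intro e he
      apply S_zero_of_r h e
      by_contra hne
      exact he hne
    have hHne : H.Nonempty := by
      by_contra hemp
      have hp0 : ∀ v, p v = 0 := fun v => by_contra fun hne => hemp ⟨v, hne⟩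
      have hS0 : ∀ e, S e = 0 := fun e => S_zero_of_r h e (hp0 _)
      have hall : ∀ a : Q, a = 0 := by
        intro a
        have ha := hgen (⊥ : NonUnitalStarSubalgebra ℂ Q) (by
          rw [NonUnitalStarAlgebra.coe_bot]
          exact isClosed_singleton) (by
          rintro x (⟨v, rfl⟩ | ⟨e, rfl⟩)
          · rw [hp0 v]; exact zero_mem _
          · rw [hS0 e]; exact zero_mem _) a
        exact NonUnitalStarAlgebra.mem_bot.1 ha
      obtain ⟨x, y, hxy⟩ := exists_pair_ne Q
      exact hxy ((hall x).trans (hall y).symm)
    have hemit : ∀ v ∈ H, ∃ e, E.s e = v ∧ E.r e ∈ H := by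
      intro v hv
      by_contra hno
      apply hv
      rw [hsum v]
      apply Finset.sum_eq_zero
      intro e he
      have hev : E.s e = v := by simpa using he
      rw [hSz e (fun hr => hno ⟨e, hev, hr⟩), zero_mul]
    obtain ⟨c, m, hm, hcH, hcr, hper, hmod, huniq⟩ :=
      hTERM E H hHf hHne hemit (fun v hv => hcyc v hv)
    have hSS : ∀ k, S (c k) * star (S (c k)) = p (E.s (c k)) := by
      intro k
      rw [hsum (E.s (c k)), Finset.sum_eq_single (c k)]
      · intro e he hne
        have hev : E.s e = E.s (c k) := by simpa using he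
        rw [hSz e (fun hr => hne (huniq k e hev hr)), zero_mul]
      · intro hne
        exact absurd (by simp) hne
    let T : ℕ → Q := fun k => Nat.rec (p (E.s (c 0))) (fun k x => x * S (c k)) k
    have hT0 : T 0 = p (E.s (c 0)) := rfl
    have hTs : ∀ k, T (k + 1) = T k * S (c k) := fun k => rfl
    have hTp : ∀ k, T k * p (E.s (c k)) = T k := by
      intro k
      cases k with
      | zero => rw [hT0, (h.proj _).2]
      | succ k => rw [hTs, mul_assoc, ← hcr, S_mul_r h]
    have hTT : ∀ k, star (T k) * T k = p (E.s (c k)) := by
      intro k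
      induction k with
      | zero => rw [hT0, (h.proj _).1, (h.proj _).2]
      | succ k ih =>
        rw [hTs, star_mul, mul_assoc, ← mul_assoc (star (T k)), ih, h.final, h.init, hcr]
    have hTT' : ∀ k, T k * star (T k) = p (E.s (c 0)) := by
      intro k
      induction k with
      | zero => rw [hT0, (h.proj _).1, (h.proj _).2]
      | succ k ih =>
        rw [hTs, star_mul, mul_assoc, ← mul_assoc (S (c k)), hSS, ← mul_assoc, hTp, ih]
    have hqT : ∀ k, p (E.s (c 0)) * T k = T k := by
      intro k
      induction k with
      | zero => rw [hT0, (h.proj _).2]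
      | succ k ih => rw [hTs, ← mul_assoc, ih]
    have hcm : c m = c 0 := by simpa using hper 0
    have hTm : ∀ k, T (k + m) = T m * T k := by
      intro k
      induction k with
      | zero =>
        rw [zero_add, hT0]
        have := hTp m
        rw [hcm] at this
        exact this.symm
      | succ k ih =>
        rw [show k + 1 + m = (k + m) + 1 by omega, hTs, ih, hper, hTs, mul_assoc]
    have hpw : ∀ a k, T (k + a * m) = pw (T m) (p (E.s (c 0))) a * T k := by
      intro a
      induction a with
      | zero =>
        intro k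
        rw [zero_mul, add_zero]
        exact (hqT k).symm
      | succ a ih =>
        intro k
        rw [show k + (a + 1) * m = (k + a * m) + m by ring, hTm, ih k, ← mul_assoc]
        congr 1
        unfold pw
        rw [Function.iterate_succ_apply']
    have hpwq : ∀ a, pw (T m) (p (E.s (c 0))) a * p (E.s (c 0))
        = pw (T m) (p (E.s (c 0))) a := by
      intro a
      induction a with
      | zero => exact (h.proj _).2
      | succ a ih =>
        unfold pw at ih ⊢
        rw [Function.iterate_succ_apply', mul_assoc, ih]
    have hpr : ∀ (u : E.V) (l : List E.Ed) (j : ℕ), T j * pr p S u l = 0 ∨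
        (u = E.s (c (j + l.length)) ∧ T j * pr p S u l = T (j + l.length)) := by
      intro u l
      induction l with
      | nil =>
        intro j
        by_cases hu : u = E.s (c j)
        · right
          refine ⟨by simpa using hu, ?_⟩
          subst hu
          exact hTp j
        · left
          show T j * p u = 0
          rw [← hTp j, mul_assoc, h.orth _ _ (fun h' => hu h'.symm), mul_zero]
      | cons e l ih =>
        intro j
        have hexp : T j * pr p S u (e :: l) = T j * S e * pr p S u l := by
          show T j * (S e * pr p S u l) = _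
          rw [mul_assoc]
        rw [hexp]
        by_cases hs : E.s e = E.s (c j)
        · by_cases hr : E.r e ∈ H
          · have hec := huniq j e hs hr
            rw [hec, ← hTs]
            rcases ih (j + 1) with h1 | ⟨h1, h2⟩
            · exact Or.inl h1
            · right
              rw [List.length_cons, show j + (l.length + 1) = j + 1 + l.length by omega]
              exact ⟨h1, h2⟩
          · left
            rw [hSz e hr, mul_zero, zero_mul]
        · left
          rw [← hTp j, mul_assoc (T j), p_mul_S h _ _ (fun h' => hs h'.symm), mul_zero, zero_mul]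
    have hmem : ∀ k k', E.s (c k) = E.s (c k') →
        T k * star (T k') ∈ Submodule.span ℂ (pws (T m) (p (E.s (c 0)))) := by
      intro k k' hkk
      have hmm := hmod k k' hkk
      apply Submodule.subset_span
      rcases le_total k' k with hle | hle
      · have hd : m ∣ k - k' := (Nat.modEq_iff_dvd' hle).1 hmm.symm
        obtain ⟨a, ha⟩ := hd
        have hk : k = k' + a * m := by rw [mul_comm a m, ← ha]; omega
        refine ⟨a, Or.inl ?_⟩
        rw [hk, hpw, mul_assoc, hTT', hpwq]
      · have hd : m ∣ k' - k := (Nat.modEq_iff_dvd' hle).1 hmm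
        obtain ⟨a, ha⟩ := hd
        have hk : k' = k + a * m := by rw [mul_comm a m, ← ha]; omega
        refine ⟨a, Or.inr ?_⟩
        rw [hk, hpw, star_mul, ← mul_assoc, hTT']
        have := congrArg star (hpwq a)
        rwa [star_mul, (h.proj _).1] at this
    refine ⟨p (E.s (c 0)), T m, hcH 0, h.proj _, ?_, hTT' m, ?_⟩
    · rw [hTT m, hcm]
    · intro x
      refine corner_closure _ _ _ ?_ x (hsp x)
      rintro z ⟨u, l, l', rfl⟩
      have hcalc : p (E.s (c 0)) * (pr p S u l * star (pr p S u l')) * p (E.s (c 0))
          = (T 0 * pr p S u l) * star (T 0 * pr p S u l') := by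
        rw [hT0, star_mul, (h.proj _).1]
        simp only [mul_assoc]
      rw [hcalc]
      rcases hpr u l 0 with h1 | ⟨h1, h1'⟩
      · rw [h1, zero_mul]
        exact Submodule.zero_mem _
      · rcases hpr u l' 0 with h2 | ⟨h2, h2'⟩
        · rw [h2, star_zero, mul_zero]
          exact Submodule.zero_mem _
        · rw [h1', h2']
          exact hmem _ _ (h1.symm.trans h2)

end Pool.Agent.Helper7_GA.G_QT
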