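import Pool.Agent.Helper7_GA.Stm

set_option autoImplicit false

open scoped Matrix.Norms.L2Operator ENNReal Matrix
open Pool.Agent.W659.EC Pool.Agent.Helper7_ND

noncomputable section

namespace Pool.Agent.Helper7_GA.G_SPAN

variable {E : Gr} {A : Type} [NonUnitalCStarAlgebra A] {p : E.V → A} {S : E.Ed → A}

/-- the products `S_α` and `0` -/
def DD (p : E.V → A) (S : E.Ed → A) : Set A := {z | z = 0 ∨ ∃ v l, z = pr p S v l}

/-- the products `x y^*` -/
def TT (p : E.V → A) (S : E.Ed → A) : Set A :=
  {z | ∃ x ∈ DD p S, ∃ y ∈ DD p S, z = x * star y}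

theorem zero_mem : (0 : A) ∈ DD p S := Or.inl rfl

theorem pr_mem (v : E.V) (l : List E.Ed) : pr p S v l ∈ DD p S := Or.inr ⟨v, l, rfl⟩

theorem p_sq (h : IsTCK E p S) (v : E.V) : p v * p v = p v := (h.proj v).2

theorem p_star (h : IsTCK E p S) (v : E.V) : star (p v) = p v := (h.proj v).1

theorem pp (h : IsTCK E p S) (v w : E.V) : p v * p w = p w ∨ p v * p w = 0 := by
  by_cases hv : v = w
  · subst hv
    exact Or.inl (p_sq h v)
  · exact Or.inr (h.orth v w hv)

theorem p_mul_pr (h : IsTCK E p S) (w v : E.V) (l : List E.Ed) :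
    p w * pr p S v l = pr p S v l ∨ p w * pr p S v l = 0 := by
  cases l with
  | nil => exact pp h w v
  | cons e l =>
    change p w * (S e * pr p S v l) = S e * pr p S v l ∨ p w * (S e * pr p S v l) = 0
    have h1 : p w * S e = (p w * p (E.s e)) * S e := by rw [mul_assoc, h.final]
    rcases pp h w (E.s e) with h2 | h2
    · left
      rw [← mul_assoc, h1, h2, h.final]
    · right
      rw [← mul_assoc, h1, h2, zero_mul, zero_mul]

theorem p_mul (h : IsTCK E p S) (w : E.V) {x : A} (hx : x ∈ DD p S) :
    p w * x = x ∨ p w * x = 0 := by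
  rcases hx with rfl | ⟨v, l, rfl⟩
  · exact Or.inr (mul_zero _)
  · exact p_mul_pr h w v l

theorem S_mul (e : E.Ed) {x : A} (hx : x ∈ DD p S) : S e * x ∈ DD p S := by
  rcases hx with rfl | ⟨v, l, rfl⟩
  · rw [mul_zero]; exact zero_mem
  · exact Or.inr ⟨v, e :: l, rfl⟩

theorem pr_mul (h : IsTCK E p S) (v : E.V) (l : List E.Ed) {x : A} (hx : x ∈ DD p S) :
    pr p S v l * x ∈ DD p S := by
  induction l with
  | nil =>
    change p v * x ∈ DD p S
    rcases p_mul h v hx with h1 | h1
    · rw [h1]; exact hx
    · rw [h1]; exact zero_mem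
  | cons e l ih =>
    change S e * pr p S v l * x ∈ DD p S
    rw [mul_assoc]
    exact S_mul e ih

theorem D_mul (h : IsTCK E p S) {x y : A} (hx : x ∈ DD p S) (hy : y ∈ DD p S) :
    x * y ∈ DD p S := by
  rcases hx with rfl | ⟨v, l, rfl⟩
  · rw [zero_mul]; exact zero_mem
  · exact pr_mul h v l hy

theorem pr_star_mul (h : IsTCK E p S) (v w : E.V) (l m : List E.Ed) :
    star (pr p S v l) * pr p S w m ∈ DD p S ∨ star (pr p S w m) * pr p S v l ∈ DD p S := by
  induction l generalizing m with
  | nil =>
    left
    change star (p v) * _ ∈ _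
    rw [p_star h]
    exact pr_mul h v [] (pr_mem w m)
  | cons e l ih =>
    cases m with
    | nil =>
      right
      change star (p w) * _ ∈ _
      rw [p_star h]
      exact pr_mul h w [] (pr_mem v _)
    | cons f m =>
      change star (S e * pr p S v l) * (S f * pr p S w m) ∈ DD p S ∨
        star (S f * pr p S w m) * (S e * pr p S v l) ∈ DD p S
      have key : ∀ x y : A, star (S e * x) * (S f * y) = star x * ((star (S e) * S f) * y) := by
        intro x y
        rw [star_mul]
        simp only [mul_assoc]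
      by_cases hef : e = f
      · subst hef
        have key2 : ∀ x y : A, star (S e * x) * (S e * y) = star x * (p (E.r e) * y) := by
          intro x y
          rw [key, h.init]
        rw [key2, key2]
        rcases p_mul_pr h (E.r e) w m with h1 | h1
        · rcases p_mul_pr h (E.r e) v l with h2 | h2
          · rw [h1, h2]
            exact ih m
          · right
            rw [h2, mul_zero]
            exact zero_mem
        · left
          rw [h1, mul_zero]
          exact zero_mem
      · left
        rw [key, h.ranges e f hef, zero_mul, mul_zero]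
        exact zero_mem

theorem D_star_mul (h : IsTCK E p S) {x y : A} (hx : x ∈ DD p S) (hy : y ∈ DD p S) :
    star x * y ∈ DD p S ∨ star y * x ∈ DD p S := by
  rcases hx with rfl | ⟨v, l, rfl⟩
  · left; rw [star_zero, zero_mul]; exact zero_mem
  · rcases hy with rfl | ⟨w, m, rfl⟩
    · left; rw [mul_zero]; exact zero_mem
    · exact pr_star_mul h v w l m

theorem T_mul (h : IsTCK E p S) {x y : A} (hx : x ∈ TT p S) (hy : y ∈ TT p S) :
    x * y ∈ TT p S := by
  obtain ⟨a, ha, b, hb, rfl⟩ := hx
  obtain ⟨c, hc, d, hd, rfl⟩ := hy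
  rcases D_star_mul h hb hc with h1 | h1
  · refine ⟨a * (star b * c), D_mul h ha h1, d, hd, ?_⟩
    simp only [mul_assoc]
  · refine ⟨a, ha, d * (star c * b), D_mul h hd h1, ?_⟩
    rw [star_mul, star_mul, star_star]
    simp only [mul_assoc]

theorem T_star {x : A} (hx : x ∈ TT p S) : star x ∈ TT p S := by
  obtain ⟨a, ha, b, hb, rfl⟩ := hx
  exact ⟨b, hb, a, ha, by rw [star_mul, star_star]⟩

/-- the span as a star subalgebra -/
def alg (h : IsTCK E p S) : NonUnitalStarSubalgebra ℂ A where
  carrier := (Submodule.span ℂ (TT p S) : Set A)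
  add_mem' := fun ha hb => Submodule.add_mem _ ha hb
  zero_mem' := Submodule.zero_mem _
  smul_mem' := fun c _ hx => Submodule.smul_mem _ c hx
  mul_mem' := by
    intro a b ha hb
    refine Submodule.span_induction (p := fun x _ => x * b ∈ Submodule.span ℂ (TT p S)) ?_ ?_ ?_ ?_
      ha
    · intro x hx
      refine Submodule.span_induction (p := fun y _ => x * y ∈ Submodule.span ℂ (TT p S))
        ?_ ?_ ?_ ?_ hb
      · intro y hy
        exact Submodule.subset_span (T_mul h hx hy)
      · rw [mul_zero]; exact Submodule.zero_mem _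
      · intro y z _ _ h1 h2
        rw [mul_add]; exact Submodule.add_mem _ h1 h2
      · intro c y _ h1
        rw [mul_smul_comm]; exact Submodule.smul_mem _ c h1
    · rw [zero_mul]; exact Submodule.zero_mem _
    · intro y z _ _ h1 h2
      rw [add_mul]; exact Submodule.add_mem _ h1 h2
    · intro c y _ h1
      rw [smul_mul_assoc]; exact Submodule.smul_mem _ c h1
  star_mem' := by
    intro a ha
    refine Submodule.span_induction (p := fun x _ => star x ∈ Submodule.span ℂ (TT p S)) ?_ ?_ ?_ ?_
      ha
    · intro x hx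
      exact Submodule.subset_span (T_star hx)
    · rw [star_zero]; exact Submodule.zero_mem _
    · intro y z _ _ h1 h2
      rw [star_add]; exact Submodule.add_mem _ h1 h2
    · intro c y _ h1
      rw [star_smul]; exact Submodule.smul_mem _ _ h1

theorem S_p (h : IsTCK E p S) (e : E.Ed) : S e * p (E.r e) = S e := by
  have h1 : star (S e - S e * p (E.r e)) * (S e - S e * p (E.r e)) = 0 := by
    rw [star_sub, star_mul, p_star h, sub_mul, mul_sub, mul_sub]
    have e1 : star (S e) * (S e * p (E.r e)) = p (E.r e) := by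
      rw [← mul_assoc, h.init, p_sq h]
    have e2 : p (E.r e) * star (S e) * S e = p (E.r e) := by
      rw [mul_assoc, h.init, p_sq h]
    have e3 : p (E.r e) * star (S e) * (S e * p (E.r e)) = p (E.r e) := by
      rw [mul_assoc, e1, p_sq h]
    rw [h.init, e1, e2, e3]
    simp
  have h2 := CStarRing.star_mul_self_eq_zero_iff (S e - S e * p (E.r e))
  exact (sub_eq_zero.1 (h2.1 h1)).symm

theorem pr_mul_p (h : IsTCK E p S) (v : E.V) (l : List E.Ed) :
    pr p S v l * p v = pr p S v l := by
  induction l with
  | nil => exact p_sq h v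
  | cons e l ih =>
    change S e * pr p S v l * p v = S e * pr p S v l
    rw [mul_assoc, ih]

theorem T_le (h : IsTCK E p S) : Submodule.span ℂ (TT p S) ≤
    Submodule.span ℂ {z : A | ∃ (v : E.V) (l l' : List E.Ed),
      z = pr p S v l * star (pr p S v l')} := by
  refine Submodule.span_le.2 ?_
  rintro z ⟨x, hx, y, hy, rfl⟩
  rcases hx with rfl | ⟨v, l, rfl⟩
  · rw [zero_mul]; exact Submodule.zero_mem _
  · rcases hy with rfl | ⟨w, m, rfl⟩
    · rw [star_zero, mul_zero]; exact Submodule.zero_mem _
    · by_cases hvw : v = w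
      · subst hvw
        exact Submodule.subset_span ⟨v, l, m, rfl⟩
      · have h1 : pr p S v l * star (pr p S w m) = 0 := by
          rw [← pr_mul_p h v l, ← pr_mul_p h w m, star_mul, p_star h, mul_assoc,
            ← mul_assoc (p v), h.orth v w hvw, zero_mul, mul_zero]
        rw [h1]; exact Submodule.zero_mem _

theorem t_SPAN : StSPAN := by
  intro E A _ p S h hg a
  have h1 : a ∈ (alg h).topologicalClosure := by
    refine hg _ (NonUnitalStarSubalgebra.isClosed_topologicalClosure _) ?_ a
    refine Set.Subset.trans ?_ (NonUnitalStarSubalgebra.le_topologicalClosure (alg h))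
    rintro x (⟨v, rfl⟩ | ⟨e, rfl⟩)
    · refine Submodule.subset_span ⟨p v, pr_mem v [], p v, pr_mem v [], ?_⟩
      rw [p_star h, p_sq h]
    · refine Submodule.subset_span ⟨pr p S (E.r e) [e], pr_mem _ _, p (E.r e), pr_mem (E.r e) [],
        ?_⟩
      change S e = S e * p (E.r e) * star (p (E.r e))
      rw [p_star h, S_p h, S_p h]
  exact closure_mono (T_le h) h1

end Pool.Agent.Helper7_GA.G_SPAN
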