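import Pool.Agent.Helper7_GA.Stm

/-
Project MP_3e68b9_an (owner helper7): every graph C*-algebra of a graph in which no vertex lies on two different cycles has nuclear dimension at most 1 (more generally the
nuclear dimension is at most max(1, nucDim I) if this holds for the vertices whose projection is not in the ideal I). URGENT: the theorem has to be assembled by 19:05 UTC today
(Nov 27); please return this part within 20 minutes.
SETUP: in /workdir/pool/outputs/live: git fetch -q; then copy from origin/main to /workdir/pool at the same paths the directories Pool/Agent/Helper7_GA/, Pool/Agent/Helper7_ND/ and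
Pool/Agent/W659/EC/ (git archive origin/main Pool/Agent/Helper7_GA Pool/Agent/Helper7_ND Pool/Agent/W659/EC | tar x -C /workdir/pool); then lake build Pool.Agent.Helper7_GA.Stm.
Definitions: Helper7_GA/Defs.lean (Gr, Gr.Reach, Gr.AtMostOneCycle, IsTCK, Gen), Helper7_GA/Stm.lean (statements of all parts; pw, pws, TameU, pr), Helper7_ND/Stm.lean (Pos, Prj, Sys,
SysAll, IsIdeal, IsExt), Stm4.lean (SysC), Stm5.lean (IsHer, Part, StHER, StHG, StIG, StPRE, StABL, StCHN, StQUO, ...), Stm7.lean (SysD, StCORE3, StCD), W659/EC/Defs.lean (FDA, nucDim). Useful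
lemmas: Helper7_ND/Rp.lean (Pos.add, Pos.conj, Pos.map, Pos.sum, Pos.smul, IsCP.pos, conjL, ...), W659/EC/CP.lean and CP2.lean (IsCP, IsCPC, isCP_hom, nonneg_iff_star, mpos_iff, IsCP.norm_le,
IsCP.isCPC, ...). For the order use `let _ := CStarAlgebra.spectralOrder A; let _ := CStarAlgebra.spectralOrderedRing A` (Pos a is then 0 <= a by CStarAlgebra.nonneg_iff_eq_star_mul_self).
You may import proved files Helper7_ND/J_*.lean and use their lemmas. Return a complete file that compiles (write it to jobs.result), no sorry, no axioms beyond the three, following RULES.md (no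
banned words or characters: no double quotes, no `notation`, `macro`, `partial`, `Lean.`, and so on), all helper lemmas inside the namespace; do not change Defs.lean, Stm.lean. If the statement
is false or lacks a hypothesis tell helper7 AT ONCE (messages). If you have not finished after 35 minutes write what you have (with the sorrys) to jobs.result and say what is missing.

TARGET t_TERM : StTERM.
PROOF. For v ∈ H let R(v) be the set of vertices reachable from v by paths all of whose edges have source and range in H (Relation.ReflTransGen of v ↦ w iff ∃ e, s e = v, r e = w, w ∈ H), a finite subset of H. Choose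
v ∈ H with R(v) of minimal cardinality. If u ∈ R(v) then R(u) ⊂ R(v), so R(u) = R(v) ∋ v: every u ∈ R(v) reaches v. Let u ∈ R(v) and e an edge with s e = u, r e ∈ H: then r e ∈ R(v), so r e reaches v and then u: e lies on a closed path
at u; two such edges coincide (AtMostOneCycle). So each u ∈ R(v) emits exactly one edge nx(u) with range in H, and its range is in R(v). Let u_0 = v, c k = nx(u_k), u_{k+1} = r (c k). As v is reachable from u_1 = r (c 0) and
the paths in H from u_1 are unique, u_k = v for some k > 0; let m be the least k > 0 with u_k = v. Then u_{k+m} = u_k (deterministic), and u_0, ..., u_{m-1} are different (if u_k = u_l with 0 <= k < l < m then going on m - l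
steps u_{k + m - l} = u_m = v with 0 < k + m - l < m, contradiction). Function.minimalPeriod / Function.IsPeriodicPt may help.
-/

set_option autoImplicit false

open scoped Matrix.Norms.L2Operator ENNReal Matrix
open Pool.Agent.W659.EC Pool.Agent.Helper7_ND

noncomputable section

namespace Pool.Agent.Helper7_GA.G_TERM

theorem t_TERM : StTERM := by
  classical
  intro E H hfin hne hout hone
  obtain ⟨Rel, hRel⟩ : ∃ Rel : E.V → E.V → Prop,
      Rel = fun v w => ∃ e : E.Ed, E.s e = v ∧ E.r e = w ∧ w ∈ H := ⟨_, rfl⟩
  have hRel' : ∀ v w, Rel v w ↔ ∃ e : E.Ed, E.s e = v ∧ E.r e = w ∧ w ∈ H := by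
    intro v w
    rw [hRel]
  have hH : ∀ v w, v ∈ H → Relation.ReflTransGen Rel v w → w ∈ H := by
    intro v w hv h
    induction h with
    | refl => exact hv
    | tail _ h2 _ =>
      obtain ⟨e, -, -, h3⟩ := (hRel' _ _).1 h2
      exact h3
  have hReach : ∀ v w, Relation.ReflTransGen Rel v w → E.Reach v w := by
    intro v w h
    induction h with
    | refl => exact Relation.ReflTransGen.refl
    | tail _ h2 ih =>
      obtain ⟨e, h3, h4, -⟩ := (hRel' _ _).1 h2
      exact Relation.ReflTransGen.tail ih ⟨e, h3, h4⟩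
  obtain ⟨v0, hv0, hmin⟩ := Set.exists_min_image H
    (fun v => {w | Relation.ReflTransGen Rel v w}.ncard) hfin hne
  have hback : ∀ u, Relation.ReflTransGen Rel v0 u → Relation.ReflTransGen Rel u v0 := by
    intro u hu
    have huH : u ∈ H := hH v0 u hv0 hu
    have hsub : {w | Relation.ReflTransGen Rel u w} ⊆ {w | Relation.ReflTransGen Rel v0 w} :=
      fun w hw => hu.trans hw
    have hf0 : {w | Relation.ReflTransGen Rel v0 w}.Finite :=
      hfin.subset (fun w hw => hH v0 w hv0 hw)
    have heq := Set.eq_of_subset_of_ncard_le hsub (hmin u huH) hf0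
    have : v0 ∈ {w | Relation.ReflTransGen Rel u w} := by
      rw [heq]
      exact Relation.ReflTransGen.refl
    exact this
  -- an edge at a vertex of the class returns to it
  have hret : ∀ (u : E.V) (e : E.Ed), Relation.ReflTransGen Rel v0 u → E.s e = u → E.r e ∈ H →
      Relation.ReflTransGen Rel v0 (E.r e) ∧ E.Reach (E.r e) u := by
    intro u e hu hs hr
    have h1 : Relation.ReflTransGen Rel v0 (E.r e) :=
      hu.tail ((hRel' _ _).2 ⟨e, hs, rfl, hr⟩)
    exact ⟨h1, hReach _ _ ((hback _ h1).trans hu)⟩
  have huniq : ∀ (u : E.V) (e f : E.Ed), Relation.ReflTransGen Rel v0 u → E.s e = u →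
      E.r e ∈ H → E.s f = u → E.r f ∈ H → e = f := by
    intro u e f hu hs hr hs' hr'
    exact hone u (hH v0 u hv0 hu) e f hs hs' (hret u e hu hs hr).2 (hret u f hu hs' hr').2
  have hex : ∀ u : {u : E.V // Relation.ReflTransGen Rel v0 u}, ∃ e : E.Ed,
      E.s e = u.1 ∧ E.r e ∈ H := fun u => hout u.1 (hH v0 u.1 hv0 u.2)
  choose nx hnx1 hnx2 using hex
  obtain ⟨g, hg⟩ : ∃ g : {u : E.V // Relation.ReflTransGen Rel v0 u} →
      {u : E.V // Relation.ReflTransGen Rel v0 u}, ∀ u, (g u).1 = E.r (nx u) :=
    ⟨fun u => ⟨E.r (nx u), (hret u.1 (nx u) u.2 (hnx1 u) (hnx2 u)).1⟩, fun u => rfl⟩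
  have hpath : ∀ (x : {u : E.V // Relation.ReflTransGen Rel v0 u}) (w : E.V),
      Relation.ReflTransGen Rel x.1 w → ∃ k : ℕ, (g^[k] x).1 = w := by
    intro x w h
    induction h with
    | refl => exact ⟨0, rfl⟩
    | tail _ h2 ih =>
      obtain ⟨k, hk⟩ := ih
      obtain ⟨e, h3, h4, h5⟩ := (hRel' _ _).1 h2
      refine ⟨k + 1, ?_⟩
      rw [Function.iterate_succ_apply', hg]
      have h6 : nx (g^[k] x) = e := by
        refine huniq (g^[k] x).1 _ _ (g^[k] x).2 (hnx1 _) (hnx2 _) ?_ ?_
        · rw [h3, hk]
        · rw [h4]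
          exact h5
      rw [h6, h4]
  obtain ⟨x0, hx0⟩ : ∃ x0 : {u : E.V // Relation.ReflTransGen Rel v0 u}, x0.1 = v0 :=
    ⟨⟨v0, Relation.ReflTransGen.refl⟩, rfl⟩
  have hper : x0 ∈ Function.periodicPts g := by
    obtain ⟨k, hk⟩ := hpath (g x0) v0 (hback _ (g x0).2)
    refine ⟨k + 1, Nat.succ_pos k, ?_⟩
    show g^[k + 1] x0 = x0
    rw [Function.iterate_succ_apply]
    exact Subtype.ext (hk.trans hx0.symm)
  have hm : 0 < Function.minimalPeriod g x0 := Function.minimalPeriod_pos_of_mem_periodicPts hper
  have hs : ∀ k, E.s (nx (g^[k] x0)) = (g^[k] x0).1 := fun k => hnx1 _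
  refine ⟨fun k => nx (g^[k] x0), Function.minimalPeriod g x0, hm, ?_, ?_, ?_, ?_, ?_⟩
  · intro k
    show E.s (nx (g^[k] x0)) ∈ H
    rw [hs]
    exact hH v0 _ hv0 (g^[k] x0).2
  · intro k
    show E.r (nx (g^[k] x0)) = E.s (nx (g^[k + 1] x0))
    rw [hs, Function.iterate_succ_apply', hg]
  · intro k
    show nx (g^[k + Function.minimalPeriod g x0] x0) = nx (g^[k] x0)
    rw [Function.iterate_add_apply, Function.iterate_minimalPeriod]
  · intro k l hkl
    have h1 : E.s (nx (g^[k] x0)) = E.s (nx (g^[l] x0)) := hkl
    rw [hs, hs] at h1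
    have h2 : g^[k] x0 = g^[l] x0 := Subtype.ext h1
    have h3 : g^[k % Function.minimalPeriod g x0] x0 = g^[l % Function.minimalPeriod g x0] x0 := by
      rw [Function.iterate_mod_minimalPeriod_eq, Function.iterate_mod_minimalPeriod_eq, h2]
    exact Function.iterate_injOn_Iio_minimalPeriod (Set.mem_Iio.2 (Nat.mod_lt _ hm))
      (Set.mem_Iio.2 (Nat.mod_lt _ hm)) h3
  · intro k e he hr
    have he' : E.s e = E.s (nx (g^[k] x0)) := he
    rw [hs] at he'
    exact huniq (g^[k] x0).1 _ _ (g^[k] x0).2 he' hr (hnx1 _) (hnx2 _)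

end Pool.Agent.Helper7_GA.G_TERM

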