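import Pool.Agent.Helper7_GA.Stm2

/-! # Extension of a completely positive contractive map to the unitization -/

set_option autoImplicit false

open scoped Matrix.Norms.L2Operator ENNReal Matrix
open Pool.Agent.W659.EC Pool.Agent.Helper7_ND

noncomputable section

namespace Pool.Agent.Helper7_GA.G_UNI

section aux

variable {B : Type} [NonUnitalCStarAlgebra B] {D : Type} [CStarAlgebra D]

/-- an approximate unit of elements of norm at most one -/
theorem au (X : Type) [NonUnitalCStarAlgebra X] :
    ∃ l : Filter X, l.NeBot ∧ (∀ᶠ e in l, ‖e‖ ≤ 1) ∧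
      (∀ x : X, Filter.Tendsto (fun e => x * e) l (nhds x)) ∧
      ∀ x : X, Filter.Tendsto (fun e => star e * x) l (nhds x) := by
  let _ := CStarAlgebra.spectralOrder X
  let _ := CStarAlgebra.spectralOrderedRing X
  have h := (CStarAlgebra.increasingApproximateUnit (A := X))
  refine ⟨_, h.neBot, h.eventually_norm, h.tendsto_mul_left, fun x => ?_⟩
  have h1 := (continuous_star.tendsto (star x)).comp (h.tendsto_mul_left (star x))
  rw [star_star] at h1
  refine h1.congr fun e => ?_
  simp

/-- the extension -/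
def ext1 (ψ : B →ₗ[ℂ] D) : Unitization ℂ B →ₗ[ℂ] D where
  toFun x := x.fst • (1 : D) + ψ x.snd
  map_add' x y := by
    simp only [Unitization.fst_add, Unitization.snd_add, map_add, add_smul]
    abel
  map_smul' c x := by
    simp only [Unitization.fst_smul, Unitization.snd_smul, map_smul, smul_add, smul_smul,
      RingHom.id_apply, smul_eq_mul]

theorem ext1_apply (ψ : B →ₗ[ℂ] D) (x : Unitization ℂ B) :
    ext1 ψ x = x.fst • (1 : D) + ψ x.snd := rfl

theorem cut (x : Unitization ℂ B) (e : B) :
    (star (e : Unitization ℂ B) * x * (e : Unitization ℂ B)).snd =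
      x.fst • (star e * e) + star e * x.snd * e := by
  simp [add_mul, smul_mul_assoc]

theorem one_sub {ψ : B →ₗ[ℂ] D} (h : IsCPC ψ) (e : B) (he : ‖e‖ ≤ 1) :
    ∃ g : D, 1 - ψ (star e * e) = star g * g := by
  let _ := CStarAlgebra.spectralOrder D
  let _ := CStarAlgebra.spectralOrderedRing D
  have h0 : 0 ≤ ψ (star e * e) := h.1.nonneg e
  have h1 : ‖ψ (star e * e)‖ ≤ 1 := by
    refine (h.2 _).trans ?_
    rw [CStarRing.norm_star_mul_self]
    nlinarith [norm_nonneg e]
  have h2 := (CStarAlgebra.norm_le_one_iff_of_nonneg _ h0).1 h1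
  exact (nonneg_iff_star _).1 (sub_nonneg.2 h2)

theorem approx {ψ : B →ₗ[ℂ] D} (h : IsCPC ψ) {k : ℕ}
    (M : Matrix (Fin k) (Fin k) (Unitization ℂ B)) (e : B) (he : ‖e‖ ≤ 1) :
    MPos (Matrix.of fun i j => ((Mᴴ * M) i j).fst • (1 : D) +
      ψ (star e * ((Mᴴ * M) i j).snd * e)) := by
  obtain ⟨g, hg⟩ := one_sub h e he
  -- the scalar part
  have h1 : MPos (Matrix.of fun i j => ((Mᴴ * M) i j).fst • (1 - ψ (star e * e))) := by
    refine ⟨Matrix.of fun l j => (M l j).fst • g, ?_⟩
    ext i j
    rw [hg, Matrix.of_apply, Matrix.mul_apply, Matrix.mul_apply]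
    have h2 : (∑ l, Mᴴ i l * M l j).fst = ∑ l, star (M l i).fst * (M l j).fst := by
      have h3 : (∑ l, Mᴴ i l * M l j).fst = ∑ l, (Mᴴ i l * M l j).fst :=
        map_sum (Unitization.fstHom ℂ B) (fun l => Mᴴ i l * M l j) Finset.univ
      rw [h3]
      refine Finset.sum_congr rfl fun l _ => ?_
      rw [Unitization.fst_mul, Matrix.conjTranspose_apply, Unitization.fst_star]
    rw [h2, Finset.sum_smul]
    refine Finset.sum_congr rfl fun l _ => ?_
    simp only [Matrix.conjTranspose_apply, Matrix.of_apply, star_smul, smul_mul_assoc,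
      mul_smul_comm, smul_smul]
    rw [mul_comm]
  -- the compressed part
  have h4 : MPos ((Matrix.of fun i j => (star (e : Unitization ℂ B) * (Mᴴ * M) i j *
      (e : Unitization ℂ B)).snd).map ψ) := by
    refine (isCP_iff.1 h.1) k _ ⟨Matrix.of fun l j => (M l j * (e : Unitization ℂ B)).snd, ?_⟩
    ext i j
    rw [Matrix.of_apply]
    have h5 : ∀ l j, ((M l j * (e : Unitization ℂ B)).snd : Unitization ℂ B) =
        M l j * (e : Unitization ℂ B) := by
      intro l j
      ext <;> simp
    have h6 : ((star (e : Unitization ℂ B) * (Mᴴ * M) i j * (e : Unitization ℂ B)).snd :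
        Unitization ℂ B) = star (e : Unitization ℂ B) * (Mᴴ * M) i j * (e : Unitization ℂ B) := by
      ext <;> simp
    apply Unitization.inr_injective (R := ℂ)
    rw [h6, Matrix.mul_apply, Matrix.mul_apply]
    have h7 : ∀ f : Fin k → B, ((∑ l, f l : B) : Unitization ℂ B) =
        ∑ l, (f l : Unitization ℂ B) := fun f =>
      map_sum (Unitization.inrNonUnitalAlgHom ℂ B) f Finset.univ
    rw [h7, Finset.mul_sum, Finset.sum_mul]
    refine Finset.sum_congr rfl fun l _ => ?_
    have h9 : ((Matrix.of fun l j => (M l j * (e : Unitization ℂ B)).snd)ᴴ i l : B) =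
        star (M l i * (e : Unitization ℂ B)).snd := rfl
    rw [Unitization.inr_mul, h9, Matrix.conjTranspose_apply]
    rw [Matrix.of_apply, Unitization.inr_star, h5, h5, star_mul]
    simp only [mul_assoc]
  have h8 := h1.add h4
  convert h8 using 1
  ext i j
  simp only [Matrix.add_apply, Matrix.of_apply, Matrix.map_apply, cut, map_add, map_smul]
  rw [smul_sub]
  abel

theorem lim2 {l : Filter B} (hn : ∀ᶠ e in l, ‖e‖ ≤ 1)
    (hr : ∀ x : B, Filter.Tendsto (fun e => x * e) l (nhds x))
    (hs : ∀ x : B, Filter.Tendsto (fun e => star e * x) l (nhds x)) (b : B) :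
    Filter.Tendsto (fun e : B => star e * b * e) l (nhds b) := by
  rw [tendsto_iff_norm_sub_tendsto_zero]
  have ha := tendsto_iff_norm_sub_tendsto_zero.1 (hr b)
  have hb := tendsto_iff_norm_sub_tendsto_zero.1 (hs b)
  have hab := ha.add hb
  rw [add_zero] at hab
  refine squeeze_zero' (Filter.Eventually.of_forall fun e => norm_nonneg _) ?_ hab
  filter_upwards [hn] with e he
  have h1 : star e * b * e - b = star e * (b * e - b) + (star e * b - b) := by
    rw [mul_sub, mul_assoc]
    abel
  rw [h1]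
  refine (norm_add_le _ _).trans ?_
  have h2 : ‖star e * (b * e - b)‖ ≤ ‖b * e - b‖ := by
    refine (norm_mul_le _ _).trans ?_
    rw [norm_star]
    nlinarith [norm_nonneg (b * e - b)]
  linarith

theorem isCP_ext1 {ψ : B →ₗ[ℂ] D} (h : IsCPC ψ) : IsCP (ext1 ψ) := by
  let _ := CStarAlgebra.spectralOrder D
  let _ := CStarAlgebra.spectralOrderedRing D
  intro k M
  change MPos _
  obtain ⟨l, hl, hn, hr, hs⟩ := au B
  have hψ : Continuous ψ := (ψ.mkContinuous 1 (fun x => by rw [one_mul]; exact h.2 x)).continuous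
  have hlim : Filter.Tendsto (fun e : B => CStarMatrix.ofMatrix (Matrix.of fun i j =>
      ((Mᴴ * M) i j).fst • (1 : D) + ψ (star e * ((Mᴴ * M) i j).snd * e))) l
      (nhds (CStarMatrix.ofMatrix ((Mᴴ * M).map (ext1 ψ)))) := by
    have hm : Filter.Tendsto (fun e : B => (Matrix.of fun i j =>
        ((Mᴴ * M) i j).fst • (1 : D) + ψ (star e * ((Mᴴ * M) i j).snd * e) :
        Matrix (Fin k) (Fin k) D)) l (nhds ((Mᴴ * M).map (ext1 ψ))) := by
      refine tendsto_pi_nhds.2 fun i => tendsto_pi_nhds.2 fun j => ?_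
      have h1 := lim2 hn hr hs ((Mᴴ * M) i j).snd
      exact tendsto_const_nhds.add ((hψ.tendsto _).comp h1)
    exact ((CStarMatrix.ofMatrixL (m := Fin k) (n := Fin k) (A := D)).continuous.tendsto _).comp hm
  rw [mpos_iff]
  refine ge_of_tendsto hlim ?_
  filter_upwards [hn] with e he
  exact (mpos_iff _).1 (approx h M e he)

end aux

theorem t_UNI : StUNI := by
  intro B _ F ψ h
  refine ⟨ext1 ψ, isCP_ext1 h, ?_, fun b => ?_⟩
  · rw [ext1_apply]
    simp
  · rw [ext1_apply]
    simp

end Pool.Agent.Helper7_GA.G_UNI
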