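import Pool.Agent.Helper7_GA.Stm
import Pool.Agent.Helper7_ND.J_STEP
import Pool.Agent.Helper7_ND.J_MAIN3

/-! # Algebras all of whose quotients have a tame corner (the Zorn argument) -/

set_option autoImplicit false

open scoped Matrix.Norms.L2Operator ENNReal Matrix
open Pool.Agent.W659.EC Pool.Agent.Helper7_ND

noncomputable section

namespace Pool.Agent.Helper7_GA.G_ZN

section pwl

variable {X Y : Type} [NonUnitalCStarAlgebra X] [NonUnitalCStarAlgebra Y]

theorem pw_zero (w q : X) : pw w q 0 = q := rfl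

theorem pw_succ (w q : X) (n : ℕ) : pw w q (n + 1) = w * pw w q n := by
  unfold pw
  rw [Function.iterate_succ_apply']

theorem map_pw (g : X →⋆ₙₐ[ℂ] Y) (w q : X) (n : ℕ) : g (pw w q n) = pw (g w) (g q) n := by
  induction n with
  | zero => rfl
  | succ n ih => rw [pw_succ, pw_succ, map_mul, ih]

/-- the elements commuting with `w` and its adjoint -/
def Cm (w x : X) : Prop := x * w = w * x ∧ x * star w = star w * x

theorem Cm.st {w x : X} (h : Cm w x) : Cm w (star x) := by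
  constructor
  · have := congrArg Star.star h.2
    rw [star_mul, star_mul, star_star] at this
    exact this.symm
  · have := congrArg Star.star h.1
    rw [star_mul, star_mul] at this
    exact this.symm

theorem Cm.mul {w x y : X} (h : Cm w x) (h' : Cm w y) : Cm w (x * y) :=
  ⟨by rw [mul_assoc, h'.1, ← mul_assoc, h.1, mul_assoc],
    by rw [mul_assoc, h'.2, ← mul_assoc, h.2, mul_assoc]⟩

theorem Cm.comm_pw {w q x : X} (hq : star w * w = q) (h : Cm w x) (n : ℕ) :
    x * pw w q n = pw w q n * x := by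
  induction n with
  | zero =>
    rw [pw_zero, ← hq, ← mul_assoc, h.2, mul_assoc, h.1, mul_assoc]
  | succ n ih => rw [pw_succ, ← mul_assoc, h.1, mul_assoc, ih, mul_assoc]

theorem Cm.comm_pws {w q x : X} (hq : star w * w = q) (h : Cm w x) :
    ∀ z ∈ pws w q, x * z = z * x := by
  rintro z ⟨n, rfl | rfl⟩
  · exact h.comm_pw hq n
  · have h1 := congrArg Star.star (h.st.comm_pw hq n)
    rw [star_mul, star_mul, star_star] at h1
    exact h1.symm

theorem cm_pws {w q : X} (hq : star w * w = q) (hq' : w * star w = q) :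
    ∀ z ∈ pws w q, Cm w z := by
  have hw : Cm w w := ⟨rfl, by rw [hq, hq']⟩
  have h1 : ∀ n, Cm w (pw w q n) := fun n =>
    ⟨(hw.comm_pw hq n).symm, (hw.st.comm_pw hq n).symm⟩
  rintro z ⟨n, rfl | rfl⟩
  · exact h1 n
  · exact (h1 n).st

theorem comm_span {w q : X} (hq : star w * w = q) (hq' : w * star w = q) :
    ∀ u ∈ (Submodule.span ℂ (pws w q) : Set X), ∀ v ∈ (Submodule.span ℂ (pws w q) : Set X),
      u * v = v * u := by
  have h1 : ∀ v ∈ pws w q, ∀ u ∈ (Submodule.span ℂ (pws w q) : Set X), u * v = v * u := by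
    intro v hv u hu
    induction hu using Submodule.span_induction with
    | mem z hz => exact (cm_pws hq hq' z hz).comm_pws hq v hv
    | zero => rw [zero_mul, mul_zero]
    | add x y _ _ hx hy => rw [add_mul, mul_add, hx, hy]
    | smul c x _ hx => rw [smul_mul_assoc, mul_smul_comm, hx]
  intro u hu v hv
  induction hv using Submodule.span_induction with
  | mem z hz => exact h1 z hz u hu
  | zero => rw [zero_mul, mul_zero]
  | add x y _ _ hx hy => rw [add_mul, mul_add, hx, hy]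
  | smul c x _ hx => rw [smul_mul_assoc, mul_smul_comm, hx]

/-- density is detected by injective homomorphisms -/
theorem dens (g : X →⋆ₙₐ[ℂ] Y) (hg : Function.Injective g) (w q : X) (x : X)
    (h : g x ∈ closure (Submodule.span ℂ (pws (g w) (g q)) : Set Y)) :
    x ∈ closure (Submodule.span ℂ (pws w q) : Set X) := by
  have hcl : IsClosed (g '' closure (Submodule.span ℂ (pws w q) : Set X)) :=
    (J_STEP.isom g hg).isClosedEmbedding.isClosedMap _ isClosed_closure
  have hsub : (Submodule.span ℂ (pws (g w) (g q)) : Set Y) ⊆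
      g '' closure (Submodule.span ℂ (pws w q) : Set X) := by
    intro z hz
    have h1 : ∃ y ∈ Submodule.span ℂ (pws w q), g y = z := by
      induction hz using Submodule.span_induction with
      | mem z hz =>
        obtain ⟨n, rfl | rfl⟩ := hz
        · exact ⟨pw w q n, Submodule.subset_span ⟨n, Or.inl rfl⟩, map_pw g w q n⟩
        · exact ⟨star (pw w q n), Submodule.subset_span ⟨n, Or.inr rfl⟩, by
            rw [map_star, map_pw]⟩
      | zero => exact ⟨0, Submodule.zero_mem _, map_zero g⟩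
      | add a b _ _ ha hb =>
        obtain ⟨a', ha1, ha2⟩ := ha
        obtain ⟨b', hb1, hb2⟩ := hb
        exact ⟨a' + b', Submodule.add_mem _ ha1 hb1, by rw [map_add, ha2, hb2]⟩
      | smul c a _ ha =>
        obtain ⟨a', ha1, ha2⟩ := ha
        exact ⟨c • a', Submodule.smul_mem _ c ha1, by rw [map_smul, ha2]⟩
    obtain ⟨y, hy, hyz⟩ := h1
    exact ⟨y, subset_closure hy, hyz⟩
  obtain ⟨y, hy, hyx⟩ := closure_minimal hsub hcl h
  rw [← hg hyx]
  exact hy

end pwl

/-- the ideal generated by the projection has approximations with commuting colours -/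
theorem core (hHG : StHG) (hIG : StIG) (hABL : StABL) (hPU : StPU) (Q : Type)
    [NonUnitalCStarAlgebra Q] (J : Type) [Fintype J] (i j : J) (hij : i ≠ j) (hT : TameU Q) :
    ∃ (K₀ : Type) (_ : NonUnitalCStarAlgebra K₀) (κ₀ : K₀ →⋆ₙₐ[ℂ] Q), IsIdeal κ₀ ∧
      Nontrivial K₀ ∧ SysC K₀ J := by
  obtain ⟨q, w, hq0, hqP, hw1, hw2, hcl⟩ := hT
  have hqw : q * w = w * q := by rw [← hw2, mul_assoc, hw1, hw2]
  have hwq : w * q = w := by
    have h1 : star (w * q - w) * (w * q - w) = 0 := by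
      have e1 : star (w * q - w) * (w * q - w) =
          q * (star w * w) * q - q * (star w * w) - (star w * w) * q + star w * w := by
        rw [star_sub, star_mul, hqP.1]
        noncomm_ring
      rw [e1, hw1, hqP.2, hqP.2]
      abel
    exact sub_eq_zero.1 ((CStarRing.star_mul_self_eq_zero_iff _).1 h1)
  obtain ⟨K₀, _, κ₀, hκ₀, ⟨q₀, hq₀⟩, hspan⟩ := hIG Q q
  refine ⟨K₀, inferInstance, κ₀, hκ₀, ?_, ?_⟩
  · refine ⟨q₀, 0, ?_⟩
    rintro rfl
    exact hq0 (by rw [← hq₀, map_zero])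
  have hpos : Pos q₀ := J_STEP.pos_of_inj κ₀ hκ₀.inj q₀ (by
    rw [hq₀]
    exact ⟨q, by rw [hqP.1, hqP.2]⟩)
  obtain ⟨w₀, hw₀⟩ := hκ₀.left w q₀
  rw [hq₀, hwq] at hw₀
  obtain ⟨B, _, β, hβ, hβr, b₀, hb₀⟩ := hHG K₀ q₀ hpos
  obtain ⟨w₁, hw₁⟩ := hβ.her b₀ b₀ w₀
  set g : B →⋆ₙₐ[ℂ] Q := κ₀.comp β with hg
  have hgi : Function.Injective g := hκ₀.inj.comp hβ.inj
  have hgb : g b₀ = q := by
    show κ₀ (β b₀) = q
    rw [hb₀, hq₀]
  have hgw : g w₁ = w := by
    show κ₀ (β w₁) = w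
    rw [hw₁, hb₀, map_mul, map_mul, hq₀, hw₀, hqw, mul_assoc, hqP.2, hwq]
  have hunit : ∀ x : B, q * g x = g x ∧ g x * q = g x := by
    intro x
    have h1 : β x ∈ closure (Set.range fun y : K₀ => q₀ * y * q₀) := by
      rw [← hβr]
      exact ⟨x, rfl⟩
    have hq00 : q₀ * q₀ = q₀ := hκ₀.inj (by rw [map_mul, hq₀, hqP.2])
    have h2 : IsClosed {y : K₀ | q₀ * y = y ∧ y * q₀ = y} :=
      (isClosed_eq (continuous_const.mul continuous_id) continuous_id).inter
        (isClosed_eq (continuous_id.mul continuous_const) continuous_id)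
    have h3 : (Set.range fun y : K₀ => q₀ * y * q₀) ⊆ {y : K₀ | q₀ * y = y ∧ y * q₀ = y} := by
      rintro _ ⟨y, rfl⟩
      refine ⟨?_, ?_⟩
      · show q₀ * (q₀ * y * q₀) = q₀ * y * q₀
        rw [← mul_assoc, ← mul_assoc, hq00]
      · show q₀ * y * q₀ * q₀ = q₀ * y * q₀
        rw [mul_assoc, hq00]
    obtain ⟨h4, h5⟩ := closure_minimal h3 h2 h1
    constructor
    · show q * κ₀ (β x) = κ₀ (β x)
      rw [← hq₀, ← map_mul, h4]
    · show κ₀ (β x) * q = κ₀ (β x)
      rw [← hq₀, ← map_mul, h5]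
  have hbu : ∀ x : B, b₀ * x = x ∧ x * b₀ = x := fun x =>
    ⟨hgi (by rw [map_mul, hgb, (hunit x).1]), hgi (by rw [map_mul, hgb, (hunit x).2])⟩
  have hbP : Prj b₀ :=
    ⟨hgi (by rw [map_star, hgb, hqP.1]), (hbu b₀).1⟩
  have hw11 : star w₁ * w₁ = b₀ := hgi (by rw [map_mul, map_star, hgw, hgb, hw1])
  have hw12 : w₁ * star w₁ = b₀ := hgi (by rw [map_mul, map_star, hgw, hgb, hw2])
  have hden : ∀ x : B, x ∈ closure (Submodule.span ℂ (pws w₁ b₀) : Set B) := by
    intro x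
    apply dens g hgi
    rw [hgw, hgb]
    have := hcl (g x)
    rwa [(hunit x).1, (hunit x).2] at this
  have hcomm : ∀ x y : B, x * y = y * x := fun x y =>
    J_STEP.comm_closure _ (comm_span hw11 hw12) x (hden x) y (hden y)
  have hPart : Part B J := hPU B b₀ w₁ J i j hij hbu hbP hw11 hw12 hden
  exact hABL K₀ B β hcomm hβ (J_STEP.full β κ₀ hκ₀ q b₀ (by rw [hb₀, hq₀]) hspan) J hPart

theorem t_ZN (hHER : StHER) (hHG : StHG) (hIG : StIG) (hPRE : StPRE) (hABL : StABL)
    (hCORE : StCORE3) (hCD : StCD) (hCHN : StCHN) (hQUO : StQUO) (hPU : StPU) : StZN := by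
  intro I A _ _ ι J _ i j hij hid sI htame
  obtain ⟨m, hm0, hm⟩ := zorn_subset_nonempty
    {S : Set A | ∃ (K : Type) (_ : NonUnitalCStarAlgebra K) (κ : K →⋆ₙₐ[ℂ] A), IsIdeal κ ∧
      Set.range κ = S ∧ SysAll K J}
    (by
      intro c hc hch hne
      obtain ⟨K, iK, κ, h1, h2, h3⟩ := hCHN A J c hch hne (fun S hS => hc hS)
      exact ⟨closure (⋃₀ c), ⟨K, iK, κ, h1, h2, h3⟩, fun S hS =>
        (Set.subset_sUnion_of_mem hS).trans subset_closure⟩)
    (Set.range ι) ⟨I, inferInstance, ι, hid, rfl, sI⟩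
  obtain ⟨K, iK, κ, hκ, hrκ, sK⟩ := hm.prop
  by_cases hsur : Function.Surjective κ
  · exact J_MAIN3.sysAll_of_bij hHER κ ⟨hκ.inj, hsur⟩ _ sK
  exfalso
  obtain ⟨Q, iQ, θ, hθ⟩ := hQUO K A κ hκ
  have hθι : ∀ x, θ (ι x) = 0 := by
    intro x
    have he' : ι x ∈ Set.range κ := by
      rw [hrκ]; exact hm0 ⟨x, rfl⟩
    obtain ⟨y, hy⟩ := he'
    exact (hθ.exact (ι x)).2 ⟨y, hy⟩
  have hnt : Nontrivial Q := by
    unfold Function.Surjective at hsur
    push Not at hsur
    obtain ⟨e, he⟩ := hsur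
    refine ⟨θ e, 0, fun h => ?_⟩
    obtain ⟨x, hx⟩ := (hθ.exact e).1 h
    exact he x hx
  obtain ⟨K₀, _, κ₀, hκ₀, hnt₀, hC⟩ := core hHG hIG hABL hPU Q J i j hij
    (htame Q θ hθ.surj hnt hθι)
  obtain ⟨K', iK', κ', ρ, lam, h1, h2, h3, h4, _⟩ := hPRE K A Q K₀ κ θ κ₀ hθ hκ₀
  have sK' : SysAll K' J := hCORE K K' K₀ lam ρ h2 J sK (hCD K₀ J hC)
  have hlt : Set.range κ ⊂ Set.range κ' :=
    J_STEP.ssub κ θ κ₀ κ' ρ lam hθ hκ₀ h2 h3 h4 hnt₀
  have hle : Set.range κ' ≤ m := hm.le_of_ge ⟨K', iK', κ', h1, rfl, sK'⟩ (by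
    rw [← hrκ]; exact hlt.subset)
  rw [← hrκ] at hle
  exact hlt.not_subset hle

end Pool.Agent.Helper7_GA.G_ZN
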