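import Pool.Agent.Helper7_GA.Stm

/-! # Extension of completely positive maps: intermediate statements -/

set_option autoImplicit false

open scoped Matrix.Norms.L2Operator ENNReal Matrix
open Pool.Agent.W659.EC Pool.Agent.Helper7_ND

noncomputable section

namespace Pool.Agent.Helper7_GA

/-- EXT: extension of positive functionals -/
def StEXT : Prop :=
  ∀ (C D : Type) [CStarAlgebra C] [CStarAlgebra D] (γ : C →⋆ₐ[ℂ] D), Function.Injective γ →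
    ∀ f : C →ₗ[ℂ] ℂ, (∀ c : C, ∃ t : ℝ, 0 ≤ t ∧ f (star c * c) = t) →
    ∃ g : D →ₗ[ℂ] ℂ, (∀ d : D, ∃ t : ℝ, 0 ≤ t ∧ g (star d * d) = t) ∧ ∀ c, g (γ c) = f c

/-- UNI: extension to the unitization -/
def StUNI : Prop :=
  ∀ (B : Type) [NonUnitalCStarAlgebra B] (F : FDA) (ψ : B →ₗ[ℂ] F.alg), IsCPC ψ →
    ∃ Ψ : Unitization ℂ B →ₗ[ℂ] F.alg, IsCP Ψ ∧ Ψ 1 = 1 ∧ ∀ b : B, Ψ (b : Unitization ℂ B) = ψ b

/-- ARU: extension in the unital case -/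
def StARU : Prop :=
  ∀ (C D : Type) [CStarAlgebra C] [CStarAlgebra D] (γ : C →⋆ₐ[ℂ] D), Function.Injective γ →
    ∀ (F : FDA) (ψ : C →ₗ[ℂ] F.alg), IsCP ψ →
    ∃ Ψ : D →ₗ[ℂ] F.alg, IsCP Ψ ∧ ∀ c, Ψ (γ c) = ψ c

end Pool.Agent.Helper7_GA
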