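import Pool.Agent.Helper7_ND.All2
import Pool.Agent.Helper7_GA.Stm2
import Pool.Agent.Helper7_GA.G_EXT
import Pool.Agent.Helper7_GA.G_UNI
import Pool.Agent.Helper7_GA.G_ARU
import Pool.Agent.Helper7_GA.G_ARW
import Pool.Agent.Helper7_GA.G_LS
import Pool.Agent.Helper7_GA.G_PU
import Pool.Agent.Helper7_GA.G_ZN
import Pool.Agent.Helper7_GA.G_TERM
import Pool.Agent.Helper7_GA.G_SPAN
import Pool.Agent.Helper7_GA.G_QT
import Pool.Agent.Helper7_GA.G_LF
import Pool.Agent.Helper7_GA.G_FIN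

/-! # Nuclear dimension of graph C*-algebras: all parts together -/

set_option autoImplicit false

open scoped Matrix.Norms.L2Operator ENNReal Matrix
open Pool.Agent.W659.EC Pool.Agent.Helper7_ND

namespace Pool.Agent.Helper7_GA

theorem all_ARV : StARV := G_ARW.t_ARV G_UNI.t_UNI (G_ARU.t_ARU G_EXT.t_EXT)

theorem all_LS : StLS := G_LS.t_LS all_ARV

theorem all_ZN : StZN :=
  G_ZN.t_ZN all_HER J_HG.t_HG J_HG.t_IG J_HG.t_PRE all_ABL all_CORE3 all_CD
    (J_DS.t_CHN J_LOC.t_LOC) J_QUO.t_QUO G_PU.t_PU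

theorem all_QT : StQT := G_QT.t_QT G_TERM.t_TERM G_SPAN.t_SPAN

theorem all_FIN : StFIN := G_FIN.t_FIN J_ND.t_ND all_LS all_ZN all_QT G_LF.t_LF

/-- ideals have smaller nuclear dimension -/
theorem ideal_le {I A : Type} [NonUnitalCStarAlgebra I] [NonUnitalCStarAlgebra A]
    (ι : I →⋆ₙₐ[ℂ] A) (h : IsIdeal ι) : nucDim I ≤ nucDim A := by
  by_cases htop : nucDim A = ⊤
  · rw [htop]; exact le_top
  obtain ⟨N, hN⟩ := ENat.ne_top_iff_exists.1 htop
  have h1 : SysAll A (Option (Fin N)) := J_ND.t_ND.1 A N (by rw [hN])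
  have h2 : SysAll I (Option (Fin N)) := by
    refine all_HER I A ι ⟨h.inj, fun x y a => ?_⟩ _ h1
    obtain ⟨i, hi⟩ := h.right a x
    exact ⟨i * y, by rw [map_mul, hi]⟩
  have h3 := J_ND.t_ND.2 I (Fin N) h2
  rw [Fintype.card_fin] at h3
  rw [← hN]
  exact h3

/-- the zero algebra -/
theorem nucDim_of_subsingleton (K : Type) [NonUnitalCStarAlgebra K] (h : ∀ x y : K, x = y) :
    nucDim K ≤ 0 := by
  have h1 : SysAll K (Option (Fin 0)) := by
    intro G ε hε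
    refine ⟨fun _ => { ι := Empty, n := fun _ => Empty }, fun _ => 0, fun _ => 0,
      fun _ => ⟨IsCP.zero, fun a => by simp⟩, fun _ => ⟨⟨IsCP.zero, fun a => by simp⟩,
        fun a b _ => by simp⟩, fun a _ => ?_⟩
    rw [h (∑ j, _ - a) 0, norm_zero]
    exact hε.le
  have h2 := J_ND.t_ND.2 K (Fin 0) h1
  simpa using h2

end Pool.Agent.Helper7_GA
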