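import Pool.Agent.Helper7_GA.Stm3
import Pool.Agent.Helper7_ND.J_A1

/-! # Approximations modulo an ideal, with control of `t` -/

set_option autoImplicit false

open scoped Matrix.Norms.L2Operator ENNReal Matrix
open Pool.Agent.W659.EC Pool.Agent.Helper7_ND Pool.Agent.Helper7_ND.J_A1

noncomputable section

namespace Pool.Agent.Helper7_GA.G_A1e

theorem t_A1e (hLFT : StLFT) (hCOM : StCOM) (hLN : StLN) (hQC : StQC) : StA1e := by
  classical
  intro I E D _ _ _ ι π hext J _ hS G C₀ ε hε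
  obtain ⟨F, ψ0, φ, hψ0, hφ, hG⟩ := hS (G.image π) (ε / 8) (by positivity)
  obtain ⟨M, hM1, hxM⟩ : ∃ M : ℝ, 1 ≤ M ∧ ∀ x ∈ G, ‖x‖ ≤ M := by
    refine ⟨1 + ∑ x ∈ G, ‖x‖, ?_, ?_⟩
    · have : 0 ≤ ∑ x ∈ G, ‖x‖ := Finset.sum_nonneg fun _ _ => norm_nonneg _
      linarith
    · intro x hx
      have := Finset.single_le_sum (f := fun x : E => ‖x‖) (fun _ _ => norm_nonneg _) hx
      linarith
  set K : ℝ := (Fintype.card J : ℝ) + 1 with hKdef
  have hK1 : 1 ≤ K := by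
    have : (0 : ℝ) ≤ (Fintype.card J : ℝ) := Nat.cast_nonneg _
    linarith
  have hKM : 0 < 8 * K * M := by positivity
  obtain ⟨ε₁, hε₁, hε₁ε, hε₁K⟩ : ∃ ε₁ : ℝ, 0 < ε₁ ∧ ε₁ ≤ ε ∧ K * (ε₁ * M) ≤ ε / 8 := by
    refine ⟨min ε (ε / (8 * K * M)), lt_min hε (by positivity), min_le_left _ _, ?_⟩
    have h1 : min ε (ε / (8 * K * M)) ≤ ε / (8 * K * M) := min_le_right _ _
    calc K * (min ε (ε / (8 * K * M)) * M) ≤ K * ((ε / (8 * K * M)) * M) := by gcongr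
      _ = ε / 8 := by
        have : K ≠ 0 := by positivity
        have : M ≠ 0 := by positivity
        field_simp
  have h1 := fun j => hLFT I E D ι π hext (F j) (φ j) ε₁ hε₁ (hφ j).1 (hφ j).2
  choose Φ' C S δ hδ hΦ' hΦ using h1
  -- the error elements
  have hψn : ∀ x ∈ G, ∀ j, ‖ψ0 j (π x)‖ ≤ M := fun x hx j =>
    ((hψ0 j).2 _).trans ((NonUnitalStarAlgHom.norm_apply_le π x).trans (hxM x hx))
  have hsumK : ∀ (f : J → ℝ), (∀ j, f j ≤ ε₁ * M) → ∑ j, f j ≤ ε / 8 := by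
    intro f hf
    calc ∑ j, f j ≤ ∑ _j : J, ε₁ * M := Finset.sum_le_sum fun j _ => hf j
      _ = (Fintype.card J : ℝ) * (ε₁ * M) := by rw [Finset.sum_const, Finset.card_univ, nsmul_eq_mul]
      _ ≤ K * (ε₁ * M) := by
        gcongr
        linarith
      _ ≤ ε / 8 := hε₁K
  have hzπ : ∀ x ∈ G, ‖π (x - ∑ j, Φ' j (ψ0 j (π x)))‖ ≤ ε / 4 := by
    intro x hx
    have e1 : π (x - ∑ j, Φ' j (ψ0 j (π x))) = -(∑ j, φ j (ψ0 j (π x)) - π x)
        - ∑ j, (π (Φ' j (ψ0 j (π x))) - φ j (ψ0 j (π x))) := by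
      rw [map_sub, map_sum, Finset.sum_sub_distrib]
      abel
    rw [e1]
    have e2 : ‖∑ j, φ j (ψ0 j (π x)) - π x‖ ≤ ε / 8 :=
      hG (π x) (by simpa using ⟨x, hx, rfl⟩)
    have e3 : ‖∑ j, (π (Φ' j (ψ0 j (π x))) - φ j (ψ0 j (π x)))‖ ≤ ε / 8 := by
      refine (norm_sum_le _ _).trans (hsumK _ fun j => ?_)
      exact (hΦ' j _).trans (by gcongr; exact hψn x hx j)
    calc _ ≤ ‖-(∑ j, φ j (ψ0 j (π x)) - π x)‖
          + ‖∑ j, (π (Φ' j (ψ0 j (π x))) - φ j (ψ0 j (π x)))‖ := norm_sub_le _ _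
      _ ≤ ε / 8 + ε / 8 := by rw [norm_neg]; gcongr
      _ = ε / 4 := by ring
  have hz' : ∀ x : E, ∃ (z' : E) (i : I), ‖z'‖ ≤ ‖π (x - ∑ j, Φ' j (ψ0 j (π x)))‖ ∧
      x - ∑ j, Φ' j (ψ0 j (π x)) = z' + ι i := by
    intro x
    obtain ⟨z', h1, h2⟩ := hLN E D π (x - ∑ j, Φ' j (ψ0 j (π x)))
    have h3 : π ((x - ∑ j, Φ' j (ψ0 j (π x))) - z') = 0 := by
      rw [map_sub π _ z', h1, sub_self]
    obtain ⟨i, hi⟩ := (hext.exact _).1 h3
    exact ⟨z', i, h2, by rw [hi]; abel⟩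
  choose z' ix hz'n hz'e using hz'
  obtain ⟨L, hL1, hixL⟩ : ∃ L : ℝ, 1 ≤ L ∧ ∀ x ∈ G, ‖ix x‖ ≤ L := by
    refine ⟨1 + ∑ x ∈ G, ‖ix x‖, ?_, ?_⟩
    · have : 0 ≤ ∑ x ∈ G, ‖ix x‖ := Finset.sum_nonneg fun _ _ => norm_nonneg _
      linarith
    · intro x hx
      have := Finset.single_le_sum (f := fun x : E => ‖ix x‖) (fun _ _ => norm_nonneg _) hx
      linarith
  -- COM
  obtain ⟨δc, hδc, hcom⟩ := hCOM (fun s : ℝ => Real.sqrt (1 - s ^ 2)) M (ε / 8)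
    (by fun_prop) (by positivity)
  -- small delta
  obtain ⟨δ0, hδ0, hδ0j, hδ0c, hδ0ε, hδ0L⟩ : ∃ δ0 : ℝ, 0 < δ0 ∧ (∀ j, δ0 ≤ δ j) ∧ δ0 ≤ δc ∧
      δ0 ≤ ε / 8 ∧ 2 * L * δ0 ≤ (ε / 8) ^ 2 := by
    have a1 : ∀ c : ℝ, 0 < c → ∀ᶠ d : ℝ in nhdsWithin 0 (Set.Ioi 0), d ≤ c := by
      intro c hc
      have : Set.Iic c ∈ nhds (0 : ℝ) := Iic_mem_nhds hc
      exact Filter.Eventually.filter_mono nhdsWithin_le_nhds this
    have a2 : ∀ᶠ d : ℝ in nhdsWithin 0 (Set.Ioi 0), ∀ j, d ≤ δ j :=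
      Filter.eventually_all.2 fun j => a1 _ (hδ j)
    have a3 : ∀ᶠ d : ℝ in nhdsWithin 0 (Set.Ioi 0), 0 < d := self_mem_nhdsWithin
    obtain ⟨d, h1, h2, h3, h4, h5⟩ := (a3.and (a2.and ((a1 _ hδc).and
      ((a1 (ε / 8) (by positivity)).and (a1 ((ε / 8) ^ 2 / (2 * L)) (by positivity)))))).exists
    refine ⟨d, h1, h2, h3, h4, ?_⟩
    calc 2 * L * d ≤ 2 * L * ((ε / 8) ^ 2 / (2 * L)) := by gcongr
      _ = (ε / 8) ^ 2 := by
        have : L ≠ 0 := by positivity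
        field_simp
  have hideal : IsIdeal ι := by
    have hπι : ∀ i, π (ι i) = 0 := fun i => (hext.exact _).2 ⟨i, rfl⟩
    exact ⟨hext.inj, fun e i => (hext.exact _).1 (by rw [map_mul, hπι, mul_zero]),
      fun e i => (hext.exact _).1 (by rw [map_mul, hπι, zero_mul])⟩
  obtain ⟨t, htp, ht1, htC, htS⟩ := hQC I E ι hideal
    (((Finset.univ.biUnion C) ∪ G.image ix) ∪ C₀) ((Finset.univ.biUnion S) ∪ G) δ0 hδ0
  have hΦt := fun j => hΦ j t htp ht1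
    (fun c hc => (htC c (Finset.mem_union_left _ (Finset.mem_union_left _
      (Finset.mem_biUnion.2 ⟨j, Finset.mem_univ _, hc⟩)))).trans
      (hδ0j j))
    (fun x hx => (htS x (Finset.mem_union_left _ (Finset.mem_biUnion.2 ⟨j, Finset.mem_univ _, hx⟩))).trans
      (hδ0j j))
  choose Φ hΦcp hΦoz hΦn hΦpos using hΦt
  have hπcpc : IsCPC (π : E →ₗ[ℂ] D) := isCPC_hom π _ (fun a => rfl)
  refine ⟨F, fun j => (ψ0 j) ∘ₗ (π : E →ₗ[ℂ] D), Φ, t, fun j => (hψ0 j).comp hπcpc,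
    fun j => ⟨hΦcp j, hΦoz j⟩, htp, ht1, ?_, ?_,
    fun c hc => (htC c (Finset.mem_union_right _ hc)).trans (by linarith)⟩
  · intro j
    -- `(1 + ε) - (1 + ε₁) ≥ 0`
    let _ := CStarAlgebra.spectralOrder (Unitization ℂ E)
    let _ := CStarAlgebra.spectralOrderedRing (Unitization ℂ E)
    have h1 : 0 ≤ ((1 + ε₁ : ℂ) • (1 : Unitization ℂ E)
            - ((ι (t * t) : E) : Unitization ℂ E) - ((Φ j 1 : E) : Unitization ℂ E)) :=
      CStarAlgebra.nonneg_iff_eq_star_mul_self.2 (hΦpos j)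
    have h2 : 0 ≤ (((ε - ε₁ : ℝ) : ℂ) • (1 : Unitization ℂ E)) := by
      rw [← Algebra.algebraMap_eq_smul_one]
      have : (0 : ℝ) ≤ ε - ε₁ := by linarith
      have h3 : (algebraMap ℂ (Unitization ℂ E)) ((ε - ε₁ : ℝ) : ℂ)
          = algebraMap ℝ (Unitization ℂ E) (ε - ε₁) := by
        rw [IsScalarTower.algebraMap_apply ℝ ℂ (Unitization ℂ E)]
        rfl
      rw [h3]
      exact algebraMap_nonneg _ this
    refine CStarAlgebra.nonneg_iff_eq_star_mul_self.1 ?_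
    have h3 := add_nonneg h1 h2
    refine h3.trans_eq ?_
    have h4 : (1 + ε : ℂ) = (1 + ε₁ : ℂ) + ((ε - ε₁ : ℝ) : ℂ) := by push_cast; ring
    rw [h4, add_smul (1 + ε₁ : ℂ)]
    abel
  · intro x hx
    obtain ⟨a1, a2, a3⟩ := cut_facts ι t htp ht1
    have hTn : ‖((ι t : E) : Unitization ℂ E)‖ ≤ 1 := by
      rw [Unitization.norm_inr]
      exact (NonUnitalStarAlgHom.norm_apply_le ι t).trans ht1
    have hS1 : ‖ι t * x - x * ι t‖ ≤ δ0 := htS x (Finset.mem_union_right _ hx)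
    have b1 : ‖((ι t : E) : Unitization ℂ E) * (x : Unitization ℂ E)
        - (x : Unitization ℂ E) * ((ι t : E) : Unitization ℂ E)‖ ≤ δ0 := by
      rw [← Unitization.inr_mul, ← Unitization.inr_mul, ← Unitization.inr_sub,
        Unitization.norm_inr]
      exact hS1
    have b2 : ‖cut ι t * (x : Unitization ℂ E) - (x : Unitization ℂ E) * cut ι t‖ ≤ ε / 8 :=
      hcom (Unitization ℂ E) _ _ (pos_unit ι t htp) hTn
        (by rw [Unitization.norm_inr]; exact hxM x hx) (b1.trans hδ0c)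
    have b3 : ‖cut ι t * ((ι (ix x) : E) : Unitization ℂ E)‖ ≤ ε / 8 := by
      have c1 := cut_ideal ι t htp ht1 (ix x)
      have c2 : ‖t * ix x - ix x‖ ≤ δ0 :=
        htC _ (Finset.mem_union_left _ (Finset.mem_union_right _ (Finset.mem_image_of_mem _ hx)))
      have c3 : ‖cut ι t * ((ι (ix x) : E) : Unitization ℂ E)‖ ^ 2 ≤ (ε / 8) ^ 2 := by
        refine c1.trans (le_trans ?_ hδ0L)
        have := hixL x hx
        gcongr
      exact le_of_sq_le_sq c3 (by positivity)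
    have b4 : ‖cut ι t * ((x - ∑ j, Φ' j (ψ0 j (π x)) : E) : Unitization ℂ E) * cut ι t‖
        ≤ ε / 4 + ε / 8 := by
      rw [hz'e x, Unitization.inr_add, mul_add, add_mul]
      refine (norm_add_le _ _).trans (add_le_add ?_ ?_)
      · calc _ ≤ ‖cut ι t * (z' x : Unitization ℂ E)‖ * ‖cut ι t‖ := norm_mul_le _ _
          _ ≤ (‖cut ι t‖ * ‖(z' x : Unitization ℂ E)‖) * ‖cut ι t‖ := by
              gcongr; exact norm_mul_le _ _
          _ ≤ (1 * ‖(z' x : Unitization ℂ E)‖) * 1 := by gcongr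
          _ = ‖z' x‖ := by rw [Unitization.norm_inr]; ring
          _ ≤ ε / 4 := (hz'n x).trans (hzπ x hx)
      · calc _ ≤ ‖cut ι t * ((ι (ix x) : E) : Unitization ℂ E)‖ * ‖cut ι t‖ := norm_mul_le _ _
          _ ≤ (ε / 8) * 1 := by gcongr
          _ = ε / 8 := mul_one _
    have b5 : ‖((∑ j, Φ j (ψ0 j (π x)) : E) : Unitization ℂ E)
        - cut ι t * ((∑ j, Φ' j (ψ0 j (π x)) : E) : Unitization ℂ E) * cut ι t‖ ≤ ε / 8 := by
      have c0 : ∀ f : J → E, ((∑ j, f j : E) : Unitization ℂ E)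
          = ∑ j, ((f j : E) : Unitization ℂ E) := fun f =>
        map_sum (Unitization.inrNonUnitalAlgHom ℂ E) f Finset.univ
      rw [c0, c0, Finset.mul_sum, Finset.sum_mul, ← Finset.sum_sub_distrib]
      refine (norm_sum_le _ _).trans (hsumK _ fun j => ?_)
      exact (hΦn j _).trans (by gcongr; exact hψn x hx j)
    have b6 := final_est (cut ι t) ((ι t : E) : Unitization ℂ E) (x : Unitization ℂ E)
      ((x - ∑ j, Φ' j (ψ0 j (π x)) : E) : Unitization ℂ E)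
      ((∑ j, Φ j (ψ0 j (π x)) : E) : Unitization ℂ E)
      ((∑ j, Φ' j (ψ0 j (π x)) : E) : Unitization ℂ E) _ _ _ _ a3 hTn a2 b2 b1 b4
      (Unitization.inr_sub _ _ _) b5
    rw [← Unitization.inr_mul, ← Unitization.inr_mul, ← Unitization.inr_sub, ← Unitization.inr_sub,
      Unitization.norm_inr] at b6
    refine b6.trans ?_
    linarith

end Pool.Agent.Helper7_GA.G_A1e
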