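import Pool.Agent.Helper7_GA.Stm

/-! # Nuclear dimension of crossed products of zero-dimensional spaces: statements -/

set_option autoImplicit false

open scoped Matrix.Norms.L2Operator ENNReal Matrix
open Pool.Agent.W659.EC Pool.Agent.Helper7_ND

noncomputable section

namespace Pool.Agent.Helper7_GA

/-- the indicator function of a clopen set (and `0` if the set is not clopen) -/
def ind {X : Type} [TopologicalSpace X] (C : Set X) : C(X, ℂ) :=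
  open Classical in
  if h : IsClopen C then
    ⟨fun x => if x ∈ C then 1 else 0, continuous_const.if (fun a ha => by
      have h1 : frontier {x | x ∈ C} = ∅ := h.frontier_eq
      rw [h1] at ha
      exact absurd ha (Set.notMem_empty a)) continuous_const⟩
  else 0

open Classical in
theorem ind_apply {X : Type} [TopologicalSpace X] {C : Set X} (h : IsClopen C) (x : X) :
    ind C x = if x ∈ C then 1 else 0 := by
  unfold ind
  rw [dif_pos h]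
  rfl

/-- there is a nonzero projection `q` whose corner `q Q q` is generated by commuting
projections -/
def TameP (Q : Type) [NonUnitalCStarAlgebra Q] : Prop :=
  ∃ (q : Q) (P : Set Q), q ≠ 0 ∧ Prj q ∧ (∀ x ∈ P, Prj x ∧ q * x = x ∧ x * q = x) ∧
    (∀ x ∈ P, ∀ y ∈ P, x * y = y * x) ∧
    ∀ x : Q, q * x * q ∈ closure (Submodule.span ℂ P : Set Q)

/-- ZP: algebras all of whose quotients (by ideals containing `I`) have such a projection -/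
def StZP : Prop :=
  ∀ (I A : Type) [NonUnitalCStarAlgebra I] [NonUnitalCStarAlgebra A] (ι : I →⋆ₙₐ[ℂ] A)
    (J : Type) [Fintype J], Nonempty J → IsIdeal ι → SysAll I J →
    (∀ (Q : Type) [NonUnitalCStarAlgebra Q] (θ : A →⋆ₙₐ[ℂ] Q), Function.Surjective θ →
      Nontrivial Q → (∀ x, θ (ι x) = 0) → TameP Q) → SysAll A J

/-! ## Merging -/

/-- A1e: approximations of `E` modulo `I`, with control of `t` -/
def StA1e : Prop :=
  ∀ (I E D : Type) [NonUnitalCStarAlgebra I] [NonUnitalCStarAlgebra E]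
    [NonUnitalCStarAlgebra D] (ι : I →⋆ₙₐ[ℂ] E) (π : E →⋆ₙₐ[ℂ] D), IsExt ι π →
    ∀ (J : Type) [Fintype J], SysAll D J → ∀ (G : Finset E) (C : Finset I) (ε : ℝ), 0 < ε →
    ∃ (F : J → FDA) (ψ : ∀ j, E →ₗ[ℂ] (F j).alg) (Φ : ∀ j, (F j).alg →ₗ[ℂ] E) (t : I),
      (∀ j, IsCPC (ψ j)) ∧ (∀ j, IsCP (Φ j) ∧ IsOrderZero (Φ j)) ∧ Pos t ∧ ‖t‖ ≤ 1 ∧
      (∀ j, Pos ((1 + ε : ℂ) • (1 : Unitization ℂ E)
            - ((ι (t * t) : E) : Unitization ℂ E) - ((Φ j 1 : E) : Unitization ℂ E))) ∧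
      (∀ x ∈ G, ‖x - ∑ j, Φ j (ψ j x) - ι t * x * ι t‖ ≤ ε) ∧ ∀ c ∈ C, ‖t * c - c‖ ≤ ε

/-- P0: approximations of an extension whose second colour is orthogonal to a projection of the
ideal -/
def StP0 : Prop :=
  ∀ (I B D : Type) [NonUnitalCStarAlgebra I] [CStarAlgebra B]
    [NonUnitalCStarAlgebra D] (ι : I →⋆ₙₐ[ℂ] B) (π : B →⋆ₙₐ[ℂ] D), IsExt ι π →
    SysAll I (Option (Fin 0)) → SysAll D (Option (Fin 1)) → ∀ (e : I), Prj e →
    ∀ (G : Finset B) (ε : ℝ), 0 < ε →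
    ∃ (F₀ F₁ : FDA) (ψ₀ : B →ₗ[ℂ] F₀.alg) (ψ₁ : B →ₗ[ℂ] F₁.alg) (φ₀ : F₀.alg →ₗ[ℂ] B)
      (φ₁ : F₁.alg →ₗ[ℂ] B), IsCPC ψ₀ ∧ IsCPC ψ₁ ∧ IsCPC φ₀ ∧ IsOrderZero φ₀ ∧ IsCPC φ₁ ∧
      IsOrderZero φ₁ ∧ (∀ g ∈ G, ‖φ₀ (ψ₀ g) + φ₁ (ψ₁ g) - g‖ ≤ ε) ∧ ∀ y, φ₁ y * ι e = 0

/-- the local structure used in the merging -/
def Loc (E : Type) [NonUnitalCStarAlgebra E] : Prop :=
  ∀ (G : Finset E) (ε : ℝ), 0 < ε →
    ∃ (I B D : Type) (_ : NonUnitalCStarAlgebra I) (_ : CStarAlgebra B)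
      (_ : NonUnitalCStarAlgebra D) (ι : I →⋆ₙₐ[ℂ] B) (π : B →⋆ₙₐ[ℂ] D) (β : B →⋆ₙₐ[ℂ] E) (e : I)
      (F : FDA) (φ : F.alg →⋆ₙₐ[ℂ] E) (h₀ h₁ : E),
      IsExt ι π ∧ SysAll I (Option (Fin 0)) ∧ SysAll D (Option (Fin 1)) ∧
      Function.Injective β ∧ Prj e ∧ Function.Injective φ ∧ (∀ y, β (ι e) * φ y = φ y) ∧
      star h₀ = h₀ ∧ star h₁ = h₁ ∧ ‖h₀‖ ≤ 1 ∧ ‖h₁‖ ≤ 1 ∧
      ∀ g ∈ G, ∃ (g' : E) (b : B) (y : F.alg), ‖g' - g‖ ≤ ε ∧ β b = h₀ * g' * h₀ ∧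
        φ y = h₁ * g' * h₁ ∧ ‖β b + φ y - g'‖ ≤ ε

/-- P1: merging -/
def StP1 : Prop :=
  ∀ (E : Type) [NonUnitalCStarAlgebra E], Loc E → SysAll E (Option (Fin 1))

/-! ## Homeomorphisms of zero-dimensional spaces -/

section

variable {X : Type} [TopologicalSpace X]

/-- the set of the points whose orbit does not meet `Z` -/
def avoid (σ : X ≃ₜ X) (Z : Set X) : Set X := {x | ∀ k : ℤ, (σ ^ k) x ∉ Z}

/-- marker sets for the height `n` -/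
def Marker (σ : X ≃ₜ X) (n : ℕ) (Z : Set X) : Prop :=
  IsClopen Z ∧ (∀ x ∈ Z, ∀ j : ℕ, 1 ≤ j → j < n → (σ ^ j) x ∉ Z) ∧ (avoid σ Z).Finite

/-- covariant representations of `(X, σ)` -/
structure Cov [CompactSpace X] (σ : X ≃ₜ X) {E : Type} [CStarAlgebra E]
    (π : C(X, ℂ) →⋆ₐ[ℂ] E) (u : E) : Prop where
  u1 : star u * u = 1
  u2 : u * star u = 1
  cov : ∀ f : C(X, ℂ), u * π f = π (f.comp (σ.symm : C(X, X))) * u
  gen : ∀ S : NonUnitalStarSubalgebra ℂ E, IsClosed (S : Set E) → (∀ f, π f ∈ S) → u ∈ S →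
    ∀ x, x ∈ S

/-- representations of the system broken at `Z` -/
structure Brk [CompactSpace X] (σ : X ≃ₜ X) (Z : Set X) {B : Type} [CStarAlgebra B]
    (ρ : C(X, ℂ) →⋆ₐ[ℂ] B) (v : B) : Prop where
  final : v * star v = ρ (ind Zᶜ)
  init : star v * v = ρ (ind (σ ⁻¹' Zᶜ))
  cov : ∀ f : C(X, ℂ), v * ρ f = ρ (f.comp (σ.symm : C(X, X))) * v
  gen : ∀ S : NonUnitalStarSubalgebra ℂ B, IsClosed (S : Set B) → (∀ f, ρ f ∈ S) → v ∈ S →
    ∀ x, x ∈ S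

end

/-- B1: the span of the `ρ f * v ^ k` and `star (v ^ k) * ρ f` is dense -/
def StB1 : Prop :=
  ∀ (X : Type) [TopologicalSpace X] [CompactSpace X] (σ : X ≃ₜ X) (Z : Set X) (B : Type)
    [CStarAlgebra B] (ρ : C(X, ℂ) →⋆ₐ[ℂ] B) (v : B), IsClopen Z → Brk σ Z ρ v →
    ∀ b : B, b ∈ closure (Submodule.span ℂ {z : B | ∃ (f : C(X, ℂ)) (k : ℕ),
      z = ρ f * v ^ k ∨ z = star (v ^ k) * ρ f} : Set B)

/-- B2: the ideal of the broken system is AF -/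
def StB2 : Prop :=
  ∀ (X : Type) [TopologicalSpace X] [CompactSpace X] [T2Space X] [TotallyDisconnectedSpace X]
    (σ : X ≃ₜ X) (Z : Set X) (B : Type) [CStarAlgebra B] (ρ : C(X, ℂ) →⋆ₐ[ℂ] B) (v : B),
    IsClopen Z → Brk σ Z ρ v →
    ∃ (I : Type) (_ : NonUnitalCStarAlgebra I) (ι : I →⋆ₙₐ[ℂ] B), IsIdeal ι ∧
      SysAll I (Option (Fin 0)) ∧ ∀ j : ℤ, ∃ e : I, ι e = ρ (ind ((σ ^ j) ⁻¹' Z))

/-- B3: the quotients of the broken system -/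
def StB3 : Prop :=
  ∀ (X : Type) [TopologicalSpace X] [CompactSpace X] [T2Space X] [TotallyDisconnectedSpace X]
    (σ : X ≃ₜ X) (Z : Set X) (B : Type) [CStarAlgebra B] (ρ : C(X, ℂ) →⋆ₐ[ℂ] B) (v : B),
    IsClopen Z → Brk σ Z ρ v → (avoid σ Z).Finite →
    ∀ (Q : Type) [NonUnitalCStarAlgebra Q] (θ : B →⋆ₙₐ[ℂ] Q), Function.Surjective θ →
      Nontrivial Q → (∀ j : ℤ, θ (ρ (ind ((σ ^ j) ⁻¹' Z))) = 0) → TameU Q

/-- E2: density of the span of the `π (ind C) * u ^ k` and their adjoints -/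
def StE2 : Prop :=
  ∀ (X : Type) [TopologicalSpace X] [CompactSpace X] [T2Space X] [TotallyDisconnectedSpace X]
    (σ : X ≃ₜ X) (E : Type) [CStarAlgebra E] (π : C(X, ℂ) →⋆ₐ[ℂ] E) (u : E), Cov σ π u →
    ∀ x : E, x ∈ closure (Submodule.span ℂ {z : E | ∃ (C : Set X) (k : ℕ), IsClopen C ∧
      (z = π (ind C) * u ^ k ∨ z = star (π (ind C) * u ^ k))} : Set E)

/-- E3: the broken system inside a covariant representation -/
def StE3 : Prop :=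
  ∀ (X : Type) [TopologicalSpace X] [CompactSpace X] (σ : X ≃ₜ X) (Z : Set X) (E : Type)
    [CStarAlgebra E] (π : C(X, ℂ) →⋆ₐ[ℂ] E) (u : E), IsClopen Z → Cov σ π u →
    ∃ (B : Type) (_ : CStarAlgebra B) (ρ : C(X, ℂ) →⋆ₐ[ℂ] B) (v : B) (β : B →⋆ₐ[ℂ] E),
      Function.Injective β ∧ (∀ f, β (ρ f) = π f) ∧ β v = π (ind Zᶜ) * u ∧ Brk σ Z ρ v ∧
      ∀ x ∈ NonUnitalStarAlgebra.adjoin ℂ (Set.range π ∪ {π (ind Zᶜ) * u}), ∃ b, β b = x

/-- E4: the cut-downs -/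
def StE4 : Prop :=
  ∀ (K : ℕ) (ε : ℝ), 0 < ε → ∃ m : ℕ,
    ∀ (X : Type) [TopologicalSpace X] [CompactSpace X] [T2Space X] [TotallyDisconnectedSpace X]
      (σ : X ≃ₜ X) (E : Type) [CStarAlgebra E] (π : C(X, ℂ) →⋆ₐ[ℂ] E) (u : E) (Z : Set X),
      Cov σ π u → Marker σ (2 * m + 2 * K + 2) Z →
      ∀ 𝒞 : Finset (Set X), (∀ C ∈ 𝒞, IsClopen C) →
      ∃ (F : FDA) (φ : F.alg →⋆ₙₐ[ℂ] E) (h₀ h₁ : E), Function.Injective φ ∧ ‖h₀‖ ≤ 1 ∧
        ‖h₁‖ ≤ 1 ∧ star h₀ = h₀ ∧ star h₁ = h₁ ∧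
        (∀ y, π (ind (⋃ j ∈ Finset.Icc (-(m : ℤ)) m, (σ ^ j) ⁻¹' Z)) * φ y = φ y) ∧
        ∀ C ∈ 𝒞, ∀ k ≤ K,
          ‖h₀ * (π (ind C) * u ^ k) * h₀ + h₁ * (π (ind C) * u ^ k) * h₁
            - π (ind C) * u ^ k‖ ≤ ε ∧
          h₀ * (π (ind C) * u ^ k) * h₀ ∈
            NonUnitalStarAlgebra.adjoin ℂ (Set.range π ∪ {π (ind Zᶜ) * u}) ∧
          ∃ y, φ y = h₁ * (π (ind C) * u ^ k) * h₁

/-- E5: covariant representations of systems with marker sets -/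
def StE5 : Prop :=
  ∀ (X : Type) [TopologicalSpace X] [CompactSpace X] [T2Space X] [TotallyDisconnectedSpace X]
    (σ : X ≃ₜ X) (E : Type) [CStarAlgebra E] (π : C(X, ℂ) →⋆ₐ[ℂ] E) (u : E), Cov σ π u →
    (∀ n : ℕ, ∃ Z, Marker σ n Z) → SysAll E (Option (Fin 1))

/-- the shift on `ℤ → A` -/
def shift (A : Type) [TopologicalSpace A] : (ℤ → A) ≃ₜ (ℤ → A) where
  toFun x k := x (k + 1)
  invFun x k := x (k - 1)
  left_inv x := by
    funext k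
    exact congrArg x (by omega)
  right_inv x := by
    funext k
    exact congrArg x (by omega)
  continuous_toFun := continuous_pi fun k => continuous_apply (k + 1)
  continuous_invFun := continuous_pi fun k => continuous_apply (k - 1)

/-- KR: marker sets for full shifts -/
def StKR : Prop :=
  ∀ (A : Type) [TopologicalSpace A] [DiscreteTopology A] [Finite A] (n : ℕ),
    ∃ Z, Marker (shift A) n Z

/-- conjugates `u ^ k p u ^ {-k}`, for `k` a natural number, and `star u ^ k p u ^ k` -/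
def conjs {E : Type} [CStarAlgebra E] (u : E) (P : Set E) : Set E :=
  {x | ∃ p ∈ P, ∃ k : ℕ, x = u ^ k * p * star (u ^ k) ∨ x = star (u ^ k) * p * u ^ k}

/-- GEN: algebras generated by a unitary and a set of projections with commuting conjugates -/
def StGEN : Prop :=
  ∀ (E : Type) [CStarAlgebra E] (u : E) (P : Set E), star u * u = 1 → u * star u = 1 →
    (∀ p ∈ P, Prj p) → (∀ x ∈ conjs u P, ∀ y ∈ conjs u P, x * y = y * x) →
    (∀ S : NonUnitalStarSubalgebra ℂ E, IsClosed (S : Set E) → P ⊆ S → u ∈ S → ∀ x, x ∈ S) →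
    SysAll E (Option (Fin 1))

end Pool.Agent.Helper7_GA
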