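-- t_B1 fully proved, standard axioms; compiles with Stm3 (real closure); the long project comment was removed from the file
import Pool.Agent.Helper7_GA.Stm3

/-! # B1: a dense span in the broken system -/


set_option autoImplicit false

open scoped Matrix.Norms.L2Operator ENNReal Matrix
open Pool.Agent.W659.EC Pool.Agent.Helper7_ND

noncomputable section

namespace Pool.Agent.Helper7_GA.G_B1

section

variable {X : Type} [TopologicalSpace X] [CompactSpace X] {σ : X ≃ₜ X} {Z : Set X} {B : Type}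
  [CStarAlgebra B] {ρ : C(X, ℂ) →⋆ₐ[ℂ] B} {v : B}

/-- commutation with the adjoint of `v` -/
theorem comm1 (h : Brk σ Z ρ v) (g : C(X, ℂ)) : ∃ g' : C(X, ℂ), ρ g * star v = star v * ρ g' := by
  refine ⟨star ((star g).comp (σ.symm : C(X, X))), ?_⟩
  have h1 := congrArg star (h.cov (star g))
  rw [star_mul, star_mul, ← map_star, ← map_star, star_star] at h1
  exact h1

/-- commutation with the powers of the adjoint of `v` -/
theorem comm2 (h : Brk σ Z ρ v) (k : ℕ) : ∀ g : C(X, ℂ), ∃ g' : C(X, ℂ),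
    ρ g * star (v ^ k) = star (v ^ k) * ρ g' := by
  induction k with
  | zero =>
    intro g
    exact ⟨g, by simp⟩
  | succ k ih =>
    intro g
    obtain ⟨g1, h1⟩ := comm1 h g
    obtain ⟨g2, h2⟩ := ih g1
    refine ⟨g2, ?_⟩
    rw [pow_succ, star_mul, ← mul_assoc, h1, mul_assoc, h2, mul_assoc]

/-- the spanning set -/
def TT (ρ : C(X, ℂ) →⋆ₐ[ℂ] B) (v : B) : Set B :=
  {z : B | ∃ (f : C(X, ℂ)) (k : ℕ), z = ρ f * v ^ k ∨ z = star (v ^ k) * ρ f}

theorem mulρ (h : Brk σ Z ρ v) (g : C(X, ℂ)) {z : B} (hz : z ∈ TT ρ v) : ρ g * z ∈ TT ρ v := by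
  obtain ⟨f, k, rfl | rfl⟩ := hz
  · exact ⟨g * f, k, Or.inl (by rw [map_mul, mul_assoc])⟩
  · obtain ⟨g', hg'⟩ := comm2 h k g
    refine ⟨g' * f, k, Or.inr ?_⟩
    rw [← mul_assoc, hg', map_mul, mul_assoc]

theorem mulv (h : Brk σ Z ρ v) {z : B} (hz : z ∈ TT ρ v) : v * z ∈ TT ρ v := by
  obtain ⟨f, k, rfl | rfl⟩ := hz
  · refine ⟨f.comp (σ.symm : C(X, X)), k + 1, Or.inl ?_⟩
    rw [← mul_assoc, h.cov f, mul_assoc, pow_succ']
  · cases k with
    | zero =>
      refine ⟨f.comp (σ.symm : C(X, X)), 1, Or.inl ?_⟩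
      rw [pow_zero, star_one, one_mul, pow_one, h.cov f]
    | succ l =>
      have h1 : v * (star (v ^ (l + 1)) * ρ f) = ρ (ind Zᶜ) * (star (v ^ l) * ρ f) := by
        rw [pow_succ, star_mul, ← h.final]
        simp only [mul_assoc]
      rw [h1]
      exact mulρ h _ ⟨f, l, Or.inr rfl⟩

theorem mulsv (h : Brk σ Z ρ v) {z : B} (hz : z ∈ TT ρ v) : star v * z ∈ TT ρ v := by
  obtain ⟨f, k, rfl | rfl⟩ := hz
  · cases k with
    | zero =>
      refine ⟨f, 1, Or.inr ?_⟩
      rw [pow_zero, mul_one, pow_one]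
    | succ l =>
      have h0 : (f.comp (σ : C(X, X))).comp (σ.symm : C(X, X)) = f := by
        ext x
        simp
      have h1 : v * ρ (f.comp (σ : C(X, X))) = ρ f * v := by
        rw [h.cov, h0]
      refine ⟨ind (σ ⁻¹' Zᶜ) * f.comp (σ : C(X, X)), l, Or.inl ?_⟩
      rw [map_mul, ← h.init, pow_succ', ← mul_assoc (ρ f) v, ← h1]
      simp only [mul_assoc]
  · refine ⟨f, k + 1, Or.inr ?_⟩
    rw [pow_succ, star_mul, mul_assoc]

omit [CompactSpace X] in
theorem mulspan {b : B} (hb : ∀ z ∈ TT ρ v, b * z ∈ TT ρ v) {x : B}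
    (hx : x ∈ closure (Submodule.span ℂ (TT ρ v) : Set B)) :
    b * x ∈ closure (Submodule.span ℂ (TT ρ v) : Set B) := by
  refine map_mem_closure (f := fun y => b * y) (continuous_const.mul continuous_id) hx ?_
  intro y hy
  refine Submodule.span_induction (p := fun y _ => b * y ∈ Submodule.span ℂ (TT ρ v))
    ?_ ?_ ?_ ?_ hy
  · intro z hz
    exact Submodule.subset_span (hb z hz)
  · rw [mul_zero]
    exact Submodule.zero_mem _
  · intro y z _ _ h1 h2
    rw [mul_add]
    exact Submodule.add_mem _ h1 h2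
  · intro c y _ h1
    rw [mul_smul_comm]
    exact Submodule.smul_mem _ c h1

/-- the elements whose left multiplication preserves a closed subspace, and the same for the
adjoint -/
def LL (M : Submodule ℂ B) : NonUnitalStarSubalgebra ℂ B where
  carrier := {b | (∀ x ∈ M, b * x ∈ M) ∧ ∀ x ∈ M, star b * x ∈ M}
  add_mem' := by
    rintro a b ⟨ha, ha'⟩ ⟨hb, hb'⟩
    refine ⟨fun x hx => ?_, fun x hx => ?_⟩
    · rw [add_mul]
      exact M.add_mem (ha x hx) (hb x hx)
    · rw [star_add, add_mul]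
      exact M.add_mem (ha' x hx) (hb' x hx)
  zero_mem' := by
    refine ⟨fun x _ => ?_, fun x _ => ?_⟩
    · rw [zero_mul]
      exact M.zero_mem
    · rw [star_zero, zero_mul]
      exact M.zero_mem
  mul_mem' := by
    rintro a b ⟨ha, ha'⟩ ⟨hb, hb'⟩
    refine ⟨fun x hx => ?_, fun x hx => ?_⟩
    · rw [mul_assoc]
      exact ha _ (hb x hx)
    · rw [star_mul, mul_assoc]
      exact hb' _ (ha' x hx)
  smul_mem' := by
    rintro c b ⟨hb, hb'⟩
    refine ⟨fun x hx => ?_, fun x hx => ?_⟩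
    · rw [smul_mul_assoc]
      exact M.smul_mem c (hb x hx)
    · rw [star_smul, smul_mul_assoc]
      exact M.smul_mem (star c) (hb' x hx)
  star_mem' := by
    rintro b ⟨hb, hb'⟩
    refine ⟨hb', fun x hx => ?_⟩
    rw [star_star]
    exact hb x hx

theorem mem_LL {M : Submodule ℂ B} {b : B} :
    b ∈ LL M ↔ (∀ x ∈ M, b * x ∈ M) ∧ ∀ x ∈ M, star b * x ∈ M := Iff.rfl

theorem closed_LL {M : Submodule ℂ B} (hM : IsClosed (M : Set B)) :
    IsClosed (LL M : Set B) := by
  have h1 : (LL M : Set B) = (⋂ x ∈ (M : Set B), {b : B | b * x ∈ (M : Set B)}) ∩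
      ⋂ x ∈ (M : Set B), {b : B | star b * x ∈ (M : Set B)} := by
    ext b
    simp only [Set.mem_inter_iff, Set.mem_iInter, Set.mem_ofPred_eq]
    exact Iff.rfl
  rw [h1]
  refine IsClosed.inter ?_ ?_
  · refine isClosed_biInter fun x _ => ?_
    exact hM.preimage (continuous_id.mul continuous_const)
  · refine isClosed_biInter fun x _ => ?_
    exact hM.preimage (continuous_star.mul continuous_const)

end

theorem t_B1 : StB1 := by
  intro X _ _ σ Z B _ ρ v _ h b
  change b ∈ closure (Submodule.span ℂ (TT ρ v) : Set B)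
  set M : Submodule ℂ B := (Submodule.span ℂ (TT ρ v)).topologicalClosure with hMdef
  have hM : (M : Set B) = closure (Submodule.span ℂ (TT ρ v) : Set B) :=
    Submodule.topologicalClosure_coe _
  have hclosed : IsClosed (M : Set B) := by
    rw [hM]
    exact isClosed_closure
  have key : ∀ c : B, (∀ z ∈ TT ρ v, c * z ∈ TT ρ v) → ∀ x ∈ M, c * x ∈ M := by
    intro c hc x hx
    have hx' : x ∈ (M : Set B) := hx
    rw [hM] at hx'
    have h1 := mulspan hc hx'
    rw [← hM] at h1
    exact h1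
  have hall : ∀ x, x ∈ LL M := by
    refine h.gen (LL M) (closed_LL hclosed) ?_ ?_
    · intro f
      refine mem_LL.2 ⟨key _ fun z hz => mulρ h f hz, ?_⟩
      rw [← map_star]
      exact key _ fun z hz => mulρ h (star f) hz
    · exact mem_LL.2 ⟨key _ fun z hz => mulv h hz, key _ fun z hz => mulsv h hz⟩
  have h1 : (1 : B) ∈ M := by
    have h2 : (1 : B) ∈ (M : Set B) := by
      rw [hM]
      refine subset_closure (Submodule.subset_span ⟨1, 0, Or.inl ?_⟩)
      rw [map_one, pow_zero, mul_one]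
    exact h2
  have h3 := (mem_LL.1 (hall b)).1 1 h1
  rw [mul_one] at h3
  have h4 : b ∈ (M : Set B) := h3
  rw [hM] at h4
  exact h4

end Pool.Agent.Helper7_GA.G_B1
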