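import Pool.Agent.Helper7_GA.Stm3

set_option autoImplicit false

open scoped Matrix.Norms.L2Operator ENNReal Matrix
open Pool.Agent.W659.EC Pool.Agent.Helper7_ND

noncomputable section

namespace Pool.Agent.Helper7_GA.G_B2

section ind

variable {X : Type} [TopologicalSpace X]

theorem ind_mul {C D : Set X} (hC : IsClopen C) (hD : IsClopen D) :
    ind C * ind D = ind (C ∩ D) := by
  classical
  ext x
  rw [ContinuousMap.mul_apply, ind_apply hC, ind_apply hD, ind_apply (hC.inter hD)]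
  by_cases h1 : x ∈ C
  · by_cases h2 : x ∈ D
    · simp [h1, h2]
    · simp [h1, h2]
  · simp [h1]

theorem star_ind {C : Set X} (hC : IsClopen C) : star (ind C) = ind C := by
  classical
  ext x
  rw [ContinuousMap.star_apply, ind_apply hC]
  by_cases h1 : x ∈ C
  · simp [h1]
  · simp [h1]

theorem ind_univ : ind (Set.univ : Set X) = 1 := by
  classical
  ext x
  rw [ind_apply isClopen_univ]
  simp

theorem ind_compl {C : Set X} (hC : IsClopen C) : ind Cᶜ = 1 - ind C := by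
  classical
  ext x
  rw [ContinuousMap.sub_apply, ind_apply hC, ind_apply hC.compl]
  by_cases h1 : x ∈ C
  · simp [h1]
  · simp [h1]

theorem ind_union {C D : Set X} (hC : IsClopen C) (hD : IsClopen D) :
    ind (C ∪ D) = ind C + ind D - ind C * ind D := by
  classical
  ext x
  rw [ContinuousMap.sub_apply, ContinuousMap.add_apply, ContinuousMap.mul_apply,
    ind_apply hC, ind_apply hD, ind_apply (hC.union hD)]
  by_cases h1 : x ∈ C
  · by_cases h2 : x ∈ D
    · simp [h1, h2]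
    · simp [h1, h2]
  · by_cases h2 : x ∈ D
    · simp [h1, h2]
    · simp [h1, h2]

theorem ind_comp {Y : Type} [TopologicalSpace Y] {C : Set X} (hC : IsClopen C) (g : C(Y, X)) :
    (ind C).comp g = ind (g ⁻¹' C) := by
  classical
  ext x
  rw [ContinuousMap.comp_apply, ind_apply hC, ind_apply (hC.preimage g.continuous)]
  rfl

theorem ind_dense [CompactSpace X] [T2Space X] [TotallyDisconnectedSpace X] (f : C(X, ℂ)) :
    f ∈ closure (Submodule.span ℂ {g : C(X, ℂ) | ∃ C : Set X, IsClopen C ∧ g = ind C} :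
      Set C(X, ℂ)) := by
  classical
  obtain ⟨N, hN⟩ : ∃ N, N = {g : C(X, ℂ) | ∃ C : Set X, IsClopen C ∧ g = ind C} := ⟨_, rfl⟩
  rw [← hN]
  have hmul : ∀ x ∈ Submodule.span ℂ N, ∀ y ∈ Submodule.span ℂ N,
      x * y ∈ Submodule.span ℂ N := by
    intro x hx y hy
    have h1 := Submodule.mul_mem_mul hx hy
    rw [Submodule.span_mul_span] at h1
    refine Submodule.span_mono ?_ h1
    rintro z ⟨x, hx, y, hy, rfl⟩
    rw [hN] at hx hy ⊢
    obtain ⟨C, hC, rfl⟩ := hx
    obtain ⟨D, hD, rfl⟩ := hy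
    exact ⟨C ∩ D, hC.inter hD, ind_mul hC hD⟩
  have hone : (1 : C(X, ℂ)) ∈ Submodule.span ℂ N := by
    apply Submodule.subset_span
    rw [hN]
    exact ⟨Set.univ, isClopen_univ, ind_univ.symm⟩
  have hstar : ∀ x ∈ Submodule.span ℂ N, star x ∈ Submodule.span ℂ N := by
    intro x hx
    induction hx using Submodule.span_induction with
    | mem x hx =>
      apply Submodule.subset_span
      rw [hN] at hx ⊢
      obtain ⟨C, hC, rfl⟩ := hx
      exact ⟨C, hC, star_ind hC⟩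
    | zero => rw [star_zero]; exact Submodule.zero_mem _
    | add x y _ _ hx hy => rw [star_add]; exact Submodule.add_mem _ hx hy
    | smul c x _ hx => rw [star_smul]; exact Submodule.smul_mem _ _ hx
  let A : StarSubalgebra ℂ C(X, ℂ) :=
    { carrier := (Submodule.span ℂ N : Set C(X, ℂ))
      mul_mem' := fun {a b} ha hb => hmul a ha b hb
      one_mem' := hone
      add_mem' := fun {a b} ha hb => Submodule.add_mem _ ha hb
      zero_mem' := Submodule.zero_mem _
      algebraMap_mem' := fun r => by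
        rw [Algebra.algebraMap_eq_smul_one]
        exact Submodule.smul_mem _ _ hone
      star_mem' := fun {a} ha => hstar a ha }
  have hsep : A.SeparatesPoints := by
    intro x y hxy
    obtain ⟨U, hU, hxU, hyU⟩ := exists_isClopen_of_totally_separated hxy
    refine ⟨ind U, ⟨ind U, ?_, rfl⟩, ?_⟩
    · apply Submodule.subset_span
      rw [hN]
      exact ⟨U, hU, rfl⟩
    · rw [ind_apply hU, ind_apply hU, if_pos hxU, if_neg hyU]
      exact one_ne_zero
  have h1 := ContinuousMap.starSubalgebra_topologicalClosure_eq_top_of_separatesPoints A hsep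
  have h2 : f ∈ A.topologicalClosure := by
    rw [h1]; trivial
  have h3 : (A.topologicalClosure : Set C(X, ℂ)) = closure (A : Set C(X, ℂ)) :=
    StarSubalgebra.topologicalClosure_coe A
  have h4 : f ∈ (A.topologicalClosure : Set C(X, ℂ)) := h2
  rw [h3] at h4
  exact h4

theorem ind_dense_sub [CompactSpace X] [T2Space X] [TotallyDisconnectedSpace X] {Y : Set X}
    (hY : IsClopen Y) (f : C(X, ℂ)) :
    f * ind Y ∈ closure (Submodule.span ℂ {g : C(X, ℂ) | ∃ C : Set X, IsClopen C ∧ C ⊆ Y ∧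
      g = ind C} : Set C(X, ℂ)) := by
  have hc : Continuous fun g : C(X, ℂ) => g * ind Y := continuous_id.mul continuous_const
  refine map_mem_closure (f := fun g : C(X, ℂ) => g * ind Y) hc (ind_dense f) ?_
  intro g hg
  have hg' : g ∈ Submodule.span ℂ {g : C(X, ℂ) | ∃ C : Set X, IsClopen C ∧ g = ind C} := hg
  change g * ind Y ∈ Submodule.span ℂ _
  clear hg
  induction hg' using Submodule.span_induction with
  | mem x hx =>
    obtain ⟨C, hC, rfl⟩ := hx
    apply Submodule.subset_span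
    exact ⟨C ∩ Y, hC.inter hY, Set.inter_subset_right, ind_mul hC hY⟩
  | zero => rw [zero_mul]; exact Submodule.zero_mem _
  | add x y _ _ hx hy => rw [add_mul]; exact Submodule.add_mem _ hx hy
  | smul c x _ hx => rw [smul_mul_assoc]; exact Submodule.smul_mem _ _ hx

end ind

/-- elements of the range of an ideal -/
def Mem {I B : Type} [NonUnitalCStarAlgebra I] [NonUnitalCStarAlgebra B] (κ : I →⋆ₙₐ[ℂ] B)
    (b : B) : Prop := ∃ i, κ i = b

theorem Mem.left {I B : Type} [NonUnitalCStarAlgebra I] [NonUnitalCStarAlgebra B]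
    {κ : I →⋆ₙₐ[ℂ] B} (hκ : IsIdeal κ) (e : B) {b : B} (hb : Mem κ b) : Mem κ (e * b) := by
  obtain ⟨i, rfl⟩ := hb
  exact hκ.left e i

theorem Mem.right {I B : Type} [NonUnitalCStarAlgebra I] [NonUnitalCStarAlgebra B]
    {κ : I →⋆ₙₐ[ℂ] B} (hκ : IsIdeal κ) (e : B) {b : B} (hb : Mem κ b) : Mem κ (b * e) := by
  obtain ⟨i, rfl⟩ := hb
  exact hκ.right e i

theorem Mem.add {I B : Type} [NonUnitalCStarAlgebra I] [NonUnitalCStarAlgebra B]
    {κ : I →⋆ₙₐ[ℂ] B} {a b : B} (ha : Mem κ a) (hb : Mem κ b) : Mem κ (a + b) := by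
  obtain ⟨i, rfl⟩ := ha
  obtain ⟨j, rfl⟩ := hb
  exact ⟨i + j, map_add κ i j⟩

/-- the elements of the span of the image of a set under an isometric map come from the span -/
theorem mem_closure_of_map {I B : Type} [NonUnitalCStarAlgebra I] [NonUnitalCStarAlgebra B]
    {κ : I →⋆ₙₐ[ℂ] B} (hκ : Function.Injective κ) (s : Submodule ℂ I) (i : I)
    (h : κ i ∈ closure (κ '' (s : Set I))) : i ∈ closure (s : Set I) := by
  have h1 := (NonUnitalStarAlgHom.isometry κ hκ).isClosedEmbedding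
  rw [h1.closure_image_eq] at h
  obtain ⟨j, hj, hji⟩ := h
  rwa [← hκ hji]

section brk

variable {X : Type} [TopologicalSpace X] [CompactSpace X] {σ : X ≃ₜ X} {Z : Set X} {B : Type}
  [CStarAlgebra B] {ρ : C(X, ℂ) →⋆ₐ[ℂ] B} {v : B}

theorem rho_star {C : Set X} (hC : IsClopen C) : star (ρ (ind C)) = ρ (ind C) := by
  rw [← map_star, star_ind hC]

theorem rho_mul {C D : Set X} (hC : IsClopen C) (hD : IsClopen D) :
    ρ (ind C) * ρ (ind D) = ρ (ind (C ∩ D)) := by
  rw [← map_mul, ind_mul hC hD]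

theorem rho_split {C Z : Set X} (hC : IsClopen C) (hZ : IsClopen Z) :
    ρ (ind C) = ρ (ind C) * ρ (ind Zᶜ) + ρ (ind C) * ρ (ind Z) := by
  rw [← mul_add, ← map_add, ind_compl hZ, sub_add_cancel, map_one, mul_one]

theorem ez_v (hZ : IsClopen Z) (h : Brk σ Z ρ v) : ρ (ind Z) * v = 0 := by
  rw [← CStarRing.mul_star_self_eq_zero_iff, star_mul, rho_star hZ, mul_assoc,
    ← mul_assoc v, h.final, rho_mul hZ.compl hZ, rho_mul hZ (hZ.compl.inter hZ)]
  have : Z ∩ (Zᶜ ∩ Z) = ∅ := by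
    ext x
    simp
  rw [this]
  have h0 : ind (∅ : Set X) = 0 := by
    have := ind_compl (X := X) isClopen_univ
    rw [Set.compl_univ, ind_univ, sub_self] at this
    exact this
  rw [h0, map_zero]

theorem v_ew (hZ : IsClopen Z) (h : Brk σ Z ρ v) : v * ρ (ind (σ ⁻¹' Z)) = 0 := by
  have hW : IsClopen (σ ⁻¹' Z) := hZ.preimage σ.continuous
  have hW' : IsClopen (σ ⁻¹' Zᶜ) := hZ.compl.preimage σ.continuous
  rw [← CStarRing.star_mul_self_eq_zero_iff, star_mul, rho_star hW, mul_assoc,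
    ← mul_assoc (star v), h.init, rho_mul hW' hW, rho_mul hW (hW'.inter hW)]
  have : σ ⁻¹' Z ∩ (σ ⁻¹' Zᶜ ∩ σ ⁻¹' Z) = ∅ := by
    ext x
    simp
  rw [this]
  have h0 : ind (∅ : Set X) = 0 := by
    have := ind_compl (X := X) isClopen_univ
    rw [Set.compl_univ, ind_univ, sub_self] at this
    exact this
  rw [h0, map_zero]

/-- step 1 -/
theorem mem_symm {I : Type} [NonUnitalCStarAlgebra I] {κ : I →⋆ₙₐ[ℂ] B} (hκ : IsIdeal κ)
    (hZ : IsClopen Z) (h : Brk σ Z ρ v) (h0 : Mem κ (ρ (ind Z))) {C : Set X} (hC : IsClopen C)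
    (h1 : Mem κ (ρ (ind C))) : Mem κ (ρ (ind (σ.symm ⁻¹' C))) := by
  have hC' : IsClopen (σ.symm ⁻¹' C) := hC.preimage σ.symm.continuous
  rw [rho_split (ρ := ρ) hC' hZ]
  refine Mem.add ?_ (Mem.left hκ _ h0)
  have h2 : v * ρ (ind C) * star v = ρ (ind (σ.symm ⁻¹' C)) * ρ (ind Zᶜ) := by
    rw [h.cov, mul_assoc, h.final, ind_comp hC]
    rfl
  rw [← h2]
  exact Mem.right hκ _ (Mem.left hκ _ h1)

theorem mem_pre {I : Type} [NonUnitalCStarAlgebra I] {κ : I →⋆ₙₐ[ℂ] B} (hκ : IsIdeal κ)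
    (hZ : IsClopen Z) (h : Brk σ Z ρ v) (h0 : Mem κ (ρ (ind (σ ⁻¹' Z)))) {C : Set X}
    (hC : IsClopen C) (h1 : Mem κ (ρ (ind C))) : Mem κ (ρ (ind (σ ⁻¹' C))) := by
  have hC' : IsClopen (σ ⁻¹' C) := hC.preimage σ.continuous
  have hW : IsClopen (σ ⁻¹' Z) := hZ.preimage σ.continuous
  rw [rho_split (ρ := ρ) hC' hW]
  refine Mem.add ?_ (Mem.left hκ _ h0)
  have h3 : v * ρ (ind (σ ⁻¹' C)) = ρ (ind C) * v := by
    rw [h.cov, ind_comp hC']
    congr 3
    ext x
    simp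
  have h2 : star v * (ρ (ind C) * v) = ρ (ind (σ ⁻¹' C)) * ρ (ind (σ ⁻¹' Z)ᶜ) := by
    rw [← h3, ← mul_assoc, h.init, rho_mul (hZ.compl.preimage σ.continuous) hC',
      rho_mul hC' hW.compl, Set.inter_comm]
    rfl
  rw [← h2]
  exact Mem.left hκ _ (Mem.right hκ _ h1)

theorem mem_all {I : Type} [NonUnitalCStarAlgebra I] {κ : I →⋆ₙₐ[ℂ] B} (hκ : IsIdeal κ)
    (hZ : IsClopen Z) (h : Brk σ Z ρ v) (h0 : Mem κ (ρ (ind Z)))
    (h0' : Mem κ (ρ (ind (σ ⁻¹' Z)))) (j : ℤ) : Mem κ (ρ (ind ((σ ^ j) ⁻¹' Z))) := by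
  have hcl : ∀ j : ℤ, IsClopen ((σ ^ j) ⁻¹' Z) := fun j => hZ.preimage (σ ^ j).continuous
  induction j using Int.induction_on with
  | zero =>
    have : ((σ ^ (0 : ℤ)) ⁻¹' Z) = Z := by
      rw [zpow_zero]; rfl
    rw [this]
    exact h0
  | succ i ih =>
    have h1 := mem_pre hκ hZ h h0' (hcl i) ih
    have : ((σ ^ ((i : ℤ) + 1)) ⁻¹' Z) = σ ⁻¹' ((σ ^ (i : ℤ)) ⁻¹' Z) := by
      rw [zpow_add_one]; rfl
    rw [this]
    exact h1
  | pred i ih =>
    have h1 := mem_symm hκ hZ h h0 (hcl (-i)) ih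
    have : ((σ ^ (-(i : ℤ) - 1)) ⁻¹' Z) = σ.symm ⁻¹' ((σ ^ (-(i : ℤ))) ⁻¹' Z) := by
      rw [zpow_sub_one]; rfl
    rw [this]
    exact h1

/-- the generators of the corner -/
def GI {I : Type} [NonUnitalCStarAlgebra I] (κ : I →⋆ₙₐ[ℂ] B) (ρ : C(X, ℂ) →⋆ₐ[ℂ] B)
    (Y : Set X) : Set I := {i | ∃ C : Set X, IsClopen C ∧ C ⊆ Y ∧ κ i = ρ (ind C)}

theorem corner [T2Space X] [TotallyDisconnectedSpace X] (hB1 : StB1) (hZ : IsClopen Z)
    (h : Brk σ Z ρ v) {I : Type} [NonUnitalCStarAlgebra I] {κ : I →⋆ₙₐ[ℂ] B} (hκ : IsIdeal κ)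
    {Y : Set X} (hY : IsClopen Y) {i₀ : I} (hi₀ : κ i₀ = ρ (ind Y))
    (hk : ∀ (f : C(X, ℂ)) (k : ℕ), ρ (ind Y) * (ρ f * v ^ (k + 1)) * ρ (ind Y) = 0) (x : I) :
    i₀ * x * i₀ ∈ closure (Submodule.span ℂ (GI κ ρ Y) : Set I) := by
  apply mem_closure_of_map hκ.inj
  obtain ⟨M, hM⟩ : ∃ M : Submodule ℂ B, M = (Submodule.span ℂ (GI κ ρ Y)).map
      (κ : I →ₗ[ℂ] B) := ⟨_, rfl⟩
  have hMs : (κ '' (Submodule.span ℂ (GI κ ρ Y) : Set I)) = (M : Set B) := by
    rw [hM]; rfl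
  rw [hMs, map_mul, map_mul, hi₀]
  -- indicators
  have hind : ∀ C : Set X, IsClopen C → C ⊆ Y → ρ (ind C) ∈ M := by
    intro C hC hCY
    have h1 : Mem κ (ρ (ind C)) := by
      have : ρ (ind C) = ρ (ind C) * κ i₀ := by
        rw [hi₀, rho_mul hC hY, Set.inter_eq_left.2 hCY]
      rw [this]
      exact Mem.left hκ _ ⟨i₀, rfl⟩
    obtain ⟨i, hi⟩ := h1
    rw [hM]
    exact ⟨i, Submodule.subset_span ⟨C, hC, hCY, hi⟩, hi⟩
  have hρ : Continuous ρ := by
    exact AddMonoidHomClass.continuous_of_bound ρ 1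
      (fun f => by rw [one_mul]; exact NonUnitalStarAlgHom.norm_apply_le ρ f)
  -- functions
  have hfun : ∀ f : C(X, ℂ), ρ (ind Y) * ρ f * ρ (ind Y) ∈ closure (M : Set B) := by
    intro f
    have h1 : ρ (ind Y) * ρ f * ρ (ind Y) = ρ (f * ind Y) := by
      rw [← map_mul, ← map_mul, mul_comm (ind Y) f, mul_assoc, ind_mul hY hY, Set.inter_self]
    rw [h1]
    refine map_mem_closure hρ (ind_dense_sub hY f) ?_
    intro g hg
    have hg' : g ∈ Submodule.span ℂ {g : C(X, ℂ) | ∃ C : Set X, IsClopen C ∧ C ⊆ Y ∧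
      g = ind C} := hg
    change ρ g ∈ M
    clear hg
    induction hg' using Submodule.span_induction with
    | mem x hx =>
      obtain ⟨C, hC, hCY, rfl⟩ := hx
      exact hind C hC hCY
    | zero => rw [map_zero]; exact Submodule.zero_mem _
    | add x y _ _ hx hy => rw [map_add]; exact Submodule.add_mem _ hx hy
    | smul c x _ hx => rw [map_smul]; exact Submodule.smul_mem _ _ hx
  have hsY : star (ρ (ind Y)) = ρ (ind Y) := rho_star hY
  -- the span
  have hc : Continuous fun b : B => ρ (ind Y) * b * ρ (ind Y) :=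
    (continuous_const.mul continuous_id).mul continuous_const
  have hcl : (M.topologicalClosure : Set B) = closure (M : Set B) :=
    Submodule.topologicalClosure_coe M
  have hmain : ∀ b ∈ Submodule.span ℂ {z : B | ∃ (f : C(X, ℂ)) (k : ℕ),
      z = ρ f * v ^ k ∨ z = star (v ^ k) * ρ f},
      ρ (ind Y) * b * ρ (ind Y) ∈ M.topologicalClosure := by
    intro b hb
    induction hb using Submodule.span_induction with
    | mem z hz =>
      obtain ⟨f, k, hz⟩ := hz
      rcases k with _ | k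
      · rw [pow_zero, mul_one, star_one, one_mul, or_self] at hz
        rw [hz]
        have h1 := hfun f
        rw [← hcl] at h1
        exact h1
      · rcases hz with hz | hz
        · rw [hz, hk]
          exact Submodule.zero_mem _
        · have h1 := congrArg star (hk (star f) k)
          rw [star_zero, star_mul, star_mul, star_mul, hsY, map_star, star_star,
            ← mul_assoc] at h1
          rw [hz, h1]
          exact Submodule.zero_mem _
    | zero => rw [mul_zero, zero_mul]; exact Submodule.zero_mem _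
    | add x y _ _ hx hy => rw [mul_add, add_mul]; exact Submodule.add_mem _ hx hy
    | smul c x _ hx =>
      rw [mul_smul_comm, smul_mul_assoc]; exact Submodule.smul_mem _ _ hx
  have h2 := map_mem_closure (f := fun b : B => ρ (ind Y) * b * ρ (ind Y))
    (t := (M.topologicalClosure : Set B)) hc (hB1 X σ Z B ρ v hZ h (κ x)) (fun b hb => hmain b hb)
  rw [hcl, closure_closure] at h2
  exact h2

/-- the projection of a quotient -/
theorem tame {I : Type} [NonUnitalCStarAlgebra I] {κ : I →⋆ₙₐ[ℂ] B} (hκ : IsIdeal κ)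
    {Y : Set X} (hY : IsClopen Y) {i₀ : I} (hi₀ : κ i₀ = ρ (ind Y))
    (hcor : ∀ x : I, i₀ * x * i₀ ∈ closure (Submodule.span ℂ (GI κ ρ Y) : Set I))
    {Q : Type} [NonUnitalCStarAlgebra Q] (θ : I →⋆ₙₐ[ℂ] Q) (hθ : Function.Surjective θ)
    (h0 : θ i₀ ≠ 0) : TameP Q := by
  have hprj : ∀ i : I, ∀ C : Set X, IsClopen C → κ i = ρ (ind C) → star i = i ∧ i * i = i := by
    intro i C hC hi
    constructor
    · apply hκ.inj
      rw [map_star, hi, rho_star hC]
    · apply hκ.inj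
      rw [map_mul, hi, rho_mul hC hC, Set.inter_self]
  refine ⟨θ i₀, θ '' (GI κ ρ Y), h0, ?_, ?_, ?_, ?_⟩
  · obtain ⟨h1, h2⟩ := hprj i₀ Y hY hi₀
    exact ⟨by rw [← map_star, h1], by rw [← map_mul, h2]⟩
  · rintro _ ⟨i, ⟨C, hC, hCY, hi⟩, rfl⟩
    obtain ⟨h1, h2⟩ := hprj i C hC hi
    refine ⟨⟨by rw [← map_star, h1], by rw [← map_mul, h2]⟩, ?_, ?_⟩
    · rw [← map_mul]
      congr 1
      apply hκ.inj
      rw [map_mul, hi₀, hi, rho_mul hY hC, Set.inter_eq_right.2 hCY]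
    · rw [← map_mul]
      congr 1
      apply hκ.inj
      rw [map_mul, hi₀, hi, rho_mul hC hY, Set.inter_eq_left.2 hCY]
  · rintro _ ⟨i, ⟨C, hC, hCY, hi⟩, rfl⟩ _ ⟨j, ⟨D, hD, hDY, hj⟩, rfl⟩
    rw [← map_mul, ← map_mul]
    congr 1
    apply hκ.inj
    rw [map_mul, map_mul, hi, hj, rho_mul hC hD, rho_mul hD hC, Set.inter_comm]
  · intro x
    obtain ⟨y, rfl⟩ := hθ x
    rw [← map_mul, ← map_mul]
    have hθc : Continuous θ := by
      exact AddMonoidHomClass.continuous_of_bound θ 1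
        (fun f => by rw [one_mul]; exact NonUnitalStarAlgHom.norm_apply_le θ f)
    refine map_mem_closure hθc (hcor y) ?_
    intro g hg
    have hg' : g ∈ Submodule.span ℂ (GI κ ρ Y) := hg
    change θ g ∈ Submodule.span ℂ (θ '' (GI κ ρ Y))
    clear hg
    induction hg' using Submodule.span_induction with
    | mem x hx => exact Submodule.subset_span ⟨x, hx, rfl⟩
    | zero => rw [map_zero]; exact Submodule.zero_mem _
    | add x y _ _ hx hy => rw [map_add]; exact Submodule.add_mem _ hx hy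
    | smul c x _ hx => rw [map_smul]; exact Submodule.smul_mem _ _ hx

end brk

theorem sysAll_of_subsingleton (K : Type) [NonUnitalCStarAlgebra K] (h : ∀ x y : K, x = y) :
    SysAll K (Option (Fin 0)) := by
  intro G ε hε
  refine ⟨fun _ => { ι := Empty, n := fun _ => Empty }, fun _ => 0, fun _ => 0,
    fun _ => ⟨IsCP.zero, fun a => by simp⟩, fun _ => ⟨⟨IsCP.zero, fun a => by simp⟩,
      fun a b _ => by simp⟩, fun a _ => ?_⟩
  rw [h (∑ j, _ - a) 0, norm_zero]
  exact hε.le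

/-- a homomorphism vanishing at a generator of an ideal is zero -/
theorem theta_zero {I B Q : Type} [NonUnitalCStarAlgebra I] [NonUnitalCStarAlgebra B]
    [NonUnitalCStarAlgebra Q] {κ : I →⋆ₙₐ[ℂ] B} (hκ : IsIdeal κ) (θ : I →⋆ₙₐ[ℂ] Q) {a : B}
    (ha : a * a = a) {a' : I} (ha' : κ a' = a) (h0 : θ a' = 0)
    (hcl : ∀ k, κ k ∈ closure (Submodule.span ℂ {z : B | ∃ x y : B, z = x * a * y} : Set B))
    (k : I) : θ k = 0 := by
  have hθc : Continuous θ := by
    exact AddMonoidHomClass.continuous_of_bound θ 1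
      (fun f => by rw [one_mul]; exact NonUnitalStarAlgHom.norm_apply_le θ f)
  obtain ⟨N, hN⟩ : ∃ N : Submodule ℂ I, N = LinearMap.ker (θ : I →ₗ[ℂ] Q) := ⟨_, rfl⟩
  have hNm : ∀ i, i ∈ N ↔ θ i = 0 := by
    intro i
    rw [hN, LinearMap.mem_ker]
    rfl
  have hNc : IsClosed (N : Set I) := by
    have : (N : Set I) = {i | θ i = 0} := by
      ext i
      exact hNm i
    rw [this]
    exact isClosed_eq hθc continuous_const
  have h1 := (NonUnitalStarAlgHom.isometry κ hκ.inj).isClosedEmbedding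
  have h2 : κ k ∈ closure (κ '' (N : Set I)) := by
    refine closure_mono ?_ (hcl k)
    have hMs : (κ '' (N : Set I)) = ((N.map (κ : I →ₗ[ℂ] B) : Submodule ℂ B) : Set B) := rfl
    rw [hMs]
    apply (Submodule.span_le).2
    rintro z ⟨x, y, rfl⟩
    obtain ⟨i, hi⟩ := hκ.left x a'
    obtain ⟨j, hj⟩ := hκ.right y a'
    refine ⟨i * a' * j, ?_, ?_⟩
    · change i * a' * j ∈ N
      rw [hNm, map_mul, map_mul, h0, mul_zero, zero_mul]
    · change κ (i * a' * j) = x * a * y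
      rw [map_mul, map_mul, hi, hj, ha', mul_assoc x a a, ha, ← mul_assoc, mul_assoc x a a, ha]
  rw [h1.closure_image_eq, hNc.closure_eq] at h2
  obtain ⟨j, hj, hjk⟩ := h2
  have := hκ.inj hjk
  rw [← this]
  exact (hNm j).1 hj

theorem t_B2 (hB1 : StB1) (hIG : StIG) (hZP : StZP) : StB2 := by
  intro X _ _ _ _ σ Z B _ ρ v hZ h
  have hW : IsClopen (σ ⁻¹' Z) := hZ.preimage σ.continuous
  have hZW : IsClopen (Z ∪ σ ⁻¹' Z) := hZ.union hW
  obtain ⟨I, instI, κ, hκ, ⟨a', ha'⟩, hcl⟩ := hIG B (ρ (ind (Z ∪ σ ⁻¹' Z)))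
  have haa : ρ (ind (Z ∪ σ ⁻¹' Z)) * ρ (ind (Z ∪ σ ⁻¹' Z)) = ρ (ind (Z ∪ σ ⁻¹' Z)) := by
    rw [rho_mul hZW hZW, Set.inter_self]
  have hm1 : Mem κ (ρ (ind Z)) := by
    have : ρ (ind Z) = ρ (ind Z) * κ a' := by
      rw [ha', rho_mul hZ hZW, Set.inter_eq_left.2 Set.subset_union_left]
    rw [this]
    exact Mem.left hκ _ ⟨a', rfl⟩
  have hm2 : Mem κ (ρ (ind (σ ⁻¹' Z))) := by
    have : ρ (ind (σ ⁻¹' Z)) = ρ (ind (σ ⁻¹' Z)) * κ a' := by
      rw [ha', rho_mul hW hZW, Set.inter_eq_left.2 Set.subset_union_right]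
    rw [this]
    exact Mem.left hκ _ ⟨a', rfl⟩
  refine ⟨I, instI, κ, hκ, ?_, fun j => mem_all hκ hZ h hm1 hm2 j⟩
  obtain ⟨i₁, hi₁⟩ := hm1
  obtain ⟨i₂, hi₂⟩ := hm2
  obtain ⟨K, instK, κ₀, hκ₀, -, hcl₀⟩ := hIG I (0 : I)
  have hK0 : ∀ k, κ₀ k = 0 := by
    intro k
    have h1 := hcl₀ k
    have h2 : Submodule.span ℂ {z : I | ∃ x y : I, z = x * 0 * y} = ⊥ := by
      rw [Submodule.span_eq_bot]
      rintro z ⟨x, y, rfl⟩
      simp
    rw [h2, Submodule.bot_coe, closure_singleton] at h1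
    exact h1
  have hKs : ∀ x y : K, x = y := fun x y => hκ₀.inj (by rw [hK0, hK0])
  refine hZP K I κ₀ (Option (Fin 0)) inferInstance hκ₀ (sysAll_of_subsingleton K hKs) ?_
  intro Q _ θ hθ hQ _
  by_cases h1 : θ i₁ = 0
  · by_cases h2 : θ i₂ = 0
    · exfalso
      have h3 : a' = i₁ + i₂ - i₁ * i₂ := by
        apply hκ.inj
        rw [ha', map_sub, map_add, map_mul, hi₁, hi₂, ind_union hZ hW, map_sub, map_add,
          map_mul]
      have h4 : θ a' = 0 := by
        rw [h3, map_sub, map_add, map_mul, h1, h2]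
        simp
      have h5 := theta_zero hκ θ haa ha' h4 hcl
      obtain ⟨x, y, hxy⟩ := hQ.exists_pair_ne
      obtain ⟨i, rfl⟩ := hθ x
      obtain ⟨j, rfl⟩ := hθ y
      exact hxy (by rw [h5, h5])
    · refine tame hκ hW hi₂ (corner hB1 hZ h hκ hW hi₂ ?_) θ hθ h2
      intro f k
      rw [pow_succ]
      simp only [mul_assoc]
      rw [v_ew hZ h]
      simp
  · refine tame hκ hZ hi₁ (corner hB1 hZ h hκ hZ hi₁ ?_) θ hθ h1
    intro f k
    have h3 : ρ (ind Z) * ρ f = ρ f * ρ (ind Z) := by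
      rw [← map_mul, ← map_mul, mul_comm]
    rw [pow_succ', ← mul_assoc, ← mul_assoc, h3, mul_assoc (ρ f), ez_v hZ h]
    simp

end Pool.Agent.Helper7_GA.G_B2
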