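import Pool.Agent.Helper7_GA.Stm3

set_option autoImplicit false

open scoped Matrix.Norms.L2Operator ENNReal Matrix
open Pool.Agent.W659.EC Pool.Agent.Helper7_ND

noncomputable section

namespace Pool.Agent.Helper7_GA.G_B3

theorem cont {B Q : Type} [NonUnitalCStarAlgebra B] [NonUnitalCStarAlgebra Q]
    (θ : B →⋆ₙₐ[ℂ] Q) : Continuous θ :=
  AddMonoidHomClass.continuous_of_bound θ 1 (fun x => by
    rw [one_mul]
    exact NonUnitalStarAlgHom.norm_apply_le θ x)

theorem core {Q B : Type} [CStarAlgebra B] [NonUnitalCStarAlgebra Q] (θ : B →⋆ₙₐ[ℂ] Q)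
    (hθ : Function.Surjective θ) (v : B) (q : Q) (p : ℕ) (S : Set B)
    (hS : ∀ b : B, b ∈ closure (Submodule.span ℂ S : Set B)) (hq : Prj q) (hq0 : q ≠ 0)
    (hV1 : θ (star v * v) = θ 1) (hV2 : θ (v * star v) = θ 1)
    (hcomm : q * θ (v ^ p) = θ (v ^ p) * q)
    (hk : ∀ k : ℕ, q * θ (v ^ k) * q = 0 ∨ ∃ a, k = p * a)
    (hSz : ∀ z ∈ S, ∃ (c : ℂ) (k : ℕ), q * θ z * q = c • (q * θ (v ^ k) * q) ∨
      q * θ z * q = c • star (q * θ (v ^ k) * q)) : TameU Q := by
  obtain ⟨hqs, hqq⟩ := hq
  have he1 : ∀ x : Q, θ 1 * x = x := by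
    intro x
    obtain ⟨b, rfl⟩ := hθ x
    rw [← map_mul, one_mul]
  have he2 : ∀ x : Q, x * θ 1 = x := by
    intro x
    obtain ⟨b, rfl⟩ := hθ x
    rw [← map_mul, mul_one]
  have hA : ∀ k : ℕ, θ (star (v ^ k)) * θ (v ^ k) = θ 1 := by
    intro k
    induction k with
    | zero => rw [pow_zero, star_one, ← map_mul, one_mul]
    | succ k ih =>
      rw [pow_succ, star_mul, map_mul, map_mul, mul_assoc, ← mul_assoc (θ (star (v ^ k))), ih,
        he1, ← map_mul, hV1]
  have hB : ∀ k : ℕ, θ (v ^ k) * θ (star (v ^ k)) = θ 1 := by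
    intro k
    induction k with
    | zero => rw [pow_zero, star_one, ← map_mul, one_mul]
    | succ k ih =>
      rw [pow_succ', star_mul, map_mul, map_mul, mul_assoc, ← mul_assoc (θ (v ^ k)), ih,
        he1, ← map_mul, hV2]
  have hstar : ∀ k : ℕ, star (θ (v ^ k)) = θ (star (v ^ k)) := fun k => (map_star θ _).symm
  obtain ⟨w, hw⟩ : ∃ w : Q, w = θ (v ^ p) * q := ⟨_, rfl⟩
  have hpw : ∀ a : ℕ, θ (v ^ (p * a)) * q = pw w q a ∧
      q * θ (v ^ (p * a)) = θ (v ^ (p * a)) * q := by
    intro a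
    induction a with
    | zero =>
      rw [mul_zero, pow_zero]
      refine ⟨?_, ?_⟩
      · rw [he1]
        rfl
      · rw [he1, he2]
    | succ a ih =>
      obtain ⟨ih1, ih2⟩ := ih
      have e1 : θ (v ^ (p * (a + 1))) = θ (v ^ p) * θ (v ^ (p * a)) := by
        rw [← map_mul, ← pow_add]
        congr 2
        ring
      refine ⟨?_, ?_⟩
      · have e2 : pw w q (a + 1) = w * pw w q a := by
          unfold pw
          rw [Function.iterate_succ_apply']
        rw [e2, ← ih1, e1, hw, mul_assoc, mul_assoc, ← mul_assoc q, ih2, mul_assoc, hqq]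
      · rw [e1, ← mul_assoc, hcomm, mul_assoc, ih2, ← mul_assoc]
  refine ⟨q, w, hq0, ⟨hqs, hqq⟩, ?_, ?_, ?_⟩
  · rw [hw, star_mul, hqs, hstar, mul_assoc, ← mul_assoc (θ (star (v ^ p))), hA, he1, hqq]
  · rw [hw, star_mul, hqs, hstar, mul_assoc, ← mul_assoc q q, hqq, ← mul_assoc, ← hcomm,
      mul_assoc, hB, he2]
  · intro x
    obtain ⟨b, rfl⟩ := hθ x
    have hmem : ∀ k : ℕ, q * θ (v ^ k) * q ∈ Submodule.span ℂ (pws w q) ∧
        star (q * θ (v ^ k) * q) ∈ Submodule.span ℂ (pws w q) := by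
      intro k
      rcases hk k with h | ⟨a, rfl⟩
      · rw [h, star_zero]
        exact ⟨Submodule.zero_mem _, Submodule.zero_mem _⟩
      · obtain ⟨h1, h2⟩ := hpw a
        have h3 : q * θ (v ^ (p * a)) * q = pw w q a := by
          rw [h2, mul_assoc, hqq, h1]
        rw [h3]
        exact ⟨Submodule.subset_span ⟨a, Or.inl rfl⟩, Submodule.subset_span ⟨a, Or.inr rfl⟩⟩
    have hcont : Continuous (fun b : B => q * θ b * q) := by
      have hc : Continuous θ := cont θ
      exact (continuous_const.mul hc).mul continuous_const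
    refine map_mem_closure (f := fun b : B => q * θ b * q) hcont (hS b) ?_
    intro z hz
    have hz' : z ∈ Submodule.span ℂ S := hz
    clear hz
    show q * θ z * q ∈ Submodule.span ℂ (pws w q)
    induction hz' using Submodule.span_induction with
    | mem z hz =>
      obtain ⟨c, k, h | h⟩ := hSz z hz
      · rw [h]
        exact Submodule.smul_mem _ _ (hmem k).1
      · rw [h]
        exact Submodule.smul_mem _ _ (hmem k).2
    | zero => simp
    | add x y hx hy ihx ihy =>
      rw [map_add, mul_add, add_mul]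
      exact Submodule.add_mem _ ihx ihy
    | smul c x hx ihx =>
      rw [map_smul, mul_smul_comm, smul_mul_assoc]
      exact Submodule.smul_mem _ _ ihx

section top

variable {X : Type} [TopologicalSpace X]

theorem ind_one {C : Set X} (h : IsClopen C) {x : X} (hx : x ∈ C) : ind C x = 1 := by
  classical
  rw [ind_apply h, if_pos hx]

theorem ind_zero {C : Set X} (h : IsClopen C) {x : X} (hx : x ∉ C) : ind C x = 0 := by
  classical
  rw [ind_apply h, if_neg hx]

theorem avoid_symm (σ : X ≃ₜ X) (Z : Set X) {x : X} (hx : x ∈ avoid σ Z) :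
    σ.symm x ∈ avoid σ Z := by
  intro k
  have := hx (k - 1)
  rw [zpow_sub_one] at this
  exact this

theorem avoid_iter (σ : X ≃ₜ X) (Z : Set X) {x : X} (hx : x ∈ avoid σ Z) (k : ℕ) :
    (σ.symm)^[k] x ∈ avoid σ Z := by
  induction k with
  | zero => exact hx
  | succ k ih =>
    rw [Function.iterate_succ_apply']
    exact avoid_symm σ Z ih

theorem period (σ : X ≃ₜ X) (Z : Set X) (hfin : (avoid σ Z).Finite) {x : X}
    (hx : x ∈ avoid σ Z) : ∃ p : ℕ, (σ.symm)^[p] x = x ∧
      ∀ k : ℕ, (σ.symm)^[k] x = x → ∃ a, k = p * a := by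
  obtain ⟨m, n, hmn, h⟩ := hfin.exists_lt_map_eq_of_forall_mem
    (f := fun n : ℕ => (σ.symm)^[n] x) (fun n => avoid_iter σ Z hx n)
  refine ⟨Function.minimalPeriod σ.symm x, Function.iterate_minimalPeriod, ?_⟩
  intro k hk
  exact (Function.IsPeriodicPt.minimalPeriod_dvd hk)

/-- iterated composition with the inverse of `σ` -/
def cmp (σ : X ≃ₜ X) (k : ℕ) (f : C(X, ℂ)) : C(X, ℂ) :=
  (fun g : C(X, ℂ) => g.comp (σ.symm : C(X, X)))^[k] f

theorem cmp_apply (σ : X ≃ₜ X) (k : ℕ) (f : C(X, ℂ)) (y : X) :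
    cmp σ k f y = f ((σ.symm)^[k] y) := by
  induction k generalizing f with
  | zero => rfl
  | succ k ih =>
    have : cmp σ (k + 1) f = cmp σ k (f.comp (σ.symm : C(X, X))) := by
      unfold cmp
      rw [Function.iterate_succ_apply]
    rw [this, ih, Function.iterate_succ_apply']
    rfl

end top

theorem vanish {X : Type} [TopologicalSpace X] [CompactSpace X] [T2Space X] {Q B : Type}
    [CStarAlgebra B] [NonUnitalCStarAlgebra Q] (ρ : C(X, ℂ) →⋆ₐ[ℂ] B) (θ : B →⋆ₙₐ[ℂ] Q)
    (σ : X ≃ₜ X) (Z : Set X) (hZ : IsClopen Z)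
    (h0 : ∀ j : ℤ, θ (ρ (ind ((σ ^ j) ⁻¹' Z))) = 0) (f : C(X, ℂ))
    (hf : ∀ x ∈ avoid σ Z, f x = 0) : θ (ρ f) = 0 := by
  let I : Ideal C(X, ℂ) :=
    { carrier := {f | θ (ρ f) = 0}
      add_mem' := by
        intro a b ha hb
        simp only [Set.mem_ofPred_eq] at *
        rw [map_add, map_add, ha, hb, add_zero]
      zero_mem' := by
        simp only [Set.mem_ofPred_eq]
        rw [map_zero, map_zero]
      smul_mem' := by
        intro c a ha
        simp only [Set.mem_ofPred_eq, smul_eq_mul] at *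
        rw [map_mul, map_mul, ha, mul_zero] }
  have hc : Continuous (fun f : C(X, ℂ) => θ (ρ f)) :=
    (cont θ).comp (AddMonoidHomClass.continuous_of_bound ρ 1 (fun x => by
      rw [one_mul]
      exact NonUnitalStarAlgHom.norm_apply_le ρ x))
  have hI : IsClosed (I : Set C(X, ℂ)) := by
    have : (I : Set C(X, ℂ)) = (fun f : C(X, ℂ) => θ (ρ f)) ⁻¹' {0} := rfl
    rw [this]
    exact isClosed_singleton.preimage hc
  have hfI : f ∈ I := by
    rw [← ContinuousMap.idealOfSet_ofIdeal_isClosed hI, ContinuousMap.mem_idealOfSet]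
    intro x hx
    have hx' : ∀ g ∈ I, g x = 0 := by
      intro g hg
      exact (ContinuousMap.notMem_setOfIdeal.1 hx) hg
    apply hf
    intro j hj
    have hcl : IsClopen ((σ ^ j) ⁻¹' Z) := hZ.preimage (σ ^ j).continuous
    have h1 := hx' _ (show ind ((σ ^ j) ⁻¹' Z) ∈ I from h0 j)
    rw [ind_one hcl hj] at h1
    exact one_ne_zero h1
  exact hfI

theorem t_B3 (hB1 : StB1) : StB3 := by
  intro X _ _ _ _ σ Z B _ ρ v hZ hBrk hfin Q _ θ hθ hQ h0
  classical
  have hvan : ∀ f g : C(X, ℂ), (∀ x ∈ avoid σ Z, f x = g x) → θ (ρ f) = θ (ρ g) := by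
    intro f g hfg
    have := vanish ρ θ σ Z hZ h0 (f - g) (fun x hx => by
      rw [ContinuousMap.sub_apply, hfg x hx, sub_self])
    rw [map_sub, map_sub] at this
    exact sub_eq_zero.1 this
  have hone : θ (ρ 1) = θ 1 := by rw [map_one]
  have hcov : ∀ (k : ℕ) (f : C(X, ℂ)), v ^ k * ρ f = ρ (cmp σ k f) * v ^ k := by
    intro k
    induction k with
    | zero =>
      intro f
      rw [pow_zero, one_mul, mul_one]
      rfl
    | succ k ih =>
      intro f
      have : cmp σ (k + 1) f = cmp σ k (f.comp (σ.symm : C(X, X))) := by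
        unfold cmp
        rw [Function.iterate_succ_apply]
      rw [this, pow_succ, mul_assoc, hBrk.cov, ← mul_assoc, ih, mul_assoc]
  -- clopen neighbourhoods
  have hC : ∀ x : X, x ∈ avoid σ Z → ∃ C : Set X, IsClopen C ∧
      ∀ y ∈ avoid σ Z, y ∈ C ↔ y = x := by
    intro x hx
    have hopen : IsOpen ((avoid σ Z \ {x})ᶜ) := (hfin.sdiff).isClosed.isOpen_compl
    obtain ⟨C, hC, hxC, hCs⟩ := compact_exists_isClopen_in_isOpen hopen
      (x := x) (fun h => h.2 rfl)
    refine ⟨C, hC, fun y hy => ⟨fun hyC => ?_, fun h => h ▸ hxC⟩⟩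
    by_contra hne
    exact hCs hyC ⟨hy, hne⟩
  choose! C hCc hCm using hC
  obtain ⟨x, hx, hqx⟩ : ∃ x ∈ avoid σ Z, θ (ρ (ind (C x))) ≠ 0 := by
    by_contra hcon
    push Not at hcon
    have h1 : θ (ρ (∑ x ∈ hfin.toFinset, ind (C x))) = 0 := by
      rw [map_sum, map_sum]
      exact Finset.sum_eq_zero (fun x hx => hcon x (hfin.mem_toFinset.1 hx))
    have h2 : θ (ρ (∑ x ∈ hfin.toFinset, ind (C x))) = θ (ρ 1) := by
      apply hvan
      intro y hy
      rw [ContinuousMap.sum_apply, Finset.sum_eq_single y]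
      · rw [ind_one (hCc y hy) ((hCm y hy y hy).2 rfl)]
        rfl
      · intro z hz hzy
        exact ind_zero (hCc z (hfin.mem_toFinset.1 hz))
          (fun h => hzy ((hCm z (hfin.mem_toFinset.1 hz) y hy).1 h).symm)
      · intro h
        exact absurd (hfin.mem_toFinset.2 hy) h
    obtain ⟨a, b, hab⟩ := hQ
    apply hab
    have h3 : ∀ c : Q, c = 0 := by
      intro c
      obtain ⟨d, rfl⟩ := hθ c
      rw [← one_mul d, map_mul, ← hone, ← h2, h1, zero_mul]
    rw [h3 a, h3 b]
  obtain ⟨p, hp, hpk⟩ := period σ Z hfin hx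
  have hcx := hCc x hx
  have hmx := hCm x hx
  have hindx : ∀ y ∈ avoid σ Z, ind (C x) y = if y = x then 1 else 0 := by
    intro y hy
    split_ifs with h
    · exact ind_one hcx ((hmx y hy).2 h)
    · exact ind_zero hcx (fun h' => h ((hmx y hy).1 h'))
  set q : Q := θ (ρ (ind (C x))) with hq
  have hinj : ∀ k : ℕ, Function.Injective ((σ.symm)^[k]) := fun k => σ.symm.injective.iterate k
  refine core θ hθ v q p _ (hB1 X σ Z B ρ v hZ hBrk) ⟨?_, ?_⟩ hqx ?_ ?_ ?_ ?_ ?_
  · rw [hq, ← map_star, ← map_star]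
    apply hvan
    intro y hy
    rw [ContinuousMap.star_apply, hindx y hy]
    split_ifs <;> simp
  · rw [hq, ← map_mul, ← map_mul]
    apply hvan
    intro y hy
    rw [ContinuousMap.mul_apply, hindx y hy]
    split_ifs <;> simp
  · rw [hBrk.init, ← hone]
    apply hvan
    intro y hy
    have hcl : IsClopen (σ ⁻¹' Zᶜ) := hZ.compl.preimage σ.continuous
    rw [ind_one hcl]
    · rfl
    · have := hy 1
      rw [zpow_one] at this
      exact this
  · rw [hBrk.final, ← hone]
    apply hvan
    intro y hy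
    rw [ind_one hZ.compl]
    · rfl
    · have := hy 0
      rw [zpow_zero] at this
      exact this
  · rw [hq, ← map_mul, ← map_mul, hcov, map_mul, map_mul]
    congr 1
    apply hvan
    intro y hy
    rw [cmp_apply, hindx y hy, hindx _ (avoid_iter σ Z hy p)]
    by_cases h : y = x
    · rw [if_pos h, if_pos (by rw [h, hp])]
    · rw [if_neg h, if_neg (fun h' => h (hinj p (h'.trans hp.symm)))]
  · intro k
    by_cases h : (σ.symm)^[k] x = x
    · exact Or.inr (hpk k h)
    · left
      have : θ (ρ (ind (C x)) * ρ (cmp σ k (ind (C x)))) = θ (ρ 0) := by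
        rw [← map_mul]
        apply hvan
        intro y hy
        rw [ContinuousMap.mul_apply, cmp_apply, hindx y hy, hindx _ (avoid_iter σ Z hy k)]
        by_cases h' : y = x
        · rw [h', if_neg h, mul_zero]
          rfl
        · rw [if_neg h', zero_mul]
          rfl
      rw [hq, mul_assoc, ← map_mul, hcov, map_mul, ← mul_assoc, ← map_mul, this, map_zero,
        map_zero, zero_mul]
  · rintro z ⟨f, k, rfl | rfl⟩
    · refine ⟨f x, k, Or.inl ?_⟩
      have h1 : q * θ (ρ f) = f x • q := by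
        rw [hq, ← map_mul, ← map_mul, ← map_smul, ← map_smul]
        apply hvan
        intro y hy
        rw [ContinuousMap.mul_apply, ContinuousMap.smul_apply, hindx y hy]
        by_cases h : y = x
        · rw [if_pos h, h]
          simp
        · rw [if_neg h]
          simp
      rw [map_mul, ← mul_assoc, h1, smul_mul_assoc, smul_mul_assoc]
    · refine ⟨f x, k, Or.inr ?_⟩
      have h1 : θ (ρ f) * q = f x • q := by
        rw [hq, ← map_mul, ← map_mul, ← map_smul, ← map_smul]
        apply hvan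
        intro y hy
        rw [ContinuousMap.mul_apply, ContinuousMap.smul_apply, hindx y hy]
        by_cases h : y = x
        · rw [if_pos h, h]
          simp
        · rw [if_neg h]
          simp
      have h2 : star q = q := by
        rw [hq, ← map_star, ← map_star]
        apply hvan
        intro y hy
        rw [ContinuousMap.star_apply, hindx y hy]
        split_ifs <;> simp
      rw [map_mul, mul_assoc, mul_assoc, h1, star_mul, star_mul, h2, ← map_star, mul_smul_comm,
        mul_smul_comm]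

end Pool.Agent.Helper7_GA.G_B3
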