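import Pool.Agent.Helper7_GA.Stm3

set_option autoImplicit false

open scoped Matrix.Norms.L2Operator ENNReal Matrix
open Pool.Agent.W659.EC Pool.Agent.Helper7_ND

noncomputable section

namespace Pool.Agent.Helper7_GA.G_E2

/-- the span of the indicator functions of the clopen sets -/
def Sp (X : Type) [TopologicalSpace X] : Submodule ℂ C(X, ℂ) :=
  Submodule.span ℂ {f : C(X, ℂ) | ∃ C : Set X, IsClopen C ∧ f = ind C}

theorem Sp_mul {X : Type} [TopologicalSpace X] {a b : C(X, ℂ)} (ha : a ∈ Sp X) (hb : b ∈ Sp X) :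
    a * b ∈ Sp X := by
  classical
  unfold Sp at ha hb ⊢
  induction ha using Submodule.span_induction with
  | mem x hx =>
    obtain ⟨C, hC, rfl⟩ := hx
    induction hb using Submodule.span_induction with
    | mem y hy =>
      obtain ⟨D, hD, rfl⟩ := hy
      refine Submodule.subset_span ⟨C ∩ D, hC.inter hD, ?_⟩
      ext x
      rw [ContinuousMap.mul_apply, ind_apply hC, ind_apply hD, ind_apply (hC.inter hD)]
      by_cases h1 : x ∈ C <;> by_cases h2 : x ∈ D <;> simp [h1, h2]
    | zero => rw [mul_zero]; exact Submodule.zero_mem _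
    | add x y _ _ h1 h2 => rw [mul_add]; exact Submodule.add_mem _ h1 h2
    | smul c x _ h1 => rw [mul_smul_comm]; exact Submodule.smul_mem _ c h1
  | zero => rw [zero_mul]; exact Submodule.zero_mem _
  | add x y _ _ h1 h2 => rw [add_mul]; exact Submodule.add_mem _ h1 h2
  | smul c x _ h1 => rw [smul_mul_assoc]; exact Submodule.smul_mem _ c h1

theorem Sp_star {X : Type} [TopologicalSpace X] {a : C(X, ℂ)} (ha : a ∈ Sp X) :
    star a ∈ Sp X := by
  classical
  unfold Sp at ha ⊢
  induction ha using Submodule.span_induction with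
  | mem x hx =>
    obtain ⟨C, hC, rfl⟩ := hx
    refine Submodule.subset_span ⟨C, hC, ?_⟩
    ext x
    rw [ContinuousMap.star_apply, ind_apply hC]
    by_cases h1 : x ∈ C <;> simp [h1]
  | zero => rw [star_zero]; exact Submodule.zero_mem _
  | add x y _ _ h1 h2 => rw [star_add]; exact Submodule.add_mem _ h1 h2
  | smul c x _ h1 => rw [star_smul]; exact Submodule.smul_mem _ _ h1

theorem Sp_one {X : Type} [TopologicalSpace X] : (1 : C(X, ℂ)) ∈ Sp X := by
  classical
  refine Submodule.subset_span ⟨Set.univ, isClopen_univ, ?_⟩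
  ext x
  rw [ind_apply isClopen_univ]
  simp

/-- the same as a star subalgebra -/
def SA (X : Type) [TopologicalSpace X] : StarSubalgebra ℂ C(X, ℂ) where
  carrier := Sp X
  mul_mem' := fun ha hb => Sp_mul ha hb
  one_mem' := Sp_one
  add_mem' := fun ha hb => (Sp X).add_mem ha hb
  zero_mem' := (Sp X).zero_mem
  algebraMap_mem' := fun c => by
    rw [Algebra.algebraMap_eq_smul_one]
    exact (Sp X).smul_mem c Sp_one
  star_mem' := fun ha => Sp_star ha

theorem Sp_dense {X : Type} [TopologicalSpace X] [CompactSpace X] [T2Space X]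
    [TotallyDisconnectedSpace X] (f : C(X, ℂ)) : f ∈ closure (Sp X : Set C(X, ℂ)) := by
  classical
  have : TotallySeparatedSpace X := inferInstance
  have h : (SA X).topologicalClosure = ⊤ := by
    refine ContinuousMap.starSubalgebra_topologicalClosure_eq_top_of_separatesPoints _ ?_
    intro x y hxy
    obtain ⟨C, hC, hx, hy⟩ := exists_isClopen_of_totally_separated hxy
    refine ⟨_, ⟨ind C, ?_, rfl⟩, ?_⟩
    · exact (Submodule.subset_span ⟨C, hC, rfl⟩ : ind C ∈ Sp X)
    · change (ind C : C(X, ℂ)) x ≠ (ind C : C(X, ℂ)) y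
      rw [ind_apply hC, ind_apply hC, if_pos hx, if_neg hy]
      exact one_ne_zero
  have h1 : f ∈ (SA X).topologicalClosure := by
    rw [h]
    exact StarSubalgebra.mem_top
  exact h1

section

variable {X : Type} [TopologicalSpace X] [CompactSpace X] {σ : X ≃ₜ X} {E : Type} [CStarAlgebra E]
  {π : C(X, ℂ) →⋆ₐ[ℂ] E} {u : E}

theorem cov' (h : Cov σ π u) (f : C(X, ℂ)) :
    star u * π f = π (f.comp (σ : C(X, X))) * star u := by
  have h1 := h.cov (f.comp (σ : C(X, X)))
  have h2 : (f.comp (σ : C(X, X))).comp (σ.symm : C(X, X)) = f := by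
    ext x
    simp
  rw [h2] at h1
  calc star u * π f = star u * π f * (u * star u) := by rw [h.u2, mul_one]
    _ = star u * (π f * u) * star u := by simp only [mul_assoc]
    _ = star u * (u * π (f.comp (σ : C(X, X)))) * star u := by rw [h1]
    _ = star u * u * π (f.comp (σ : C(X, X))) * star u := by simp only [mul_assoc]
    _ = π (f.comp (σ : C(X, X))) * star u := by rw [h.u1, one_mul]

theorem cvz (h : Cov σ π u) (U : unitary E) (hU : (U : E) = u) (k : ℤ) : ∀ f : C(X, ℂ),
    ∃ g : C(X, ℂ), ((U ^ k : unitary E) : E) * π f = π g * ((U ^ k : unitary E) : E) := by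
  have hi : ((U⁻¹ : unitary E) : E) = star u := by
    rw [← Unitary.star_eq_inv, Unitary.coe_star, hU]
  induction k using Int.induction_on with
  | zero =>
    intro f
    exact ⟨f, by simp⟩
  | succ n ih =>
    intro f
    obtain ⟨g, hg⟩ := ih (f.comp (σ.symm : C(X, X)))
    refine ⟨g, ?_⟩
    have e : ((U ^ ((n : ℤ) + 1) : unitary E) : E) = ((U ^ (n : ℤ) : unitary E) : E) * u := by
      rw [zpow_add_one, Submonoid.coe_mul, hU]
    rw [e, mul_assoc, h.cov, ← mul_assoc, hg, mul_assoc]
  | pred n ih =>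
    intro f
    obtain ⟨g, hg⟩ := ih (f.comp (σ : C(X, X)))
    refine ⟨g, ?_⟩
    have e : ((U ^ (-(n : ℤ) - 1) : unitary E) : E) =
        ((U ^ (-(n : ℤ)) : unitary E) : E) * star u := by
      rw [zpow_sub_one, Submonoid.coe_mul, hi]
    rw [e, mul_assoc, cov' h, ← mul_assoc, hg, mul_assoc]

/-- the span of the `π f * u ^ k` -/
def SpE (π : C(X, ℂ) →⋆ₐ[ℂ] E) (U : unitary E) : Submodule ℂ E :=
  Submodule.span ℂ {z : E | ∃ (f : C(X, ℂ)) (k : ℤ), z = π f * ((U ^ k : unitary E) : E)}

theorem SpE_mul (h : Cov σ π u) (U : unitary E) (hU : (U : E) = u) {a b : E}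
    (ha : a ∈ SpE π U) (hb : b ∈ SpE π U) : a * b ∈ SpE π U := by
  unfold SpE at ha hb ⊢
  induction ha using Submodule.span_induction with
  | mem x hx =>
    obtain ⟨f, k, rfl⟩ := hx
    induction hb using Submodule.span_induction with
    | mem y hy =>
      obtain ⟨f', l, rfl⟩ := hy
      obtain ⟨g, hg⟩ := cvz h U hU k f'
      refine Submodule.subset_span ⟨f * g, k + l, ?_⟩
      rw [map_mul, zpow_add, Submonoid.coe_mul]
      calc π f * ((U ^ k : unitary E) : E) * (π f' * ((U ^ l : unitary E) : E))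
          = π f * (((U ^ k : unitary E) : E) * π f') * ((U ^ l : unitary E) : E) := by
            simp only [mul_assoc]
        _ = π f * π g * (((U ^ k : unitary E) : E) * ((U ^ l : unitary E) : E)) := by
            rw [hg]
            simp only [mul_assoc]
    | zero => rw [mul_zero]; exact Submodule.zero_mem _
    | add x y _ _ h1 h2 => rw [mul_add]; exact Submodule.add_mem _ h1 h2
    | smul c x _ h1 => rw [mul_smul_comm]; exact Submodule.smul_mem _ c h1
  | zero => rw [zero_mul]; exact Submodule.zero_mem _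
  | add x y _ _ h1 h2 => rw [add_mul]; exact Submodule.add_mem _ h1 h2
  | smul c x _ h1 => rw [smul_mul_assoc]; exact Submodule.smul_mem _ c h1

theorem star_zpow' (U : unitary E) (k : ℤ) :
    star ((U ^ k : unitary E) : E) = ((U ^ (-k) : unitary E) : E) := by
  rw [← Unitary.coe_star, Unitary.star_eq_inv, zpow_neg]

theorem SpE_star (h : Cov σ π u) (U : unitary E) (hU : (U : E) = u) {a : E}
    (ha : a ∈ SpE π U) : star a ∈ SpE π U := by
  unfold SpE at ha ⊢
  induction ha using Submodule.span_induction with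
  | mem x hx =>
    obtain ⟨f, k, rfl⟩ := hx
    obtain ⟨g, hg⟩ := cvz h U hU (-k) (star f)
    refine Submodule.subset_span ⟨g, -k, ?_⟩
    rw [star_mul, star_zpow', ← map_star, hg]
  | zero => rw [star_zero]; exact Submodule.zero_mem _
  | add x y _ _ h1 h2 => rw [star_add]; exact Submodule.add_mem _ h1 h2
  | smul c x _ h1 => rw [star_smul]; exact Submodule.smul_mem _ _ h1

/-- the same as a star subalgebra -/
def SB (h : Cov σ π u) (U : unitary E) (hU : (U : E) = u) : NonUnitalStarSubalgebra ℂ E where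
  carrier := SpE π U
  mul_mem' := fun ha hb => SpE_mul h U hU ha hb
  add_mem' := fun ha hb => (SpE π U).add_mem ha hb
  zero_mem' := (SpE π U).zero_mem
  smul_mem' := fun c _ ha => (SpE π U).smul_mem c ha
  star_mem' := fun ha => SpE_star h U hU ha

/-- the span in the statement -/
def SpT (π : C(X, ℂ) →⋆ₐ[ℂ] E) (u : E) : Submodule ℂ E :=
  Submodule.span ℂ {z : E | ∃ (C : Set X) (k : ℕ), IsClopen C ∧
      (z = π (ind C) * u ^ k ∨ z = star (π (ind C) * u ^ k))}

theorem piece [T2Space X] [TotallyDisconnectedSpace X] (n : ℕ) (f : C(X, ℂ)) :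
    π f * u ^ n ∈ closure (SpT π u : Set E) ∧ star (π f * u ^ n) ∈ closure (SpT π u : Set E) := by
  have hc : Continuous π :=
    AddMonoidHomClass.continuous_of_bound π 1 fun a => by
      rw [one_mul]
      exact NonUnitalStarAlgHom.norm_apply_le π a
  have h0 : ∀ g ∈ Sp X, π g * u ^ n ∈ SpT π u ∧ star (π g * u ^ n) ∈ SpT π u := by
    intro g hg
    unfold Sp at hg
    induction hg using Submodule.span_induction with
    | mem x hx =>
      obtain ⟨C, hC, rfl⟩ := hx
      exact ⟨Submodule.subset_span ⟨C, n, hC, Or.inl rfl⟩,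
        Submodule.subset_span ⟨C, n, hC, Or.inr rfl⟩⟩
    | zero =>
      rw [map_zero, zero_mul, star_zero]
      exact ⟨Submodule.zero_mem _, Submodule.zero_mem _⟩
    | add x y _ _ h1 h2 =>
      rw [map_add, add_mul, star_add]
      exact ⟨Submodule.add_mem _ h1.1 h2.1, Submodule.add_mem _ h1.2 h2.2⟩
    | smul c x _ h1 =>
      rw [map_smul, smul_mul_assoc, star_smul]
      exact ⟨Submodule.smul_mem _ _ h1.1, Submodule.smul_mem _ _ h1.2⟩
  have hd := Sp_dense f
  constructor
  · refine map_mem_closure (f := fun g : C(X, ℂ) => π g * u ^ n) ?_ hd ?_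
    · exact hc.mul continuous_const
    · intro g hg
      exact (h0 g hg).1
  · refine map_mem_closure (f := fun g : C(X, ℂ) => star (π g * u ^ n)) ?_ hd ?_
    · exact (hc.mul continuous_const).star
    · intro g hg
      exact (h0 g hg).2

end

theorem t_E2 : StE2 := by
  intro X _ _ _ _ σ E _ π u h x
  let U : unitary E := ⟨u, Unitary.mem_iff.2 ⟨h.u1, h.u2⟩⟩
  have hU : (U : E) = u := rfl
  have h1 : x ∈ (SB h U hU).topologicalClosure := by
    refine h.gen _ (NonUnitalStarSubalgebra.isClosed_topologicalClosure _) ?_ ?_ x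
    · intro f
      refine subset_closure ?_
      exact (Submodule.subset_span ⟨f, 0, by simp⟩ : π f ∈ SpE π U)
    · refine subset_closure ?_
      exact (Submodule.subset_span ⟨1, 1, by simp [hU]⟩ : u ∈ SpE π U)
  have h2 : x ∈ closure (SpE π U : Set E) := h1
  have h3 : SpE π U ≤ (SpT π u).topologicalClosure := by
    unfold SpE
    rw [Submodule.span_le]
    rintro z ⟨f, k, rfl⟩
    rcases Int.eq_nat_or_neg k with ⟨n, rfl | rfl⟩
    · have e : ((U ^ (n : ℤ) : unitary E) : E) = u ^ n := by
        rw [zpow_natCast, SubmonoidClass.coe_pow]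
      rw [e]
      exact (piece n f).1
    · obtain ⟨g, hg⟩ := cvz h U hU (n : ℤ) (star f)
      have e : ((U ^ (n : ℤ) : unitary E) : E) = u ^ n := by
        rw [zpow_natCast, SubmonoidClass.coe_pow]
      have e2 : π f * ((U ^ (-(n : ℤ)) : unitary E) : E) = star (π g * u ^ n) := by
        rw [← e, ← hg, star_mul, ← map_star, star_star, star_zpow']
      rw [e2]
      exact (piece n g).2
  have h4 : closure (SpE π U : Set E) ⊆ closure (SpT π u : Set E) := by
    refine closure_minimal ?_ isClosed_closure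
    exact h3
  exact h4 h2

end Pool.Agent.Helper7_GA.G_E2
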