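import Pool.Agent.Helper7_GA.Stm3

/-! E3: the broken system inside a covariant representation -/

set_option autoImplicit false

open scoped Matrix.Norms.L2Operator ENNReal Matrix
open Pool.Agent.W659.EC Pool.Agent.Helper7_ND

noncomputable section

namespace Pool.Agent.Helper7_GA.G_E3

section

variable {X : Type} [TopologicalSpace X]

theorem ind_mul_self {C : Set X} (h : IsClopen C) : ind C * ind C = ind C := by
  classical
  ext x
  rw [ContinuousMap.mul_apply, ind_apply h]
  by_cases hx : x ∈ C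
  · rw [if_pos hx, mul_one]
  · rw [if_neg hx, mul_zero]

theorem ind_star {C : Set X} (h : IsClopen C) : star (ind C) = ind C := by
  classical
  ext x
  rw [ContinuousMap.star_apply, ind_apply h]
  by_cases hx : x ∈ C
  · rw [if_pos hx, star_one]
  · rw [if_neg hx, star_zero]

theorem ind_comp (σ : X ≃ₜ X) {C : Set X} (h : IsClopen C) :
    (ind (σ ⁻¹' C)).comp (σ.symm : C(X, X)) = ind C := by
  classical
  ext x
  rw [ContinuousMap.comp_apply, ind_apply (h.preimage σ.continuous), ind_apply h]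
  by_cases hx : x ∈ C
  · rw [if_pos hx, if_pos]
    show σ ((σ.symm : C(X, X)) x) ∈ C
    rw [show (σ.symm : C(X, X)) x = σ.symm x from rfl, σ.apply_symm_apply]
    exact hx
  · rw [if_neg hx, if_neg]
    intro h2
    apply hx
    have h3 : σ ((σ.symm : C(X, X)) x) ∈ C := h2
    rw [show (σ.symm : C(X, X)) x = σ.symm x from rfl, σ.apply_symm_apply] at h3
    exact h3

end

theorem t_E3 : StE3 := by
  intro X _ _ σ Z E _ π u hZ hc
  have hZc : IsClopen Zᶜ := hZ.compl
  set v0 : E := π (ind Zᶜ) * u with hv0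
  set S0 : StarSubalgebra ℂ E := StarAlgebra.adjoin ℂ (Set.range π ∪ {v0}) with hS0
  set T : StarSubalgebra ℂ E := S0.topologicalClosure with hT
  have hTc : IsClosed (T : Set E) := StarSubalgebra.isClosed_topologicalClosure S0
  have hS0T : ∀ y ∈ S0, y ∈ T := fun y hy => StarSubalgebra.le_topologicalClosure S0 hy
  have hgen0 : ∀ y ∈ (Set.range π ∪ {v0} : Set E), y ∈ S0 := fun y hy =>
    StarAlgebra.subset_adjoin ℂ _ hy
  have hπS0 : ∀ f, π f ∈ S0 := fun f => hgen0 _ (Or.inl ⟨f, rfl⟩)
  have hvS0 : v0 ∈ S0 := hgen0 _ (Or.inr rfl)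
  have hπp : star (π (ind Zᶜ)) = π (ind Zᶜ) := by
    rw [← map_star, ind_star hZc]
  have hπm : π (ind Zᶜ) * π (ind Zᶜ) = π (ind Zᶜ) := by
    rw [← map_mul, ind_mul_self hZc]
  have e1 : v0 * star v0 = π (ind Zᶜ) := by
    rw [hv0, star_mul, hπp, mul_assoc, ← mul_assoc u, hc.u2, one_mul, hπm]
  have e2 : star v0 * v0 = π (ind (σ ⁻¹' Zᶜ)) := by
    have h1 := hc.cov (ind (σ ⁻¹' Zᶜ))
    rw [ind_comp σ hZc] at h1
    rw [hv0, star_mul, hπp, mul_assoc, ← mul_assoc (π (ind Zᶜ)) (π (ind Zᶜ)), hπm, ← h1,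
      ← mul_assoc, hc.u1, one_mul]
  have e3 : ∀ f : C(X, ℂ), v0 * π f = π (f.comp (σ.symm : C(X, X))) * v0 := by
    intro f
    rw [hv0, mul_assoc, hc.cov f, ← mul_assoc, ← mul_assoc, ← map_mul, ← map_mul, mul_comm]
  let iB : CStarAlgebra T := StarSubalgebra.cstarAlgebra T (h_closed := hTc)
  let β : T →⋆ₐ[ℂ] E :=
    { toFun := fun b => (b : E)
      map_one' := rfl
      map_mul' := fun _ _ => rfl
      map_zero' := rfl
      map_add' := fun _ _ => rfl
      commutes' := fun _ => rfl
      map_star' := fun _ => rfl }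
  let ρ : C(X, ℂ) →⋆ₐ[ℂ] T :=
    { toFun := fun f => ⟨π f, hS0T _ (hπS0 f)⟩
      map_one' := Subtype.ext (map_one π)
      map_mul' := fun a b => Subtype.ext (map_mul π a b)
      map_zero' := Subtype.ext (map_zero π)
      map_add' := fun a b => Subtype.ext (map_add π a b)
      commutes' := fun r => Subtype.ext (AlgHomClass.commutes π r)
      map_star' := fun a => Subtype.ext (map_star π a) }
  let v : T := ⟨v0, hS0T _ hvS0⟩
  refine ⟨T, iB, ρ, v, β, Subtype.val_injective, fun f => rfl, rfl, ?_, ?_⟩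
  · refine ⟨Subtype.ext e1, Subtype.ext e2, fun f => Subtype.ext (e3 f), ?_⟩
    intro S hS hρ hv x
    have key : ∀ y (hy : y ∈ S0), (⟨y, hS0T y hy⟩ : T) ∈ S := by
      intro y hy
      induction hy using StarAlgebra.adjoin_induction with
      | mem y hy =>
        rcases hy with ⟨f, rfl⟩ | hy
        · exact hρ f
        · have : y = v0 := hy
          subst this
          exact hv
      | algebraMap r =>
        have h1 := hρ (algebraMap ℂ C(X, ℂ) r)
        have h2 : ρ (algebraMap ℂ C(X, ℂ) r) = (⟨algebraMap ℂ E r, hS0T _ (S0.algebraMap_mem r)⟩ : T) :=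
          Subtype.ext (AlgHomClass.commutes π r)
        rw [h2] at h1
        exact h1
      | add a b ha hb iha ihb => exact S.add_mem iha ihb
      | mul a b ha hb iha ihb => exact S.mul_mem iha ihb
      | star a ha iha => exact star_mem iha
    have hx : x ∈ closure (S : Set T) := by
      rw [Metric.mem_closure_iff]
      intro ε hε
      have hx2 : (x : E) ∈ closure (S0 : Set E) := by
        exact (Set.ext_iff.1 (StarSubalgebra.topologicalClosure_coe S0) (x : E)).1 x.2
      obtain ⟨b, hb, hd⟩ := Metric.mem_closure_iff.1 hx2 ε hε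
      exact ⟨⟨b, hS0T b hb⟩, key b hb, hd⟩
    rw [hS.closure_eq] at hx
    exact hx
  · intro x hx
    have hsub : NonUnitalStarAlgebra.adjoin ℂ (Set.range π ∪ {v0}) ≤
        T.toNonUnitalStarSubalgebra :=
      NonUnitalStarAlgebra.adjoin_le (fun y hy => hS0T y (hgen0 y hy))
    exact ⟨⟨x, hsub hx⟩, rfl⟩

end Pool.Agent.Helper7_GA.G_E3
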