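import Pool.Agent.Helper7_GA.Stm3

set_option autoImplicit false

open scoped Matrix.Norms.L2Operator ENNReal Matrix
open Pool.Agent.W659.EC Pool.Agent.Helper7_ND

noncomputable section

namespace Pool.Agent.Helper7_GA.G_E4

/-! ### matrix units -/

section mu
variable {E : Type} [CStarAlgebra E] {L N : Type} [Fintype L] [Fintype N] [DecidableEq N]
  [DecidableEq L]

theorem muMul (e : L → N → N → E)
    (hmul : ∀ c i j c' j' l, e c i j * e c' j' l = if c = c' ∧ j = j' then e c i l else 0)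
    (y z : L → Matrix N N ℂ) :
    (∑ c, ∑ i, ∑ j, y c i j • e c i j) * (∑ c, ∑ i, ∑ j, z c i j • e c i j) =
      ∑ c, ∑ i, ∑ j, (y c * z c) i j • e c i j := by
  have h1 : ∀ (c : L) (i j : N), e c i j * (∑ c', ∑ i', ∑ l, z c' i' l • e c' i' l) =
      ∑ l, z c j l • e c i l := by
    intro c i j
    rw [Finset.mul_sum]
    rw [Finset.sum_eq_single c]
    · rw [Finset.mul_sum, Finset.sum_eq_single j]
      · rw [Finset.mul_sum]
        refine Finset.sum_congr rfl fun l _ => ?_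
        rw [mul_smul_comm, hmul, if_pos ⟨rfl, rfl⟩]
      · intro i' _ hi'
        rw [Finset.mul_sum]
        refine Finset.sum_eq_zero fun l _ => ?_
        rw [mul_smul_comm, hmul, if_neg (fun h => hi' h.2.symm), smul_zero]
      · intro h; exact absurd (Finset.mem_univ _) h
    · intro c' _ hc'
      rw [Finset.mul_sum]
      refine Finset.sum_eq_zero fun i' _ => ?_
      rw [Finset.mul_sum]
      refine Finset.sum_eq_zero fun l _ => ?_
      rw [mul_smul_comm, hmul, if_neg (fun h => hc' h.1.symm), smul_zero]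
    · intro h; exact absurd (Finset.mem_univ _) h
  rw [Finset.sum_mul]
  refine Finset.sum_congr rfl fun c _ => ?_
  rw [Finset.sum_mul]
  refine Finset.sum_congr rfl fun i _ => ?_
  rw [Finset.sum_mul]
  have h2 : ∀ j : N, (y c i j • e c i j) * (∑ c', ∑ i', ∑ l, z c' i' l • e c' i' l) =
      ∑ l, (y c i j * z c j l) • e c i l := by
    intro j
    rw [smul_mul_assoc, h1, Finset.smul_sum]
    refine Finset.sum_congr rfl fun l _ => ?_
    rw [smul_smul]
  rw [Finset.sum_congr rfl fun j _ => h2 j, Finset.sum_comm]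
  refine Finset.sum_congr rfl fun l _ => ?_
  rw [Matrix.mul_apply, Finset.sum_smul]

theorem mu_hom (e : L → N → N → E)
    (hmul : ∀ c i j c' j' l, e c i j * e c' j' l = if c = c' ∧ j = j' then e c i l else 0)
    (hstar : ∀ c i j, star (e c i j) = e c j i) (hne : ∀ c i j, e c i j ≠ 0) :
    ∃ φ : (∀ _ : L, Matrix N N ℂ) →⋆ₙₐ[ℂ] E, Function.Injective φ ∧
      ∀ y, φ y = ∑ c, ∑ i, ∑ j, y c i j • e c i j := by
  let φ : (∀ _ : L, Matrix N N ℂ) →⋆ₙₐ[ℂ] E :=
    { toFun := fun y => ∑ c, ∑ i, ∑ j, y c i j • e c i j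
      map_smul' := by
        intro a y
        simp only [Pi.smul_apply, Matrix.smul_apply, smul_eq_mul, mul_smul, Finset.smul_sum,
          MonoidHom.id_apply]
      map_zero' := by simp
      map_add' := by
        intro y z
        simp only [Pi.add_apply, Matrix.add_apply, add_smul, Finset.sum_add_distrib]
      map_mul' := by
        intro y z
        exact (muMul e hmul y z).symm
      map_star' := by
        intro y
        simp only [star_sum, star_smul, hstar, Pi.star_apply, Matrix.star_apply]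
        refine Finset.sum_congr rfl fun c _ => ?_
        rw [Finset.sum_comm] }
  have hφ : ∀ y, φ y = ∑ c, ∑ i, ∑ j, y c i j • e c i j := fun y => rfl
  refine ⟨φ, ?_, hφ⟩
  rw [injective_iff_map_eq_zero]
  intro y hy
  funext c
  ext i j
  have h1 : e c i i * φ y * e c j j = y c i j • e c i j := by
    rw [hφ]
    have : ∀ z : E, e c i i * z * e c j j = e c i i * (z * e c j j) := fun z => mul_assoc _ _ _
    rw [Finset.mul_sum, Finset.sum_mul, Finset.sum_eq_single c]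
    · rw [Finset.mul_sum, Finset.sum_mul, Finset.sum_eq_single i]
      · rw [Finset.mul_sum, Finset.sum_mul, Finset.sum_eq_single j]
        · rw [mul_smul_comm, smul_mul_assoc, hmul, if_pos ⟨rfl, rfl⟩, hmul, if_pos ⟨rfl, rfl⟩]
        · intro l _ hl
          rw [mul_smul_comm, smul_mul_assoc, hmul, if_pos ⟨rfl, rfl⟩, hmul,
            if_neg (fun h => hl h.2), smul_zero]
        · intro h; exact absurd (Finset.mem_univ _) h
      · intro l _ hl
        rw [Finset.mul_sum, Finset.sum_mul]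
        refine Finset.sum_eq_zero fun l' _ => ?_
        rw [mul_smul_comm, smul_mul_assoc, hmul, if_neg (fun h => hl h.2.symm), zero_mul,
          smul_zero]
      · intro h; exact absurd (Finset.mem_univ _) h
    · intro c' _ hc'
      rw [Finset.mul_sum, Finset.sum_mul]
      refine Finset.sum_eq_zero fun l _ => ?_
      rw [Finset.mul_sum, Finset.sum_mul]
      refine Finset.sum_eq_zero fun l' _ => ?_
      rw [mul_smul_comm, smul_mul_assoc, hmul, if_neg (fun h => hc' h.1.symm), zero_mul,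
        smul_zero]
    · intro h; exact absurd (Finset.mem_univ _) h
  rw [hy, mul_zero, zero_mul] at h1
  have h2 := smul_eq_zero.1 h1.symm
  rcases h2 with h2 | h2
  · simpa using h2
  · exact absurd h2 (hne c i j)

end mu

/-! ### shifts -/

section shifts
variable {X : Type} [TopologicalSpace X]

/-- composition with `σ ^ j` -/
def T (σ : X ≃ₜ X) (j : ℤ) (f : C(X, ℂ)) : C(X, ℂ) :=
  f.comp ⟨fun x => (σ ^ j) x, (σ ^ j).continuous⟩

theorem T_apply (σ : X ≃ₜ X) (j : ℤ) (f : C(X, ℂ)) (x : X) : T σ j f x = f ((σ ^ j) x) := rfl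

theorem zp_add (σ : X ≃ₜ X) (i j : ℤ) (x : X) : (σ ^ (i + j)) x = (σ ^ i) ((σ ^ j) x) := by
  rw [zpow_add]; rfl

theorem zp_zero (σ : X ≃ₜ X) (x : X) : (σ ^ (0 : ℤ)) x = x := by
  rw [zpow_zero]; rfl

theorem T_T (σ : X ≃ₜ X) (i j : ℤ) (f : C(X, ℂ)) : T σ i (T σ j f) = T σ (j + i) f := by
  ext x
  simp only [T_apply, zp_add]

theorem T_zero (σ : X ≃ₜ X) (f : C(X, ℂ)) : T σ 0 f = f := by
  ext x
  simp only [T_apply, zp_zero]

theorem zp_natCast (σ : X ≃ₜ X) (n : ℕ) (x : X) : (σ ^ (n : ℤ)) x = (σ ^ n) x := by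
  rw [zpow_natCast]

/-- disjointness -/
theorem mk_disj {σ : X ≃ₜ X} {n : ℕ} {Z : Set X} (h : Marker σ n Z) {x : X} {i j : ℤ}
    (hi : (σ ^ i) x ∈ Z) (hj : (σ ^ j) x ∈ Z) (hij : |i - j| < n) : i = j := by
  have key : ∀ i j : ℤ, (σ ^ i) x ∈ Z → (σ ^ j) x ∈ Z → i < j → j - i < n → False := by
    intro i j hi hj h1 h2
    obtain ⟨m, hm⟩ := Int.eq_ofNat_of_zero_le (show 0 ≤ j - i by omega)
    have h3 : (σ ^ m) ((σ ^ i) x) ∈ Z := by
      rw [← zp_natCast, ← zp_add]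
      have : (m : ℤ) + i = j := by omega
      rw [this]; exact hj
    exact h.2.1 _ hi m (by omega) (by omega) h3
  rw [abs_lt] at hij
  rcases lt_trichotomy i j with h1 | h1 | h1
  · exact (key i j hi hj h1 (by omega)).elim
  · exact h1
  · exact (key j i hj hi h1 (by omega)).elim

end shifts

section cov
variable {X : Type} [TopologicalSpace X] [CompactSpace X] {E : Type} [CStarAlgebra E]

/-- the unit given by `u` -/
def uU {u : E} (h1 : star u * u = 1) (h2 : u * star u = 1) : Eˣ := ⟨u, star u, h2, h1⟩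

theorem cov1 {σ : X ≃ₜ X} {π : C(X, ℂ) →⋆ₐ[ℂ] E} {u : E} (h : Cov σ π u) (f : C(X, ℂ)) :
    u * π f = π (T σ (-1) f) * u := by
  rw [h.cov f]
  congr 2

theorem covz {σ : X ≃ₜ X} {π : C(X, ℂ) →⋆ₐ[ℂ] E} {u : E} (h : Cov σ π u) (j : ℤ) :
    ∀ f : C(X, ℂ), ((uU h.u1 h.u2 ^ j : Eˣ) : E) * π f =
      π (T σ (-j) f) * ((uU h.u1 h.u2 ^ j : Eˣ) : E) := by
  induction j using Int.induction_on with
  | zero => intro f; simp [T_zero]
  | succ i ih =>
    intro f
    rw [zpow_add_one, Units.val_mul, mul_assoc]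
    have : ((uU h.u1 h.u2 : Eˣ) : E) * π f = π (T σ (-1) f) * ((uU h.u1 h.u2 : Eˣ) : E) :=
      cov1 h f
    rw [this, ← mul_assoc, ih, mul_assoc, T_T]
    congr 3
    ring
  | pred i ih =>
    intro f
    rw [zpow_sub_one, Units.val_mul, mul_assoc]
    have h3 : (((uU h.u1 h.u2)⁻¹ : Eˣ) : E) * π f =
        π (T σ 1 f) * (((uU h.u1 h.u2)⁻¹ : Eˣ) : E) := by
      have := cov1 h (T σ 1 f)
      rw [T_T] at this
      norm_num at this
      rw [T_zero] at this
      have e1 : ((uU h.u1 h.u2 : Eˣ) : E) * π (T σ 1 f) = π f * ((uU h.u1 h.u2 : Eˣ) : E) := this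
      rw [Units.inv_mul_eq_iff_eq_mul, ← mul_assoc, e1, mul_assoc, Units.mul_inv, mul_one]
    rw [h3, ← mul_assoc, ih, mul_assoc, T_T]
    congr 3
    ring

theorem U_star {u : E} (h1 : star u * u = 1) (h2 : u * star u = 1) (j : ℤ) :
    star ((uU h1 h2 ^ j : Eˣ) : E) = ((uU h1 h2 ^ (-j) : Eˣ) : E) := by
  have h0 : star (uU h1 h2) = (uU h1 h2)⁻¹ := by
    ext; rfl
  rw [← Units.coe_star, star_zpow, h0, inv_zpow, zpow_neg]

theorem U_pow {u : E} (h1 : star u * u = 1) (h2 : u * star u = 1) (k : ℕ) :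
    u ^ k = ((uU h1 h2 ^ (k : ℤ) : Eˣ) : E) := by
  rw [zpow_natCast, Units.val_pow_eq_pow_val]; rfl

theorem norm_mul_pow {u : E} (h1 : star u * u = 1) (h2 : u * star u = 1) (a : E) (k : ℕ) :
    ‖a * u ^ k‖ = ‖a‖ := by
  have hu : u ∈ unitary E := ⟨h1, h2⟩
  exact CStarRing.norm_mul_mem_unitary a (pow_mem hu k)

end cov

section theta

/-- the angles -/
def th (m K : ℕ) (j : ℤ) : ℝ :=
  Real.pi / 2 * min 1 (max 0 (((m : ℝ) - |(j : ℝ)|) / ((m : ℝ) - K)))

theorem th_zero {m K : ℕ} (hmK : K < m) {j : ℤ} (hj : (m : ℤ) ≤ |j|) : th m K j = 0 := by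
  unfold th
  have h1 : (m : ℝ) ≤ |(j : ℝ)| := by exact_mod_cast hj
  have h2 : (0 : ℝ) < (m : ℝ) - K := by
    have : (K : ℝ) < m := by exact_mod_cast hmK
    linarith
  have h3 : ((m : ℝ) - |(j : ℝ)|) / ((m : ℝ) - K) ≤ 0 :=
    div_nonpos_of_nonpos_of_nonneg (by linarith) h2.le
  rw [max_eq_left h3, min_eq_right zero_le_one, mul_zero]

theorem th_one {m K : ℕ} (hmK : K < m) {j : ℤ} (hj : |j| ≤ (K : ℤ)) :
    th m K j = Real.pi / 2 := by
  unfold th
  have h1 : |(j : ℝ)| ≤ (K : ℝ) := by exact_mod_cast hj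
  have h2 : (0 : ℝ) < (m : ℝ) - K := by
    have : (K : ℝ) < m := by exact_mod_cast hmK
    linarith
  have h3 : 1 ≤ ((m : ℝ) - |(j : ℝ)|) / ((m : ℝ) - K) := by
    rw [le_div_iff₀ h2]; linarith
  rw [max_eq_right (by linarith), min_eq_left h3, mul_one]

theorem th_lip {m K : ℕ} (hmK : K < m) (i j : ℤ) :
    |th m K i - th m K j| ≤ Real.pi / 2 / ((m : ℝ) - K) * |(i : ℝ) - j| := by
  unfold th
  have h2 : (0 : ℝ) < (m : ℝ) - K := by
    have : (K : ℝ) < m := by exact_mod_cast hmK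
    linarith
  have hp : 0 < Real.pi / 2 := by positivity
  rw [← mul_sub, abs_mul, abs_of_pos hp]
  have h3 : |min 1 (max 0 (((m : ℝ) - |(i : ℝ)|) / ((m : ℝ) - K))) -
      min 1 (max 0 (((m : ℝ) - |(j : ℝ)|) / ((m : ℝ) - K)))| ≤
      |((m : ℝ) - |(i : ℝ)|) / ((m : ℝ) - K) - ((m : ℝ) - |(j : ℝ)|) / ((m : ℝ) - K)| := by
    refine (abs_min_sub_min_le_max _ _ _ _).trans ?_
    rw [sub_self, abs_zero, max_eq_right (abs_nonneg _)]
    refine (abs_max_sub_max_le_max _ _ _ _).trans ?_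
    rw [sub_self, abs_zero, max_eq_right (abs_nonneg _)]
  have h4 : |((m : ℝ) - |(i : ℝ)|) / ((m : ℝ) - K) - ((m : ℝ) - |(j : ℝ)|) / ((m : ℝ) - K)| ≤
      |(i : ℝ) - j| / ((m : ℝ) - K) := by
    rw [← sub_div, abs_div, abs_of_pos h2]
    apply div_le_div_of_nonneg_right _ h2.le
    have : ((m : ℝ) - |(i : ℝ)|) - ((m : ℝ) - |(j : ℝ)|) = |(j : ℝ)| - |(i : ℝ)| := by ring
    rw [this]
    refine (abs_abs_sub_abs_le_abs_sub _ _).trans ?_
    rw [abs_sub_comm]
  calc Real.pi / 2 * _ ≤ Real.pi / 2 * (|(i : ℝ) - j| / ((m : ℝ) - K)) :=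
        mul_le_mul_of_nonneg_left (h3.trans h4) hp.le
    _ = Real.pi / 2 / ((m : ℝ) - K) * |(i : ℝ) - j| := by ring

variable {X : Type} [TopologicalSpace X]

/-- the function of the angles -/
def Th (σ : X ≃ₜ X) (Z : Set X) (m K : ℕ) : C(X, ℂ) :=
  ∑ j ∈ Finset.Icc (-(m : ℤ)) m, ((th m K j : ℝ) : ℂ) • T σ j (ind Z)

open Classical in
theorem Th_apply (σ : X ≃ₜ X) {Z : Set X} (hZ : IsClopen Z) (m K : ℕ) (x : X) :
    Th σ Z m K x = ∑ j ∈ Finset.Icc (-(m : ℤ)) m,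
      if (σ ^ j) x ∈ Z then ((th m K j : ℝ) : ℂ) else 0 := by
  unfold Th
  rw [ContinuousMap.sum_apply]
  refine Finset.sum_congr rfl fun j _ => ?_
  rw [ContinuousMap.smul_apply, T_apply, ind_apply hZ]
  split_ifs <;> simp

theorem Th_val {σ : X ≃ₜ X} {Z : Set X} {m K : ℕ} (h : Marker σ (2 * m + 2 * K + 2) Z)
    (hmK : K < m) {x : X} {j : ℤ} (hx : (σ ^ j) x ∈ Z) (hj : |j| ≤ (m : ℤ) + K) :
    Th σ Z m K x = ((th m K j : ℝ) : ℂ) := by
  classical
  rw [Th_apply σ h.1]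
  rw [abs_le] at hj
  have hun : ∀ i ∈ Finset.Icc (-(m : ℤ)) m, (σ ^ i) x ∈ Z → i = j := by
    intro i hi hi'
    rw [Finset.mem_Icc] at hi
    exact mk_disj h hi' hx (by rw [abs_lt]; push_cast; constructor <;> omega)
  by_cases hjm : j ∈ Finset.Icc (-(m : ℤ)) m
  · rw [Finset.sum_eq_single j]
    · rw [if_pos hx]
    · intro i hi hij
      rw [if_neg]
      intro h'
      exact hij (hun i hi h')
    · intro h'; exact absurd hjm h'
  · rw [Finset.sum_eq_zero]
    · rw [th_zero hmK]; · simp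
      rw [Finset.mem_Icc] at hjm
      rw [le_abs]
      by_contra hcon
      push Not at hcon
      exact hjm ⟨by omega, by omega⟩
    · intro i hi
      rw [if_neg]
      intro h'
      have := hun i hi h'
      rw [this] at hi
      exact hjm hi

theorem Th_none {σ : X ≃ₜ X} {Z : Set X} {m K : ℕ} (h : Marker σ (2 * m + 2 * K + 2) Z)
    {x : X} (hx : ∀ j : ℤ, |j| ≤ (m : ℤ) → (σ ^ j) x ∉ Z) :
    Th σ Z m K x = 0 := by
  classical
  rw [Th_apply σ h.1]
  refine Finset.sum_eq_zero fun j hj => ?_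
  rw [Finset.mem_Icc] at hj
  rw [if_neg (hx j (abs_le.2 ⟨by omega, by omega⟩))]

theorem Th_close {σ : X ≃ₜ X} {Z : Set X} {m K : ℕ} (h : Marker σ (2 * m + 2 * K + 2) Z)
    (hmK : K < m) (x : X) {k : ℕ} (hk : k ≤ K) :
    |(Th σ Z m K x).re - (Th σ Z m K ((σ ^ (-(k : ℤ))) x)).re| ≤
      Real.pi / 2 / ((m : ℝ) - K) * k := by
  have h2 : (0 : ℝ) < (m : ℝ) - K := by
    have : (K : ℝ) < m := by exact_mod_cast hmK
    linarith
  by_cases h1 : ∃ j : ℤ, |j| ≤ (m : ℤ) ∧ (σ ^ j) x ∈ Z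
  · obtain ⟨j, hj, hjx⟩ := h1
    have e2 : (σ ^ (j + k)) ((σ ^ (-(k : ℤ))) x) ∈ Z := by
      rw [← zp_add]
      have : j + k + -(k : ℤ) = j := by ring
      rw [this]; exact hjx
    rw [abs_le] at hj
    rw [Th_val h hmK hjx (abs_le.2 ⟨by omega, by omega⟩),
      Th_val h hmK e2 (abs_le.2 ⟨by omega, by omega⟩), Complex.ofReal_re, Complex.ofReal_re]
    refine (th_lip hmK _ _).trans (le_of_eq ?_)
    push_cast
    congr 1
    have : (j : ℝ) - (j + k) = -(k : ℝ) := by ring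
    rw [this, abs_neg, abs_of_nonneg (Nat.cast_nonneg k)]
  · push Not at h1
    by_cases h3 : ∃ j : ℤ, |j| ≤ (m : ℤ) ∧ (σ ^ j) ((σ ^ (-(k : ℤ))) x) ∈ Z
    · obtain ⟨j, hj, hjx⟩ := h3
      have e2 : (σ ^ (j - k)) x ∈ Z := by
        rw [← zp_add] at hjx
        exact hjx
      rw [abs_le] at hj
      rw [Th_val h hmK e2 (abs_le.2 ⟨by omega, by omega⟩),
        Th_val h hmK hjx (abs_le.2 ⟨by omega, by omega⟩), Complex.ofReal_re, Complex.ofReal_re]
      refine (th_lip hmK _ _).trans (le_of_eq ?_)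
      push_cast
      congr 1
      have : (j : ℝ) - k - j = -(k : ℝ) := by ring
      rw [this, abs_neg, abs_of_nonneg (Nat.cast_nonneg k)]
    · push Not at h3
      rw [Th_none h h1, Th_none h h3]
      simp
      positivity

/-- sine and cosine -/
def H0 (σ : X ≃ₜ X) (Z : Set X) (m K : ℕ) : C(X, ℂ) :=
  ⟨fun x => ((Real.cos (Th σ Z m K x).re : ℝ) : ℂ), by fun_prop⟩
def H1 (σ : X ≃ₜ X) (Z : Set X) (m K : ℕ) : C(X, ℂ) :=
  ⟨fun x => ((Real.sin (Th σ Z m K x).re : ℝ) : ℂ), by fun_prop⟩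

theorem H0_apply (σ : X ≃ₜ X) (Z : Set X) (m K : ℕ) (x : X) :
    H0 σ Z m K x = ((Real.cos (Th σ Z m K x).re : ℝ) : ℂ) := rfl
theorem H1_apply (σ : X ≃ₜ X) (Z : Set X) (m K : ℕ) (x : X) :
    H1 σ Z m K x = ((Real.sin (Th σ Z m K x).re : ℝ) : ℂ) := rfl

theorem H0_star (σ : X ≃ₜ X) (Z : Set X) (m K : ℕ) : star (H0 σ Z m K) = H0 σ Z m K := by
  ext x
  rw [ContinuousMap.star_apply, H0_apply]
  exact Complex.conj_ofReal _
theorem H1_star (σ : X ≃ₜ X) (Z : Set X) (m K : ℕ) : star (H1 σ Z m K) = H1 σ Z m K := by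
  ext x
  rw [ContinuousMap.star_apply, H1_apply]
  exact Complex.conj_ofReal _

variable [CompactSpace X]

theorem H0_norm (σ : X ≃ₜ X) (Z : Set X) (m K : ℕ) : ‖H0 σ Z m K‖ ≤ 1 := by
  rw [ContinuousMap.norm_le _ zero_le_one]
  intro x
  rw [H0_apply, Complex.norm_real]
  exact Real.abs_cos_le_one _
theorem H1_norm (σ : X ≃ₜ X) (Z : Set X) (m K : ℕ) : ‖H1 σ Z m K‖ ≤ 1 := by
  rw [ContinuousMap.norm_le _ zero_le_one]
  intro x
  rw [H1_apply, Complex.norm_real]
  exact Real.abs_sin_le_one _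

theorem ind_norm_le (C : Set X) (hC : IsClopen C) (x : X) : ‖ind C x‖ ≤ 1 := by
  classical
  rw [ind_apply hC]
  split_ifs <;> simp

theorem est {σ : X ≃ₜ X} {Z : Set X} {m K : ℕ} (h : Marker σ (2 * m + 2 * K + 2) Z)
    (hmK : K < m) {C : Set X} (hC : IsClopen C) {k : ℕ} (hk : k ≤ K) {ε : ℝ} (hε : 0 < ε)
    (h1 : Real.pi / 2 / ((m : ℝ) - K) * K ≤ 1) (h2 : Real.pi / 2 / ((m : ℝ) - K) * K ≤ ε) :
    ‖ind C * (H0 σ Z m K * T σ (-(k : ℤ)) (H0 σ Z m K) +
      H1 σ Z m K * T σ (-(k : ℤ)) (H1 σ Z m K) - 1)‖ ≤ ε := by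
  rw [ContinuousMap.norm_le _ hε.le]
  intro x
  rw [ContinuousMap.mul_apply, norm_mul]
  have e1 := ind_norm_le C hC x
  have h0 : (0 : ℝ) < (m : ℝ) - K := by
    have : (K : ℝ) < m := by exact_mod_cast hmK
    linarith
  have e2 : ‖(H0 σ Z m K * T σ (-(k : ℤ)) (H0 σ Z m K) +
      H1 σ Z m K * T σ (-(k : ℤ)) (H1 σ Z m K) - 1) x‖ ≤ ε := by
    have e3 : (H0 σ Z m K * T σ (-(k : ℤ)) (H0 σ Z m K) +
      H1 σ Z m K * T σ (-(k : ℤ)) (H1 σ Z m K) - 1) x =
      ((Real.cos ((Th σ Z m K x).re - (Th σ Z m K ((σ ^ (-(k : ℤ))) x)).re) - 1 : ℝ) : ℂ) := by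
      rw [ContinuousMap.sub_apply, ContinuousMap.add_apply, ContinuousMap.mul_apply,
        ContinuousMap.mul_apply, T_apply, T_apply, H0_apply, H0_apply, H1_apply, H1_apply,
        ContinuousMap.one_apply, Real.cos_sub]
      push_cast
      ring
    rw [e3, Complex.norm_real, Real.norm_eq_abs]
    have e4 := Th_close h hmK x hk
    set d := (Th σ Z m K x).re - (Th σ Z m K ((σ ^ (-(k : ℤ))) x)).re with hd
    have e5 := Real.one_sub_sq_div_two_le_cos (x := d)
    have e6 := Real.cos_le_one d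
    have e7 : Real.pi / 2 / ((m : ℝ) - K) * k ≤ Real.pi / 2 / ((m : ℝ) - K) * K :=
      mul_le_mul_of_nonneg_left (by exact_mod_cast hk) (by positivity)
    have e8 : |d| ≤ 1 := e4.trans (e7.trans h1)
    have e9 : |d| ≤ ε := e4.trans (e7.trans h2)
    have e10 : d ^ 2 ≤ |d| := by
      rw [← sq_abs]
      nlinarith [abs_nonneg d]
    rw [abs_le]
    constructor <;> linarith [abs_nonneg d]
  calc ‖ind C x‖ * _ ≤ 1 * ε := mul_le_mul e1 e2 (norm_nonneg _) zero_le_one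
    _ = ε := one_mul _

/-- the functions of the powers of the broken unitary -/
def Wf (σ : X ≃ₜ X) (Z : Set X) : ℕ → C(X, ℂ)
  | 0 => 1
  | k + 1 => ind Zᶜ * T σ (-1) (Wf σ Z k)

open Classical in
theorem Wf_apply (σ : X ≃ₜ X) {Z : Set X} (hZ : IsClopen Z) (k : ℕ) : ∀ x : X,
    Wf σ Z k x = if ∀ l : ℕ, l < k → (σ ^ (-(l : ℤ))) x ∉ Z then 1 else 0 := by
  induction k with
  | zero => intro x; simp [Wf]
  | succ k ih =>
    intro x
    rw [Wf, ContinuousMap.mul_apply, T_apply, ih, ind_apply hZ.compl]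
    have hiff : (∀ l : ℕ, l < k + 1 → (σ ^ (-(l : ℤ))) x ∉ Z) ↔
        (x ∈ Zᶜ ∧ ∀ l : ℕ, l < k → (σ ^ (-(l : ℤ))) ((σ ^ (-1 : ℤ)) x) ∉ Z) := by
      constructor
      · intro h
        refine ⟨?_, ?_⟩
        · have := h 0 (Nat.succ_pos k)
          rw [Nat.cast_zero, neg_zero, zp_zero] at this
          exact this
        · intro l hl
          rw [← zp_add]
          have := h (l + 1) (by omega)
          have e : (-(l : ℤ) + -1) = -((l + 1 : ℕ) : ℤ) := by push_cast; ring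
          rw [e]; exact this
      · rintro ⟨h0, h1⟩ l hl
        rcases l with _ | l
        · rw [Nat.cast_zero, neg_zero, zp_zero]; exact h0
        · have := h1 l (by omega)
          rw [← zp_add] at this
          have e : (-(l : ℤ) + -1) = -((l + 1 : ℕ) : ℤ) := by push_cast; ring
          rw [e] at this; exact this
    by_cases h1 : x ∈ Zᶜ
    · by_cases h2 : ∀ l : ℕ, l < k → (σ ^ (-(l : ℤ))) ((σ ^ (-1 : ℤ)) x) ∉ Z
      · rw [if_pos h1, if_pos h2, if_pos (hiff.2 ⟨h1, h2⟩), one_mul]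
      · rw [if_neg h2, mul_zero, if_neg (fun h => h2 (hiff.1 h).2)]
    · rw [if_neg h1, zero_mul, if_neg (fun h => h1 (hiff.1 h).1)]

theorem H0_Wf {σ : X ≃ₜ X} {Z : Set X} {m K : ℕ} (h : Marker σ (2 * m + 2 * K + 2) Z)
    (hmK : K < m) {k : ℕ} (hk : k ≤ K) (f : C(X, ℂ)) :
    H0 σ Z m K * f = H0 σ Z m K * f * Wf σ Z k := by
  classical
  ext x
  rw [ContinuousMap.mul_apply, ContinuousMap.mul_apply, ContinuousMap.mul_apply, Wf_apply σ h.1]
  by_cases h1 : ∀ l : ℕ, l < k → (σ ^ (-(l : ℤ))) x ∉ Z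
  · rw [if_pos h1, mul_one]
  · rw [if_neg h1, mul_zero]
    push Not at h1
    obtain ⟨l, hl, hlx⟩ := h1
    have e1 : |(-(l : ℤ))| ≤ (K : ℤ) := by
      rw [abs_neg, abs_of_nonneg (Int.natCast_nonneg l)]; omega
    have e2 : H0 σ Z m K x = 0 := by
      rw [H0_apply, Th_val h hmK hlx (by omega), Complex.ofReal_re, th_one hmK e1,
        Real.cos_pi_div_two, Complex.ofReal_zero]
    rw [e2, zero_mul]

end theta

section mem
variable {X : Type} [TopologicalSpace X] [CompactSpace X] {E : Type} [CStarAlgebra E]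

theorem v_pow {σ : X ≃ₜ X} {π : C(X, ℂ) →⋆ₐ[ℂ] E} {u : E} (h : Cov σ π u) (Z : Set X) (k : ℕ) :
    (π (ind Zᶜ) * u) ^ k = π (Wf σ Z k) * u ^ k := by
  induction k with
  | zero => simp [Wf]
  | succ k ih =>
    rw [pow_succ', ih, Wf, map_mul, pow_succ']
    have : u * π (Wf σ Z k) = π (T σ (-1) (Wf σ Z k)) * u := cov1 h _
    calc π (ind Zᶜ) * u * (π (Wf σ Z k) * u ^ k) = π (ind Zᶜ) * (u * π (Wf σ Z k)) * u ^ k := by
          noncomm_ring
      _ = _ := by rw [this]; noncomm_ring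

theorem mem_adj {σ : X ≃ₜ X} {π : C(X, ℂ) →⋆ₐ[ℂ] E} {u : E} (h : Cov σ π u) (Z : Set X)
    (k : ℕ) (f : C(X, ℂ)) : π f * (π (ind Zᶜ) * u) ^ k ∈
      NonUnitalStarAlgebra.adjoin ℂ (Set.range π ∪ {π (ind Zᶜ) * u}) := by
  induction k with
  | zero =>
    rw [pow_zero, mul_one]
    exact NonUnitalStarAlgebra.subset_adjoin ℂ _ (Or.inl ⟨f, rfl⟩)
  | succ k ih =>
    rw [pow_succ, ← mul_assoc]
    exact mul_mem ih (NonUnitalStarAlgebra.subset_adjoin ℂ _ (Or.inr rfl))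

theorem conj_form {σ : X ≃ₜ X} {π : C(X, ℂ) →⋆ₐ[ℂ] E} {u : E} (h : Cov σ π u)
    (H f : C(X, ℂ)) (k : ℕ) : π H * (π f * u ^ k) * π H =
      π (H * (f * T σ (-(k : ℤ)) H)) * u ^ k := by
  have h1 : u ^ k * π H = π (T σ (-(k : ℤ)) H) * u ^ k := by
    rw [U_pow h.u1 h.u2]; exact covz h _ _
  calc π H * (π f * u ^ k) * π H = π H * π f * (u ^ k * π H) := by noncomm_ring
    _ = _ := by rw [h1, map_mul, map_mul]; noncomm_ring

end mem

section units
variable {X : Type} [TopologicalSpace X]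

/-- the atoms -/
def Zc (σ : X ≃ₜ X) (Z : Set X) (S : Finset (Set X × ℤ)) (c : Finset (Set X × ℤ)) : Set X :=
  {z | z ∈ Z ∧ ∀ p ∈ S, ((σ ^ (-p.2)) z ∈ p.1 ↔ p ∈ c)}

theorem Zc_clopen (σ : X ≃ₜ X) {Z : Set X} (hZ : IsClopen Z) (S : Finset (Set X × ℤ))
    (hS : ∀ p ∈ S, IsClopen p.1) (c : Finset (Set X × ℤ)) : IsClopen (Zc σ Z S c) := by
  classical
  have h1 : Zc σ Z S c = Z ∩ ⋂ p ∈ S, {z | (σ ^ (-p.2)) z ∈ p.1 ↔ p ∈ c} := by
    ext z
    simp [Zc]
  rw [h1]
  refine hZ.inter (isClopen_biInter_finset fun p hp => ?_)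
  have h2 : IsClopen ((fun z => (σ ^ (-p.2)) z) ⁻¹' p.1) :=
    (hS p hp).preimage (σ ^ (-p.2)).continuous
  by_cases hc : p ∈ c
  · have : {z | (σ ^ (-p.2)) z ∈ p.1 ↔ p ∈ c} = (fun z => (σ ^ (-p.2)) z) ⁻¹' p.1 := by
      ext z; simp [hc]
    rw [this]; exact h2
  · have : {z | (σ ^ (-p.2)) z ∈ p.1 ↔ p ∈ c} = ((fun z => (σ ^ (-p.2)) z) ⁻¹' p.1)ᶜ := by
      ext z; simp [hc]
    rw [this]; exact h2.compl

theorem Zc_uniq (σ : X ≃ₜ X) (Z : Set X) (S : Finset (Set X × ℤ)) {c c' : Finset (Set X × ℤ)}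
    (hc : c ⊆ S) (hc' : c' ⊆ S) {z : X} (h : z ∈ Zc σ Z S c) (h' : z ∈ Zc σ Z S c') : c = c' := by
  ext p
  constructor
  · intro hp
    exact (h'.2 p (hc hp)).1 ((h.2 p (hc hp)).2 hp)
  · intro hp
    exact (h.2 p (hc' hp)).1 ((h'.2 p (hc' hp)).2 hp)

variable [CompactSpace X] {E : Type} [CStarAlgebra E]

/-- integer powers of `u` -/
def U {σ : X ≃ₜ X} {π : C(X, ℂ) →⋆ₐ[ℂ] E} {u : E} (h : Cov σ π u) (j : ℤ) : E :=
  ((uU h.u1 h.u2 ^ j : Eˣ) : E)

variable {σ : X ≃ₜ X} {π : C(X, ℂ) →⋆ₐ[ℂ] E} {u : E} (h : Cov σ π u)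

theorem U_mul (i j : ℤ) : U h i * U h j = U h (i + j) := by
  unfold U; rw [← Units.val_mul, ← zpow_add]

theorem U_zero : U h 0 = 1 := by
  unfold U; rw [zpow_zero, Units.val_one]

theorem U_cov (j : ℤ) (f : C(X, ℂ)) : U h j * π f = π (T σ (-j) f) * U h j := covz h j f

theorem U_cov' (j : ℤ) (f : C(X, ℂ)) : U h (-j) * π f = π (T σ j f) * U h (-j) := by
  have := covz h (-j) f
  rw [neg_neg] at this
  exact this

theorem U_cov2 (j : ℤ) (f : C(X, ℂ)) : π f * U h j = U h j * π (T σ j f) := by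
  rw [U_cov, T_T]
  have : j + -j = 0 := by ring
  rw [this, T_zero]

theorem Ustar (j : ℤ) : star (U h j) = U h (-j) := U_star h.u1 h.u2 j

include h in
theorem T_ne (j : ℤ) {f : C(X, ℂ)} (hf : π f = 0) : π (T σ j f) = 0 := by
  have h1 : π (T σ j f) = U h (-j) * π f * U h j := by
    rw [U_cov', mul_assoc, U_mul]
    have : -j + j = 0 := by ring
    rw [this, U_zero, mul_one]
  rw [h1, hf, mul_zero, zero_mul]

theorem ind_star (C : Set X) (hC : IsClopen C) : star (ind C) = ind C := by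
  classical
  ext x
  rw [ContinuousMap.star_apply, ind_apply hC]
  split_ifs <;> simp

theorem ind_sq (C : Set X) (hC : IsClopen C) : ind C * ind C = ind C := by
  classical
  ext x
  rw [ContinuousMap.mul_apply, ind_apply hC]
  split_ifs <;> simp

/-- matrix units -/
def me (Z : Set X) (S : Finset (Set X × ℤ)) (c : Finset (Set X × ℤ)) (i j : ℤ) : E :=
  U h (-i) * π (ind (Zc σ Z S c)) * U h j

theorem me_star {Z : Set X} (hZ : IsClopen Z) {S : Finset (Set X × ℤ)}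
    (hS : ∀ p ∈ S, IsClopen p.1) (c : Finset (Set X × ℤ)) (i j : ℤ) :
    star (me h Z S c i j) = me h Z S c j i := by
  unfold me
  rw [star_mul, star_mul, Ustar, Ustar, neg_neg, ← map_star, ind_star _ (Zc_clopen σ hZ S hS c),
    mul_assoc]

theorem me_ne {Z : Set X} {S : Finset (Set X × ℤ)} {c : Finset (Set X × ℤ)}
    (hc : π (ind (Zc σ Z S c)) ≠ 0) (i j : ℤ) : me h Z S c i j ≠ 0 := by
  intro h0
  apply hc
  have : U h i * me h Z S c i j * U h (-j) = π (ind (Zc σ Z S c)) := by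
    unfold me
    have e1 : U h i * (U h (-i) * π (ind (Zc σ Z S c)) * U h j) * U h (-j) =
        (U h i * U h (-i)) * π (ind (Zc σ Z S c)) * (U h j * U h (-j)) := by noncomm_ring
    rw [e1, U_mul, U_mul]
    have e2 : i + -i = 0 := by ring
    have e3 : j + -j = 0 := by ring
    rw [e2, e3, U_zero, one_mul, mul_one]
  rw [← this, h0, mul_zero, zero_mul]

theorem me_mul {Z : Set X} {m K : ℕ} (hM : Marker σ (2 * m + 2 * K + 2) Z)
    {S : Finset (Set X × ℤ)} (hS : ∀ p ∈ S, IsClopen p.1) {c c' : Finset (Set X × ℤ)}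
    (hc : c ⊆ S) (hc' : c' ⊆ S) (i : ℤ) {j j' : ℤ} (l : ℤ) (hj : |j| ≤ (m : ℤ))
    (hj' : |j'| ≤ (m : ℤ)) (P : Prop) [Decidable P] (hP : P ↔ (c = c' ∧ j = j')) :
    me h Z S c i j * me h Z S c' j' l = if P then me h Z S c i l else 0 := by
  classical
  have e1 : me h Z S c i j * me h Z S c' j' l = U h (-i) *
      π (ind (Zc σ Z S c) * T σ (-(j + -j')) (ind (Zc σ Z S c'))) * (U h (j + -j') * U h l) := by
    unfold me
    have : U h (-i) * π (ind (Zc σ Z S c)) * U h j * (U h (-j') * π (ind (Zc σ Z S c')) * U h l) =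
      U h (-i) * π (ind (Zc σ Z S c)) * ((U h j * U h (-j')) * π (ind (Zc σ Z S c'))) * U h l := by
      noncomm_ring
    have e0 : U h (j + -j') * π (ind (Zc σ Z S c')) =
        π (T σ (-(j + -j')) (ind (Zc σ Z S c'))) * U h (j + -j') := U_cov h _ _
    rw [this, U_mul, e0, map_mul]
    simp only [mul_assoc]
  rw [e1]
  by_cases hp : P
  · obtain ⟨h1, h2⟩ := hP.1 hp
    subst h1; subst h2
    rw [if_pos hp]
    have e2 : j + -j = 0 := by ring
    rw [e2, neg_zero, T_zero, ind_sq _ (Zc_clopen σ hM.1 S hS c), U_zero, one_mul]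
    rfl
  · rw [if_neg hp]
    have e3 : ind (Zc σ Z S c) * T σ (-(j + -j')) (ind (Zc σ Z S c')) = 0 := by
      ext x
      rw [ContinuousMap.mul_apply, T_apply, ind_apply (Zc_clopen σ hM.1 S hS c),
        ind_apply (Zc_clopen σ hM.1 S hS c'), ContinuousMap.zero_apply]
      by_cases h1 : x ∈ Zc σ Z S c
      · by_cases h2 : (σ ^ (-(j + -j'))) x ∈ Zc σ Z S c'
        · exfalso
          have h3 : (σ ^ (0 : ℤ)) x ∈ Z := by rw [zp_zero]; exact h1.1
          rw [abs_le] at hj hj'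
          have h4 : -(j + -j') = 0 := mk_disj hM h2.1 h3 (by
            rw [abs_lt]; push_cast; constructor <;> omega)
          rw [h4, zp_zero] at h2
          exact hp (hP.2 ⟨Zc_uniq σ Z S hc hc' h1 h2, by omega⟩)
        · rw [if_neg h2, mul_zero]
      · rw [if_neg h1, zero_mul]
    rw [e3, map_zero, mul_zero, zero_mul]

theorem union_clopen {Z : Set X} (hZ : IsClopen Z) (m : ℕ) :
    IsClopen (⋃ j ∈ Finset.Icc (-(m : ℤ)) m, (σ ^ j) ⁻¹' Z) :=
  isClopen_biUnion_finset fun j _ => hZ.preimage (σ ^ j).continuous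

theorem me_union {Z : Set X} (hZ : IsClopen Z) {S : Finset (Set X × ℤ)}
    (hS : ∀ p ∈ S, IsClopen p.1) (c : Finset (Set X × ℤ)) {m : ℕ} {i : ℤ}
    (hi : i ∈ Finset.Icc (-(m : ℤ)) m) (j : ℤ) :
    π (ind (⋃ j ∈ Finset.Icc (-(m : ℤ)) m, (σ ^ j) ⁻¹' Z)) * me h Z S c i j =
      me h Z S c i j := by
  classical
  unfold me
  rw [← mul_assoc, ← mul_assoc, U_cov2, mul_assoc (U h (-i)), ← map_mul]
  congr 3
  ext x
  rw [ContinuousMap.mul_apply, T_apply, ind_apply (union_clopen hZ m),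
    ind_apply (Zc_clopen σ hZ S hS c)]
  by_cases h1 : x ∈ Zc σ Z S c
  · rw [if_pos h1, if_pos, mul_one]
    simp only [Set.mem_iUnion]
    refine ⟨i, hi, ?_⟩
    rw [Set.mem_preimage, ← zp_add]
    have e2 : i + -i = 0 := by ring
    rw [e2, zp_zero]
    exact h1.1
  · rw [if_neg h1, mul_zero]

theorem me_shift (Z : Set X) (S c : Finset (Set X × ℤ)) (i : ℤ) (k : ℤ) :
    me h Z S c i (i + k) = π (T σ i (ind (Zc σ Z S c))) * U h k := by
  unfold me
  rw [U_cov', mul_assoc, U_mul]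
  congr 2
  ring

/-- the coefficients -/
def cf (m K : ℕ) (C : Set X) (k : ℕ) (c : Finset (Set X × ℤ)) (i j : ℤ) : ℂ :=
  open Classical in
  if j = i + k ∧ (C, i) ∈ c then
    ((Real.sin (th m K i) : ℝ) : ℂ) * ((Real.sin (th m K j) : ℝ) : ℂ) else 0

theorem fun_id {Z : Set X} {m K : ℕ} (hM : Marker σ (2 * m + 2 * K + 2) Z) (hmK : K < m)
    (S : Finset (Set X × ℤ)) (𝒞 : Finset (Set X)) (h𝒞 : ∀ C ∈ 𝒞, IsClopen C)
    (hS : ∀ p, p ∈ S ↔ p.1 ∈ 𝒞 ∧ p.2 ∈ Finset.Icc (-(m : ℤ)) m)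
    {C : Set X} (hC : C ∈ 𝒞) {k : ℕ} (hk : k ≤ K) :
    ∑ c ∈ S.powerset, ∑ i ∈ Finset.Icc (-(m : ℤ)) m, ∑ j ∈ Finset.Icc (-(m : ℤ)) m,
      cf m K C k c i j • T σ i (ind (Zc σ Z S c)) =
    H1 σ Z m K * (ind C * T σ (-(k : ℤ)) (H1 σ Z m K)) := by
  classical
  have hSc : ∀ p ∈ S, IsClopen p.1 := fun p hp => h𝒞 _ ((hS p).1 hp).1
  ext x
  simp only [ContinuousMap.sum_apply, ContinuousMap.smul_apply, ContinuousMap.mul_apply, T_apply,
    ind_apply (Zc_clopen σ hM.1 S hSc _), ind_apply (h𝒞 C hC), H1_apply, smul_eq_mul]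
  by_cases h1 : ∃ i : ℤ, |i| ≤ (m : ℤ) ∧ (σ ^ i) x ∈ Z
  · obtain ⟨i, hi, hix⟩ := h1
    have hi' := abs_le.1 hi
    have e1 : (σ ^ (i + k)) ((σ ^ (-(k : ℤ))) x) ∈ Z := by
      rw [← zp_add]
      have : i + k + -(k : ℤ) = i := by ring
      rw [this]; exact hix
    rw [Th_val hM hmK hix (by omega), Th_val hM hmK e1 (abs_le.2 ⟨by omega, by omega⟩),
      Complex.ofReal_re, Complex.ofReal_re]
    obtain ⟨c0, hc0⟩ : ∃ c0, c0 = S.filter (fun p => (σ ^ (-p.2)) ((σ ^ i) x) ∈ p.1) := ⟨_, rfl⟩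
    have hc0S : c0 ⊆ S := by rw [hc0]; exact Finset.filter_subset _ _
    have hx0 : (σ ^ i) x ∈ Zc σ Z S c0 := by
      refine ⟨hix, fun p hp => ?_⟩
      rw [hc0, Finset.mem_filter]
      exact ⟨fun h => ⟨hp, h⟩, fun h => h.2⟩
    have hiI : i ∈ Finset.Icc (-(m : ℤ)) m := Finset.mem_Icc.2 hi'
    have hmem : (C, i) ∈ c0 ↔ x ∈ C := by
      rw [hc0, Finset.mem_filter]
      have : (σ ^ (-i)) ((σ ^ i) x) = x := by
        rw [← zp_add]
        have : -i + i = 0 := by ring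
        rw [this, zp_zero]
      simp only
      rw [this]
      exact ⟨fun h => h.2, fun h => ⟨(hS _).2 ⟨hC, hiI⟩, h⟩⟩
    rw [Finset.sum_eq_single c0]
    · rw [Finset.sum_eq_single i]
      · rw [if_pos hx0]
        simp only [cf, mul_one]
        by_cases hxC : x ∈ C
        · rw [if_pos hxC, one_mul]
          by_cases hik : i + k ∈ Finset.Icc (-(m : ℤ)) m
          · rw [Finset.sum_eq_single (i + k)]
            · rw [if_pos ⟨rfl, hmem.2 hxC⟩]
            · intro j _ hj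
              rw [if_neg (fun h => hj h.1)]
            · intro h'; exact absurd hik h'
          · rw [Finset.sum_eq_zero]
            · rw [th_zero (j := i + k) hmK]; · simp
              rw [Finset.mem_Icc] at hik
              rw [le_abs]
              by_contra hcon
              push Not at hcon
              exact hik ⟨by omega, by omega⟩
            · intro j hj
              rw [if_neg]
              rintro ⟨h2, -⟩
              rw [h2] at hj
              exact hik hj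
        · rw [if_neg hxC, zero_mul, mul_zero]
          refine Finset.sum_eq_zero fun j _ => ?_
          rw [if_neg (fun h => hxC (hmem.1 h.2))]
      · intro i' hi' hii
        refine Finset.sum_eq_zero fun j _ => ?_
        rw [if_neg, mul_zero]
        intro h'
        rw [Finset.mem_Icc] at hi'
        exact hii (mk_disj hM h'.1 hix (by rw [abs_lt]; push_cast; constructor <;> omega))
      · intro h'; exact absurd hiI h'
    · intro c hc hcc
      refine Finset.sum_eq_zero fun i' hi' => ?_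
      refine Finset.sum_eq_zero fun j _ => ?_
      rw [if_neg, mul_zero]
      intro h'
      rw [Finset.mem_Icc] at hi'
      have : i' = i := mk_disj hM h'.1 hix (by rw [abs_lt]; push_cast; constructor <;> omega)
      rw [this] at h'
      exact hcc (Zc_uniq σ Z S (Finset.mem_powerset.1 hc) hc0S h' hx0)
    · intro h'; exact absurd (Finset.mem_powerset.2 hc0S) h'
  · push Not at h1
    rw [Th_none hM h1]
    simp only [Complex.zero_re, Real.sin_zero, Complex.ofReal_zero, zero_mul]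
    refine Finset.sum_eq_zero fun c _ => ?_
    refine Finset.sum_eq_zero fun i hi => ?_
    refine Finset.sum_eq_zero fun j _ => ?_
    rw [Finset.mem_Icc] at hi
    rw [if_neg, mul_zero]
    intro h'
    exact h1 i (abs_le.2 ⟨by omega, by omega⟩) h'.1

end units

theorem t_E4 : StE4 := by
  classical
  intro K ε hε
  obtain ⟨M, hM⟩ := exists_nat_gt (Real.pi / 2 * K / min 1 ε)
  have hδ : 0 < min 1 ε := lt_min one_pos hε
  have hM' : Real.pi / 2 / (((K + M + 1 : ℕ) : ℝ) - K) * K ≤ min 1 ε := by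
    have h1 : (((K + M + 1 : ℕ) : ℝ) - K) = (M : ℝ) + 1 := by push_cast; ring
    have h2 : (0 : ℝ) < (M : ℝ) + 1 := by positivity
    rw [h1]
    rw [div_lt_iff₀ hδ] at hM
    have h3 : Real.pi / 2 / ((M : ℝ) + 1) * K = Real.pi / 2 * K / ((M : ℝ) + 1) := by ring
    rw [h3, div_le_iff₀ h2]
    nlinarith
  refine ⟨K + M + 1, ?_⟩
  obtain ⟨m, hm⟩ : ∃ m : ℕ, m = K + M + 1 := ⟨_, rfl⟩
  rw [← hm] at hM' ⊢
  have hmK : K < m := by omega
  intro X _ _ _ _ σ E _ π u Z h hMk 𝒞 h𝒞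
  obtain ⟨S, hS⟩ : ∃ S : Finset (Set X × ℤ), S = 𝒞 ×ˢ Finset.Icc (-(m : ℤ)) m := ⟨_, rfl⟩
  have hS' : ∀ p, p ∈ S ↔ p.1 ∈ 𝒞 ∧ p.2 ∈ Finset.Icc (-(m : ℤ)) m := by
    intro p; rw [hS, Finset.mem_product]
  have hSc : ∀ p ∈ S, IsClopen p.1 := fun p hp => h𝒞 _ ((hS' p).1 hp).1
  let LL : Finset (Finset (Set X × ℤ)) :=
    S.powerset.filter (fun c => π (ind (Zc σ Z S c)) ≠ 0)
  let NN : Finset ℤ := Finset.Icc (-(m : ℤ)) m
  have hNN : ∀ i : NN, |(i : ℤ)| ≤ (m : ℤ) := fun i => abs_le.2 (Finset.mem_Icc.1 i.2)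
  have hLL : ∀ c : LL, (c : Finset (Set X × ℤ)) ⊆ S ∧ π (ind (Zc σ Z S c)) ≠ 0 := fun c =>
    ⟨Finset.mem_powerset.1 (Finset.mem_filter.1 c.2).1, (Finset.mem_filter.1 c.2).2⟩
  let F : FDA := { ι := LL, n := fun _ => NN }
  obtain ⟨φ, hφi, hφ⟩ := mu_hom (E := E) (L := LL) (N := NN)
    (fun c i j => me h Z S c i j)
    (by
      intro c i j c' j' l
      exact me_mul h hMk hSc (hLL c).1 (hLL c').1 _ _ (hNN j) (hNN j') _
        (by rw [Subtype.ext_iff, Subtype.ext_iff]))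
    (fun c i j => me_star h hMk.1 hSc _ _ _)
    (fun c i j => me_ne h (hLL c).2 _ _)
  refine ⟨F, φ, π (H0 σ Z m K), π (H1 σ Z m K), hφi, ?_, ?_, ?_, ?_, ?_, ?_⟩
  · exact (NonUnitalStarAlgHom.norm_apply_le π _).trans (H0_norm σ Z m K)
  · exact (NonUnitalStarAlgHom.norm_apply_le π _).trans (H1_norm σ Z m K)
  · rw [← map_star, H0_star]
  · rw [← map_star, H1_star]
  · intro y
    rw [hφ y]
    simp only [Finset.mul_sum, mul_smul_comm]
    refine Finset.sum_congr rfl fun c _ => ?_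
    refine Finset.sum_congr rfl fun i _ => ?_
    refine Finset.sum_congr rfl fun j _ => ?_
    rw [me_union h hMk.1 hSc _ i.2]
  · intro C hC k hk
    refine ⟨?_, ?_, ?_⟩
    · rw [conj_form h, conj_form h]
      have e1 : π (H0 σ Z m K * (ind C * T σ (-(k : ℤ)) (H0 σ Z m K))) * u ^ k +
          π (H1 σ Z m K * (ind C * T σ (-(k : ℤ)) (H1 σ Z m K))) * u ^ k - π (ind C) * u ^ k =
          π (ind C * (H0 σ Z m K * T σ (-(k : ℤ)) (H0 σ Z m K) +
            H1 σ Z m K * T σ (-(k : ℤ)) (H1 σ Z m K) - 1)) * u ^ k := by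
        rw [← add_mul, ← sub_mul, ← map_add, ← map_sub]
        congr 2
        ring
      rw [e1, norm_mul_pow h.u1 h.u2]
      exact (NonUnitalStarAlgHom.norm_apply_le π _).trans
        (est hMk hmK (h𝒞 C hC) hk hε (hM'.trans (min_le_left _ _)) (hM'.trans (min_le_right _ _)))
    · rw [conj_form h, H0_Wf hMk hmK hk, map_mul, mul_assoc, ← v_pow h]
      exact mem_adj h Z k _
    · refine ⟨fun c => Matrix.of fun i j => cf m K C k c i j, ?_⟩
      rw [hφ]
      simp only [Matrix.of_apply]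
      rw [conj_form h, ← fun_id hMk hmK S 𝒞 h𝒞 hS' hC hk]
      have e1 : ∀ (c : Finset (Set X × ℤ)) (i j : ℤ), cf m K C k c i j • me h Z S c i j =
          π (cf m K C k c i j • T σ i (ind (Zc σ Z S c))) * u ^ k := by
        intro c i j
        have e2 : u ^ k = U h k := U_pow h.u1 h.u2 k
        by_cases hj : j = i + k
        · subst hj
          rw [me_shift, map_smul, smul_mul_assoc, e2]
        · have : cf m K C k c i j = 0 := by
            unfold cf
            rw [if_neg (fun h => hj h.1)]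
          rw [this, zero_smul, zero_smul, map_zero, zero_mul]
      simp only [map_sum, Finset.sum_mul]
      have e3 : ∀ c : Finset (Set X × ℤ), (∑ i : NN, ∑ j : NN,
          cf m K C k c i j • me h Z S c i j) =
          ∑ i ∈ Finset.Icc (-(m : ℤ)) m, ∑ j ∈ Finset.Icc (-(m : ℤ)) m,
            π (cf m K C k c i j • T σ i (ind (Zc σ Z S c))) * u ^ k := by
        intro c
        rw [← Finset.sum_coe_sort (Finset.Icc (-(m : ℤ)) m)]
        refine Finset.sum_congr rfl fun i _ => ?_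
        rw [← Finset.sum_coe_sort (Finset.Icc (-(m : ℤ)) m)]
        refine Finset.sum_congr rfl fun j _ => ?_
        exact e1 c i j
      have e4 : ∀ c : Finset (Set X × ℤ), π (ind (Zc σ Z S c)) = 0 →
          (∑ i ∈ Finset.Icc (-(m : ℤ)) m, ∑ j ∈ Finset.Icc (-(m : ℤ)) m,
            π (cf m K C k c i j • T σ i (ind (Zc σ Z S c))) * u ^ k) = 0 := by
        intro c hc
        refine Finset.sum_eq_zero fun i _ => ?_
        refine Finset.sum_eq_zero fun j _ => ?_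
        rw [map_smul, T_ne h i hc, smul_zero, zero_mul]
      rw [Finset.sum_congr rfl (fun (c : LL) _ => e3 c)]
      rw [Finset.sum_coe_sort LL (fun c => ∑ i ∈ Finset.Icc (-(m : ℤ)) m,
        ∑ j ∈ Finset.Icc (-(m : ℤ)) m,
            π (cf m K C k c i j • T σ i (ind (Zc σ Z S c))) * u ^ k)]
      refine Finset.sum_filter_of_ne ?_
      intro c _ hne h0
      exact hne (e4 c h0)

end Pool.Agent.Helper7_GA.G_E4
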