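import Pool.Agent.Helper7_GA.Stm3
import Pool.Agent.Helper7_ND.Rp

/-! # E5: covariant representations of systems with marker sets -/

set_option autoImplicit false

open scoped Matrix.Norms.L2Operator ENNReal Matrix
open Pool.Agent.W659.EC Pool.Agent.Helper7_ND

noncomputable section

namespace Pool.Agent.Helper7_GA.G_E5

section ind

variable {X : Type} [TopologicalSpace X]

theorem ind_empty : ind (∅ : Set X) = 0 := by
  ext x
  rw [ind_apply isClopen_empty]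
  simp

theorem ind_union {A W : Set X} (hA : IsClopen A) (hW : IsClopen W) :
    ind (A ∪ W) = ind A + ind W - ind A * ind W := by
  ext x
  rw [ContinuousMap.sub_apply, ContinuousMap.add_apply, ContinuousMap.mul_apply,
    ind_apply (hA.union hW), ind_apply hA, ind_apply hW]
  by_cases h1 : x ∈ A <;> by_cases h2 : x ∈ W <;> simp [h1, h2]

theorem ind_mul_self {A : Set X} (hA : IsClopen A) : ind A * ind A = ind A := by
  ext x
  rw [ContinuousMap.mul_apply, ind_apply hA]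
  by_cases h1 : x ∈ A <;> simp [h1]

theorem star_ind {A : Set X} (hA : IsClopen A) : star (ind A) = ind A := by
  ext x
  rw [ContinuousMap.star_apply, ind_apply hA]
  by_cases h1 : x ∈ A <;> simp [h1]

theorem clopen_iUnion (σ : X ≃ₜ X) {Z : Set X} (hZ : IsClopen Z) (J : Finset ℤ) :
    IsClopen (⋃ j ∈ J, (σ ^ j) ⁻¹' Z) := by
  classical
  induction J using Finset.induction_on with
  | empty => simpa using isClopen_empty
  | insert a J ha ih =>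
    rw [Finset.set_biUnion_insert]
    exact (hZ.preimage (σ ^ a).continuous).union ih

end ind

/-- the conclusion for one element -/
def Con {E : Type} [CStarAlgebra E] (δ : ℝ) (S : NonUnitalStarSubalgebra ℂ E) (F : FDA)
    (φ : F.alg →⋆ₙₐ[ℂ] E) (h₀ h₁ x : E) : Prop :=
  ‖h₀ * x * h₀ + h₁ * x * h₁ - x‖ ≤ δ ∧ h₀ * x * h₀ ∈ S ∧ ∃ y, φ y = h₁ * x * h₁

/-- the hypothesis on the generators -/
def Hyp {X : Type} [TopologicalSpace X] {E : Type} [CStarAlgebra E] (π : C(X, ℂ) →⋆ₐ[ℂ] E)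
    (u : E) (K : ℕ) (𝒞 : Finset (Set X)) (δ : ℝ) (S : NonUnitalStarSubalgebra ℂ E) (F : FDA)
    (φ : F.alg →⋆ₙₐ[ℂ] E) (h₀ h₁ : E) : Prop :=
  ∀ C ∈ 𝒞, ∀ k ≤ K, Con δ S F φ h₀ h₁ (π (ind C) * u ^ k)

section con

variable {E : Type} [CStarAlgebra E] {δ δ' : ℝ} {S : NonUnitalStarSubalgebra ℂ E} {F : FDA}
  {φ : F.alg →⋆ₙₐ[ℂ] E} {h₀ h₁ x y : E}

theorem Con.mono (h : Con δ S F φ h₀ h₁ x) (hd : δ ≤ δ') : Con δ' S F φ h₀ h₁ x :=
  ⟨h.1.trans hd, h.2⟩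

theorem Con.star (s0 : star h₀ = h₀) (s1 : star h₁ = h₁) (h : Con δ S F φ h₀ h₁ x) :
    Con δ S F φ h₀ h₁ (star x) := by
  have e0 : h₀ * Star.star x * h₀ = Star.star (h₀ * x * h₀) := by
    rw [star_mul, star_mul, s0, mul_assoc]
  have e1 : h₁ * Star.star x * h₁ = Star.star (h₁ * x * h₁) := by
    rw [star_mul, star_mul, s1, mul_assoc]
  obtain ⟨a1, a2, y, a3⟩ := h
  refine ⟨?_, ?_, Star.star y, ?_⟩
  · rw [e0, e1, ← star_add, ← star_sub, norm_star]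
    exact a1
  · rw [e0]
    exact star_mem a2
  · rw [e1, map_star, a3]

theorem Con.add (h : Con δ S F φ h₀ h₁ x) (h' : Con δ' S F φ h₀ h₁ y) :
    Con (δ + δ') S F φ h₀ h₁ (x + y) := by
  obtain ⟨a1, a2, z, a3⟩ := h
  obtain ⟨b1, b2, z', b3⟩ := h'
  refine ⟨?_, ?_, z + z', ?_⟩
  · have e : h₀ * (x + y) * h₀ + h₁ * (x + y) * h₁ - (x + y) =
        (h₀ * x * h₀ + h₁ * x * h₁ - x) + (h₀ * y * h₀ + h₁ * y * h₁ - y) := by
      rw [mul_add, add_mul, mul_add, add_mul]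
      abel
    rw [e]
    exact (norm_add_le _ _).trans (add_le_add a1 b1)
  · rw [mul_add, add_mul]
    exact add_mem a2 b2
  · rw [map_add, a3, b3, mul_add, add_mul]

theorem Con.smul (c : ℂ) (h : Con δ S F φ h₀ h₁ x) :
    Con (‖c‖ * δ) S F φ h₀ h₁ (c • x) := by
  obtain ⟨a1, a2, z, a3⟩ := h
  refine ⟨?_, ?_, c • z, ?_⟩
  · rw [mul_smul_comm, smul_mul_assoc, mul_smul_comm, smul_mul_assoc, ← smul_add, ← smul_sub,
      norm_smul]
    exact mul_le_mul_of_nonneg_left a1 (norm_nonneg c)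
  · rw [mul_smul_comm, smul_mul_assoc]
    exact SMulMemClass.smul_mem c a2
  · rw [map_smul, a3, mul_smul_comm, smul_mul_assoc]

theorem Con.zero : Con 0 S F φ h₀ h₁ 0 := by
  refine ⟨by simp, ?_, 0, by simp⟩
  rw [mul_zero, zero_mul]
  exact zero_mem S

end con

theorem Hyp.mono {X : Type} [TopologicalSpace X] {E : Type} [CStarAlgebra E]
    {π : C(X, ℂ) →⋆ₐ[ℂ] E} {u : E} {K K' : ℕ} {𝒞 𝒞' : Finset (Set X)} {δ : ℝ}
    {S : NonUnitalStarSubalgebra ℂ E} {F : FDA} {φ : F.alg →⋆ₙₐ[ℂ] E} {h₀ h₁ : E}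
    (h : Hyp π u K' 𝒞' δ S F φ h₀ h₁) (hK : K ≤ K') (hC : 𝒞 ⊆ 𝒞') :
    Hyp π u K 𝒞 δ S F φ h₀ h₁ := fun C hCC k hk => h C (hC hCC) k (hk.trans hK)

/-- the statement for one element -/
def Ok {X : Type} [TopologicalSpace X] {E : Type} [CStarAlgebra E] (π : C(X, ℂ) →⋆ₐ[ℂ] E)
    (u : E) (K : ℕ) (𝒞 : Finset (Set X)) (M : ℝ) (x : E) : Prop :=
  ∀ (δ : ℝ) (S : NonUnitalStarSubalgebra ℂ E) (F : FDA) (φ : F.alg →⋆ₙₐ[ℂ] E) (h₀ h₁ : E),
    0 ≤ δ → star h₀ = h₀ → star h₁ = h₁ → Hyp π u K 𝒞 δ S F φ h₀ h₁ →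
    Con (M * δ) S F φ h₀ h₁ x

theorem Ok.mono {X : Type} [TopologicalSpace X] {E : Type} [CStarAlgebra E]
    {π : C(X, ℂ) →⋆ₐ[ℂ] E} {u : E} {K K' : ℕ} {𝒞 𝒞' : Finset (Set X)} {M M' : ℝ} {x : E}
    (h : Ok π u K 𝒞 M x) (hK : K ≤ K') (hC : 𝒞 ⊆ 𝒞') (hM : M ≤ M') : Ok π u K' 𝒞' M' x :=
  fun δ S F φ h₀ h₁ hδ s0 s1 hH =>
    (h δ S F φ h₀ h₁ hδ s0 s1 (hH.mono hK hC)).mono (mul_le_mul_of_nonneg_right hM hδ)

theorem span_ok {X : Type} [TopologicalSpace X] {E : Type} [CStarAlgebra E]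
    (π : C(X, ℂ) →⋆ₐ[ℂ] E) (u : E) (x : E)
    (hx : x ∈ Submodule.span ℂ {z : E | ∃ (C : Set X) (k : ℕ), IsClopen C ∧
      (z = π (ind C) * u ^ k ∨ z = star (π (ind C) * u ^ k))}) :
    ∃ (K : ℕ) (𝒞 : Finset (Set X)) (M : ℝ), 0 ≤ M ∧ (∀ C ∈ 𝒞, IsClopen C) ∧
      Ok π u K 𝒞 M x := by
  classical
  induction hx using Submodule.span_induction with
  | mem x hx =>
    obtain ⟨C, k, hC, h⟩ := hx
    refine ⟨k, {C}, 1, zero_le_one, fun C' hC' => ?_, ?_⟩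
    · rw [Finset.mem_singleton.1 hC']; exact hC
    · intro δ S F φ h₀ h₁ hδ s0 s1 hH
      have h1 := hH C (Finset.mem_singleton_self C) k le_rfl
      rw [one_mul]
      rcases h with rfl | rfl
      · exact h1
      · exact h1.star s0 s1
  | zero =>
    refine ⟨0, ∅, 0, le_rfl, fun C hC => absurd hC (Finset.notMem_empty C), ?_⟩
    intro δ S F φ h₀ h₁ hδ s0 s1 hH
    rw [zero_mul]
    exact Con.zero
  | add x y _ _ hx hy =>
    obtain ⟨K, 𝒞, M, hM, hC, h⟩ := hx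
    obtain ⟨K', 𝒞', M', hM', hC', h'⟩ := hy
    refine ⟨max K K', 𝒞 ∪ 𝒞', M + M', add_nonneg hM hM', fun C hCC => ?_, ?_⟩
    · rcases Finset.mem_union.1 hCC with h1 | h1
      · exact hC C h1
      · exact hC' C h1
    · intro δ S F φ h₀ h₁ hδ s0 s1 hH
      rw [add_mul]
      exact (h δ S F φ h₀ h₁ hδ s0 s1 (hH.mono (le_max_left _ _) Finset.subset_union_left)).add
        (h' δ S F φ h₀ h₁ hδ s0 s1 (hH.mono (le_max_right _ _) Finset.subset_union_right))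
  | smul c x _ hx =>
    obtain ⟨K, 𝒞, M, hM, hC, h⟩ := hx
    refine ⟨K, 𝒞, ‖c‖ * M, mul_nonneg (norm_nonneg c) hM, hC, ?_⟩
    intro δ S F φ h₀ h₁ hδ s0 s1 hH
    rw [mul_assoc]
    exact (h δ S F φ h₀ h₁ hδ s0 s1 hH).smul c

theorem finset_ok {X : Type} [TopologicalSpace X] {E : Type} [CStarAlgebra E]
    (π : C(X, ℂ) →⋆ₐ[ℂ] E) (u : E)
    (hd : ∀ x : E, x ∈ closure (Submodule.span ℂ {z : E | ∃ (C : Set X) (k : ℕ), IsClopen C ∧
      (z = π (ind C) * u ^ k ∨ z = star (π (ind C) * u ^ k))} : Set E)) (ε : ℝ) (hε : 0 < ε)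
    (G : Finset E) :
    ∃ (K : ℕ) (𝒞 : Finset (Set X)) (M : ℝ), 0 ≤ M ∧ (∀ C ∈ 𝒞, IsClopen C) ∧
      ∀ g ∈ G, ∃ g' : E, ‖g' - g‖ ≤ ε ∧ Ok π u K 𝒞 M g' := by
  classical
  induction G using Finset.induction_on with
  | empty => exact ⟨0, ∅, 0, le_rfl, fun C hC => absurd hC (Finset.notMem_empty C),
      fun g hg => absurd hg (Finset.notMem_empty g)⟩
  | insert a G ha ih =>
    obtain ⟨K, 𝒞, M, hM, hC, h⟩ := ih
    obtain ⟨g', hg', hdist⟩ := Metric.mem_closure_iff.1 (hd a) ε hε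
    obtain ⟨K', 𝒞', M', hM', hC', h'⟩ := span_ok π u g' hg'
    refine ⟨max K K', 𝒞 ∪ 𝒞', max M M', le_max_of_le_left hM, fun C hCC => ?_, fun g hg => ?_⟩
    · rcases Finset.mem_union.1 hCC with h1 | h1
      · exact hC C h1
      · exact hC' C h1
    · rcases Finset.mem_insert.1 hg with rfl | hg
      · refine ⟨g', ?_, h'.mono (le_max_right _ _) Finset.subset_union_right (le_max_right _ _)⟩
        rw [dist_eq_norm] at hdist
        rw [norm_sub_rev]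
        exact hdist.le
      · obtain ⟨g'', h1, h2⟩ := h g hg
        exact ⟨g'', h1, h2.mono (le_max_left _ _) Finset.subset_union_left (le_max_left _ _)⟩

theorem sys_zero (K : Type) [NonUnitalCStarAlgebra K] (h : ∀ x y : K, x = y) (J : Type)
    [Fintype J] : SysAll K J := by
  intro G ε hε
  refine ⟨fun _ => { ι := Empty, n := fun _ => Empty }, fun _ => 0, fun _ => 0,
    fun _ => ⟨IsCP.zero, fun a => by simp⟩, fun _ => ⟨⟨IsCP.zero, fun a => by simp⟩,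
      fun a b _ => by simp⟩, fun a _ => ?_⟩
  rw [h (∑ j, _ - a) 0, norm_zero]
  exact hε.le

theorem t_E5 (hP1 : StP1) (hE2 : StE2) (hE3 : StE3) (hE4 : StE4) (hB2 : StB2) (hB3 : StB3)
    (hQUO : StQUO) (hZN : StZN) (hIG : StIG) : StE5 := by
  classical
  intro X _ _ _ _ σ E _ π u hC hM
  apply hP1 E
  intro G ε hε
  obtain ⟨K, 𝒞, M, hM0, hCl, hG⟩ := finset_ok π u (hE2 X σ E π u hC) ε hε G
  have hδ : 0 < ε / (1 + M) := by positivity
  have hMδ : M * (ε / (1 + M)) ≤ ε := by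
    rw [mul_div_assoc', div_le_iff₀ (by positivity)]
    nlinarith
  obtain ⟨m, hm⟩ := hE4 K (ε / (1 + M)) hδ
  obtain ⟨Z, hZ⟩ := hM (2 * m + 2 * K + 2)
  obtain ⟨F, φ, h₀, h₁, hφ, n0, n1, s0, s1, hU, hcon⟩ := hm X σ E π u Z hC hZ 𝒞 hCl
  obtain ⟨B, _, ρ, v, β, hβ, hβρ, hβv, hBrk, hadj⟩ := hE3 X σ Z E π u hZ.1 hC
  obtain ⟨I, _, ι, hId, hSI, hej⟩ := hB2 X σ Z B ρ v hZ.1 hBrk
  obtain ⟨D, _, π', hExt⟩ := hQUO I B ι hId
  -- the quotient
  have hSD : SysAll D (Option (Fin 1)) := by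
    obtain ⟨K₀, _, κ, hκ, -, hκ0⟩ := hIG D 0
    have hz : ∀ x : K₀, x = 0 := by
      intro x
      have h1 := hκ0 x
      have h2 : (Submodule.span ℂ {z : D | ∃ x y : D, z = x * 0 * y} : Set D) ⊆ {0} := by
        intro z hz
        have h3 : Submodule.span ℂ {z : D | ∃ x y : D, z = x * 0 * y} ≤ ⊥ := by
          rw [Submodule.span_le]
          rintro z ⟨x, y, rfl⟩
          simp
        exact (Submodule.mem_bot ℂ).1 (h3 hz)
      have h4 : κ x ∈ ({0} : Set D) := (closure_minimal h2 isClosed_singleton) h1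
      exact hκ.inj ((Set.mem_singleton_iff.1 h4).trans (map_zero κ).symm)
    refine hZN K₀ D κ (Option (Fin 1)) none (some 0) (by simp) hκ
      (sys_zero K₀ (fun x y => (hz x).trans (hz y).symm) _) ?_
    intro Q _ θ hθ hQ _
    refine hB3 X σ Z B ρ v hZ.1 hBrk hZ.2.2 Q (θ.comp π') (hθ.comp hExt.surj) hQ fun j => ?_
    obtain ⟨e, he⟩ := hej j
    rw [NonUnitalStarAlgHom.comp_apply, ← he, (hExt.exact (ι e)).2 ⟨e, rfl⟩, map_zero]
  -- the projection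
  have hun : ∀ J : Finset ℤ, ∃ e : I, ι e = ρ (ind (⋃ j ∈ J, (σ ^ j) ⁻¹' Z)) := by
    intro J
    induction J using Finset.induction_on with
    | empty =>
      refine ⟨0, ?_⟩
      rw [map_zero]
      simp [ind_empty]
    | insert a J ha ih =>
      obtain ⟨e, he⟩ := ih
      obtain ⟨e', he'⟩ := hej a
      refine ⟨e' + e - e' * e, ?_⟩
      rw [Finset.set_biUnion_insert, ind_union (hZ.1.preimage (σ ^ a).continuous)
        (clopen_iUnion σ hZ.1 J), map_sub, map_add, map_mul, he, he', map_sub, map_add, map_mul]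
  obtain ⟨e, he⟩ := hun (Finset.Icc (-(m : ℤ)) m)
  have hcl := clopen_iUnion σ hZ.1 (Finset.Icc (-(m : ℤ)) m)
  have hPrj : Prj e := by
    constructor
    · apply hId.inj
      rw [map_star, he, ← map_star, star_ind hcl]
    · apply hId.inj
      rw [map_mul, he, ← map_mul, ind_mul_self hcl]
  refine ⟨I, B, D, inferInstance, inferInstance, inferInstance, ι, π',
    (β : B →⋆ₙₐ[ℂ] E), e, F, φ, h₀, h₁, hExt, hSI, hSD, hβ, hPrj, hφ, ?_, s0, s1, n0, n1, ?_⟩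
  · intro y
    have h1 : (β : B →⋆ₙₐ[ℂ] E) (ι e) = π (ind (⋃ j ∈ Finset.Icc (-(m : ℤ)) m, (σ ^ j) ⁻¹' Z)) := by
      rw [he]
      exact hβρ _
    rw [h1]
    exact hU y
  · intro g hg
    obtain ⟨g', hgg, hok⟩ := hG g hg
    obtain ⟨c1, c2, y, c3⟩ := hok (ε / (1 + M)) _ F φ h₀ h₁ hδ.le s0 s1 hcon
    obtain ⟨b, hb⟩ := hadj _ c2
    refine ⟨g', b, y, hgg, hb, c3, ?_⟩
    have hb' : (β : B →⋆ₙₐ[ℂ] E) b = h₀ * g' * h₀ := hb
    rw [hb', c3]
    exact c1.trans hMδ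

end Pool.Agent.Helper7_GA.G_E5
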