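import Pool.Agent.Helper7_GA.Stm3

set_option autoImplicit false

open scoped Matrix.Norms.L2Operator ENNReal Matrix
open Pool.Agent.W659.EC Pool.Agent.Helper7_ND

noncomputable section

namespace Pool.Agent.Helper7_GA.G_GEN

theorem isClopen_coord {κ : Type} (k : κ) : IsClopen {x : κ → Bool | x k = true} :=
  (isClopen_discrete ({true} : Set Bool)).preimage (continuous_apply k)

theorem exists_rep {E : Type} [CStarAlgebra E] {κ : Type} (e : κ → E) (hp : ∀ k, Prj (e k))
    (hc : ∀ k l, e k * e l = e l * e k) :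
    ∃ π : C(κ → Bool, ℂ) →⋆ₐ[ℂ] E, ∀ k, π (ind {x | x k = true}) = e k := by
  classical
  let s : Set E := Set.range e
  let D0 : StarSubalgebra ℂ E := StarAlgebra.adjoin ℂ s
  have hs1 : ∀ a ∈ s, ∀ b ∈ s, a * b = b * a := by
    rintro _ ⟨k, rfl⟩ _ ⟨l, rfl⟩
    exact hc k l
  have hs2 : ∀ a ∈ s, ∀ b ∈ s, a * star b = star b * a := by
    rintro _ ⟨k, rfl⟩ _ ⟨l, rfl⟩
    rw [(hp l).1]
    exact hc k l
  have hD0 : IsMulCommutative D0 := StarAlgebra.isMulCommutative_adjoin ℂ hs1 hs2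
  have hD0' : ∀ x y : D0, x * y = y * x := fun x y => hD0.is_comm.comm x y
  let D : StarSubalgebra ℂ E := D0.topologicalClosure
  have hD : ∀ x y : D, x * y = y * x := fun x y =>
    (D0.commRingTopologicalClosure hD0').mul_comm x y
  have hcl : IsClosed (D : Set E) := D0.isClosed_topologicalClosure
  let inst : CommCStarAlgebra D := { StarSubalgebra.cstarAlgebra D with mul_comm := hD }
  have hmem : ∀ k, e k ∈ D := fun k =>
    D0.le_topologicalClosure (StarAlgebra.subset_adjoin ℂ s ⟨k, rfl⟩)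
  let d : κ → D := fun k => ⟨e k, hmem k⟩
  let G := gelfandStarTransform D
  let Y := WeakDual.characterSpace ℂ D
  have hdd : ∀ k, d k * d k = d k := fun k => Subtype.ext (hp k).2
  have hg : ∀ k (χ : Y), G (d k) χ = 0 ∨ G (d k) χ = 1 := by
    intro k χ
    have h1 : G (d k) * G (d k) = G (d k) := by rw [← map_mul, hdd]
    have h2 : G (d k) χ * G (d k) χ = G (d k) χ := by
      have := congrArg (fun f : C(Y, ℂ) => f χ) h1
      exact this
    have h3 : G (d k) χ * (G (d k) χ - 1) = 0 := by rw [mul_sub, h2, mul_one, sub_self]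
    rcases mul_eq_zero.1 h3 with h | h
    · exact Or.inl h
    · exact Or.inr (sub_eq_zero.1 h)
  have hcont : Continuous (fun χ : Y => fun k => decide (G (d k) χ = 1)) := by
    refine continuous_pi fun k => ?_
    rw [continuous_bool_rng true]
    have h1 : (fun χ : Y => decide (G (d k) χ = 1)) ⁻¹' {true} = {χ | G (d k) χ = 1} := by
      ext χ
      constructor
      · intro h
        exact of_decide_eq_true h
      · intro h
        exact decide_eq_true h
    rw [h1]
    refine ⟨isClosed_eq (G (d k)).continuous continuous_const, ?_⟩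
    rw [← isClosed_compl_iff]
    have h2 : {χ : Y | G (d k) χ = 1}ᶜ = {χ | G (d k) χ = 0} := by
      ext χ
      constructor
      · intro h
        exact (hg k χ).resolve_right h
      · intro h h'
        exact zero_ne_one ((Eq.symm h).trans h')
    rw [h2]
    exact isClosed_eq (G (d k)).continuous continuous_const
  let cc : C(Y, κ → Bool) := ⟨_, hcont⟩
  refine ⟨D.subtype.comp ((G.symm : C(Y, ℂ) →⋆ₐ[ℂ] D).comp
    (ContinuousMap.compStarAlgHom' ℂ ℂ cc)), fun k => ?_⟩
  have h1 : (ind {x : κ → Bool | x k = true}).comp cc = G (d k) := by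
    ext χ
    rw [ContinuousMap.comp_apply, ind_apply (isClopen_coord k)]
    have h2 : cc χ ∈ {x : κ → Bool | x k = true} ↔ G (d k) χ = 1 := by
      simp [cc]
    by_cases h3 : G (d k) χ = 1
    · rw [if_pos (h2.2 h3), h3]
    · rw [if_neg (fun h => h3 (h2.1 h))]
      exact ((hg k χ).resolve_right h3).symm
  change ((G.symm ((ind {x : κ → Bool | x k = true}).comp cc) : D) : E) = e k
  rw [h1, StarAlgEquiv.symm_apply_apply]

/-- the conjugates -/
def ee {E : Type} [CStarAlgebra E] {ι : Type} (U : unitary E) (p : ι → E) (z : ℤ × ι) : E :=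
  star ((U ^ z.1 : unitary E) : E) * p z.2 * ((U ^ z.1 : unitary E) : E)

section

variable {E : Type} [CStarAlgebra E] {ι : Type} (U : unitary E) (p : ι → E)

theorem ee_prj (hp : ∀ i, Prj (p i)) (z : ℤ × ι) : Prj (ee U p z) := by
  have h1 : ((U ^ z.1 : unitary E) : E) * star ((U ^ z.1 : unitary E) : E) = 1 :=
    Unitary.coe_mul_star_self _
  constructor
  · unfold ee
    rw [star_mul, star_mul, star_star, (hp z.2).1, mul_assoc]
  · unfold ee
    calc star ((U ^ z.1 : unitary E) : E) * p z.2 * ((U ^ z.1 : unitary E) : E) *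
          (star ((U ^ z.1 : unitary E) : E) * p z.2 * ((U ^ z.1 : unitary E) : E))
        = star ((U ^ z.1 : unitary E) : E) * p z.2 * (((U ^ z.1 : unitary E) : E) *
          star ((U ^ z.1 : unitary E) : E)) * p z.2 * ((U ^ z.1 : unitary E) : E) := by
            simp only [mul_assoc]
      _ = _ := by rw [h1, mul_one, mul_assoc (star _) (p z.2) (p z.2), (hp z.2).2]

theorem ee_mem (z : ℤ × ι) : ee U p z ∈ conjs (U : E) (Set.range p) := by
  obtain ⟨k, i⟩ := z
  unfold ee
  refine ⟨p i, ⟨i, rfl⟩, k.natAbs, ?_⟩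
  obtain ⟨n, rfl | rfl⟩ := k.eq_nat_or_neg
  · right
    rw [Int.natAbs_natCast, zpow_natCast]
    simp
  · left
    rw [Int.natAbs_neg, Int.natAbs_natCast, zpow_neg, zpow_natCast, ← Unitary.star_eq_inv]
    simp

theorem ee_conj (k : ℤ) (i : ι) : (U : E) * ee U p (k, i) * star (U : E) = ee U p (k - 1, i) := by
  have h1 : ((U ^ (k - 1) : unitary E) : E) = ((U ^ k : unitary E) : E) * star (U : E) := by
    rw [zpow_sub_one, ← Unitary.star_eq_inv]
    simp
  unfold ee
  simp only
  rw [h1, star_mul, star_star]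
  simp only [mul_assoc]

theorem ee_zero (i : ι) : ee U p (0, i) = p i := by
  unfold ee
  simp

end

theorem cont_star {X : Type} [TopologicalSpace X] [CompactSpace X] {E : Type} [CStarAlgebra E]
    (φ : C(X, ℂ) →⋆ₐ[ℂ] E) : Continuous φ :=
  AddMonoidHomClass.continuous_of_bound φ 1 fun x => by
    rw [one_mul]
    exact NonUnitalStarAlgHom.norm_apply_le φ x

theorem fin_case (hE5 : StE5) (hKR : StKR) (E : Type) [CStarAlgebra E] (u : E) {ι : Type}
    [Finite ι] (p : ι → E) (hu1 : star u * u = 1) (hu2 : u * star u = 1) (hp : ∀ i, Prj (p i))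
    (hc : ∀ x ∈ conjs u (Set.range p), ∀ y ∈ conjs u (Set.range p), x * y = y * x)
    (hg : ∀ S : NonUnitalStarSubalgebra ℂ E, IsClosed (S : Set E) → Set.range p ⊆ S → u ∈ S →
      ∀ x, x ∈ S) : SysAll E (Option (Fin 1)) := by
  classical
  obtain ⟨U, hU⟩ : ∃ U : unitary E, (U : E) = u := ⟨⟨u, Unitary.mem_iff.2 ⟨hu1, hu2⟩⟩, rfl⟩
  subst hU
  obtain ⟨π0, hπ0⟩ := exists_rep (ee U p) (ee_prj U p hp)
    (fun k l => hc _ (ee_mem U p k) _ (ee_mem U p l))
  let A := ι → Bool
  let X := ℤ → A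
  let m : C(ℤ × ι → Bool, X) := ⟨fun z k i => z (k, i), by fun_prop⟩
  let π : C(X, ℂ) →⋆ₐ[ℂ] E := π0.comp (ContinuousMap.compStarAlgHom' ℂ ℂ m)
  let Ck : ℤ × ι → Set X := fun z => {x | x z.1 z.2 = true}
  have hCk : ∀ z, IsClopen (Ck z) := fun z =>
    (isClopen_discrete ({true} : Set Bool)).preimage
      ((continuous_apply z.2).comp (continuous_apply z.1))
  have hπ : ∀ z, π (ind (Ck z)) = ee U p z := by
    intro z
    have h1 : (ind (Ck z)).comp m = ind {x : ℤ × ι → Bool | x z = true} := by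
      ext x
      rw [ContinuousMap.comp_apply, ind_apply (hCk z), ind_apply (isClopen_coord z)]
      rfl
    change π0 ((ind (Ck z)).comp m) = _
    rw [h1, hπ0]
  let σ : X ≃ₜ X := shift A
  let φ1 : C(X, ℂ) →⋆ₐ[ℂ] E := ((Unitary.conjStarAlgAut ℂ E U : E ≃⋆ₐ[ℂ] E) : E →⋆ₐ[ℂ] E).comp π
  let φ2 : C(X, ℂ) →⋆ₐ[ℂ] E := π.comp (ContinuousMap.compStarAlgHom' ℂ ℂ (σ.symm : C(X, X)))
  have hφ1 : ∀ f, φ1 f = (U : E) * π f * star (U : E) := fun f => rfl
  have hφ2 : ∀ f, φ2 f = π (f.comp (σ.symm : C(X, X))) := fun f => rfl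
  let S0 : StarSubalgebra ℂ C(X, ℂ) := StarAlgebra.adjoin ℂ (Set.range fun z => ind (Ck z))
  have hsep : S0.SeparatesPoints := by
    intro x y hxy
    obtain ⟨k, hk⟩ := Function.ne_iff.1 hxy
    obtain ⟨i, hi⟩ := Function.ne_iff.1 hk
    refine ⟨ind (Ck (k, i)), ⟨ind (Ck (k, i)),
      StarAlgebra.subset_adjoin ℂ _ ⟨(k, i), rfl⟩, rfl⟩, ?_⟩
    rw [ind_apply (hCk _), ind_apply (hCk _)]
    have h1 : (x ∈ Ck (k, i)) ↔ x k i = true := Iff.rfl
    have h2 : (y ∈ Ck (k, i)) ↔ y k i = true := Iff.rfl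
    rcases hbx : x k i with _ | _ <;> rcases hby : y k i with _ | _
    · exact absurd (hbx.trans hby.symm) hi
    · rw [if_neg (fun h => absurd (hbx.symm.trans (h1.1 h)) (by decide)), if_pos (h2.2 hby)]
      exact zero_ne_one
    · rw [if_neg (fun h => absurd (hby.symm.trans (h2.1 h)) (by decide)), if_pos (h1.2 hbx)]
      exact one_ne_zero
    · exact absurd (hbx.trans hby.symm) hi
  have htop := ContinuousMap.starSubalgebra_topologicalClosure_eq_top_of_separatesPoints S0 hsep
  have hle : S0 ≤ StarAlgHom.equalizer φ1 φ2 := by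
    refine StarAlgHom.adjoin_le_equalizer _ _ ?_
    rintro _ ⟨⟨k, i⟩, rfl⟩
    simp only
    rw [hφ1, hφ2, hπ, ee_conj]
    have h1 : (ind (Ck (k, i))).comp (σ.symm : C(X, X)) = ind (Ck (k - 1, i)) := by
      ext x
      rw [ContinuousMap.comp_apply, ind_apply (hCk _), ind_apply (hCk _)]
      rfl
    rw [h1, hπ]
  have hall : ∀ f, φ1 f = φ2 f := by
    intro f
    have h1 : S0.topologicalClosure ≤ StarAlgHom.equalizer φ1 φ2 :=
      StarSubalgebra.topologicalClosure_minimal hle (by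
        have : ((StarAlgHom.equalizer φ1 φ2 : StarSubalgebra ℂ C(X, ℂ)) : Set C(X, ℂ)) =
            {f | φ1 f = φ2 f} := by
          ext f
          exact StarAlgHom.mem_equalizer _ _ _
        rw [this]
        exact isClosed_eq (cont_star φ1) (cont_star φ2))
    rw [htop] at h1
    exact (StarAlgHom.mem_equalizer _ _ _).1 (h1 (Set.mem_univ f : f ∈ (⊤ : StarSubalgebra ℂ C(X, ℂ))))
  have hcov : Cov σ π (U : E) := by
    refine ⟨hu1, hu2, fun f => ?_, fun S hS hf hu => ?_⟩
    · have h1 := hall f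
      rw [hφ1, hφ2] at h1
      rw [← h1, mul_assoc ((U : E) * π f), hu1, mul_one]
    · refine hg S hS ?_ hu
      rintro _ ⟨i, rfl⟩
      rw [← ee_zero U p i, ← hπ]
      exact hf _
  exact hE5 X σ E π U hcov (hKR A)

/-- the unital star subalgebra generated by a finite set and `u` -/
def WW {E : Type} [CStarAlgebra E] (u : E) (F : Finset E) : StarSubalgebra ℂ E :=
  StarAlgebra.adjoin ℂ ((F : Set E) ∪ {u})

theorem WW_mono {E : Type} [CStarAlgebra E] (u : E) {F F' : Finset E} (h : F ⊆ F') {x : E}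
    (hx : x ∈ WW u F) : x ∈ WW u F' :=
  StarAlgebra.adjoin_mono (Set.union_subset_union_left _ (by exact_mod_cast h)) hx

theorem fin_part {E : Type} [CStarAlgebra E] (u : E) (P : Set E) (y : E)
    (hy : y ∈ NonUnitalStarAlgebra.adjoin ℂ (P ∪ {u})) :
    ∃ F : Finset E, (∀ x ∈ F, x ∈ P) ∧ y ∈ WW u F := by
  classical
  have hun : ∀ F1 F2 : Finset E, (∀ x ∈ F1, x ∈ P) → (∀ x ∈ F2, x ∈ P) →
      ∀ x ∈ F1 ∪ F2, x ∈ P := by
    intro F1 F2 h1 h2 x hx
    rcases Finset.mem_union.1 hx with h | h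
    · exact h1 x h
    · exact h2 x h
  induction hy using NonUnitalStarAlgebra.adjoin_induction with
  | mem x hx =>
    rcases hx with hx | hx
    · refine ⟨{x}, fun z hz => ?_, StarAlgebra.subset_adjoin ℂ _ (Or.inl ?_)⟩
      · rw [Finset.mem_singleton] at hz
        rw [hz]
        exact hx
      · simp
    · exact ⟨∅, fun z hz => absurd hz (Finset.notMem_empty z),
        StarAlgebra.subset_adjoin ℂ _ (Or.inr hx)⟩
  | add x y _ _ h1 h2 =>
    obtain ⟨F1, h1, h1'⟩ := h1
    obtain ⟨F2, h2, h2'⟩ := h2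
    exact ⟨F1 ∪ F2, hun F1 F2 h1 h2, add_mem (WW_mono u Finset.subset_union_left h1')
      (WW_mono u Finset.subset_union_right h2')⟩
  | zero => exact ⟨∅, fun z hz => absurd hz (Finset.notMem_empty z), zero_mem _⟩
  | mul x y _ _ h1 h2 =>
    obtain ⟨F1, h1, h1'⟩ := h1
    obtain ⟨F2, h2, h2'⟩ := h2
    exact ⟨F1 ∪ F2, hun F1 F2 h1 h2, mul_mem (WW_mono u Finset.subset_union_left h1')
      (WW_mono u Finset.subset_union_right h2')⟩
  | smul c x _ h1 =>
    obtain ⟨F1, h1, h1'⟩ := h1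
    exact ⟨F1, h1, SMulMemClass.smul_mem c h1'⟩
  | star x _ h1 =>
    obtain ⟨F1, h1, h1'⟩ := h1
    exact ⟨F1, h1, star_mem h1'⟩

theorem t_GEN (hE5 : StE5) (hKR : StKR) (hLS : StLS) : StGEN := by
  classical
  intro E _ u P hu1 hu2 hP hc hg
  refine hLS E (Option (Fin 1)) ?_
  intro G ε hε
  have hall : ∀ g : E, g ∈ (NonUnitalStarAlgebra.adjoin ℂ (P ∪ {u})).topologicalClosure := by
    intro g
    refine hg _ (NonUnitalStarSubalgebra.isClosed_topologicalClosure _) ?_ ?_ g
    · exact (Set.subset_union_left.trans (NonUnitalStarAlgebra.subset_adjoin ℂ _)).trans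
        (NonUnitalStarSubalgebra.le_topologicalClosure _)
    · exact NonUnitalStarSubalgebra.le_topologicalClosure _
        (NonUnitalStarAlgebra.subset_adjoin ℂ _ (Or.inr rfl))
  have happ : ∀ g : E, ∃ F : Finset E, (∀ x ∈ F, x ∈ P) ∧ ∃ y ∈ WW u F, ‖y - g‖ ≤ ε := by
    intro g
    have h1 : g ∈ closure ((NonUnitalStarAlgebra.adjoin ℂ (P ∪ {u}) :
      NonUnitalStarSubalgebra ℂ E) : Set E) := hall g
    obtain ⟨y, hy, hyg⟩ := Metric.mem_closure_iff.1 h1 ε hε
    obtain ⟨F, hF, hy2⟩ := fin_part u P y hy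
    refine ⟨F, hF, y, hy2, ?_⟩
    rw [← dist_eq_norm, dist_comm]
    exact hyg.le
  choose Ff hFP yf hy1 hy2 using happ
  let F : Finset E := G.biUnion Ff
  have hF : ∀ x ∈ F, x ∈ P := by
    intro x hx
    obtain ⟨g, hg', hx'⟩ := Finset.mem_biUnion.1 hx
    exact hFP g x hx'
  let W : StarSubalgebra ℂ E := WW u F
  let T : StarSubalgebra ℂ E := W.topologicalClosure
  have hTc : IsClosed (T : Set E) := W.isClosed_topologicalClosure
  have hWT : ∀ x ∈ W, x ∈ T := fun x hx => W.le_topologicalClosure hx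
  have huT : u ∈ T := hWT _ (StarAlgebra.subset_adjoin ℂ _ (Or.inr rfl))
  have hpT : ∀ x ∈ F, x ∈ T := fun x hx =>
    hWT _ (StarAlgebra.subset_adjoin ℂ _ (Or.inl (by exact_mod_cast hx)))
  let inst : CStarAlgebra T := StarSubalgebra.cstarAlgebra T
  let β : T →⋆ₙₐ[ℂ] E :=
    { toFun := fun x => (x : E)
      map_smul' := fun _ _ => rfl
      map_zero' := rfl
      map_add' := fun _ _ => rfl
      map_mul' := fun _ _ => rfl
      map_star' := fun _ => rfl }
  have hβ : ∀ x : T, β x = (x : E) := fun _ => rfl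
  refine ⟨T, inferInstance, β, Subtype.val_injective, ?_, ?_⟩
  · refine fin_case hE5 hKR T ⟨u, huT⟩ (fun x : F => (⟨x.1, hpT x.1 x.2⟩ : T))
      (Subtype.ext hu1) (Subtype.ext hu2) ?_ ?_ ?_
    · intro i
      exact ⟨Subtype.ext (hP i.1 (hF i.1 i.2)).1, Subtype.ext (hP i.1 (hF i.1 i.2)).2⟩
    · have key : ∀ x ∈ conjs (⟨u, huT⟩ : T) (Set.range (fun x : F => (⟨x.1, hpT x.1 x.2⟩ : T))),
          (x : E) ∈ conjs u P := by
        rintro x ⟨_, ⟨i, rfl⟩, k, h⟩
        refine ⟨i.1, hF i.1 i.2, k, ?_⟩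
        rcases h with h | h
        · left
          rw [h]
          rfl
        · right
          rw [h]
          rfl
      intro x hx y hy
      exact Subtype.ext (hc _ (key x hx) _ (key y hy))
    · intro C hC hX hu x
      let C' : NonUnitalStarSubalgebra ℂ E := C.map β
      have hC'c : IsClosed (C' : Set E) := by
        have h1 : (C' : Set E) = (Subtype.val : T → E) '' (C : Set T) := by
          rw [NonUnitalStarSubalgebra.coe_map]
          rfl
        rw [h1]
        exact hTc.isClosedEmbedding_subtypeVal.isClosedMap _ hC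
      have h1 : (1 : E) ∈ C' := by
        have h2 : star (⟨u, huT⟩ : T) * ⟨u, huT⟩ ∈ C := mul_mem (star_mem hu) hu
        exact ⟨_, h2, hu1⟩
      have h2 : ∀ z ∈ W, z ∈ C' := by
        intro z hz
        induction hz using StarAlgebra.adjoin_induction with
        | mem z hz =>
          rcases hz with hz | hz
          · have hz' : z ∈ F := by exact_mod_cast hz
            exact ⟨⟨z, hpT z hz'⟩, hX ⟨⟨z, hz'⟩, rfl⟩, rfl⟩
          · rw [Set.mem_singleton_iff] at hz
            rw [hz]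
            exact ⟨⟨u, huT⟩, hu, rfl⟩
        | algebraMap r =>
          rw [Algebra.algebraMap_eq_smul_one]
          exact SMulMemClass.smul_mem r h1
        | add x y _ _ h1 h2 => exact add_mem h1 h2
        | mul x y _ _ h1 h2 => exact mul_mem h1 h2
        | star x _ h1 => exact star_mem h1
      have h3 : (T : Set E) ⊆ (C' : Set E) := by
        have h4 : (T : Set E) = closure (W : Set E) := StarSubalgebra.topologicalClosure_coe W
        rw [h4]
        exact closure_minimal h2 hC'c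
      obtain ⟨c, hc', hcx⟩ := h3 x.2
      have : c = x := Subtype.ext hcx
      rwa [← this]
  · intro g hg'
    exact ⟨⟨yf g, hWT _ (WW_mono u (Finset.subset_biUnion_of_mem Ff hg') (hy1 g))⟩, hy2 g⟩

end Pool.Agent.Helper7_GA.G_GEN
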