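import Pool.Agent.Helper7_GA.Stm3

/-! # Group C*-algebras of groups generated by a torsion abelian normal subgroup and one element -/

set_option autoImplicit false

open scoped Matrix.Norms.L2Operator ENNReal Matrix
open Pool.Agent.W659.EC Pool.Agent.Helper7_ND

noncomputable section

namespace Pool.Agent.Helper7_GA.G_GRP

theorem avg {E : Type} [CStarAlgebra E] (W : E) (n : ℕ) (hn : 0 < n) (hW : W ^ n = 1)
    (hu : star W * W = 1) : Prj ((n : ℂ)⁻¹ • ∑ k ∈ Finset.range n, W ^ k) ∧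
      W * ((n : ℂ)⁻¹ • ∑ k ∈ Finset.range n, W ^ k) =
        (n : ℂ)⁻¹ • ∑ k ∈ Finset.range n, W ^ k := by
  have hn0 : (n : ℂ) ≠ 0 := by exact_mod_cast hn.ne'
  obtain ⟨s, hs⟩ : ∃ s, s = ∑ k ∈ Finset.range n, W ^ k := ⟨_, rfl⟩
  obtain ⟨p, hp⟩ : ∃ p, p = (n : ℂ)⁻¹ • s := ⟨_, rfl⟩
  rw [← hs, ← hp]
  have h1 : W * s = s := by
    have e1 : W * s = ∑ k ∈ Finset.range n, W ^ (k + 1) := by
      rw [hs, Finset.mul_sum]
      exact Finset.sum_congr rfl fun k _ => (pow_succ' W k).symm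
    have e2 := Finset.sum_range_succ (fun k => W ^ k) n
    rw [Finset.sum_range_succ', hW, pow_zero] at e2
    rw [e1, hs]
    exact add_right_cancel e2
  have hWp : W * p = p := by rw [hp, mul_smul_comm, h1]
  have hk : ∀ k : ℕ, W ^ k * p = p := by
    intro k
    induction k with
    | zero => rw [pow_zero, one_mul]
    | succ k ih => rw [pow_succ, mul_assoc, hWp, ih]
  have hsp : star W * p = p := by
    calc star W * p = star W * (W * p) := by rw [hWp]
      _ = p := by rw [← mul_assoc, hu, one_mul]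
  have hsk : ∀ k : ℕ, star W ^ k * p = p := by
    intro k
    induction k with
    | zero => rw [pow_zero, one_mul]
    | succ k ih => rw [pow_succ, mul_assoc, hsp, ih]
  have key : ∀ V : E, (∀ k : ℕ, V ^ k * p = p) →
      ((n : ℂ)⁻¹ • ∑ k ∈ Finset.range n, V ^ k) * p = p := by
    intro V hV
    rw [smul_mul_assoc, Finset.sum_mul, Finset.sum_congr rfl (fun k _ => hV k), Finset.sum_const,
      Finset.card_range, ← Nat.cast_smul_eq_nsmul ℂ, smul_smul, inv_mul_cancel₀ hn0, one_smul]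
  have hpp : p * p = p := by
    have := key W hk
    rwa [← hs, ← hp] at this
  have hst : star p = (n : ℂ)⁻¹ • ∑ k ∈ Finset.range n, star W ^ k := by
    rw [hp, hs, star_smul, star_sum]
    simp only [star_pow, star_inv₀, star_natCast]
  have hspp : star p * p = p := by
    rw [hst]
    exact key _ hsk
  have hss : star p = p := by
    calc star p = star (star p * p) := by rw [hspp]
      _ = star p * p := by rw [star_mul, star_star]
      _ = p := hspp
  exact ⟨⟨hss, hpp⟩, hWp⟩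

theorem decomp {E : Type} [CStarAlgebra E] (V : E) (n : ℕ) (hn : 0 < n) (hV : V ^ n = 1)
    (hu : star V * V = 1) (S : NonUnitalStarSubalgebra ℂ E) (P : Set E)
    (hP : ∀ p, Prj p → (p ∈ Submodule.span ℂ {x | ∃ k : ℕ, x = V ^ k}) → p ∈ P)
    (hPS : P ⊆ S) : V ∈ S := by
  have hn0 : (n : ℂ) ≠ 0 := by exact_mod_cast hn.ne'
  obtain ⟨ζ, hζ⟩ : ∃ ζ : ℂ, IsPrimitiveRoot ζ n := ⟨_, Complex.isPrimitiveRoot_exp n hn.ne'⟩
  have hz1 : ζ ^ n = 1 := hζ.pow_eq_one
  have hz0 : ζ ≠ 0 := by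
    rintro rfl
    rw [zero_pow hn.ne'] at hz1
    exact zero_ne_one hz1
  -- the projections
  have hmain : ∀ j : ℕ, ((n : ℂ)⁻¹ • ∑ k ∈ Finset.range n, ((ζ ^ j)⁻¹ • V) ^ k) ∈ P ∧
      ((ζ ^ j)⁻¹ • V) * ((n : ℂ)⁻¹ • ∑ k ∈ Finset.range n, ((ζ ^ j)⁻¹ • V) ^ k) =
        (n : ℂ)⁻¹ • ∑ k ∈ Finset.range n, ((ζ ^ j)⁻¹ • V) ^ k := by
    intro j
    have hz : ((ζ ^ j)⁻¹ : ℂ) ^ n = 1 := by
      rw [inv_pow, ← pow_mul, mul_comm, pow_mul, hz1, one_pow, inv_one]
    have hnorm : star ((ζ ^ j)⁻¹ : ℂ) * (ζ ^ j)⁻¹ = 1 := by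
      have h2 := Complex.norm_eq_one_of_pow_eq_one hz hn.ne'
      have h3 := Complex.conj_mul' ((ζ ^ j)⁻¹)
      rw [h2] at h3
      simpa using h3
    have h4 := avg ((ζ ^ j)⁻¹ • V) n hn (by rw [smul_pow, hz, hV, one_smul])
      (by rw [star_smul, smul_mul_smul_comm, hnorm, hu, one_smul])
    refine ⟨hP _ h4.1 ?_, h4.2⟩
    refine Submodule.smul_mem _ _ (Submodule.sum_mem _ fun k _ => ?_)
    rw [smul_pow]
    exact Submodule.smul_mem _ _ (Submodule.subset_span ⟨k, rfl⟩)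
  have hsum : ∑ j ∈ Finset.range n,
      ((n : ℂ)⁻¹ • ∑ k ∈ Finset.range n, ((ζ ^ j)⁻¹ • V) ^ k) = 1 := by
    rw [← Finset.smul_sum, Finset.sum_comm]
    have h1 : ∀ k ∈ Finset.range n, ∑ j ∈ Finset.range n, ((ζ ^ j)⁻¹ • V) ^ k =
        (∑ j ∈ Finset.range n, ((ζ ^ k)⁻¹) ^ j) • V ^ k := by
      intro k _
      rw [Finset.sum_smul]
      refine Finset.sum_congr rfl fun j _ => ?_
      rw [smul_pow]
      congr 1
      rw [inv_pow, inv_pow, ← pow_mul, ← pow_mul, mul_comm]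
    rw [Finset.sum_congr rfl h1, Finset.sum_eq_single 0]
    · simp only [pow_zero, inv_one, one_pow, Finset.sum_const, Finset.card_range, nsmul_eq_mul,
        mul_one]
      rw [smul_smul, inv_mul_cancel₀ hn0, one_smul]
    · intro k hk hk0
      have hne : (ζ ^ k)⁻¹ ≠ 1 := by
        intro h2
        rw [inv_eq_one] at h2
        have h3 := (hζ.pow_eq_one_iff_dvd k).1 h2
        have h4 := Nat.le_of_dvd (Nat.pos_of_ne_zero hk0) h3
        rw [Finset.mem_range] at hk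
        omega
      rw [geom_sum_eq hne, inv_pow, ← pow_mul, mul_comm, pow_mul, hz1, one_pow, inv_one, sub_self,
        zero_div, zero_smul]
    · intro h0
      exact absurd (Finset.mem_range.2 hn) h0
  have hV1 : V = ∑ j ∈ Finset.range n, (ζ ^ j) •
      ((n : ℂ)⁻¹ • ∑ k ∈ Finset.range n, ((ζ ^ j)⁻¹ • V) ^ k) := by
    calc V = V * 1 := (mul_one V).symm
      _ = ∑ j ∈ Finset.range n, V *
          ((n : ℂ)⁻¹ • ∑ k ∈ Finset.range n, ((ζ ^ j)⁻¹ • V) ^ k) := by
        rw [← hsum, Finset.mul_sum]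
      _ = _ := by
        refine Finset.sum_congr rfl fun j _ => ?_
        have h5 := (hmain j).2
        have h6 : ζ ^ j ≠ 0 := pow_ne_zero _ hz0
        calc V * ((n : ℂ)⁻¹ • ∑ k ∈ Finset.range n, ((ζ ^ j)⁻¹ • V) ^ k) =
            (ζ ^ j) • (((ζ ^ j)⁻¹ • V) *
              ((n : ℂ)⁻¹ • ∑ k ∈ Finset.range n, ((ζ ^ j)⁻¹ • V) ^ k)) := by
              rw [smul_mul_assoc (ζ ^ j)⁻¹ V, smul_smul, mul_inv_cancel₀ h6, one_smul]
          _ = _ := by rw [h5]
  rw [hV1]
  exact sum_mem fun j _ => SMulMemClass.smul_mem _ (hPS (hmain j).1)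

theorem t_GRP (hGEN : StGEN) : ∀ (G : Type) [Group G] (T : Subgroup G) [T.Normal] (t : G),
    (∀ a ∈ T, ∀ b ∈ T, a * b = b * a) → (∀ a ∈ T, IsOfFinOrder a) →
    Subgroup.closure ((T : Set G) ∪ {t}) = ⊤ →
    ∀ (E : Type) [CStarAlgebra E] (U : G →* E), (∀ g, star (U g) * U g = 1) →
    (∀ S : NonUnitalStarSubalgebra ℂ E, IsClosed (S : Set E) → (∀ g, U g ∈ S) → ∀ x, x ∈ S) →
    SysAll E (Option (Fin 1)) := by
  intro G _ T _ t hcomm hfin hclos E _ U hU hgen
  have hr : ∀ g, U g * U g⁻¹ = 1 := fun g => by rw [← map_mul, mul_inv_cancel, map_one]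
  have hst : ∀ g, star (U g) = U g⁻¹ := by
    intro g
    calc star (U g) = star (U g) * (U g * U g⁻¹) := by rw [hr, mul_one]
      _ = U g⁻¹ := by rw [← mul_assoc, hU, one_mul]
  obtain ⟨L, hL⟩ : ∃ L : Submodule ℂ E, L = Submodule.span ℂ {x | ∃ a ∈ T, x = U a} := ⟨_, rfl⟩
  have hLU : ∀ a ∈ T, U a ∈ L := fun a ha => by
    rw [hL]
    exact Submodule.subset_span ⟨a, ha, rfl⟩
  have hLc : ∀ x ∈ L, ∀ y ∈ L, x * y = y * x := by
    intro x hx
    rw [hL] at hx
    induction hx using Submodule.span_induction with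
    | mem x hx =>
      obtain ⟨a, ha, rfl⟩ := hx
      intro y hy
      rw [hL] at hy
      induction hy using Submodule.span_induction with
      | mem y hy =>
        obtain ⟨b, hb, rfl⟩ := hy
        rw [← map_mul, ← map_mul, hcomm a ha b hb]
      | zero => rw [mul_zero, zero_mul]
      | add y z _ _ h1 h2 => rw [mul_add, add_mul, h1, h2]
      | smul c y _ h1 => rw [mul_smul_comm, smul_mul_assoc, h1]
    | zero => intro y _; rw [mul_zero, zero_mul]
    | add y z _ _ h1 h2 => intro w hw; rw [mul_add, add_mul, h1 w hw, h2 w hw]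
    | smul c y _ h1 => intro w hw; rw [mul_smul_comm, smul_mul_assoc, h1 w hw]
  have hLconj : ∀ g : G, ∀ x ∈ L, U g * x * U g⁻¹ ∈ L := by
    intro g x hx
    rw [hL] at hx
    induction hx using Submodule.span_induction with
    | mem x hx =>
      obtain ⟨a, ha, rfl⟩ := hx
      rw [← map_mul, ← map_mul]
      exact hLU _ (Subgroup.Normal.conj_mem inferInstance a ha g)
    | zero => rw [mul_zero, zero_mul]; exact L.zero_mem
    | add y z _ _ h1 h2 => rw [mul_add, add_mul]; exact L.add_mem h1 h2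
    | smul c y _ h1 => rw [mul_smul_comm, smul_mul_assoc]; exact L.smul_mem c h1
  have hcj : ∀ x ∈ conjs (U t) {p : E | p ∈ L ∧ Prj p}, x ∈ L := by
    rintro x ⟨p, hp, k, rfl | rfl⟩
    · have h1 := hLconj (t ^ k) p hp.1
      rwa [← map_pow, hst]
    · have h1 := hLconj (t ^ k)⁻¹ p hp.1
      rw [inv_inv] at h1
      rwa [← map_pow, hst]
  refine hGEN E (U t) {p : E | p ∈ L ∧ Prj p} (hU t) (by rw [hst, hr]) (fun p hp => hp.2)
    (fun x hx y hy => hLc x (hcj x hx) y (hcj y hy)) ?_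
  intro S hS hPS hut
  apply hgen S hS
  have h1S : (1 : E) ∈ S := by
    rw [← hU t]
    exact mul_mem (star_mem hut) hut
  have hTS : ∀ a ∈ T, U a ∈ S := by
    intro a ha
    have hn : 0 < orderOf a := (hfin a ha).orderOf_pos
    refine decomp (U a) (orderOf a) hn (by rw [← map_pow, pow_orderOf_eq_one, map_one]) (hU a) S
      {p : E | p ∈ L ∧ Prj p} (fun p hp hps => ⟨?_, hp⟩) hPS
    refine Submodule.span_le.2 ?_ hps
    rintro x ⟨k, rfl⟩
    rw [← map_pow]
    exact hLU _ (T.pow_mem ha k)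
  obtain ⟨H, hH⟩ : ∃ H : Subgroup G, ∀ g, g ∈ H ↔ U g ∈ S :=
    ⟨{ carrier := {g | U g ∈ S}
       mul_mem' := fun {x y} hx hy => by
        rw [Set.mem_ofPred_eq] at hx hy ⊢
        rw [map_mul]
        exact mul_mem hx hy
       one_mem' := by rw [Set.mem_ofPred_eq, map_one]; exact h1S
       inv_mem' := fun {x} hx => by
        rw [Set.mem_ofPred_eq] at hx ⊢
        rw [← hst]
        exact star_mem hx }, fun g => Iff.rfl⟩
  have hle : Subgroup.closure ((T : Set G) ∪ {t}) ≤ H := by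
    rw [Subgroup.closure_le]
    rintro g (hg | hg)
    · exact (hH g).2 (hTS g hg)
    · rw [Set.mem_singleton_iff] at hg
      rw [hg]
      exact (hH t).2 hut
  intro g
  rw [hclos] at hle
  exact (hH g).1 (hle (Subgroup.mem_top g))

end Pool.Agent.Helper7_GA.G_GRP
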