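import Pool.Agent.Helper7_GA.Stm3
import Pool.Agent.Helper7_ND.Rp

set_option autoImplicit false

open scoped Matrix.Norms.L2Operator ENNReal Matrix
open Pool.Agent.W659.EC Pool.Agent.Helper7_ND

noncomputable section

namespace Pool.Agent.Helper7_GA.G_LOW

theorem mu_mul_mul (F : FDA) (l : F.ι) (i : F.n l) (x : F.alg) :
    mu F l i i * x * mu F l i i = x l i i • mu F l i i := by
  classical
  unfold mu
  funext l'
  by_cases h : l' = l
  · subst h
    simp only [Pi.mul_apply, Pi.smul_apply, Pi.single_eq_same]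
    ext a b
    simp only [Matrix.mul_apply, Matrix.single_apply, Matrix.smul_apply, smul_eq_mul]
    by_cases ha : i = a
    · by_cases hb : i = b
      · subst ha; subst hb
        simp
      · simp [hb]
    · simp [ha]
  · simp [Pi.single_eq_of_ne h]

theorem mu_sum (F : FDA) : ∑ l : F.ι, ∑ i : F.n l, mu F l i i = 1 := by
  classical
  unfold mu
  funext l'
  rw [Finset.sum_apply]
  simp only [Finset.sum_apply]
  rw [Finset.sum_eq_single l']
  · simp only [Pi.single_eq_same, Pi.one_apply]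
    ext a b
    rw [Matrix.sum_apply]
    simp only [Matrix.single_apply, Matrix.one_apply]
    by_cases hab : a = b
    · subst hab
      simp
    · rw [if_neg hab]
      refine Finset.sum_eq_zero fun i _ => ?_
      rw [if_neg]
      rintro ⟨rfl, rfl⟩
      exact hab rfl
  · intro l _ hl
    refine Finset.sum_eq_zero fun i _ => ?_
    exact Pi.single_eq_of_ne (Ne.symm hl) _
  · intro h
    exact absurd (Finset.mem_univ _) h

theorem mu_idem (F : FDA) (l : F.ι) (i : F.n l) : mu F l i i * mu F l i i = mu F l i i := by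
  classical
  have h := mu_mul_mul F l i 1
  rw [mul_one] at h
  rw [h]
  simp

theorem t_LOW (hL1 : StL1) (E : Type) [CStarAlgebra E] (u : E) (θ : E →⋆ₙₐ[ℂ] C(Circle, ℂ))
    (hθ : ∀ z : Circle, θ u z = (z : ℂ)) : ¬ SysAll E (Option (Fin 0)) := by
  intro hS
  obtain ⟨F, ψ, φ, -, hφ, hap⟩ := hS {u} (1 / 4) (by norm_num)
  have h1 := hap u (by simp)
  have hsum : ∑ j, φ j (ψ j u) = φ none (ψ none u) := by
    rw [Fintype.sum_option]
    simp
  rw [hsum] at h1
  generalize hy : ψ none u = y at h1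
  have hoz : OZ (φ none) := hL1 _ E (φ none) (hφ none).1.1 (hφ none).2
  have hpos : Pos (φ none 1) := IsCP.pos (hφ none).1.1 ⟨1, by simp⟩
  generalize φ none = Φ at h1 hoz hpos
  -- evaluation
  have hmul : ∀ (z : Circle) (x x' : (F none).alg),
      θ (Φ x) z * θ (Φ x') z = θ (Φ 1) z * θ (Φ (x * x')) z := by
    intro z x x'
    have h := congrArg (fun e => θ e z) (hoz x x')
    simpa [map_mul] using h
  have hclose : ∀ z : Circle, ‖θ (Φ y) z - (z : ℂ)‖ ≤ 1 / 4 := by
    intro z
    have h2 : ‖θ (Φ y - u)‖ ≤ 1 / 4 := (NonUnitalStarAlgHom.norm_apply_le θ _).trans h1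
    have h3 := (ContinuousMap.norm_coe_le_norm (θ (Φ y - u)) z).trans h2
    rw [map_sub, ContinuousMap.sub_apply, hθ] at h3
    exact h3
  have hone : ∀ z : Circle, ∃ r : ℝ, 0 ≤ r ∧ θ (Φ 1) z = r := by
    intro z
    obtain ⟨b, hb⟩ := hpos
    refine ⟨Complex.normSq (θ b z), Complex.normSq_nonneg _, ?_⟩
    rw [hb, map_mul, map_star, ContinuousMap.mul_apply, ContinuousMap.star_apply,
      Complex.normSq_eq_conj_mul_self]
    rfl
  have hne : ∀ z : Circle, θ (Φ 1) z ≠ 0 := by
    intro z h0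
    have h2 := hmul z y y
    rw [h0, zero_mul] at h2
    have h3 : θ (Φ y) z = 0 := mul_self_eq_zero.1 h2
    have h4 := hclose z
    rw [h3, zero_sub, norm_neg, Circle.norm_coe] at h4
    norm_num at h4
  -- the continuous {0,1}-valued functions
  obtain ⟨l, i, hli⟩ : ∃ (l : (F none).ι) (i : (F none).n l), θ (Φ (mu (F none) l i i)) 1 ≠ 0 := by
    by_contra hcon
    push Not at hcon
    apply hne 1
    rw [← mu_sum, map_sum, map_sum, ContinuousMap.sum_apply]
    refine Finset.sum_eq_zero fun l _ => ?_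
    rw [map_sum, map_sum, ContinuousMap.sum_apply]
    exact Finset.sum_eq_zero fun i _ => hcon l i
  set e := mu (F none) l i i with he
  have hidem : ∀ z : Circle, θ (Φ e) z * θ (Φ e) z = θ (Φ 1) z * θ (Φ e) z := by
    intro z
    rw [hmul z e e, he, mu_idem]
  have hcases : ∀ z : Circle, θ (Φ e) z = 0 ∨ θ (Φ e) z = θ (Φ 1) z := by
    intro z
    by_cases h0 : θ (Φ e) z = 0
    · exact Or.inl h0
    · exact Or.inr (mul_right_cancel₀ h0 (hidem z))
  have hclopen : IsClopen {t : ℝ | θ (Φ e) (Circle.exp t) = θ (Φ 1) (Circle.exp t)} := by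
    refine ⟨isClosed_eq ((map_continuous (θ (Φ e))).comp (by fun_prop))
      ((map_continuous (θ (Φ 1))).comp (by fun_prop)), ?_⟩
    have : {t : ℝ | θ (Φ e) (Circle.exp t) = θ (Φ 1) (Circle.exp t)} =
        {t : ℝ | θ (Φ e) (Circle.exp t) = 0}ᶜ := by
      ext t
      simp only [Set.mem_ofPred_eq, Set.mem_compl_iff]
      constructor
      · intro h h0
        exact hne _ (h.symm.trans h0)
      · intro h
        exact (hcases _).resolve_left h
    rw [this, isOpen_compl_iff]
    exact isClosed_eq ((map_continuous (θ (Φ e))).comp (by fun_prop)) continuous_const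
  have huniv := hclopen.eq_univ ⟨0, by
    rw [Set.mem_ofPred_eq, Circle.exp_zero]
    exact (hcases 1).resolve_left hli⟩
  have hall : ∀ t : ℝ, θ (Φ e) (Circle.exp t) = θ (Φ 1) (Circle.exp t) := fun t => by
    have : t ∈ {t : ℝ | θ (Φ e) (Circle.exp t) = θ (Φ 1) (Circle.exp t)} := by
      rw [huniv]; trivial
    exact this
  have hval : ∀ t : ℝ, θ (Φ y) (Circle.exp t) = y l i i * θ (Φ 1) (Circle.exp t) := by
    intro t
    have h2 := hall t
    have h3 := hne (Circle.exp t)
    have h4 := hmul (Circle.exp t) (e * y) e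
    have h5 := hmul (Circle.exp t) e y
    rw [he, mu_mul_mul, ← he, map_smul, map_smul, ContinuousMap.smul_apply, smul_eq_mul, h2] at h4
    rw [h2] at h5
    have h6 : θ (Φ y) (Circle.exp t) = θ (Φ (e * y)) (Circle.exp t) := mul_left_cancel₀ h3 h5
    rw [h6]
    have h7 : θ (Φ 1) (Circle.exp t) * θ (Φ (e * y)) (Circle.exp t) =
        θ (Φ 1) (Circle.exp t) * (y l i i * θ (Φ 1) (Circle.exp t)) := by
      rw [mul_comm]; exact h4
    exact mul_left_cancel₀ h3 h7
  obtain ⟨r0, hr0, hr0'⟩ := hone (Circle.exp 0)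
  obtain ⟨r1, hr1, hr1'⟩ := hone (Circle.exp Real.pi)
  have hc0 := hclose (Circle.exp 0)
  have hc1 := hclose (Circle.exp Real.pi)
  rw [hval, hr0'] at hc0
  rw [hval, hr1'] at hc1
  have e0 : ((Circle.exp 0 : Circle) : ℂ) = 1 := by simp
  have e1 : ((Circle.exp Real.pi : Circle) : ℂ) = -1 := by
    rw [Circle.coe_exp, Complex.exp_pi_mul_I]
  rw [e0] at hc0
  rw [e1] at hc1
  have g0 := (Complex.abs_re_le_norm _).trans hc0
  have g1 := (Complex.abs_re_le_norm _).trans hc1
  simp only [Complex.sub_re, Complex.mul_re, Complex.ofReal_re, Complex.ofReal_im, mul_zero,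
    sub_zero, Complex.one_re, Complex.neg_re] at g0 g1
  rw [abs_le] at g0 g1
  have p0 : 0 < (y l i i).re := by
    by_contra hneg
    push Not at hneg
    nlinarith [mul_nonneg_of_nonpos_of_nonpos hneg (neg_nonpos.2 hr0), g0.1]
  have p1 : 0 ≤ (y l i i).re * r1 := mul_nonneg p0.le hr1
  linarith [g1.2]

end Pool.Agent.Helper7_GA.G_LOW
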