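import Pool.Agent.Helper7_GA.Stm3
import Pool.Agent.Helper7_ND.Stm5
import Pool.Agent.Helper7_ND.Rp
import Pool.Agent.Helper7_ND.J_MAIN

/-! # P0: approximations of an extension, second colour orthogonal to a projection of the ideal -/

set_option autoImplicit false

open scoped Matrix.Norms.L2Operator ENNReal Matrix
open Pool.Agent.W659.EC Pool.Agent.Helper7_ND

noncomputable section

namespace Pool.Agent.Helper7_GA.G_P0

/-- the elements orthogonal to `p` -/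
def Orth {A : Type} [NonUnitalCStarAlgebra A] (p : A) (hp : star p = p) :
    NonUnitalStarSubalgebra ℂ A where
  carrier := {x | p * x = 0 ∧ x * p = 0}
  add_mem' := by
    rintro x y ⟨h1, h2⟩ ⟨h3, h4⟩
    exact ⟨by rw [mul_add, h1, h3, add_zero], by rw [add_mul, h2, h4, add_zero]⟩
  zero_mem' := ⟨mul_zero _, zero_mul _⟩
  mul_mem' := by
    rintro x y ⟨h1, h2⟩ ⟨h3, h4⟩
    exact ⟨by rw [← mul_assoc, h1, zero_mul], by rw [mul_assoc, h4, mul_zero]⟩
  smul_mem' := by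
    rintro c x ⟨h1, h2⟩
    exact ⟨by rw [mul_smul_comm, h1, smul_zero], by rw [smul_mul_assoc, h2, smul_zero]⟩
  star_mem' := by
    rintro x ⟨h1, h2⟩
    refine ⟨?_, ?_⟩
    · have := congrArg star h2
      rw [star_mul, hp, star_zero] at this
      exact this
    · have := congrArg star h1
      rw [star_mul, hp, star_zero] at this
      exact this

theorem orth_ex (A : Type) [NonUnitalCStarAlgebra A] (p : A) (hp : star p = p) :
    ∃ (H : Type) (_ : NonUnitalCStarAlgebra H) (j : H →⋆ₙₐ[ℂ] A), Function.Injective j ∧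
      (∀ h, p * j h = 0 ∧ j h * p = 0) ∧ ∀ x, p * x = 0 → x * p = 0 → ∃ h, j h = x := by
  have hc : IsClosed (Orth p hp : Set A) := by
    have h1 : IsClosed {x : A | p * x = 0} := isClosed_eq (by fun_prop) continuous_const
    have h2 : IsClosed {x : A | x * p = 0} := isClosed_eq (by fun_prop) continuous_const
    exact h1.inter h2
  refine ⟨Orth p hp, inferInstance, NonUnitalStarSubalgebraClass.subtype (Orth p hp),
    Subtype.val_injective, fun h => h.2, fun x h1 h2 => ⟨⟨x, h1, h2⟩, rfl⟩⟩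

theorem lift_inj {X H A : Type} [NonUnitalCStarAlgebra X] [NonUnitalCStarAlgebra H]
    [NonUnitalCStarAlgebra A] (j : H →⋆ₙₐ[ℂ] A) (hj : Function.Injective j) (f : X →⋆ₙₐ[ℂ] A)
    (h : ∀ x, ∃ y, j y = f x) : ∃ g : X →⋆ₙₐ[ℂ] H, ∀ x, j (g x) = f x := by
  choose g hg using h
  refine ⟨{ toFun := g
            map_smul' := fun c x => hj (by
              simp only [MonoidHom.id_apply, hg, map_smul])
            map_zero' := hj (by simp only [hg, map_zero])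
            map_add' := fun x y => hj (by simp only [hg, map_add])
            map_mul' := fun x y => hj (by simp only [hg, map_mul])
            map_star' := fun x => hj (by simp only [hg, map_star]) }, hg⟩

theorem lift_lin {X H A : Type} [NonUnitalCStarAlgebra X] [NonUnitalCStarAlgebra H]
    [NonUnitalCStarAlgebra A] (j : H →⋆ₙₐ[ℂ] A) (hj : Function.Injective j) (f : X →ₗ[ℂ] A)
    (h : ∀ x, ∃ y, j y = f x) : ∃ g : X →ₗ[ℂ] H, ∀ x, j (g x) = f x := by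
  choose g hg using h
  refine ⟨{ toFun := g
            map_add' := fun x y => hj (by simp only [hg, map_add])
            map_smul' := fun c x => hj (by simp only [hg, map_smul, RingHom.id_apply]) }, hg⟩

theorem prj_norm {A : Type} [NonUnitalCStarAlgebra A] {s : A} (h1 : star s = s) (h2 : s * s = s) :
    ‖s‖ ≤ 1 := by
  have h : ‖s‖ * ‖s‖ = ‖s‖ := by
    rw [← CStarRing.norm_star_mul_self, h1, h2]
  by_contra hcon
  rw [not_le] at hcon
  nlinarith

theorem norm_orth {A : Type} [NonUnitalCStarAlgebra A] {e T : A} (he : Prj e) (hT : Pos T)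
    (hT1 : ‖T‖ ≤ 1) (h1 : e * T = 0) (h2 : T * e = 0) : ‖e + T‖ ≤ 1 := by
  let _ := CStarAlgebra.spectralOrder (Unitization ℂ A)
  let _ := CStarAlgebra.spectralOrderedRing (Unitization ℂ A)
  have hTU : Pos ((T : A) : Unitization ℂ A) := hT.map (jE A)
  have heU : Pos ((e : A) : Unitization ℂ A) := by
    have : Pos e := ⟨e, by rw [he.1, he.2]⟩
    exact this.map (jE A)
  have h3 : Pos ((1 : Unitization ℂ A) - (T : Unitization ℂ A)) := by
    rw [pos_iff, sub_nonneg, ← CStarAlgebra.norm_le_one_iff_of_nonneg _ ((pos_iff _).1 hTU),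
      Unitization.norm_inr]
    exact hT1
  have h4 := h3.conj ((1 : Unitization ℂ A) - (e : Unitization ℂ A))
  have hes : star ((1 : Unitization ℂ A) - (e : Unitization ℂ A)) =
      (1 : Unitization ℂ A) - (e : Unitization ℂ A) := by
    rw [star_sub, star_one, ← Unitization.inr_star, he.1]
  have hee : (e : Unitization ℂ A) * (e : Unitization ℂ A) = (e : Unitization ℂ A) := by
    rw [← Unitization.inr_mul, he.2]
  have heT : (e : Unitization ℂ A) * (T : Unitization ℂ A) = 0 := by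
    rw [← Unitization.inr_mul, h1, Unitization.inr_zero]
  have hTe : (T : Unitization ℂ A) * (e : Unitization ℂ A) = 0 := by
    rw [← Unitization.inr_mul, h2, Unitization.inr_zero]
  have h5 : star ((1 : Unitization ℂ A) - (e : Unitization ℂ A)) *
      ((1 : Unitization ℂ A) - (T : Unitization ℂ A)) *
      ((1 : Unitization ℂ A) - (e : Unitization ℂ A)) =
      (1 : Unitization ℂ A) - ((e + T : A) : Unitization ℂ A) := by
    rw [hes, Unitization.inr_add]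
    simp only [mul_sub, sub_mul, one_mul, mul_one, hee, heT, hTe, zero_mul]
    abel
  rw [h5] at h4
  have h6 : Pos ((e + T : A) : Unitization ℂ A) := by
    rw [Unitization.inr_add]
    exact heU.add hTU
  have h7 := h6.norm_le h4
  rw [Unitization.norm_inr] at h7
  refine h7.trans (prj_norm (star_one _) (mul_one _))

/-- the approximations before the merging -/
theorem core (hA1e : StA1e) (I B D : Type) [NonUnitalCStarAlgebra I] [CStarAlgebra B]
    [NonUnitalCStarAlgebra D] (ι : I →⋆ₙₐ[ℂ] B) (π : B →⋆ₙₐ[ℂ] D) (hext : IsExt ι π)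
    (J : Type) [Fintype J] (hD : SysAll D J) (e : I) (he : Prj e) (G : Finset B) (ε : ℝ)
    (hε : 0 < ε) :
    ∃ (F : J → FDA) (ψ : ∀ j, B →ₗ[ℂ] (F j).alg) (Φ : ∀ j, (F j).alg →ₗ[ℂ] B) (t : I),
      (∀ j, IsCPC (ψ j)) ∧ (∀ j, IsCP (Φ j) ∧ IsOrderZero (Φ j)) ∧ Pos t ∧ ‖t‖ ≤ 1 ∧
      (∀ j, Pos ((1 + ε : ℂ) • (1 : Unitization ℂ B)
            - ((ι (t * t) : B) : Unitization ℂ B) - ((Φ j 1 : B) : Unitization ℂ B))) ∧
      (∀ x ∈ G, ‖x - ∑ j, Φ j (ψ j x) - ι t * x * ι t‖ ≤ ε + 2 * Real.sqrt (2 * ε)) ∧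
      ∀ j y, Φ j y * ι e = 0 := by
  classical
  obtain ⟨p, hp⟩ : ∃ p : B, p = ι e := ⟨_, rfl⟩
  have hps : star p = p := by rw [hp, ← map_star, he.1]
  have hpp : p * p = p := by rw [hp, ← map_mul, he.2]
  have hπι : ∀ i, π (ι i) = 0 := fun i => (hext.exact _).2 ⟨i, rfl⟩
  have hπp : π p = 0 := by rw [hp, hπι]
  obtain ⟨s, hs⟩ : ∃ s : B, s = 1 - p := ⟨_, rfl⟩
  have hss : star s = s := by rw [hs, star_sub, star_one, hps]
  have hs2 : s * s = s := by
    rw [hs]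
    simp only [mul_sub, sub_mul, one_mul, mul_one, hpp]
    abel
  have hpsz : p * s = 0 := by rw [hs, mul_sub, mul_one, hpp, sub_self]
  have hspz : s * p = 0 := by rw [hs, sub_mul, one_mul, hpp, sub_self]
  obtain ⟨B', iB, β, hβ, hβ0, hβ1⟩ := orth_ex B p hps
  obtain ⟨I', iI, κ, hκ, hκ0, hκ1⟩ := orth_ex I e he.1
  obtain ⟨ι', hι'⟩ := lift_inj β hβ (ι.comp κ) (fun x => hβ1 (ι (κ x))
    (by rw [hp, ← map_mul, (hκ0 x).1, map_zero]) (by rw [hp, ← map_mul, (hκ0 x).2, map_zero]))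
  have hι'' : ∀ x, β (ι' x) = ι (κ x) := hι'
  have hsandw : ∀ x : B, ∃ h, β h = s * x * s := fun x => hβ1 _
    (by rw [← mul_assoc, ← mul_assoc, hpsz, zero_mul, zero_mul]) (by rw [mul_assoc, hspz, mul_zero])
  have hπs : ∀ x : B, π (s * x * s) = π x := by
    intro x
    have : s * x * s = x - p * x - x * p + p * x * p := by
      rw [hs]
      noncomm_ring
    rw [this, map_add, map_sub, map_sub, map_mul, map_mul, map_mul, map_mul, hπp]
    simp
  have hext' : IsExt ι' (π.comp β) := by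
    refine ⟨fun x y hxy => ?_, fun d => ?_, fun x => ⟨fun h => ?_, ?_⟩⟩
    · have h1 := congrArg β hxy
      rw [hι'', hι''] at h1
      exact hκ (hext.inj h1)
    · obtain ⟨b, rfl⟩ := hext.surj d
      obtain ⟨h, hh⟩ := hsandw b
      exact ⟨h, by rw [NonUnitalStarAlgHom.comp_apply, hh, hπs]⟩
    · obtain ⟨i, hi⟩ := (hext.exact (β x)).1 h
      obtain ⟨i', rfl⟩ := hκ1 i (hext.inj (by rw [map_mul, hi, ← hp, (hβ0 x).1, map_zero]))
        (hext.inj (by rw [map_mul, hi, ← hp, (hβ0 x).2, map_zero]))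
      exact ⟨i', hβ (by rw [hι'', hi])⟩
    · rintro ⟨i', rfl⟩
      rw [NonUnitalStarAlgHom.comp_apply, hι'', hπι]
  obtain ⟨cmp, hcmp⟩ := lift_lin β hβ (conjL s) (fun x => by
    rw [conjL_apply, hss]
    exact hsandw x)
  have hcmp' : ∀ x, β (cmp x) = s * x * s := fun x => by rw [hcmp, conjL_apply, hss]
  have hcmpCP : IsCP cmp := by
    refine isCP_of_inj β hβ cmp ?_
    have : (β : B' →ₗ[ℂ] B) ∘ₗ cmp = conjL s := LinearMap.ext fun x => hcmp x
    rw [this]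
    exact isCP_conjL s
  have hsn : ‖s‖ ≤ 1 := prj_norm hss hs2
  have hcmpC : IsCPC cmp := by
    refine ⟨hcmpCP, fun x => ?_⟩
    rw [← hom_norm β hβ, hcmp']
    calc ‖s * x * s‖ ≤ ‖s * x‖ * ‖s‖ := norm_mul_le _ _
      _ ≤ (‖s‖ * ‖x‖) * ‖s‖ := mul_le_mul_of_nonneg_right (norm_mul_le _ _) (norm_nonneg _)
      _ ≤ (1 * ‖x‖) * 1 := by gcongr
      _ = ‖x‖ := by ring
  have hc : ∀ g : B, ∃ c : I', β (ι' c) = s * (star g * p * g) * s := by
    intro g
    obtain ⟨h, hh⟩ := hsandw (star g * p * g)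
    have h1 : (π.comp β) h = 0 := by
      rw [NonUnitalStarAlgHom.comp_apply, hh, hπs, map_mul, map_mul, hπp, mul_zero, zero_mul]
    obtain ⟨c, hc⟩ := (hext'.exact h).1 h1
    exact ⟨c, by rw [hc, hh]⟩
  choose c hc using hc
  obtain ⟨F, ψ', Φ', T, hψ', hΦ', hT, hT1, hpos, happ, hC⟩ := hA1e I' B' D ι' (π.comp β) hext' J
    hD (G.image cmp) (G.image c ∪ G.image (fun g => c (star g))) ε hε
  obtain ⟨Th, hTh⟩ : ∃ Th : B, Th = ι (κ T) := ⟨_, rfl⟩
  have hTh' : Th = β (ι' T) := by rw [hι'', hTh]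
  have hpT : p * Th = 0 := by rw [hTh']; exact (hβ0 _).1
  have hTp : Th * p = 0 := by rw [hTh']; exact (hβ0 _).2
  have hsT : s * Th = Th := by rw [hs, sub_mul, one_mul, hpT, sub_zero]
  have hTs : Th * s = Th := by rw [hs, mul_sub, mul_one, hTp, sub_zero]
  have hThs : star Th = Th := by rw [hTh, ← map_star, ← map_star, hT.sa]
  have hTh1 : ‖Th‖ ≤ 1 := by
    rw [hTh, hom_norm ι hext.inj, hom_norm κ hκ]
    exact hT1
  have h1T : ‖(1 : B) - Th‖ ≤ 2 := by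
    have h1 : ‖(1 : B)‖ ≤ 1 := prj_norm (star_one _) (mul_one _)
    calc ‖(1 : B) - Th‖ ≤ ‖(1 : B)‖ + ‖Th‖ := norm_sub_le _ _
      _ ≤ 2 := by linarith
  have nz : ∀ (y : B) (k : I'), β (ι' k) = s * (y * p * star y) * s → ‖T * k - k‖ ≤ ε →
      ‖s * y * p - Th * y * p‖ ≤ Real.sqrt (2 * ε) := by
    intro y k hk hk2
    apply Real.le_sqrt_of_sq_le
    have h1 : (s * y * p - Th * y * p) * star (s * y * p - Th * y * p) =
        (β (ι' k) - Th * β (ι' k)) * (1 - Th) := by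
      rw [hk]
      simp only [star_sub, star_mul, hps, hss, hThs]
      have e1 : s * y * p - Th * y * p = (1 - Th) * s * y * p := by
        rw [sub_mul, sub_mul, sub_mul, one_mul, hTs]
      have e2 : p * (star y * s) - p * (star y * Th) = p * star y * s * (1 - Th) := by
        rw [mul_sub, mul_one, mul_assoc (p * star y) s Th, hsT, mul_assoc, mul_assoc]
      rw [e1, e2]
      have e3 : (1 - Th) * s * y * p * (p * star y * s * (1 - Th)) =
          (1 - Th) * s * y * (p * p) * star y * s * (1 - Th) := by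
        simp only [mul_assoc]
      rw [e3, hpp]
      simp only [mul_sub, sub_mul, one_mul, mul_one, mul_assoc]
    rw [pow_two, ← CStarRing.norm_self_mul_star, h1]
    have h2 : ‖β (ι' k) - Th * β (ι' k)‖ ≤ ε := by
      rw [hTh', ← map_mul, ← map_mul, ← map_sub, ← map_sub, hom_norm β hβ,
        hom_norm ι' hext'.inj, norm_sub_rev]
      exact hk2
    calc ‖(β (ι' k) - Th * β (ι' k)) * (1 - Th)‖ ≤ ‖β (ι' k) - Th * β (ι' k)‖ * ‖1 - Th‖ :=
          norm_mul_le _ _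
      _ ≤ ε * 2 := mul_le_mul h2 h1T (norm_nonneg _) hε.le
      _ = 2 * ε := by ring
  have htt : ι ((e + κ T) * (e + κ T)) = p + β (ι' (T * T)) := by
    rw [hι'', hp]
    have : (e + κ T) * (e + κ T) = e + κ (T * T) := by
      rw [mul_add, add_mul, add_mul, he.2, (hκ0 T).1, (hκ0 T).2, map_mul, add_zero, zero_add]
    rw [this, map_add]
  refine ⟨F, fun j => ψ' j ∘ₗ cmp, fun j => (β : B' →ₗ[ℂ] B) ∘ₗ Φ' j, e + κ T,
    fun j => (hψ' j).comp hcmpC, fun j => ⟨?_, ?_⟩, ?_, ?_, fun j => ?_, fun x hx => ?_,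
    fun j y => ?_⟩
  · exact (isCP_hom β (β : B' →ₗ[ℂ] B) fun _ => rfl).comp (hΦ' j).1
  · intro a b hab
    have := (hΦ' j).2 a b hab
    change β (Φ' j (star a * a)) * β (Φ' j (star b * b)) = 0
    rw [← map_mul, this, map_zero]
  · have h1 : Pos e := ⟨e, by rw [he.1, he.2]⟩
    exact h1.add (hT.map κ)
  · refine norm_orth he (hT.map κ) ?_ (hκ0 T).1 (hκ0 T).2
    rw [hom_norm κ hκ]
    exact hT1
  · rw [htt]
    have h1 := ((hpos j).map (Unitization.starMap β)).conj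
      ((1 : Unitization ℂ B) - (p : Unitization ℂ B))
    have h2 : Pos ((ε : ℂ) • (p : Unitization ℂ B)) := by
      have h3 : Pos p := ⟨p, by rw [hps, hpp]⟩
      exact (h3.map (jE B)).smul hε.le
    have h4 := h1.add h2
    have hq : star ((1 : Unitization ℂ B) - (p : Unitization ℂ B)) =
        (1 : Unitization ℂ B) - (p : Unitization ℂ B) := by
      rw [star_sub, star_one, ← Unitization.inr_star, hps]
    have f1 : (p : Unitization ℂ B) * (p : Unitization ℂ B) = (p : Unitization ℂ B) := by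
      rw [← Unitization.inr_mul, hpp]
    have f2 : ∀ h : B', (p : Unitization ℂ B) * (β h : Unitization ℂ B) = 0 := fun h => by
      rw [← Unitization.inr_mul, (hβ0 h).1, Unitization.inr_zero]
    have f3 : ∀ h : B', (β h : Unitization ℂ B) * (p : Unitization ℂ B) = 0 := fun h => by
      rw [← Unitization.inr_mul, (hβ0 h).2, Unitization.inr_zero]
    have h5 : star ((1 : Unitization ℂ B) - (p : Unitization ℂ B)) *
        (Unitization.starMap β) ((1 + ε : ℂ) • (1 : Unitization ℂ B')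
            - ((ι' (T * T) : B') : Unitization ℂ B') - ((Φ' j 1 : B') : Unitization ℂ B')) *
        ((1 : Unitization ℂ B) - (p : Unitization ℂ B)) + (ε : ℂ) • (p : Unitization ℂ B) =
        (1 + ε : ℂ) • (1 : Unitization ℂ B) - ((p + β (ι' (T * T)) : B) : Unitization ℂ B)
          - ((β (Φ' j 1) : B) : Unitization ℂ B) := by
      rw [hq, map_sub, map_sub, map_smul, map_one, Unitization.starMap_inr,
        Unitization.starMap_inr, Unitization.inr_add]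
      simp only [add_smul, one_smul, mul_sub, sub_mul, mul_add, add_mul, one_mul, mul_one,
        smul_mul_assoc, mul_smul_comm, f1, f2, f3, sub_zero, smul_sub, sub_self, smul_zero]
      abel
    rw [h5] at h4
    exact h4
  · have hx1 := happ (cmp x) (Finset.mem_image_of_mem _ hx)
    have hx2 := hC (c x) (Finset.mem_union_left _ (Finset.mem_image_of_mem _ hx))
    have hx3 := hC (c (star x)) (Finset.mem_union_right _
      (Finset.mem_image.2 ⟨x, hx, rfl⟩))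
    have n2 := nz x (c (star x)) (by rw [hc, star_star]) hx3
    have n3 := nz (star x) (c x) (by rw [hc, star_star]) hx2
    have n3' : ‖p * x * s - p * x * Th‖ ≤ Real.sqrt (2 * ε) := by
      rw [← norm_star]
      have : star (p * x * s - p * x * Th) = s * star x * p - Th * star x * p := by
        simp only [star_sub, star_mul, hps, hss, hThs, mul_assoc]
      rw [this]
      exact n3
    obtain ⟨S, hS⟩ : ∃ S : B', S = ∑ j, Φ' j (ψ' j (cmp x)) := ⟨_, rfl⟩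
    have hS2 : ∑ j, ((β : B' →ₗ[ℂ] B) ∘ₗ Φ' j) ((ψ' j ∘ₗ cmp) x) = β S := by
      rw [hS, map_sum]
      rfl
    rw [← hS] at hx1
    have n1 : ‖s * x * s - β S - Th * x * Th‖ ≤ ε := by
      have : s * x * s - β S - Th * x * Th = β (cmp x - S - ι' T * cmp x * ι' T) := by
        rw [map_sub, map_sub, map_mul, map_mul, hcmp', ← hTh']
        have e4 : Th * (s * x * s) * Th = (Th * s) * x * (s * Th) := by simp only [mul_assoc]
        rw [e4, hsT, hTs]
      rw [this, hom_norm β hβ]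
      exact hx1
    have hid : x - β S - ι (e + κ T) * x * ι (e + κ T) =
        (s * x * s - β S - Th * x * Th) + (s * x * p - Th * x * p) +
          (p * x * s - p * x * Th) := by
      rw [map_add, ← hp, ← hTh, hs]
      noncomm_ring
    rw [hS2, hid]
    calc _ ≤ ‖(s * x * s - β S - Th * x * Th) + (s * x * p - Th * x * p)‖ +
          ‖p * x * s - p * x * Th‖ := norm_add_le _ _
      _ ≤ (‖s * x * s - β S - Th * x * Th‖ + ‖s * x * p - Th * x * p‖) +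
          ‖p * x * s - p * x * Th‖ := by gcongr; exact norm_add_le _ _
      _ ≤ (ε + Real.sqrt (2 * ε)) + Real.sqrt (2 * ε) := by gcongr
      _ = ε + 2 * Real.sqrt (2 * ε) := by ring
  · rw [← hp]
    exact (hβ0 _).2

theorem isOrderZero_smul {A B : Type} [NonUnitalCStarAlgebra A] [NonUnitalCStarAlgebra B]
    {φ : A →ₗ[ℂ] B} (h : IsOrderZero φ) (c : ℂ) : IsOrderZero (c • φ) := by
  intro a b hab
  rw [LinearMap.smul_apply, LinearMap.smul_apply, smul_mul_smul_comm, h a b hab, smul_zero]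

theorem isCPC_smul {A B : Type} [NonUnitalCStarAlgebra A] [NonUnitalCStarAlgebra B]
    {φ : A →ₗ[ℂ] B} (h : IsCP φ) {κ : ℝ} (hκ : 0 < κ) (hn : ∀ x, ‖φ x‖ ≤ κ * ‖x‖) :
    IsCPC (((κ⁻¹ : ℝ) : ℂ) • φ) := by
  refine ⟨h.smul (inv_nonneg.2 hκ.le), fun x => ?_⟩
  rw [LinearMap.smul_apply, norm_smul, Complex.norm_real, Real.norm_of_nonneg (inv_nonneg.2 hκ.le)]
  calc κ⁻¹ * ‖φ x‖ ≤ κ⁻¹ * (κ * ‖x‖) := mul_le_mul_of_nonneg_left (hn x) (inv_nonneg.2 hκ.le)
    _ = ‖x‖ := by field_simp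

/-- the last step -/
theorem fin {B : Type} [CStarAlgebra B] (p : B) (G : Finset B) (F₀ F₁ : FDA)
    (ψ₀ : B →ₗ[ℂ] F₀.alg) (ψ₁ : B →ₗ[ℂ] F₁.alg) (φ₀ : F₀.alg →ₗ[ℂ] B) (φ₁ : F₁.alg →ₗ[ℂ] B)
    (κ δ M ε : ℝ) (hκ : 1 ≤ κ) (h1 : IsCP ψ₀) (h1n : ∀ x, ‖ψ₀ x‖ ≤ κ * ‖x‖)
    (h2 : IsCP ψ₁) (h2n : ∀ x, ‖ψ₁ x‖ ≤ κ * ‖x‖) (h3 : IsCP φ₀) (h3o : IsOrderZero φ₀)
    (h3n : ∀ x, ‖φ₀ x‖ ≤ κ * ‖x‖) (h4 : IsCP φ₁) (h4o : IsOrderZero φ₁)
    (h4n : ∀ x, ‖φ₁ x‖ ≤ κ * ‖x‖) (hG : ∀ g ∈ G, ‖φ₀ (ψ₀ g) + φ₁ (ψ₁ g) - g‖ ≤ δ)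
    (hM : ∀ g ∈ G, ‖g‖ ≤ M) (hε : δ + 2 * (κ - 1) * (δ + M) ≤ ε) (hp : ∀ y, φ₁ y * p = 0) :
    ∃ (F₀ F₁ : FDA) (ψ₀ : B →ₗ[ℂ] F₀.alg) (ψ₁ : B →ₗ[ℂ] F₁.alg) (φ₀ : F₀.alg →ₗ[ℂ] B)
      (φ₁ : F₁.alg →ₗ[ℂ] B), IsCPC ψ₀ ∧ IsCPC ψ₁ ∧ IsCPC φ₀ ∧ IsOrderZero φ₀ ∧ IsCPC φ₁ ∧
      IsOrderZero φ₁ ∧ (∀ g ∈ G, ‖φ₀ (ψ₀ g) + φ₁ (ψ₁ g) - g‖ ≤ ε) ∧ ∀ y, φ₁ y * p = 0 := by
  have hκ0 : 0 < κ := lt_of_lt_of_le one_pos hκ
  refine ⟨F₀, F₁, ((κ⁻¹ : ℝ) : ℂ) • ψ₀, ((κ⁻¹ : ℝ) : ℂ) • ψ₁, ((κ⁻¹ : ℝ) : ℂ) • φ₀,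
    ((κ⁻¹ : ℝ) : ℂ) • φ₁, isCPC_smul h1 hκ0 h1n, isCPC_smul h2 hκ0 h2n, isCPC_smul h3 hκ0 h3n,
    isOrderZero_smul h3o _, isCPC_smul h4 hκ0 h4n, isOrderZero_smul h4o _, fun g hg => ?_,
    fun y => ?_⟩
  · obtain ⟨S, hS⟩ : ∃ S : B, S = φ₀ (ψ₀ g) + φ₁ (ψ₁ g) := ⟨_, rfl⟩
    have e1 : (((κ⁻¹ : ℝ) : ℂ) • φ₀) ((((κ⁻¹ : ℝ) : ℂ) • ψ₀) g) +
        (((κ⁻¹ : ℝ) : ℂ) • φ₁) ((((κ⁻¹ : ℝ) : ℂ) • ψ₁) g) = ((κ⁻¹ ^ 2 : ℝ) : ℂ) • S := by
      rw [hS]
      simp only [LinearMap.smul_apply, map_smul, smul_smul, smul_add]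
      push_cast
      rw [pow_two]
    have e2 : ((κ⁻¹ ^ 2 : ℝ) : ℂ) • S - g = (S - g) - ((1 - κ⁻¹ ^ 2 : ℝ) : ℂ) • S := by
      push_cast
      rw [sub_smul, one_smul]
      abel
    have hSg := hG g hg
    rw [← hS] at hSg
    have hSn : ‖S‖ ≤ δ + M := by
      have : S = (S - g) + g := by abel
      rw [this]
      exact (norm_add_le _ _).trans (add_le_add hSg (hM g hg))
    have hki : κ⁻¹ ≤ 1 := inv_le_one_of_one_le₀ hκ
    have hki0 : 0 < κ⁻¹ := inv_pos.2 hκ0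
    have hk2 : 0 ≤ 1 - κ⁻¹ ^ 2 := by nlinarith
    have hk3 : 1 - κ⁻¹ ^ 2 ≤ 2 * (κ - 1) := by
      have h5 : κ⁻¹ * κ = 1 := inv_mul_cancel₀ hκ0.ne'
      have h6 : 1 - κ⁻¹ ≤ κ - 1 := by nlinarith
      nlinarith
    rw [e1, e2]
    calc ‖(S - g) - ((1 - κ⁻¹ ^ 2 : ℝ) : ℂ) • S‖
        ≤ ‖S - g‖ + ‖((1 - κ⁻¹ ^ 2 : ℝ) : ℂ) • S‖ := norm_sub_le _ _
      _ = ‖S - g‖ + (1 - κ⁻¹ ^ 2) * ‖S‖ := by
          rw [norm_smul, Complex.norm_real, Real.norm_of_nonneg hk2]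
      _ ≤ δ + 2 * (κ - 1) * (δ + M) := by
          refine add_le_add hSg (mul_le_mul hk3 hSn (norm_nonneg _) ?_)
          linarith
      _ ≤ ε := hε
  · rw [LinearMap.smul_apply, smul_mul_assoc, hp, smul_zero]

theorem t_P0 (hA1e : StA1e) (hMRG : StMRG) (hHG : StHG) (hLN : StLN) : StP0 := by
  intro I B D _ _ _ ι π hext hI hD e he G ε hε
  obtain ⟨M, hM⟩ : ∃ M : ℝ, M = ∑ x ∈ G, ‖x‖ := ⟨_, rfl⟩
  have hM0 : 0 ≤ M := by
    rw [hM]
    exact Finset.sum_nonneg fun x _ => norm_nonneg x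
  have hMG : ∀ g ∈ G, ‖g‖ ≤ M := by
    intro g hg
    rw [hM]
    exact Finset.single_le_sum (f := fun x => ‖x‖) (fun x _ => norm_nonneg x) hg
  obtain ⟨d, hd0, hd1, hd2⟩ : ∃ d : ℝ, 0 < d ∧ d ≤ 1 ∧
      (d + 2 * Real.sqrt (2 * d) + d) + 2 * ((1 + 3 * d) - 1) *
        ((d + 2 * Real.sqrt (2 * d) + d) + M) ≤ ε := by
    have hc : Continuous fun d : ℝ => (d + 2 * Real.sqrt (2 * d) + d) + 2 * ((1 + 3 * d) - 1) *
        ((d + 2 * Real.sqrt (2 * d) + d) + M) := by fun_prop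
    have ht : Filter.Tendsto (fun d : ℝ => (d + 2 * Real.sqrt (2 * d) + d) +
        2 * ((1 + 3 * d) - 1) * ((d + 2 * Real.sqrt (2 * d) + d) + M)) (nhdsWithin 0 (Set.Ioi 0))
        (nhds 0) := (hc.tendsto' 0 0 (by simp)).mono_left nhdsWithin_le_nhds
    have h1 := ht.eventually (gt_mem_nhds hε)
    have h2 : ∀ᶠ d : ℝ in nhdsWithin 0 (Set.Ioi 0), d < 1 :=
      (gt_mem_nhds one_pos : ∀ᶠ d : ℝ in nhds 0, d < 1).filter_mono nhdsWithin_le_nhds
    obtain ⟨d, h3, h4, h5⟩ := (h1.and (h2.and self_mem_nhdsWithin)).exists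
    exact ⟨d, h5, h4.le, h3.le⟩
  obtain ⟨F, ψ, Φ, t, hψ, hΦ, ht, ht1, hpos, happ, horth⟩ := core hA1e I B D ι π hext
    (Option (Fin 1)) hD e he G d hd0
  have hsum : ∀ x : B, ∑ j, Φ j (ψ j x) = Φ none (ψ none x) + Φ (some 0) (ψ (some 0) x) := by
    intro x
    rw [Fintype.sum_option]
    simp
  have hψn : ∀ j x, ‖ψ j x‖ ≤ (1 + 3 * d) * ‖x‖ := by
    intro j x
    refine ((hψ j).2 x).trans ?_
    have := norm_nonneg x
    nlinarith
  have hΦn : ∀ j y, ‖Φ j y‖ ≤ (1 + 3 * d) * ‖y‖ := by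
    intro j y
    refine (J_MAIN.norm_up_le ι ht (hΦ j).1 hd0 (hpos j) y).trans ?_
    exact mul_le_mul_of_nonneg_right (by linarith) (norm_nonneg y)
  rcases subsingleton_or_nontrivial I with hsub | hnt
  · have ht0 : ι t = 0 := by rw [Subsingleton.elim t 0, map_zero]
    refine fin (ι e) G (F none) (F (some 0)) (ψ none) (ψ (some 0)) (Φ none) (Φ (some 0))
      (1 + 3 * d) (d + 2 * Real.sqrt (2 * d) + d) M ε (by linarith) (hψ _).1 (hψn _) (hψ _).1
      (hψn _) (hΦ _).1 (hΦ _).2 (hΦn _) (hΦ _).1 (hΦ _).2 (hΦn _) (fun g hg => ?_) hMG hd2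
      (horth _)
    have h1 := happ g hg
    rw [hsum, ht0, mul_zero, sub_zero] at h1
    rw [norm_sub_rev]
    linarith
  · obtain ⟨F', ψ', φ', hψ', hφ', happ'⟩ := hMRG I B ι (J_MAIN.isIdeal_of_isExt hext) (Fin 0) hI
      (F none) (ψ none) (Φ none) t d hd0 hd1 (hψ none) (hΦ none).1 (hΦ none).2 ht ht1
      (hpos none) G
    refine fin (ι e) G (F' none) (F (some 0)) (ψ' none) (ψ (some 0)) (φ' none) (Φ (some 0))
      (1 + 3 * d) (d + 2 * Real.sqrt (2 * d) + d) M ε (by linarith) (hψ' none).1 (hψ' none).2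
      (hψ _).1 (hψn _) (hφ' none).1 (hφ' none).2.1 (hφ' none).2.2 (hΦ _).1 (hΦ _).2 (hΦn _)
      (fun g hg => ?_) hMG hd2 (horth _)
    have h1 := happ g hg
    have h2 := happ' g hg
    have hs2 : ∑ c, φ' c (ψ' c g) = φ' none (ψ' none g) := by
      rw [Fintype.sum_option]
      simp
    rw [hsum] at h1
    rw [hs2] at h2
    have h3 : φ' none (ψ' none g) + Φ (some 0) (ψ (some 0) g) - g =
        -((g - (Φ none (ψ none g) + Φ (some 0) (ψ (some 0) g)) - ι t * g * ι t) +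
          (Φ none (ψ none g) + ι t * g * ι t - φ' none (ψ' none g))) := by abel
    rw [h3, norm_neg]
    exact (norm_add_le _ _).trans (add_le_add h1 h2)

end Pool.Agent.Helper7_GA.G_P0
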