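import Pool.Agent.Helper7_GA.Stm3
import Pool.Agent.Helper7_ND.Rp

/-
Project MP_fd2aa3_an (owner helper7): for a C*-algebra E generated by a unitary u and a set of projections all of whose conjugates u^k p u^{-k} commute (crossed products of
zero-dimensional compact spaces by Z, group C*-algebras of (torsion abelian)-by-Z groups such as lamplighter groups) the nuclear dimension is at most 1. VERY URGENT: everything has to be
assembled by 19:12 UTC today (Nov 27); please return this part within 15-20 minutes.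
SETUP: in /workdir/pool/outputs/live: git fetch -q; then copy from origin/main to /workdir/pool at the same paths the directories Pool/Agent/Helper7_GA/, Pool/Agent/Helper7_ND/ and
Pool/Agent/W659/EC/ (git archive origin/main Pool/Agent/Helper7_GA Pool/Agent/Helper7_ND Pool/Agent/W659/EC | tar x -C /workdir/pool); then lake build Pool.Agent.Helper7_GA.Stm3.
Definitions: Helper7_GA/Stm3.lean (ind, ind_apply, TameP, avoid, Marker, Cov, Brk, Loc, shift, conjs and the statements), Helper7_GA/Stm.lean (pw, pws, TameU, StZN, StARV, StLS, StPU), Helper7_ND/Stm.lean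
(Pos, Prj, Sys, SysAll, IsIdeal, IsExt, cut), Stm5.lean (IsHer, Part, StHER, StHG, StIG, StPRE, StABL, StCHN, StQUO, ...), W659/EC/Defs.lean (FDA, nucDim). Useful lemmas: Helper7_ND/Rp.lean
(Pos.add, Pos.conj, Pos.map, Pos.sum, Pos.smul, IsCP.pos, conjL, ...), W659/EC/CP.lean and CP2.lean (IsCP, IsCPC, isCP_hom, IsCP.norm_le, IsCP.isCPC, ...), the proved files Helper7_ND/J_*.lean and
Helper7_GA/G_*.lean (import what you need; G_ZN.lean has lemmas on corners). For the order use `let _ := CStarAlgebra.spectralOrder A; let _ := CStarAlgebra.spectralOrderedRing A`.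
Return a complete file that compiles (write it to jobs.result), no sorry, no axioms beyond the three, following RULES.md (no banned words or characters: no double quotes, no `notation`, `macro`,
`partial`, `Lean.`, and so on), all helper lemmas inside the namespace; do not change the Stm files. If the statement is false or lacks a hypothesis tell helper7 AT ONCE (messages), and correct it
in the obvious way if you can. If you have not finished by 19:10 UTC write what you have (with the sorrys) to jobs.result and say what is missing.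

TARGET t_P1 : StP1 from StP0, StARV, StSUM (and StCOR etc. if needed).
PROOF. Given G, ε take the data of Loc for G and δ = ε / 10. StP0 for (I, B, D, ι, π), e, the finite set {b_g : g ∈ G} and δ: ψ₀, ψ₁, φ₀, φ₁ with φ₁ y * ι e = 0 (for all y; hence also ι e * φ₁ y = 0, take adjoints). StARV (β injective): Ψ₀, Ψ₁ : E → F_i.alg cpc with
Ψ_i (β b) = ψ_i b; StARV for φ : F.alg → E injective and the identity map of F.alg: Ψ : E → F.alg cpc with Ψ (φ y) = y. Colour none: F₀, x ↦ Ψ₀ (h₀ x h₀), β ∘ φ₀. Colour some 0: direct sum of (F₁, x ↦ Ψ₁ (h₀ x h₀), β ∘ φ₁) and (F, x ↦ Ψ (h₁ x h₁), φ) by StSUM: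
the ranges are orthogonal, β (φ₁ y) * φ z = β (φ₁ y) * (β (ι e) * φ z) = β (φ₁ y * ι e) * φ z = 0. The compressions x ↦ h x h (h self-adjoint, ‖h‖ <= 1) are cpc (conjL / compr lemmas). Estimate: for g with g', b, y: h₀ g h₀ is within δ of h₀ g' h₀ = β b, so
β φ₀ Ψ₀ (h₀ g h₀) + β φ₁ Ψ₁ (h₀ g h₀) is within 3 δ of β b, φ Ψ (h₁ g h₁) within δ of φ y, and ‖β b + φ y - g‖ <= 2 δ.
StSUM gives completely positive maps with norm bounds c = 1, d = 1; IsCPC of both follows from these bounds. If SysAll wants IsCPC for φ j: the norm bound of the direct sum of two orthogonal contractive order zero maps is 1 (StSUM gives ‖φ y‖ <= d ‖y‖).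
-/

set_option autoImplicit false

open scoped Matrix.Norms.L2Operator ENNReal Matrix
open Pool.Agent.W659.EC Pool.Agent.Helper7_ND

noncomputable section

namespace Pool.Agent.Helper7_GA.G_P1

/-- a homomorphism as a linear map -/
def homL {A B : Type} [NonUnitalCStarAlgebra A] [NonUnitalCStarAlgebra B] (f : A →⋆ₙₐ[ℂ] B) :
    A →ₗ[ℂ] B where
  toFun := f
  map_add' x y := map_add f x y
  map_smul' c x := map_smul f c x

theorem homL_apply {A B : Type} [NonUnitalCStarAlgebra A] [NonUnitalCStarAlgebra B]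
    (f : A →⋆ₙₐ[ℂ] B) (x : A) : homL f x = f x := rfl

theorem isCPC_homL {A B : Type} [NonUnitalCStarAlgebra A] [NonUnitalCStarAlgebra B]
    (f : A →⋆ₙₐ[ℂ] B) : IsCPC (homL f) := isCPC_hom f _ fun _ => rfl

theorem isOrderZero_homL {A B : Type} [NonUnitalCStarAlgebra A] [NonUnitalCStarAlgebra B]
    (f : A →⋆ₙₐ[ℂ] B) : IsOrderZero (homL f) := isOrderZero_hom f _ fun _ => rfl

theorem oz_comp {A B C : Type} [NonUnitalCStarAlgebra A] [NonUnitalCStarAlgebra B]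
    [NonUnitalCStarAlgebra C] (f : B →⋆ₙₐ[ℂ] C) {φ : A →ₗ[ℂ] B} (h : IsOrderZero φ) :
    IsOrderZero (homL f ∘ₗ φ) := by
  intro a b hab
  rw [LinearMap.comp_apply, LinearMap.comp_apply, homL_apply, homL_apply, ← map_mul, h a b hab,
    map_zero]

theorem norm_one_le {A : Type} [CStarAlgebra A] : ‖(1 : A)‖ ≤ 1 := by
  have h : ‖(1 : A)‖ * ‖(1 : A)‖ = ‖(1 : A)‖ := by
    rw [← CStarRing.norm_star_mul_self, star_one, one_mul]
  by_contra hcon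
  push Not at hcon
  nlinarith [norm_nonneg (1 : A)]

theorem conjL_norm {A : Type} [NonUnitalCStarAlgebra A] (h x : A) (hh : ‖h‖ ≤ 1) :
    ‖conjL h x‖ ≤ ‖x‖ := by
  rw [conjL_apply]
  calc ‖star h * x * h‖ ≤ ‖star h * x‖ * ‖h‖ := norm_mul_le _ _
    _ ≤ (‖star h‖ * ‖x‖) * ‖h‖ := by gcongr; exact norm_mul_le _ _
    _ ≤ (1 * ‖x‖) * 1 := by
        rw [norm_star]
        gcongr
    _ = ‖x‖ := by ring

theorem isCPC_conjL {A : Type} [NonUnitalCStarAlgebra A] (h : A) (hh : ‖h‖ ≤ 1) :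
    IsCPC (conjL h) := ⟨isCP_conjL h, fun x => conjL_norm h x hh⟩

theorem isCPC_id {A : Type} [NonUnitalCStarAlgebra A] : IsCPC (LinearMap.id : A →ₗ[ℂ] A) :=
  isCPC_hom (NonUnitalStarAlgHom.id ℂ A) _ fun _ => rfl

theorem t_P1 (hP0 : StP0) (hARV : StARV) (hSUM : StSUM) : StP1 := by
  classical
  intro E _ hLoc G ε hε
  have hδ : 0 < ε / 10 := by positivity
  obtain ⟨I, B, D, _, _, _, ι, π, β, e, F, φ, h₀, h₁, hext, hI, hD, hβ, he, hφ, hβφ, hs0, hs1,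
    hn0, hn1, hG⟩ := hLoc G (ε / 10) hδ
  choose! g' b y hgy using hG
  obtain ⟨F₀, F₁, ψ₀, ψ₁, φ₀, φ₁, hψ₀, hψ₁, hφ₀, hφ₀z, hφ₁, hφ₁z, hest, horth⟩ :=
    hP0 I B D ι π hext hI hD e he (G.image b) (ε / 10) hδ
  obtain ⟨Ψ₀, hΨ₀, hΨ₀e⟩ := hARV B E β hβ F₀ ψ₀ hψ₀
  obtain ⟨Ψ₁, hΨ₁, hΨ₁e⟩ := hARV B E β hβ F₁ ψ₁ hψ₁
  obtain ⟨Ψ, hΨ, hΨe⟩ := hARV F.alg E φ hφ F LinearMap.id isCPC_id
  have hc0 := isCPC_conjL h₀ hn0
  have hc1 := isCPC_conjL h₁ hn1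
  have hρ := (isCPC_homL β).comp hφ₁
  have hα := hΨ₁.comp hc0
  have hβ' := hΨ.comp hc1
  obtain ⟨K, ψK, φK, hψK, hψKn, hφK, hφKz, hφKn, hKeq⟩ := hSUM E F₁ F (homL β ∘ₗ φ₁) (homL φ)
    (Ψ₁ ∘ₗ conjL h₀) (Ψ ∘ₗ conjL h₁) 1 1 zero_le_one zero_le_one hρ.1 (oz_comp β hφ₁z)
    (isCPC_homL φ).1 (isOrderZero_homL φ) (fun x z => by
      rw [LinearMap.comp_apply, homL_apply, homL_apply, ← hβφ z, ← mul_assoc, ← map_mul, horth x,
        map_zero, zero_mul])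
    hα.1 hβ'.1 (fun x => by rw [one_mul]; exact hα.2 x) (fun x => by rw [one_mul]; exact hβ'.2 x)
    ((hρ.2 1).trans norm_one_le) (((isCPC_homL φ).2 1).trans norm_one_le)
  refine ⟨fun j => match j with
      | none => F₀
      | some _ => K,
    fun j => match j with
      | none => Ψ₀ ∘ₗ conjL h₀
      | some _ => ψK,
    fun j => match j with
      | none => homL β ∘ₗ φ₀
      | some _ => φK, ?_, ?_, ?_⟩
  · rintro (_ | j)
    · exact hΨ₀.comp hc0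
    · exact ⟨hψK, fun x => by have := hψKn x; rwa [one_mul] at this⟩
  · rintro (_ | j)
    · exact ⟨(isCPC_homL β).comp hφ₀, oz_comp β hφ₀z⟩
    · exact ⟨⟨hφK, fun x => by have := hφKn x; rwa [one_mul] at this⟩, hφKz⟩
  · intro g hg
    have hg' : g ∈ G := hg
    obtain ⟨q1, q2, q3, q4⟩ := hgy g hg'
    rw [Fintype.sum_option, Fin.sum_univ_one]
    show ‖(homL β ∘ₗ φ₀) ((Ψ₀ ∘ₗ conjL h₀) g) + φK (ψK g) - g‖ ≤ ε
    rw [hKeq]
    have q2' : conjL h₀ (g' g) = β (b g) := by rw [conjL_apply, hs0, q2]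
    have q3' : conjL h₁ (g' g) = φ (y g) := by rw [conjL_apply, hs1, q3]
    have hestg := hest (b g) (Finset.mem_image_of_mem b hg')
    -- the decomposition
    have e0 : (homL β ∘ₗ φ₀) ((Ψ₀ ∘ₗ conjL h₀) g) =
        (homL β ∘ₗ φ₀) ((Ψ₀ ∘ₗ conjL h₀) (g - g' g)) + β (φ₀ (ψ₀ (b g))) := by
      have : (homL β ∘ₗ φ₀) ((Ψ₀ ∘ₗ conjL h₀) (g' g)) = β (φ₀ (ψ₀ (b g))) := by
        rw [LinearMap.comp_apply, LinearMap.comp_apply, q2', hΨ₀e, homL_apply]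
      rw [← this, ← map_add, ← map_add, sub_add_cancel]
    have e1 : (homL β ∘ₗ φ₁) ((Ψ₁ ∘ₗ conjL h₀) g) =
        (homL β ∘ₗ φ₁) ((Ψ₁ ∘ₗ conjL h₀) (g - g' g)) + β (φ₁ (ψ₁ (b g))) := by
      have : (homL β ∘ₗ φ₁) ((Ψ₁ ∘ₗ conjL h₀) (g' g)) = β (φ₁ (ψ₁ (b g))) := by
        rw [LinearMap.comp_apply, LinearMap.comp_apply, q2', hΨ₁e, homL_apply]
      rw [← this, ← map_add, ← map_add, sub_add_cancel]
    have e2 : homL φ ((Ψ ∘ₗ conjL h₁) g) = homL φ ((Ψ ∘ₗ conjL h₁) (g - g' g)) + φ (y g) := by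
      have : homL φ ((Ψ ∘ₗ conjL h₁) (g' g)) = φ (y g) := by
        rw [LinearMap.comp_apply, q3', hΨe, homL_apply]
        rfl
      rw [← this, ← map_add, ← map_add, sub_add_cancel]
    rw [e0, e1, e2]
    have hgg : ‖g - g' g‖ ≤ ε / 10 := by rw [norm_sub_rev]; exact q1
    have n0 : ‖(homL β ∘ₗ φ₀) ((Ψ₀ ∘ₗ conjL h₀) (g - g' g))‖ ≤ ε / 10 :=
      ((((isCPC_homL β).comp hφ₀).2 _).trans ((hΨ₀.comp hc0).2 _)).trans hgg
    have n1 : ‖(homL β ∘ₗ φ₁) ((Ψ₁ ∘ₗ conjL h₀) (g - g' g))‖ ≤ ε / 10 :=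
      ((((isCPC_homL β).comp hφ₁).2 _).trans ((hΨ₁.comp hc0).2 _)).trans hgg
    have n2 : ‖homL φ ((Ψ ∘ₗ conjL h₁) (g - g' g))‖ ≤ ε / 10 :=
      (((isCPC_homL φ).2 _).trans ((hΨ.comp hc1).2 _)).trans hgg
    have n3 : ‖β (φ₀ (ψ₀ (b g)) + φ₁ (ψ₁ (b g)) - b g)‖ ≤ ε / 10 :=
      ((isCPC_homL β).2 _).trans hestg
    have key : (homL β ∘ₗ φ₀) ((Ψ₀ ∘ₗ conjL h₀) (g - g' g)) + β (φ₀ (ψ₀ (b g))) +
        ((homL β ∘ₗ φ₁) ((Ψ₁ ∘ₗ conjL h₀) (g - g' g)) + β (φ₁ (ψ₁ (b g))) +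
          (homL φ ((Ψ ∘ₗ conjL h₁) (g - g' g)) + φ (y g))) - g =
        (homL β ∘ₗ φ₀) ((Ψ₀ ∘ₗ conjL h₀) (g - g' g)) +
        (homL β ∘ₗ φ₁) ((Ψ₁ ∘ₗ conjL h₀) (g - g' g)) + homL φ ((Ψ ∘ₗ conjL h₁) (g - g' g)) +
        β (φ₀ (ψ₀ (b g)) + φ₁ (ψ₁ (b g)) - b g) + (β (b g) + φ (y g) - g' g) + (g' g - g) := by
      have e5 : β (φ₀ (ψ₀ (b g)) + φ₁ (ψ₁ (b g)) - b g) =
          β (φ₀ (ψ₀ (b g))) + β (φ₁ (ψ₁ (b g))) - β (b g) := by rw [map_sub, map_add]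
      rw [e5]
      abel
    rw [key]
    have m1 := norm_add_le ((homL β ∘ₗ φ₀) ((Ψ₀ ∘ₗ conjL h₀) (g - g' g)))
      ((homL β ∘ₗ φ₁) ((Ψ₁ ∘ₗ conjL h₀) (g - g' g)))
    have m2 := norm_add_le ((homL β ∘ₗ φ₀) ((Ψ₀ ∘ₗ conjL h₀) (g - g' g)) +
      (homL β ∘ₗ φ₁) ((Ψ₁ ∘ₗ conjL h₀) (g - g' g))) (homL φ ((Ψ ∘ₗ conjL h₁) (g - g' g)))
    have m3 := norm_add_le ((homL β ∘ₗ φ₀) ((Ψ₀ ∘ₗ conjL h₀) (g - g' g)) +
      (homL β ∘ₗ φ₁) ((Ψ₁ ∘ₗ conjL h₀) (g - g' g)) + homL φ ((Ψ ∘ₗ conjL h₁) (g - g' g)))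
      (β (φ₀ (ψ₀ (b g)) + φ₁ (ψ₁ (b g)) - b g))
    have m4 := norm_add_le ((homL β ∘ₗ φ₀) ((Ψ₀ ∘ₗ conjL h₀) (g - g' g)) +
      (homL β ∘ₗ φ₁) ((Ψ₁ ∘ₗ conjL h₀) (g - g' g)) + homL φ ((Ψ ∘ₗ conjL h₁) (g - g' g)) +
      β (φ₀ (ψ₀ (b g)) + φ₁ (ψ₁ (b g)) - b g)) (β (b g) + φ (y g) - g' g)
    have m5 := norm_add_le ((homL β ∘ₗ φ₀) ((Ψ₀ ∘ₗ conjL h₀) (g - g' g)) +
      (homL β ∘ₗ φ₁) ((Ψ₁ ∘ₗ conjL h₀) (g - g' g)) + homL φ ((Ψ ∘ₗ conjL h₁) (g - g' g)) +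
      β (φ₀ (ψ₀ (b g)) + φ₁ (ψ₁ (b g)) - b g) + (β (b g) + φ (y g) - g' g)) (g' g - g)
    linarith

end Pool.Agent.Helper7_GA.G_P1
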