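import Pool.Agent.Helper7_GA.Stm3
import Pool.Agent.Helper7_GA.G_ZN

set_option autoImplicit false

open scoped Matrix.Norms.L2Operator ENNReal Matrix
open Pool.Agent.W659.EC Pool.Agent.Helper7_ND

noncomputable section

namespace Pool.Agent.Helper7_GA.G_ZP

/-- the norm of a commutative algebra is detected by characters -/
theorem gelN (B : Type) [hB : NonUnitalCStarAlgebra B] (hc : ∀ x y : B, x * y = y * x) (b : B)
    (C : ℝ) (h : ∀ χ : B →⋆ₙₐ[ℂ] ℂ, ‖χ b‖ ≤ C) : ‖b‖ ≤ C := by
  let iB : NonUnitalCommCStarAlgebra B := { hB with mul_comm := hc }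
  let X := WeakDual.characterSpace ℂ (Unitization ℂ B)
  let ev : X → (B →⋆ₙₐ[ℂ] ℂ) := fun x =>
    { toFun := fun b => x (b : Unitization ℂ B)
      map_smul' := fun c b => by rw [Unitization.inr_smul, map_smul]; rfl
      map_zero' := by rw [Unitization.inr_zero, map_zero]
      map_add' := fun a b => by rw [Unitization.inr_add, map_add]
      map_mul' := fun a b => by rw [Unitization.inr_mul, map_mul]
      map_star' := fun a => by rw [Unitization.inr_star, map_star] }
  have hnorm : ∀ b : B, ‖WeakDual.gelfandTransform ℂ (Unitization ℂ B) (b : Unitization ℂ B)‖ = ‖b‖ := by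
    intro b
    have h1 := (gelfandTransform_isometry (Unitization ℂ B)).norm_map_of_map_zero (map_zero _)
      (b : Unitization ℂ B)
    rw [h1, Unitization.norm_inr]
  have hne : Nonempty X := inferInstance
  rw [← hnorm b]
  rw [ContinuousMap.norm_le_of_nonempty]
  exact fun x => h (ev x)

section atoms

variable {B : Type} [NonUnitalCStarAlgebra B]

theorem ext_chi (hc : ∀ x y : B, x * y = y * x) {u v : B} (h : ∀ χ : B →⋆ₙₐ[ℂ] ℂ, χ u = χ v) :
    u = v := by
  have h1 : ‖u - v‖ ≤ 0 := gelN B hc (u - v) 0 fun χ => by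
    rw [map_sub, h χ, sub_self, norm_zero]
  exact sub_eq_zero.1 (norm_le_zero_iff.1 h1)

theorem chi_prj {p : B} (hp : Prj p) (χ : B →⋆ₙₐ[ℂ] ℂ) : χ p = 0 ∨ χ p = 1 := by
  have h1 := congrArg χ hp.2
  rw [map_mul] at h1
  have h2 : χ p * (χ p - 1) = 0 := by rw [mul_sub, h1, mul_one, sub_self]
  rcases mul_eq_zero.1 h2 with h | h
  · exact Or.inl h
  · exact Or.inr (sub_eq_zero.1 h)

theorem prj_of (hc : ∀ x y : B, x * y = y * x) {p : B}
    (h : ∀ χ : B →⋆ₙₐ[ℂ] ℂ, χ p = 0 ∨ χ p = 1) : Prj p := by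
  constructor
  · refine ext_chi hc fun χ => ?_
    rcases h χ with h1 | h1 <;> rw [map_star, h1] <;> simp
  · refine ext_chi hc fun χ => ?_
    rcases h χ with h1 | h1 <;> rw [map_mul, h1] <;> simp

/-- atoms of a finite set of commuting projections -/
theorem atoms (hc : ∀ x y : B, x * y = y * x) (b₀ : B) (hb : ∀ x : B, b₀ * x = x ∧ x * b₀ = x)
    (hbP : Prj b₀) (T : Finset B) (hT : ∀ p ∈ T, Prj p) :
    ∃ (L : Type) (_ : Fintype L) (f : L → B), (∀ l, Prj (f l)) ∧
      (∀ l l', l ≠ l' → f l * f l' = 0) ∧ ∑ l, f l = b₀ ∧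
      ∀ p ∈ T, ∀ l, p * f l = 0 ∨ p * f l = f l := by
  classical
  induction T using Finset.induction_on with
  | empty =>
    refine ⟨Unit, inferInstance, fun _ => b₀, fun _ => hbP, ?_, ?_, ?_⟩
    · intro l l' h
      exact absurd (Subsingleton.elim l l') h
    · simp
    · intro p hp
      simp at hp
  | insert p T hpT ih =>
    obtain ⟨L, iL, f, h1, h2, h3, h4⟩ := ih fun p hp => hT p (Finset.mem_insert_of_mem hp)
    have hp : Prj p := hT p (Finset.mem_insert_self _ _)
    refine ⟨L × Bool, inferInstance, fun x => if x.2 then p * f x.1 else f x.1 - p * f x.1,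
      ?_, ?_, ?_, ?_⟩
    · rintro ⟨l, c⟩
      cases c
      · refine prj_of hc fun χ => ?_
        simp only [Bool.false_eq_true, if_false, map_sub, map_mul]
        rcases chi_prj hp χ with h5 | h5 <;> rcases chi_prj (h1 l) χ with h6 | h6 <;>
          rw [h5, h6] <;> simp
      · refine prj_of hc fun χ => ?_
        simp only [if_true, map_mul]
        rcases chi_prj hp χ with h5 | h5 <;> rcases chi_prj (h1 l) χ with h6 | h6 <;>
          rw [h5, h6] <;> simp
    · rintro ⟨l, c⟩ ⟨l', c'⟩ hne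
      refine ext_chi hc fun χ => ?_
      by_cases hl : l = l'
      · subst hl
        have hcc : c ≠ c' := fun h => hne (by rw [h])
        rcases chi_prj hp χ with h5 | h5 <;> rcases chi_prj (h1 l) χ with h6 | h6 <;>
          cases c <;> cases c' <;> simp_all
      · have h7 := congrArg χ (h2 l l' hl)
        rw [map_mul, map_zero] at h7
        rcases chi_prj hp χ with h5 | h5 <;>
          rcases mul_eq_zero.1 h7 with h6 | h6 <;>
          cases c <;> cases c' <;> simp [h5, h6]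
    · rw [Fintype.sum_prod_type]
      rw [← h3]
      refine Finset.sum_congr rfl fun l _ => ?_
      rw [Fintype.sum_bool]
      simp
    · intro p' hp' ⟨l, c⟩
      rcases Finset.mem_insert.1 hp' with h5 | h5
      · subst h5
        cases c
        · left
          simp only [Bool.false_eq_true, if_false, mul_sub]
          rw [← mul_assoc, hp.2, sub_self]
        · right
          simp only [if_true]
          rw [← mul_assoc, hp.2]
      · rcases h4 p' h5 l with h6 | h6
        · left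
          cases c
          · simp only [Bool.false_eq_true, if_false, mul_sub]
            rw [← mul_assoc, hc p' p, mul_assoc, h6, mul_zero, sub_self]
          · simp only [if_true]
            rw [← mul_assoc, hc p' p, mul_assoc, h6, mul_zero]
        · right
          cases c
          · simp only [Bool.false_eq_true, if_false, mul_sub]
            rw [← mul_assoc, hc p' p, mul_assoc, h6]
          · simp only [if_true]
            rw [← mul_assoc, hc p' p, mul_assoc, h6]

theorem norm_prj (hc : ∀ x y : B, x * y = y * x) {p : B} (hp : Prj p) : ‖p‖ ≤ 1 :=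
  gelN B hc p 1 fun χ => by
    rcases chi_prj hp χ with h | h <;> rw [h] <;> simp

theorem chi_of (hc : ∀ x y : B, x * y = y * x) {p : B} (hp : Prj p) :
    ∃ χ : B →⋆ₙₐ[ℂ] ℂ, p ≠ 0 → χ p = 1 := by
  by_cases h0 : p = 0
  · exact ⟨0, fun h => absurd h0 h⟩
  · by_contra hcon
    push Not at hcon
    apply h0
    refine ext_chi hc fun χ => ?_
    rw [map_zero]
    rcases chi_prj hp χ with h | h
    · exact h
    · exact absurd h (hcon χ).2

theorem span_atom {S : Set B} {f : B} (h : ∀ p ∈ S, p * f = 0 ∨ p * f = f) {b : B}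
    (hb : b ∈ Submodule.span ℂ S) : ∃ c : ℂ, b * f = c • f := by
  induction hb using Submodule.span_induction with
  | mem z hz =>
    rcases h z hz with h1 | h1
    · exact ⟨0, by rw [h1, zero_smul]⟩
    · exact ⟨1, by rw [h1, one_smul]⟩
  | zero => exact ⟨0, by rw [zero_mul, zero_smul]⟩
  | add x y _ _ hx hy =>
    obtain ⟨c, hc⟩ := hx
    obtain ⟨d, hd⟩ := hy
    exact ⟨c + d, by rw [add_mul, hc, hd, add_smul]⟩
  | smul a x _ hx =>
    obtain ⟨c, hc⟩ := hx
    exact ⟨a * c, by rw [smul_mul_assoc, hc, smul_smul]⟩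

/-- partitions of unity for algebras generated by commuting projections -/
theorem part (hc : ∀ x y : B, x * y = y * x) (b₀ : B) (hb : ∀ x : B, b₀ * x = x ∧ x * b₀ = x)
    (hbP : Prj b₀) (P : Set B) (hP : ∀ p ∈ P, Prj p)
    (hden : ∀ x : B, x ∈ closure (Submodule.span ℂ P : Set B)) (J : Type) [Fintype J]
    (hJ : Nonempty J) : Part B J := by
  classical
  intro G ε hε
  have h1 : ∀ g : B, ∃ (g' : B) (T : Finset B), (T : Set B) ⊆ P ∧
      g' ∈ Submodule.span ℂ (T : Set B) ∧ ‖g - g'‖ ≤ ε / 2 := by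
    intro g
    obtain ⟨g', hg', hd⟩ := Metric.mem_closure_iff.1 (hden g) (ε / 2) (by positivity)
    obtain ⟨T, hT, hgT⟩ := Submodule.mem_span_finite_of_mem_span hg'
    refine ⟨g', T, hT, hgT, ?_⟩
    rw [dist_eq_norm] at hd
    exact hd.le
  choose g' T hT hgT hd using h1
  obtain ⟨L, iL, f, f1, f2, f3, f4⟩ := atoms hc b₀ hb hbP (G.biUnion T) (by
    intro p hp
    obtain ⟨g, _, hg⟩ := Finset.mem_biUnion.1 hp
    exact hP p (hT g hg))
  choose χ hχ using fun l => chi_of hc (f1 l)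
  obtain ⟨j₀⟩ := hJ
  have hsum : ∑ j : J, ∑ l, (if j = j₀ then f l else 0) = b₀ := by
    have h2 : ∀ j : J, ∑ l, (if j = j₀ then f l else 0) = if j = j₀ then b₀ else 0 := by
      intro j
      by_cases hj : j = j₀
      · simp only [hj, if_true, f3]
      · simp only [hj, if_false, Finset.sum_const_zero]
    simp_rw [h2]
    rw [Finset.sum_ite_eq' Finset.univ j₀]
    simp
  refine ⟨fun _ => L, fun _ => iL, fun j l => if j = j₀ then f l else 0, fun _ l => χ l,
    ?_, ?_, ?_, ?_, ?_⟩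
  · intro j l
    by_cases hj : j = j₀
    · simp only [hj, if_true]
      exact ⟨f l, by rw [(f1 l).1, (f1 l).2]⟩
    · simp only [hj, if_false]
      exact ⟨0, by simp⟩
  · intro j l l' hne
    by_cases hj : j = j₀
    · simp only [hj, if_true]
      exact f2 l l' hne
    · simp only [hj, if_false, mul_zero]
  · rw [hsum]
    exact norm_prj hc hbP
  · intro b _
    rw [hsum, (hb b).1, sub_self, norm_zero]
    exact hε.le
  · intro b hbG j l
    by_cases hj : j = j₀
    · simp only [hj, if_true]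
      by_cases h0 : f l = 0
      · rw [h0, mul_zero, smul_zero, sub_self, norm_zero]
        exact hε.le
      have hχ1 : χ l (f l) = 1 := hχ l h0
      obtain ⟨c, hcc⟩ := span_atom (S := (T b : Set B)) (f := f l) (fun p hp =>
        f4 p (Finset.mem_biUnion.2 ⟨b, hbG, hp⟩) l) (hgT b)
      have hc1 : χ l (g' b) = c := by
        have h5 := congrArg (χ l) hcc
        rw [map_mul, map_smul, hχ1, mul_one, smul_eq_mul, mul_one] at h5
        exact h5
      have e : b * f l - (χ l b) • f l = (b - g' b) * f l - (χ l (b - g' b)) • f l := by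
        rw [sub_mul, map_sub, sub_smul, hcc, hc1]
        abel
      rw [e]
      have n1 : ‖(b - g' b) * f l‖ ≤ ε / 2 := by
        calc ‖(b - g' b) * f l‖ ≤ ‖b - g' b‖ * ‖f l‖ := norm_mul_le _ _
          _ ≤ (ε / 2) * 1 := mul_le_mul (hd b) (norm_prj hc (f1 l)) (norm_nonneg _)
              (by positivity)
          _ = ε / 2 := mul_one _
      have n2 : ‖(χ l (b - g' b)) • f l‖ ≤ ε / 2 := by
        rw [norm_smul]
        calc ‖χ l (b - g' b)‖ * ‖f l‖ ≤ (ε / 2) * 1 :=
              mul_le_mul ((NonUnitalStarAlgHom.norm_apply_le (χ l) _).trans (hd b))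
                (norm_prj hc (f1 l)) (norm_nonneg _) (by positivity)
          _ = ε / 2 := mul_one _
      calc _ ≤ _ := norm_sub_le _ _
        _ ≤ ε := by linarith
    · simp only [hj, if_false, mul_zero, smul_zero, sub_self, norm_zero]
      exact hε.le

end atoms

section dense

variable {X Y : Type} [NonUnitalCStarAlgebra X] [NonUnitalCStarAlgebra Y]

theorem comm_span {P : Set X} (hP : ∀ x ∈ P, ∀ y ∈ P, x * y = y * x) :
    ∀ u ∈ (Submodule.span ℂ P : Set X), ∀ v ∈ (Submodule.span ℂ P : Set X), u * v = v * u := by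
  have h1 : ∀ v ∈ P, ∀ u ∈ (Submodule.span ℂ P : Set X), u * v = v * u := by
    intro v hv u hu
    induction hu using Submodule.span_induction with
    | mem z hz => exact hP z hz v hv
    | zero => rw [zero_mul, mul_zero]
    | add x y _ _ hx hy => rw [add_mul, mul_add, hx, hy]
    | smul c x _ hx => rw [smul_mul_assoc, mul_smul_comm, hx]
  intro u hu v hv
  induction hv using Submodule.span_induction with
  | mem z hz => exact h1 z hz u hu
  | zero => rw [zero_mul, mul_zero]
  | add x y _ _ hx hy => rw [add_mul, mul_add, hx, hy]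
  | smul c x _ hx => rw [smul_mul_assoc, mul_smul_comm, hx]

/-- density is detected by injective homomorphisms -/
theorem dens (g : X →⋆ₙₐ[ℂ] Y) (hg : Function.Injective g) (P : Set Y)
    (hP : ∀ p ∈ P, ∃ x, g x = p) (x : X)
    (h : g x ∈ closure (Submodule.span ℂ P : Set Y)) :
    x ∈ closure (Submodule.span ℂ (g ⁻¹' P) : Set X) := by
  have hcl : IsClosed (g '' closure (Submodule.span ℂ (g ⁻¹' P) : Set X)) :=
    (J_STEP.isom g hg).isClosedEmbedding.isClosedMap _ isClosed_closure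
  have hsub : (Submodule.span ℂ P : Set Y) ⊆
      g '' closure (Submodule.span ℂ (g ⁻¹' P) : Set X) := by
    intro z hz
    have h1 : ∃ y ∈ Submodule.span ℂ (g ⁻¹' P), g y = z := by
      induction hz using Submodule.span_induction with
      | mem z hz =>
        obtain ⟨y, hy⟩ := hP z hz
        refine ⟨y, Submodule.subset_span ?_, hy⟩
        show g y ∈ P
        rw [hy]
        exact hz
      | zero => exact ⟨0, Submodule.zero_mem _, map_zero g⟩
      | add a b _ _ ha hb =>
        obtain ⟨a', ha1, ha2⟩ := ha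
        obtain ⟨b', hb1, hb2⟩ := hb
        exact ⟨a' + b', Submodule.add_mem _ ha1 hb1, by rw [map_add, ha2, hb2]⟩
      | smul c a _ ha =>
        obtain ⟨a', ha1, ha2⟩ := ha
        exact ⟨c • a', Submodule.smul_mem _ c ha1, by rw [map_smul, ha2]⟩
    obtain ⟨y, hy, hyz⟩ := h1
    exact ⟨y, subset_closure hy, hyz⟩
  obtain ⟨y, hy, hyx⟩ := closure_minimal hsub hcl h
  rw [← hg hyx]
  exact hy

end dense

/-- the ideal generated by the projection has approximations with commuting colours -/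
theorem core (hHG : StHG) (hIG : StIG) (hABL : StABL) (Q : Type)
    [NonUnitalCStarAlgebra Q] (J : Type) [Fintype J] (hJ : Nonempty J) (hT : TameP Q) :
    ∃ (K₀ : Type) (_ : NonUnitalCStarAlgebra K₀) (κ₀ : K₀ →⋆ₙₐ[ℂ] Q), IsIdeal κ₀ ∧
      Nontrivial K₀ ∧ SysC K₀ J := by
  obtain ⟨q, P, hq0, hqP, hPP, hPc, hcl⟩ := hT
  obtain ⟨K₀, _, κ₀, hκ₀, ⟨q₀, hq₀⟩, hspan⟩ := hIG Q q
  refine ⟨K₀, inferInstance, κ₀, hκ₀, ?_, ?_⟩
  · refine ⟨q₀, 0, ?_⟩
    rintro rfl
    exact hq0 (by rw [← hq₀, map_zero])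
  have hpos : Pos q₀ := J_STEP.pos_of_inj κ₀ hκ₀.inj q₀ (by
    rw [hq₀]
    exact ⟨q, by rw [hqP.1, hqP.2]⟩)
  obtain ⟨B, _, β, hβ, hβr, b₀, hb₀⟩ := hHG K₀ q₀ hpos
  set g : B →⋆ₙₐ[ℂ] Q := κ₀.comp β with hg
  have hgi : Function.Injective g := hκ₀.inj.comp hβ.inj
  have hgb : g b₀ = q := by
    show κ₀ (β b₀) = q
    rw [hb₀, hq₀]
  have hran : ∀ p ∈ P, ∃ x, g x = p := by
    intro p hp
    obtain ⟨p₀, hp₀⟩ := hκ₀.left p q₀
    rw [hq₀, (hPP p hp).2.2] at hp₀
    obtain ⟨p₁, hp₁⟩ := hβ.her b₀ b₀ p₀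
    refine ⟨p₁, ?_⟩
    show κ₀ (β p₁) = p
    rw [hp₁, hb₀, map_mul, map_mul, hq₀, hp₀, (hPP p hp).2.1, (hPP p hp).2.2]
  have hunit : ∀ x : B, q * g x = g x ∧ g x * q = g x := by
    intro x
    have h1 : β x ∈ closure (Set.range fun y : K₀ => q₀ * y * q₀) := by
      rw [← hβr]
      exact ⟨x, rfl⟩
    have hq00 : q₀ * q₀ = q₀ := hκ₀.inj (by rw [map_mul, hq₀, hqP.2])
    have h2 : IsClosed {y : K₀ | q₀ * y = y ∧ y * q₀ = y} :=
      (isClosed_eq (continuous_const.mul continuous_id) continuous_id).inter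
        (isClosed_eq (continuous_id.mul continuous_const) continuous_id)
    have h3 : (Set.range fun y : K₀ => q₀ * y * q₀) ⊆ {y : K₀ | q₀ * y = y ∧ y * q₀ = y} := by
      rintro _ ⟨y, rfl⟩
      refine ⟨?_, ?_⟩
      · show q₀ * (q₀ * y * q₀) = q₀ * y * q₀
        rw [← mul_assoc, ← mul_assoc, hq00]
      · show q₀ * y * q₀ * q₀ = q₀ * y * q₀
        rw [mul_assoc, hq00]
    obtain ⟨h4, h5⟩ := closure_minimal h3 h2 h1
    constructor
    · show q * κ₀ (β x) = κ₀ (β x)
      rw [← hq₀, ← map_mul, h4]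
    · show κ₀ (β x) * q = κ₀ (β x)
      rw [← hq₀, ← map_mul, h5]
  have hbu : ∀ x : B, b₀ * x = x ∧ x * b₀ = x := fun x =>
    ⟨hgi (by rw [map_mul, hgb, (hunit x).1]), hgi (by rw [map_mul, hgb, (hunit x).2])⟩
  have hbP : Prj b₀ :=
    ⟨hgi (by rw [map_star, hgb, hqP.1]), (hbu b₀).1⟩
  have hden : ∀ x : B, x ∈ closure (Submodule.span ℂ (g ⁻¹' P) : Set B) := by
    intro x
    apply dens g hgi P hran
    have := hcl (g x)
    rwa [(hunit x).1, (hunit x).2] at this
  have hcomm : ∀ x y : B, x * y = y * x := fun x y =>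
    J_STEP.comm_closure _ (comm_span (P := g ⁻¹' P) (fun x hx y hy => hgi (by
      rw [map_mul, map_mul]
      exact hPc _ hx _ hy))) x (hden x) y (hden y)
  have hPart : Part B J := part hcomm b₀ hbu hbP (g ⁻¹' P) (fun p hp => by
    have hp' : Prj (g p) := (hPP _ hp).1
    exact ⟨hgi (by rw [map_star, hp'.1]), hgi (by rw [map_mul, hp'.2])⟩) hden J hJ
  exact hABL K₀ B β hcomm hβ (J_STEP.full β κ₀ hκ₀ q b₀ (by rw [hb₀, hq₀]) hspan) J hPart

theorem t_ZP (hHER : StHER) (hHG : StHG) (hIG : StIG) (hPRE : StPRE) (hABL : StABL)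
    (hCORE : StCORE3) (hCD : StCD) (hCHN : StCHN) (hQUO : StQUO) : StZP := by
  intro I A _ _ ι J _ hJ hid sI htame
  obtain ⟨m, hm0, hm⟩ := zorn_subset_nonempty
    {S : Set A | ∃ (K : Type) (_ : NonUnitalCStarAlgebra K) (κ : K →⋆ₙₐ[ℂ] A), IsIdeal κ ∧
      Set.range κ = S ∧ SysAll K J}
    (by
      intro c hc hch hne
      obtain ⟨K, iK, κ, h1, h2, h3⟩ := hCHN A J c hch hne (fun S hS => hc hS)
      exact ⟨closure (⋃₀ c), ⟨K, iK, κ, h1, h2, h3⟩, fun S hS =>
        (Set.subset_sUnion_of_mem hS).trans subset_closure⟩)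
    (Set.range ι) ⟨I, inferInstance, ι, hid, rfl, sI⟩
  obtain ⟨K, iK, κ, hκ, hrκ, sK⟩ := hm.prop
  by_cases hsur : Function.Surjective κ
  · exact J_MAIN3.sysAll_of_bij hHER κ ⟨hκ.inj, hsur⟩ _ sK
  exfalso
  obtain ⟨Q, iQ, θ, hθ⟩ := hQUO K A κ hκ
  have hθι : ∀ x, θ (ι x) = 0 := by
    intro x
    have he' : ι x ∈ Set.range κ := by
      rw [hrκ]; exact hm0 ⟨x, rfl⟩
    obtain ⟨y, hy⟩ := he'
    exact (hθ.exact (ι x)).2 ⟨y, hy⟩
  have hnt : Nontrivial Q := by
    unfold Function.Surjective at hsur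
    push Not at hsur
    obtain ⟨e, he⟩ := hsur
    refine ⟨θ e, 0, fun h => ?_⟩
    obtain ⟨x, hx⟩ := (hθ.exact e).1 h
    exact he x hx
  obtain ⟨K₀, _, κ₀, hκ₀, hnt₀, hC⟩ := core hHG hIG hABL Q J hJ
    (htame Q θ hθ.surj hnt hθι)
  obtain ⟨K', iK', κ', ρ, lam, h1, h2, h3, h4, _⟩ := hPRE K A Q K₀ κ θ κ₀ hθ hκ₀
  have sK' : SysAll K' J := hCORE K K' K₀ lam ρ h2 J sK (hCD K₀ J hC)
  have hlt : Set.range κ ⊂ Set.range κ' :=
    J_STEP.ssub κ θ κ₀ κ' ρ lam hθ hκ₀ h2 h3 h4 hnt₀
  have hle : Set.range κ' ≤ m := hm.le_of_ge ⟨K', iK', κ', h1, rfl, sK'⟩ (by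
    rw [← hrκ]; exact hlt.subset)
  rw [← hrκ] at hle
  exact hlt.not_subset hle

end Pool.Agent.Helper7_GA.G_ZP
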