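import Pool.Agent.Helper7_GA.All
import Pool.Agent.Helper7_GA.Stm3
import Pool.Agent.Helper7_GA.G_A1e
import Pool.Agent.Helper7_GA.G_P0
import Pool.Agent.Helper7_GA.G_P1
import Pool.Agent.Helper7_GA.G_ZP
import Pool.Agent.Helper7_GA.G_B1
import Pool.Agent.Helper7_GA.G_B2
import Pool.Agent.Helper7_GA.G_B3
import Pool.Agent.Helper7_GA.G_E2
import Pool.Agent.Helper7_GA.G_E3
import Pool.Agent.Helper7_GA.G_E4
import Pool.Agent.Helper7_GA.G_E5
import Pool.Agent.Helper7_GA.G_KR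
import Pool.Agent.Helper7_GA.G_GEN
import Pool.Agent.Helper7_GA.G_GRP
import Pool.Agent.Helper7_GA.G_LOW

/-! # Nuclear dimension of crossed products of zero-dimensional spaces: all parts together -/

set_option autoImplicit false

open scoped Matrix.Norms.L2Operator ENNReal Matrix
open Pool.Agent.W659.EC Pool.Agent.Helper7_ND

namespace Pool.Agent.Helper7_GA

theorem all_A1e : StA1e := G_A1e.t_A1e all_LFT J_COM.t_COM J_LN.t_LN J_QC.t_QC

theorem all_P0 : StP0 := G_P0.t_P0 all_A1e all_MRG J_HG.t_HG J_LN.t_LN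

theorem all_P1 : StP1 := G_P1.t_P1 all_P0 all_ARV J_SUM.t_SUM

theorem all_ZP : StZP :=
  G_ZP.t_ZP all_HER J_HG.t_HG J_HG.t_IG J_HG.t_PRE all_ABL all_CORE3 all_CD
    (J_DS.t_CHN J_LOC.t_LOC) J_QUO.t_QUO

theorem all_B2 : StB2 := G_B2.t_B2 G_B1.t_B1 J_HG.t_IG all_ZP

theorem all_E5 : StE5 :=
  G_E5.t_E5 all_P1 G_E2.t_E2 G_E3.t_E3 G_E4.t_E4 all_B2 (G_B3.t_B3 G_B1.t_B1) J_QUO.t_QUO all_ZN
    J_HG.t_IG

theorem all_GEN : StGEN := G_GEN.t_GEN all_E5 G_KR.t_KR all_LS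

end Pool.Agent.Helper7_GA
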