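import Pool.Agent.Helper7_ND.Stm7

/-! # Nuclear dimension of graph C*-algebras: definitions -/

set_option autoImplicit false

open scoped Matrix.Norms.L2Operator ENNReal Matrix
open Pool.Agent.W659.EC Pool.Agent.Helper7_ND

noncomputable section

namespace Pool.Agent.Helper7_GA

/-- a directed graph with vertex set `V`, edge set `Ed`, source map `s` and range map `r` -/
structure Gr : Type 1 where
  /-- the vertices -/
  V : Type
  /-- the edges -/
  Ed : Type
  /-- the source of an edge -/
  s : Ed → V
  /-- the range of an edge -/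
  r : Ed → V

/-- there is a path (possibly of length `0`) from `v` to `w` -/
def Gr.Reach (E : Gr) : E.V → E.V → Prop :=
  Relation.ReflTransGen fun v w => ∃ e : E.Ed, E.s e = v ∧ E.r e = w

/-- the vertex `v` lies on at most one cycle: at most one of the edges leaving `v` lies on a
closed path -/
def Gr.AtMostOneCycle (E : Gr) (v : E.V) : Prop :=
  ∀ e f : E.Ed, E.s e = v → E.s f = v → E.Reach (E.r e) v → E.Reach (E.r f) v → e = f

section

variable {A : Type} [NonUnitalCStarAlgebra A]

/-- Toeplitz–Cuntz–Krieger families: mutually orthogonal projections `p v` and partial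
isometries `S e` with mutually orthogonal ranges, `S_e^* S_e = p_{r(e)}` and
`S_e S_e^* ≤ p_{s(e)}` -/
structure IsTCK (E : Gr) (p : E.V → A) (S : E.Ed → A) : Prop where
  proj : ∀ v, Prj (p v)
  orth : ∀ v w, v ≠ w → p v * p w = 0
  init : ∀ e, star (S e) * S e = p (E.r e)
  final : ∀ e, p (E.s e) * S e = S e
  ranges : ∀ e f, e ≠ f → star (S e) * S f = 0

/-- Cuntz–Krieger families: Toeplitz–Cuntz–Krieger families with `p_v = ∑ S_e S_e^*`, the sum
over the edges leaving `v`, whenever their number is finite and not zero -/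
structure IsCK (E : Gr) (p : E.V → A) (S : E.Ed → A) : Prop extends IsTCK E p S where
  ck : ∀ (v : E.V) (F : Finset E.Ed), (∀ e, e ∈ F ↔ E.s e = v) → F.Nonempty →
    p v = ∑ e ∈ F, S e * star (S e)

/-- the set `X` generates the C*-algebra `A` -/
def Gen (X : Set A) : Prop :=
  ∀ B : NonUnitalStarSubalgebra ℂ A, IsClosed (B : Set A) → X ⊆ B → ∀ a : A, a ∈ B

/-- `A` with the family `(p, S)` is the graph C*-algebra `C*(E)`: the universal C*-algebra
generated by a Cuntz–Krieger family -/
structure IsGraphAlgebra (E : Gr) (p : E.V → A) (S : E.Ed → A) : Prop where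
  isCK : IsCK E p S
  gen : Gen (Set.range p ∪ Set.range S)
  universal : ∀ (B : Type) [NonUnitalCStarAlgebra B] (p' : E.V → B) (S' : E.Ed → B),
    IsCK E p' S' → ∃ φ : A →⋆ₙₐ[ℂ] B, (∀ v, φ (p v) = p' v) ∧ ∀ e, φ (S e) = S' e

end

end Pool.Agent.Helper7_GA
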