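import Pool.Agent.Helper7_GA.Stm

/-! # Nuclear dimension of graph C*-algebras: the theorem from its parts -/

set_option autoImplicit false

open scoped Matrix.Norms.L2Operator ENNReal Matrix
open Pool.Agent.W659.EC Pool.Agent.Helper7_ND

noncomputable section

namespace Pool.Agent.Helper7_GA.G_FIN

/-- the pulled back family is a Toeplitz–Cuntz–Krieger family -/
theorem tck_pull {E F : Gr} {A B : Type} [NonUnitalCStarAlgebra A] [NonUnitalCStarAlgebra B]
    {p : E.V → A} {S : E.Ed → A} (h : IsTCK E p S) (β : B →⋆ₙₐ[ℂ] A)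
    (hβ : Function.Injective β) (a : F.V → E.V) (b : F.Ed → E.Ed) (ha : Function.Injective a)
    (hb : Function.Injective b) (hs : ∀ e, E.s (b e) = a (F.s e))
    (hr : ∀ e, E.r (b e) = a (F.r e)) (p' : F.V → B) (S' : F.Ed → B)
    (hp : ∀ v, β (p' v) = p (a v)) (hS : ∀ e, β (S' e) = S (b e)) : IsTCK F p' S' where
  proj v := by
    constructor
    · apply hβ
      rw [map_star, hp]
      exact (h.proj (a v)).1
    · apply hβ
      rw [map_mul, hp]
      exact (h.proj (a v)).2
  orth v w hvw := by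
    apply hβ
    rw [map_mul, hp, hp, map_zero]
    exact h.orth _ _ (fun hh => hvw (ha hh))
  init e := by
    apply hβ
    rw [map_mul, map_star, hS, hp, h.init, hr]
  final e := by
    apply hβ
    rw [map_mul, hS, hp, ← hs, h.final]
  ranges e f hef := by
    apply hβ
    rw [map_mul, map_star, hS, hS, map_zero]
    exact h.ranges _ _ (fun hh => hef (hb hh))

/-- images of families -/
theorem tck_map {F : Gr} {B Q : Type} [NonUnitalCStarAlgebra B] [NonUnitalCStarAlgebra Q]
    {p : F.V → B} {S : F.Ed → B} (h : IsTCK F p S) (θ : B →⋆ₙₐ[ℂ] Q) :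
    IsTCK F (fun v => θ (p v)) (fun e => θ (S e)) where
  proj v := by
    constructor
    · show star (θ (p v)) = θ (p v)
      rw [← map_star, (h.proj v).1]
    · show θ (p v) * θ (p v) = θ (p v)
      rw [← map_mul, (h.proj v).2]
  orth v w hvw := by
    show θ (p v) * θ (p w) = 0
    rw [← map_mul, h.orth v w hvw, map_zero]
  init e := by
    show star (θ (S e)) * θ (S e) = θ (p (F.r e))
    rw [← map_star, ← map_mul, h.init]
  final e := by
    show θ (p (F.s e)) * θ (S e) = θ (S e)
    rw [← map_mul, h.final]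
  ranges e f hef := by
    show star (θ (S e)) * θ (S f) = 0
    rw [← map_star, ← map_mul, h.ranges e f hef, map_zero]

/-- the image of the family generates the quotient -/
theorem gen_map {F : Gr} {I B Q : Type} [NonUnitalCStarAlgebra I] [NonUnitalCStarAlgebra B]
    [NonUnitalCStarAlgebra Q] {p : F.V → B} {S : F.Ed → B} (κ : I →⋆ₙₐ[ℂ] B)
    (h : Gen (Set.range κ ∪ (Set.range p ∪ Set.range S))) (θ : B →⋆ₙₐ[ℂ] Q)
    (hθ : Function.Surjective θ) (h0 : ∀ x, θ (κ x) = 0) :
    Gen (Set.range (fun v => θ (p v)) ∪ Set.range (fun e => θ (S e))) := by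
  intro C hC hsub q
  obtain ⟨x, rfl⟩ := hθ q
  have hcl : IsClosed ((C.comap θ : NonUnitalStarSubalgebra ℂ B) : Set B) := by
    have hc : Continuous θ := AddMonoidHomClass.continuous_of_bound θ 1 fun y => by
      rw [one_mul]
      exact NonUnitalStarAlgHom.norm_apply_le θ y
    exact hC.preimage hc
  have hx := h (C.comap θ) hcl (by
    rintro y (⟨z, rfl⟩ | ⟨v, rfl⟩ | ⟨e, rfl⟩)
    · show θ (κ z) ∈ C
      rw [h0]
      exact zero_mem C
    · exact hsub (Or.inl ⟨v, rfl⟩)
    · exact hsub (Or.inr ⟨e, rfl⟩)) x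
  exact hx

/-- the condition on cycles passes to subgraphs -/
theorem cyc_pull {E F : Gr} (a : F.V → E.V) (b : F.Ed → E.Ed)
    (hb : Function.Injective b) (hs : ∀ e, E.s (b e) = a (F.s e))
    (hr : ∀ e, E.r (b e) = a (F.r e)) (v : F.V) (h : E.AtMostOneCycle (a v)) :
    F.AtMostOneCycle v := by
  have hreach : ∀ u w : F.V, F.Reach u w → E.Reach (a u) (a w) := by
    intro u w huw
    refine Relation.ReflTransGen.lift (p := fun v w => ∃ e : E.Ed, E.s e = v ∧ E.r e = w) a ?_
      u w huw
    rintro x y ⟨e, rfl, rfl⟩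
    exact ⟨b e, hs e, hr e⟩
  intro e f he hf hre hrf
  apply hb
  apply h (b e) (b f)
  · rw [hs, he]
  · rw [hs, hf]
  · rw [hr]
    exact hreach _ _ hre
  · rw [hr]
    exact hreach _ _ hrf

theorem t_FIN (hND : StND) (hLS : StLS) (hZN : StZN) (hQT : StQT) (hLF : StLF) : StFIN := by
  intro E A I _ _ p S ι hTCK hgen hid hcyc
  by_cases htop : nucDim I = ⊤
  · rw [htop]
    simp
  · obtain ⟨m, hm⟩ := ENat.ne_top_iff_exists.1 htop
    have hN : 0 < max 1 m := by omega
    have hI : SysAll I (Option (Fin (max 1 m))) := by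
      apply hND.1 I (max 1 m)
      rw [← hm]
      exact_mod_cast le_max_right 1 m
    have hA : SysAll A (Option (Fin (max 1 m))) := by
      apply hLS
      intro G ε hε
      obtain ⟨B, hB, β, κ, F, a, b, p', S', hβ, hκ, hβκ, hFV, hFE, ha, hb, hs, hr, hp', hS',
        hgen', happ⟩ := hLF E A I p S ι hTCK hgen hid G ε hε
      refine ⟨B, hB, β, hβ, ?_, happ⟩
      have hB' : IsTCK F p' S' := tck_pull hTCK β hβ a b ha hb hs hr p' S' hp' hS'
      refine hZN I B κ (Option (Fin (max 1 m))) none (some ⟨0, hN⟩) (by simp) hκ hI ?_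
      intro Q _ θ hθ hQ hθκ
      refine hQT F Q (fun v => θ (p' v)) (fun e => θ (S' e)) hFV hFE (tck_map hB' θ)
        (gen_map κ hgen' θ hθ hθκ) ?_
      intro v hv
      refine cyc_pull a b hb hs hr v (hcyc (a v) ?_)
      rintro ⟨x, hx⟩
      apply hv
      have h1 : κ x = p' v := by
        apply hβ
        rw [hβκ, hx, hp']
      show θ (p' v) = 0
      rw [← h1]
      exact hθκ x
    have h2 := hND.2 A (Fin (max 1 m)) hA
    rw [Fintype.card_fin] at h2
    rw [← hm]
    calc nucDim A ≤ ((max 1 m : ℕ) : ℕ∞) := h2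
      _ = max 1 (m : ℕ∞) := by
        rcases le_total 1 m with h | h
        · rw [max_eq_right h, max_eq_right (by exact_mod_cast h)]
        · rw [max_eq_left h, max_eq_left (by exact_mod_cast h), Nat.cast_one]

end Pool.Agent.Helper7_GA.G_FIN
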