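import Pool.Agent.Helper7_GA.Stm3

/-! GEN, part (2): general sets of projections from finite ones -/

set_option autoImplicit false

open scoped Matrix.Norms.L2Operator ENNReal Matrix
open Pool.Agent.W659.EC Pool.Agent.Helper7_ND

noncomputable section

namespace Pool.Agent.Helper7_GA.G_GEN2

open Classical in
theorem finite_part {E : Type} [CStarAlgebra E] (u : E) (P : Set E) (y : E)
    (hy : y ∈ NonUnitalStarAlgebra.adjoin ℂ (P ∪ {u})) :
    ∃ P0 : Finset E, (P0 : Set E) ⊆ P ∧ y ∈ StarAlgebra.adjoin ℂ ((P0 : Set E) ∪ {u}) := by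
  have mono : ∀ (A B : Finset E), A ⊆ B → ∀ z ∈ StarAlgebra.adjoin ℂ ((A : Set E) ∪ {u}),
      z ∈ StarAlgebra.adjoin ℂ ((B : Set E) ∪ {u}) := by
    intro A B hAB z hz
    exact StarAlgebra.adjoin_mono (Set.union_subset_union_left _ (Finset.coe_subset.2 hAB)) hz
  induction hy using NonUnitalStarAlgebra.adjoin_induction with
  | mem x hx =>
    rcases hx with hx | hx
    · refine ⟨{x}, by simpa using hx, StarAlgebra.subset_adjoin ℂ _ (Or.inl (by simp))⟩
    · exact ⟨∅, by simp, StarAlgebra.subset_adjoin ℂ _ (Or.inr hx)⟩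
  | add x y _ _ h1 h2 =>
    obtain ⟨A, hA, h1⟩ := h1
    obtain ⟨B, hB, h2⟩ := h2
    refine ⟨A ∪ B, ?_, add_mem (mono A _ Finset.subset_union_left _ h1)
      (mono B _ Finset.subset_union_right _ h2)⟩
    rw [Finset.coe_union]
    exact Set.union_subset hA hB
  | zero => exact ⟨∅, by simp, zero_mem _⟩
  | mul x y _ _ h1 h2 =>
    obtain ⟨A, hA, h1⟩ := h1
    obtain ⟨B, hB, h2⟩ := h2
    refine ⟨A ∪ B, ?_, mul_mem (mono A _ Finset.subset_union_left _ h1)
      (mono B _ Finset.subset_union_right _ h2)⟩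
    rw [Finset.coe_union]
    exact Set.union_subset hA hB
  | smul c x _ h1 =>
    obtain ⟨A, hA, h1⟩ := h1
    exact ⟨A, hA, SMulMemClass.smul_mem c h1⟩
  | star x _ h1 =>
    obtain ⟨A, hA, h1⟩ := h1
    exact ⟨A, hA, star_mem h1⟩

open Classical in
theorem gen_of_fin (hLS : StLS)
    (h1 : ∀ (E : Type) [CStarAlgebra E] (u : E) (P : Set E), P.Finite → star u * u = 1 →
      u * star u = 1 → (∀ p ∈ P, Prj p) →
      (∀ x ∈ conjs u P, ∀ y ∈ conjs u P, x * y = y * x) →
      (∀ S : NonUnitalStarSubalgebra ℂ E, IsClosed (S : Set E) → P ⊆ S → u ∈ S → ∀ x, x ∈ S) →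
      SysAll E (Option (Fin 1))) : StGEN := by
  intro E _ u P hu1 hu2 hP hcomm hgen
  refine hLS E (Option (Fin 1)) ?_
  intro G ε hε
  have happ : ∀ g : E, ∃ P0 : Finset E, (P0 : Set E) ⊆ P ∧
      ∃ y ∈ StarAlgebra.adjoin ℂ ((P0 : Set E) ∪ {u}), ‖y - g‖ ≤ ε := by
    intro g
    have h2 : g ∈ closure ((NonUnitalStarAlgebra.adjoin ℂ (P ∪ {u}) :
        NonUnitalStarSubalgebra ℂ E) : Set E) := by
      have h3 := hgen (NonUnitalStarAlgebra.adjoin ℂ (P ∪ {u})).topologicalClosure
        (NonUnitalStarSubalgebra.isClosed_topologicalClosure _)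
        (fun p hp => NonUnitalStarSubalgebra.le_topologicalClosure _
          (NonUnitalStarAlgebra.subset_adjoin ℂ _ (Or.inl hp)))
        (NonUnitalStarSubalgebra.le_topologicalClosure _
          (NonUnitalStarAlgebra.subset_adjoin ℂ _ (Or.inr rfl))) g
      exact h3
    obtain ⟨y, hy, hyg⟩ := Metric.mem_closure_iff.1 h2 ε hε
    obtain ⟨P0, hP0, hy2⟩ := finite_part u P y hy
    refine ⟨P0, hP0, y, hy2, ?_⟩
    rw [← dist_eq_norm, dist_comm]
    exact hyg.le
  choose Pf hPf yf hyf hyg using happ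
  let P1 : Finset E := G.biUnion Pf
  have hP1 : (P1 : Set E) ⊆ P := by
    intro x hx
    obtain ⟨g, -, hx⟩ := Finset.mem_biUnion.1 (Finset.mem_coe.1 hx)
    exact hPf g hx
  let S0 : StarSubalgebra ℂ E := StarAlgebra.adjoin ℂ ((P1 : Set E) ∪ {u})
  let T : StarSubalgebra ℂ E := S0.topologicalClosure
  have hTc : IsClosed (T : Set E) := StarSubalgebra.isClosed_topologicalClosure S0
  have hS0T : ∀ y ∈ S0, y ∈ T := fun y hy => StarSubalgebra.le_topologicalClosure S0 hy
  have hPS0 : ∀ p ∈ P1, p ∈ S0 := fun p hp =>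
    StarAlgebra.subset_adjoin ℂ _ (Or.inl (Finset.mem_coe.2 hp))
  have huS0 : u ∈ S0 := StarAlgebra.subset_adjoin ℂ _ (Or.inr rfl)
  let iB : CStarAlgebra T := StarSubalgebra.cstarAlgebra T (h_closed := hTc)
  let β : T →⋆ₙₐ[ℂ] E :=
    { toFun := fun b => (b : E)
      map_smul' := fun _ _ => rfl
      map_mul' := fun _ _ => rfl
      map_zero' := rfl
      map_add' := fun _ _ => rfl
      map_star' := fun _ => rfl }
  let u' : T := ⟨u, hS0T _ huS0⟩
  let P' : Set T := {b | (b : E) ∈ P1}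
  have hfin : P'.Finite := by
    have h2 : P' = (Subtype.val : T → E) ⁻¹' (P1 : Set E) := rfl
    rw [h2]
    exact (P1.finite_toSet).preimage (Subtype.val_injective.injOn)
  have hpow : ∀ k : ℕ, ((u' ^ k : T) : E) = u ^ k := fun k => rfl
  have hconj : ∀ x ∈ conjs u' P', (x : E) ∈ conjs u P := by
    rintro x ⟨p, hp, k, hx⟩
    refine ⟨(p : E), hP1 hp, k, ?_⟩
    rcases hx with rfl | rfl
    · left
      rfl
    · right
      rfl
  have hsys : SysAll T (Option (Fin 1)) := by
    refine h1 T u' P' hfin (Subtype.ext hu1) (Subtype.ext hu2) ?_ ?_ ?_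
    · intro p hp
      obtain ⟨h2, h3⟩ := hP _ (hP1 hp)
      exact ⟨Subtype.ext h2, Subtype.ext h3⟩
    · intro x hx y hy
      exact Subtype.ext (hcomm _ (hconj x hx) _ (hconj y hy))
    · intro S hS hPS huS x
      have h1S : (1 : T) ∈ S := by
        have h2 : star u' * u' ∈ S := mul_mem (star_mem huS) huS
        have h3 : star u' * u' = 1 := Subtype.ext hu1
        rwa [h3] at h2
      have key : ∀ y (hy : y ∈ S0), (⟨y, hS0T y hy⟩ : T) ∈ S := by
        intro y hy
        induction hy using StarAlgebra.adjoin_induction with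
        | mem y hy =>
          rcases hy with hy | hy
          · exact hPS (show ((⟨y, _⟩ : T) : E) ∈ P1 from Finset.mem_coe.1 hy)
          · have : y = u := hy
            subst this
            exact huS
        | algebraMap r =>
          have h2 : r • (1 : T) ∈ S := SMulMemClass.smul_mem r h1S
          have h3 : r • (1 : T) = (⟨algebraMap ℂ E r, hS0T _ (S0.algebraMap_mem r)⟩ : T) := by
            apply Subtype.ext
            show r • (1 : E) = algebraMap ℂ E r
            rw [Algebra.algebraMap_eq_smul_one]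
          rw [h3] at h2
          exact h2
        | add a b ha hb iha ihb => exact S.add_mem iha ihb
        | mul a b ha hb iha ihb => exact S.mul_mem iha ihb
        | star a ha iha => exact star_mem iha
      have hx : x ∈ closure (S : Set T) := by
        rw [Metric.mem_closure_iff]
        intro δ hδ
        have hx2 : (x : E) ∈ closure (S0 : Set E) :=
          (Set.ext_iff.1 (StarSubalgebra.topologicalClosure_coe S0) (x : E)).1 x.2
        obtain ⟨b, hb, hd⟩ := Metric.mem_closure_iff.1 hx2 δ hδ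
        exact ⟨⟨b, hS0T b hb⟩, key b hb, hd⟩
      rw [hS.closure_eq] at hx
      exact hx
  refine ⟨T, CStarAlgebra.toNonUnitalCStarAlgebra T, β, Subtype.val_injective, hsys, ?_⟩
  intro g hg
  have hsub : StarAlgebra.adjoin ℂ ((Pf g : Set E) ∪ {u}) ≤ S0 :=
    StarAlgebra.adjoin_mono (Set.union_subset_union_left _
      (Finset.coe_subset.2 (Finset.subset_biUnion_of_mem Pf hg)))
  exact ⟨⟨yf g, hS0T _ (hsub (hyf g))⟩, hyg g⟩

end Pool.Agent.Helper7_GA.G_GEN2
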