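import Pool.Agent.Helper7_GA.Stm3

set_option autoImplicit false

open scoped Matrix.Norms.L2Operator ENNReal Matrix
open Pool.Agent.W659.EC Pool.Agent.Helper7_ND

noncomputable section

namespace Pool.Agent.Helper7_GA.G_KR


/-- greedy choice -/
theorem greedy {X ι : Type} [TopologicalSpace X] (σ : X ≃ₜ X) (n : ℕ) (U : ι → Set X)
    (S : Finset ι) (hU : ∀ i ∈ S, IsClopen (U i))
    (hsep : ∀ i ∈ S, ∀ z ∈ U i, ∀ j : ℕ, 1 ≤ j → j < n → (σ ^ j) z ∉ U i) :
    ∃ Z : Set X, IsClopen Z ∧ (∀ z ∈ Z, ∀ j : ℕ, 1 ≤ j → j < n → (σ ^ j) z ∉ Z) ∧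
      ∀ i ∈ S, ∀ z ∈ U i, ∃ k : ℤ, (σ ^ k) z ∈ Z := by
  classical
  induction S using Finset.induction_on with
  | empty =>
    exact ⟨∅, isClopen_empty, fun z hz => absurd hz (Set.notMem_empty z),
      fun i hi => absurd hi (Finset.notMem_empty i)⟩
  | insert i S hi ih =>
    obtain ⟨Z, hZ1, hZ2, hZ3⟩ := ih (fun i' h => hU i' (Finset.mem_insert_of_mem h))
      (fun i' h => hsep i' (Finset.mem_insert_of_mem h))
    set W : Set X := ⋂ k ∈ Finset.Ioo (-(n : ℤ)) n, (σ ^ k) ⁻¹' Zᶜ with hW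
    have hWm : ∀ z, z ∈ W ↔ ∀ k : ℤ, -(n : ℤ) < k → k < n → (σ ^ k) z ∉ Z := by
      intro z
      rw [hW]
      simp only [Set.mem_iInter, Finset.mem_Ioo, Set.mem_preimage, Set.mem_compl_iff]
      constructor
      · intro h k h1 h2
        exact h k ⟨h1, h2⟩
      · intro h k hk
        exact h k hk.1 hk.2
    have hWc : IsClopen W := by
      rw [hW]
      exact isClopen_biInter_finset fun k _ => hZ1.compl.preimage (σ ^ k).continuous
    have hpos : ∀ (z : X) (j : ℕ), 1 ≤ j → j < n → z ∈ W → (σ ^ j) z ∉ Z := by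
      intro z j h1 h2 hz
      have := (hWm z).1 hz (j : ℤ) (by omega) (by omega)
      rwa [zpow_natCast] at this
    have hneg : ∀ (z : X) (j : ℕ), 1 ≤ j → j < n → (σ ^ j) z ∈ W → z ∉ Z := by
      intro z j h1 h2 hz
      have := (hWm _).1 hz (-(j : ℤ)) (by omega) (by omega)
      have e : (σ ^ (-(j : ℤ))) ((σ ^ j) z) = z := by
        have e1 : σ ^ (-(j : ℤ)) * σ ^ j = 1 := by
          rw [zpow_neg, zpow_natCast, inv_mul_cancel]
        exact congrArg (fun f : X ≃ₜ X => f z) e1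
      rwa [e] at this
    refine ⟨Z ∪ (U i ∩ W), hZ1.union ((hU i (Finset.mem_insert_self i S)).inter hWc), ?_, ?_⟩
    · rintro z (hz | ⟨hz, hzW⟩) j h1 h2 (hj | ⟨hj, hjW⟩)
      · exact hZ2 z hz j h1 h2 hj
      · exact hneg z j h1 h2 hjW hz
      · exact hpos z j h1 h2 hzW hj
      · exact hsep i (Finset.mem_insert_self i S) z hz j h1 h2 hj
    · intro i' hi' z hz
      rcases Finset.mem_insert.1 hi' with rfl | hi'
      · by_cases hzW : z ∈ W
        · refine ⟨0, Or.inr ?_⟩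
          rw [zpow_zero]
          exact ⟨hz, hzW⟩
        · rw [hWm] at hzW
          push Not at hzW
          obtain ⟨k, _, _, hk⟩ := hzW
          exact ⟨k, Or.inl hk⟩
      · obtain ⟨k, hk⟩ := hZ3 i' hi' z hz
        exact ⟨k, Or.inl hk⟩

theorem shift_pow (A : Type) [TopologicalSpace A] (j : ℕ) (x : ℤ → A) (i : ℤ) :
    ((shift A) ^ j) x i = x (i + j) := by
  induction j generalizing x with
  | zero =>
    rw [pow_zero]
    show x i = x (i + ((0 : ℕ) : ℤ))
    simp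
  | succ j ih =>
    rw [pow_succ]
    have h := ih (shift A x)
    have e : ((shift A) ^ j * shift A) x = ((shift A) ^ j) (shift A x) := rfl
    rw [e, h]
    show x (i + j + 1) = x (i + ((j + 1 : ℕ) : ℤ))
    push_cast
    rw [add_assoc]

theorem shift_zpow (A : Type) [TopologicalSpace A] (k : ℤ) (x : ℤ → A) (i : ℤ) :
    ((shift A) ^ k) x i = x (i + k) := by
  obtain ⟨j, rfl | rfl⟩ := k.eq_nat_or_neg
  · rw [zpow_natCast]
    exact shift_pow A j x i
  · have h1 : ((shift A) ^ j) (((shift A) ^ (-(j : ℤ))) x) = x := by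
      have e1 : (shift A) ^ j * (shift A) ^ (-(j : ℤ)) = 1 := by
        rw [zpow_neg, zpow_natCast, mul_inv_cancel]
      exact congrArg (fun f : (ℤ → A) ≃ₜ (ℤ → A) => f x) e1
    have h2 := congrFun h1 (i - j)
    rw [shift_pow] at h2
    have e : i - (j : ℤ) + j = i := by omega
    rw [e] at h2
    rw [h2]
    congr 1

/-- the cylinder sets -/
def cyl (A : Type) (N : ℕ) (w : Fin (N + 1) → A) : Set (ℤ → A) :=
  {x | ∀ i : Fin (N + 1), x ((i : ℕ) : ℤ) = w i}

theorem cyl_clopen (A : Type) [TopologicalSpace A] [DiscreteTopology A] (N : ℕ)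
    (w : Fin (N + 1) → A) : IsClopen (cyl A N w) := by
  have e : cyl A N w = ⋂ i : Fin (N + 1), (fun x : ℤ → A => x ((i : ℕ) : ℤ)) ⁻¹' {w i} := by
    ext x
    simp [cyl]
  rw [e]
  exact isClopen_iInter_of_finite fun i =>
    (isClopen_discrete {w i}).preimage (continuous_apply _)

theorem per_finite (A : Type) [Finite A] (N : ℕ) (hN : 0 < N) :
    {x : ℤ → A | ∀ k : ℤ, x (k + N) = x k}.Finite := by
  have hlt : ∀ k : ℤ, (k % (N : ℤ)).toNat < N := by
    intro k
    have h1 := Int.emod_nonneg k (show (N : ℤ) ≠ 0 by omega)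
    have h2 := Int.emod_lt_of_pos k (show (0 : ℤ) < N by omega)
    omega
  refine (Set.finite_range (fun (f : Fin N → A) (k : ℤ) => f ⟨(k % (N : ℤ)).toNat, hlt k⟩)).subset ?_
  intro x hx
  refine ⟨fun i => x ((i : ℕ) : ℤ), ?_⟩
  funext k
  show x (((k % (N : ℤ)).toNat : ℕ) : ℤ) = x k
  have h1 := Int.emod_nonneg k (show (N : ℤ) ≠ 0 by omega)
  rw [Int.toNat_of_nonneg h1]
  have hp : Function.Periodic x (N : ℤ) := hx
  have h2 := hp.int_mul (k / N) (k % N)
  rw [Int.cast_id] at h2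
  rw [← h2]
  congr 1
  have := Int.emod_add_mul_ediv k N
  linarith [mul_comm (k / (N : ℤ)) N]

theorem step_per {A : Type} (x : ℤ → A) (k : ℤ) (N j : ℕ) (h : ∀ i : ℕ, i + j ≤ N →
    x (k + ((i + j : ℕ) : ℤ)) = x (k + (i : ℤ))) (m : ℕ) (hm : m * j ≤ N) :
    x (k + ((m * j : ℕ) : ℤ)) = x k := by
  induction m with
  | zero => simp
  | succ m ih =>
    have e : (m + 1) * j = m * j + j := by ring
    rw [e] at hm ⊢
    rw [h (m * j) hm]
    exact ih (by omega)

theorem t_KR : StKR := by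
  intro A _ _ _ n
  classical
  set N := n.factorial with hN
  have hN0 : 0 < N := Nat.factorial_pos n
  letI : Fintype (Fin (N + 1) → A) := Fintype.ofFinite _
  set S : Finset (Fin (N + 1) → A) := Finset.univ.filter
    (fun w => ∀ j : ℕ, 1 ≤ j → j < n → ∃ (i : ℕ) (h : i + j < N + 1),
      w ⟨i + j, h⟩ ≠ w ⟨i, by omega⟩) with hS
  obtain ⟨Z, hZ1, hZ2, hZ3⟩ := greedy (shift A) n (cyl A N) S
    (fun w _ => cyl_clopen A N w) (by
      intro w hw z hz j h1 h2 hj
      rw [hS, Finset.mem_filter] at hw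
      obtain ⟨i, hi, hne⟩ := hw.2 j h1 h2
      apply hne
      have e1 := hz ⟨i + j, hi⟩
      have e2 := hj ⟨i, by omega⟩
      rw [shift_pow] at e2
      rw [← e1, ← e2]
      show z (((i + j : ℕ) : ℤ)) = z ((i : ℤ) + j)
      push_cast
      rfl)
  refine ⟨Z, hZ1, hZ2, (per_finite A N hN0).subset ?_⟩
  intro x hx k
  have h1 : ¬ (∀ j : ℕ, 1 ≤ j → j < n → ∃ (i : ℕ) (_ : i + j < N + 1),
      x (k + ((i + j : ℕ) : ℤ)) ≠ x (k + (i : ℤ))) := by
    intro hc
    have hw : (fun i : Fin (N + 1) => x (k + ((i : ℕ) : ℤ))) ∈ S := by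
      rw [hS, Finset.mem_filter]
      refine ⟨Finset.mem_univ _, fun j h1 h2 => ?_⟩
      obtain ⟨i, hi, hne⟩ := hc j h1 h2
      exact ⟨i, hi, hne⟩
    have hm : ((shift A) ^ k) x ∈ cyl A N (fun i : Fin (N + 1) => x (k + ((i : ℕ) : ℤ))) := by
      intro i
      rw [shift_zpow, add_comm]
    obtain ⟨k', hk'⟩ := hZ3 _ hw _ hm
    have e : ((shift A) ^ k') (((shift A) ^ k) x) = ((shift A) ^ (k' + k)) x := by
      rw [zpow_add]
      rfl
    rw [e] at hk'
    exact hx (k' + k) hk'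
  push Not at h1
  obtain ⟨j, hj1, hj2, h⟩ := h1
  have hdvd : j ∣ N := Nat.dvd_factorial hj1 hj2.le
  obtain ⟨m, hm⟩ := hdvd
  have h2 := step_per x k N j (fun i hi => h i (by omega)) m (by rw [hm, mul_comm])
  rw [mul_comm, ← hm] at h2
  exact h2

end Pool.Agent.Helper7_GA.G_KR
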