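import Pool.Agent.Helper7_GA.Defs

/-! # Nuclear dimension of graph C*-algebras: statements of the parts

Every part is a proposition `StX`; the file proving it is `Pool/Agent/Helper7_GA/G_X.lean` with
`theorem t_X : StX`. -/

set_option autoImplicit false

open scoped Matrix.Norms.L2Operator ENNReal Matrix
open Pool.Agent.W659.EC Pool.Agent.Helper7_ND

noncomputable section

namespace Pool.Agent.Helper7_GA

/-- the element `w ^ n * q` -/
def pw {Q : Type} [NonUnitalCStarAlgebra Q] (w q : Q) (n : ℕ) : Q := (fun x => w * x)^[n] q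

/-- the powers of `w` and of its adjoint -/
def pws {Q : Type} [NonUnitalCStarAlgebra Q] (w q : Q) : Set Q :=
  {z : Q | ∃ n : ℕ, z = pw w q n ∨ z = star (pw w q n)}

/-- there is a nonzero projection `q` whose corner `q Q q` is generated by a unitary element -/
def TameU (Q : Type) [NonUnitalCStarAlgebra Q] : Prop :=
  ∃ q w : Q, q ≠ 0 ∧ Prj q ∧ star w * w = q ∧ w * star w = q ∧
    ∀ x : Q, q * x * q ∈ closure (Submodule.span ℂ (pws w q) : Set Q)

/-- ARV: extension of completely positive contractive maps into finite-dimensional algebras -/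
def StARV : Prop :=
  ∀ (B A : Type) [NonUnitalCStarAlgebra B] [NonUnitalCStarAlgebra A] (β : B →⋆ₙₐ[ℂ] A),
    Function.Injective β → ∀ (F : FDA) (ψ : B →ₗ[ℂ] F.alg), IsCPC ψ →
    ∃ Ψ : A →ₗ[ℂ] F.alg, IsCPC Ψ ∧ ∀ b, Ψ (β b) = ψ b

/-- LS: local approximation by subalgebras -/
def StLS : Prop :=
  ∀ (A : Type) [NonUnitalCStarAlgebra A] (J : Type) [Fintype J],
    (∀ (G : Finset A) (ε : ℝ), 0 < ε → ∃ (B : Type) (_ : NonUnitalCStarAlgebra B)
      (β : B →⋆ₙₐ[ℂ] A), Function.Injective β ∧ SysAll B J ∧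
        ∀ g ∈ G, ∃ b : B, ‖β b - g‖ ≤ ε) → SysAll A J

/-- PU: partitions of unity for algebras generated by a unitary element -/
def StPU : Prop :=
  ∀ (B : Type) [NonUnitalCStarAlgebra B] (q w : B) (J : Type) [Fintype J] (i j : J), i ≠ j →
    (∀ x : B, q * x = x ∧ x * q = x) → Prj q → star w * w = q → w * star w = q →
    (∀ x : B, x ∈ closure (Submodule.span ℂ (pws w q) : Set B)) → Part B J

/-- ZN: algebras all of whose quotients (by ideals containing `I`) have such a projection -/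
def StZN : Prop :=
  ∀ (I A : Type) [NonUnitalCStarAlgebra I] [NonUnitalCStarAlgebra A] (ι : I →⋆ₙₐ[ℂ] A)
    (J : Type) [Fintype J] (i j : J), i ≠ j → IsIdeal ι → SysAll I J →
    (∀ (Q : Type) [NonUnitalCStarAlgebra Q] (θ : A →⋆ₙₐ[ℂ] Q), Function.Surjective θ →
      Nontrivial Q → (∀ x, θ (ι x) = 0) → TameU Q) → SysAll A J

/-- TERM: a finite graph in which every vertex emits an edge and lies on at most one cycle has a
cycle without exits -/
def StTERM : Prop :=
  ∀ (E : Gr) (H : Set E.V), H.Finite → H.Nonempty → (∀ v ∈ H, ∃ e, E.s e = v ∧ E.r e ∈ H) →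
    (∀ v ∈ H, E.AtMostOneCycle v) →
    ∃ (c : ℕ → E.Ed) (m : ℕ), 0 < m ∧ (∀ k, E.s (c k) ∈ H) ∧
      (∀ k, E.r (c k) = E.s (c (k + 1))) ∧ (∀ k, c (k + m) = c k) ∧
      (∀ k l, E.s (c k) = E.s (c l) → k % m = l % m) ∧
      ∀ k e, E.s e = E.s (c k) → E.r e ∈ H → e = c k

/-- the product of the `S e` along a list of edges, ending with `p v` -/
def pr {A : Type} [NonUnitalCStarAlgebra A] {E : Gr} (p : E.V → A) (S : E.Ed → A) (v : E.V) :
    List E.Ed → A
  | [] => p v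
  | e :: l => S e * pr p S v l

/-- SPAN: the products `S_α S_β^*` span a dense subspace -/
def StSPAN : Prop :=
  ∀ (E : Gr) (A : Type) [NonUnitalCStarAlgebra A] (p : E.V → A) (S : E.Ed → A), IsTCK E p S →
    Gen (Set.range p ∪ Set.range S) →
    ∀ a : A, a ∈ closure (Submodule.span ℂ {z : A | ∃ (v : E.V) (l l' : List E.Ed),
      z = pr p S v l * star (pr p S v l')} : Set A)

/-- QT: algebras generated by families of finite graphs -/
def StQT : Prop :=
  ∀ (E : Gr) (Q : Type) [NonUnitalCStarAlgebra Q] [Nontrivial Q] (p : E.V → Q) (S : E.Ed → Q),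
    Finite E.V → Finite E.Ed → IsTCK E p S → Gen (Set.range p ∪ Set.range S) →
    (∀ v, p v ≠ 0 → E.AtMostOneCycle v) → TameU Q

/-- LF: finite subgraphs -/
def StLF : Prop :=
  ∀ (E : Gr) (A I : Type) [NonUnitalCStarAlgebra A] [NonUnitalCStarAlgebra I] (p : E.V → A)
    (S : E.Ed → A) (ι : I →⋆ₙₐ[ℂ] A), IsTCK E p S → Gen (Set.range p ∪ Set.range S) →
    IsIdeal ι → ∀ (G : Finset A) (ε : ℝ), 0 < ε →
    ∃ (B : Type) (_ : NonUnitalCStarAlgebra B) (β : B →⋆ₙₐ[ℂ] A) (κ : I →⋆ₙₐ[ℂ] B) (F : Gr)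
      (a : F.V → E.V) (b : F.Ed → E.Ed) (p' : F.V → B) (S' : F.Ed → B),
      Function.Injective β ∧ IsIdeal κ ∧ (∀ x, β (κ x) = ι x) ∧ Finite F.V ∧ Finite F.Ed ∧
      Function.Injective a ∧ Function.Injective b ∧ (∀ e, E.s (b e) = a (F.s e)) ∧
      (∀ e, E.r (b e) = a (F.r e)) ∧ (∀ v, β (p' v) = p (a v)) ∧ (∀ e, β (S' e) = S (b e)) ∧
      Gen (Set.range κ ∪ (Set.range p' ∪ Set.range S')) ∧ ∀ g ∈ G, ∃ x : B, ‖β x - g‖ ≤ ε

/-- FIN: the theorem -/
def StFIN : Prop :=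
  ∀ (E : Gr) (A I : Type) [NonUnitalCStarAlgebra A] [NonUnitalCStarAlgebra I] (p : E.V → A)
    (S : E.Ed → A) (ι : I →⋆ₙₐ[ℂ] A), IsTCK E p S → Gen (Set.range p ∪ Set.range S) →
    IsIdeal ι → (∀ v, p v ∉ Set.range ι → E.AtMostOneCycle v) →
    nucDim A ≤ max 1 (nucDim I)

end Pool.Agent.Helper7_GA
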